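import Mathlib
import Pool.Agent.Lib.P0c8ca5Kp.KrP

/-!
# P0c8ca5Kk.Ka: the alternating sum of the numbers of characters, for idempotents

`kR_dvd_idem`: `Kp.kR_dvd` for an idempotent `b` of the centre on which the class sum is invertible.
`pow_mem_comm_ud`: `Kp.pow_mem_comm` with the maximality of `D` in the centralizer of `u * d`.
-/

namespace Pool.Agent.Lib.P0c8ca5.Kk

open MonoidAlgebra Bw Pool.Agent.Lib.P0c8ca5.Id Pool.Agent.Lib.P0c8ca5.Kp

set_option linter.unusedSectionVars false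

section
universe v
variable {p s : ℕ} {k : Type v} [Field k] {A : Type*} [Group A] [Fintype A]
variable [Fact p.Prime] [CharP k p] [IsAlgClosed k]

/-- the sum over the chosen representatives, for an idempotent on which the class sum of `S` is
invertible -/
theorem kR_dvd_idem {b : MonoidAlgebra k A} (hbm : b ∈ fixAlg k (⊤ : Subgroup A) ⊤)
    (hbi : b * b = b) {S : Set A} (hS : CInv S)
    (h : ∀ U : Subgroup A, NoP p U → ∀ w : ↥U, (w : A) ∈ S → ∀ M, KM (p ^ s) p M w)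
    {w : MonoidAlgebra k A} (hw : w ∈ fixAlg k (⊤ : Subgroup A) ⊤)
    (hwb : hI k S (⊤ : Subgroup A) * w * b = b) :
    ((p ^ s : ℕ) : ℤ) ∣ ∑ σ ∈ chRE p A, (-1) ^ σ.card * (kB σ b : ℤ) := by
  classical
  rcases Nat.eq_zero_or_pos s with rfl | hs
  · simp
  obtain ⟨R, _, ρ, hρs, hu, hker, hR, hdvd⟩ := exists_ring p k hs.ne'
  have hwb' : w * b ∈ fixAlg k (⊤ : Subgroup A) ⊤ := (fixAlg k (⊤ : Subgroup A) ⊤).mul_mem hw hbm
  have hKw : hI k S (⊤ : Subgroup A) * (w * b) = b := by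
    rw [← mul_assoc]
    exact hwb
  -- the lift
  let ι : k → R := fun c => (hρs c).choose
  have hι : ∀ c, ρ (ι c) = c := fun c => (hρs c).choose_spec
  let y : MonoidAlgebra R A :=
    MonoidAlgebra.ofCoeff (Finsupp.equivFunOnFinite.symm fun x => ι ((w * b).coeff x))
  have hy : ∀ g x : A, y.coeff (g * x * g⁻¹) = y.coeff x := by
    intro g x
    change ι ((w * b).coeff (g * x * g⁻¹)) = ι ((w * b).coeff x)
    rw [(mem_fixAlg.1 hwb').2 g (Subgroup.mem_top g) x]
  let z : Finset (Subgroup A) → MonoidAlgebra R A := fun σ => hq R S (sN σ) * rq (sN σ) y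
  have hz : ∀ σ, Ce (sN σ) (z σ) := fun σ => (ce_hq hS _).mul (ce_rq hy)
  have hzm : ∀ σ, mapRingHom A ρ (z σ) =
      rz (sN σ) (hI k S (⊤ : Subgroup A)) * rz (sN σ) (w * b) := by
    intro σ
    change mapRingHom A ρ (hq R S (sN σ) * rq (sN σ) y) = _
    rw [map_mul, rz_hI]
    congr 1
    · ext x
      change ρ ((hq R S (sN σ)).coeff x) = _
      rw [hq_coeff, hI_coeff]
      split_ifs
      · exact map_one ρ
      · exact map_zero ρ
    · ext x
      change ρ ((rq (sN σ) y).coeff x) = _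
      rw [rq_coeff, rz_coeff]
      split_ifs
      · exact hι _
      · exact map_zero ρ
  have hmc : ∀ σ, Ce (sN σ) (mapRingHom A ρ (z σ)) := by
    intro σ
    refine ⟨fun g hg => ?_, fun g hg y => ?_⟩
    · rw [← coeff_mapRingHom_apply', (hz σ).sp g hg, map_zero]
    · rw [← coeff_mapRingHom_apply', ← coeff_mapRingHom_apply', (hz σ).iv g hg]
  have hred : ∀ σ ∈ chRE p A, IsNilpotent (mapRingHom A ρ (z σ) - resS (sC σ : Set A) b) := by
    intro σ hσ
    obtain ⟨Q, hQ⟩ := sand_of_chE (isChE_of_mem hσ)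
    obtain ⟨-, -, hd, hdn⟩ := e_props (isChE_of_mem hσ) hbm hbi
    obtain ⟨h1, h2⟩ := rz_mul_nil hQ (NilCAux.hI_mem (k := k) hS ⊤) hwb'
    rw [hKw] at h1 h2
    have h4 : mapRingHom A ρ (z σ) - resS (sC σ : Set A) b =
        (rz (sN σ) b - resS (sC σ : Set A) b) -
          (rz (sN σ) b - rz (sN σ) (hI k S (⊤ : Subgroup A)) * rz (sN σ) (w * b)) := by
      rw [hzm]
      abel
    rw [h4]
    exact Commute.isNilpotent_sub ((ce_iff.2 hd).comm (ce_iff.2 h1)) hdn h2
  have hidn : ∀ σ ∈ chRE p A, IsNilpotent (z σ ^ 2 - z σ) := by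
    intro σ hσ
    refine nil_lift ρ hker hR ?_
    rw [map_sub, map_pow]
    obtain ⟨he, hee, -, -⟩ := e_props (isChE_of_mem hσ) hbm hbi
    have hc : Commute (mapRingHom A ρ (z σ)) (resS (sC σ : Set A) b) :=
      (hmc σ).comm (ce_iff.2 he)
    have h1 : mapRingHom A ρ (z σ) ^ 2 - mapRingHom A ρ (z σ) =
        (mapRingHom A ρ (z σ) - resS (sC σ : Set A) b) *
          (mapRingHom A ρ (z σ) + resS (sC σ : Set A) b - 1) := by
      rw [mul_sub, mul_add, sub_mul, sub_mul, hee, mul_one, pow_two, hc.eq]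
      abel
    rw [h1]
    refine Commute.isNilpotent_mul_right ?_ (hred σ hσ)
    have h2 : Commute (mapRingHom A ρ (z σ)) (mapRingHom A ρ (z σ) + resS (sC σ : Set A) b - 1) :=
      ((Commute.refl _).add_right hc).sub_right (Commute.one_right _)
    have h3 : Commute (resS (sC σ : Set A) b)
        (mapRingHom A ρ (z σ) + resS (sC σ : Set A) b - 1) :=
      (hc.symm.add_right (Commute.refl _)).sub_right (Commute.one_right _)
    exact h2.sub_left h3
  -- a common exponent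
  obtain ⟨N, hN⟩ : ∃ N : ℕ, ∀ σ ∈ chRE p A, (z σ ^ 2 - z σ) ^ N = 0 := by
    choose! n hn' using hidn
    refine ⟨∑ σ ∈ chRE p A, n σ, fun σ hσ => ?_⟩
    exact pow_eq_zero_of_le (Finset.single_le_sum (f := n) (fun _ _ => Nat.zero_le _) hσ) (hn' σ hσ)
  obtain ⟨f, hf0, hf1, hf2⟩ := exists_poly N
  have key : ∀ σ ∈ chRE p A, tq (sN σ) (fun g => (Polynomial.aeval (z σ) f).coeff g) =
      (kB σ b : R) := fun σ hσ =>
    trq_kB ρ hρs hu (isChE_of_mem hσ) hbm hbi (hz σ) (hred σ hσ) (hN σ hσ) hf1 hf2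
  have h1 : ((∑ σ ∈ chRE p A, (-1) ^ σ.card * (kB σ b : ℤ) : ℤ) : R) = 0 := by
    push_cast
    have h2 : ∀ σ ∈ chRE p A, (-1 : R) ^ σ.card * (kB σ b : R) =
        ∑ i ∈ Finset.range (f.natDegree + 1), (f.coeff i : R) *
          ((-1) ^ σ.card * tq (sN σ) (fun g => (z σ ^ i).coeff g)) := by
      intro σ hσ
      rw [← key σ hσ, tq_aeval (hz σ), Finset.mul_sum]
      exact Finset.sum_congr rfl fun i _ => by ring
    rw [Finset.sum_congr rfl h2, Finset.sum_comm]
    refine Finset.sum_eq_zero fun i _ => ?_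
    rw [← Finset.mul_sum]
    rcases i with _ | i
    · rw [hf0, Int.cast_zero, zero_mul]
    · rw [pow_zero_sum hS hR h hy i, mul_zero]
  generalize (∑ σ ∈ chRE p A, (-1) ^ σ.card * (kB σ b : ℤ) : ℤ) = n at h1
  obtain ⟨m, rfl | rfl⟩ := n.eq_nat_or_neg
  · rw [Int.cast_natCast, hdvd] at h1
    exact_mod_cast h1
  · rw [Int.cast_neg, Int.cast_natCast, neg_eq_zero, hdvd] at h1
    rw [dvd_neg]
    exact_mod_cast h1

end

section
variable {p s : ℕ} {A : Type*} [Group A] [Fact p.Prime] [Finite A]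

/-- transfer; the maximality of `D` is only needed in the centralizer of `u * d` -/
theorem pow_mem_comm_ud {D : Subgroup A} (hDp : IsPGroup p D) {u d : A} (hu : u ∈ D)
    (huc : ∀ x ∈ D, u * x = x * u) (hd : Preg p d) (hud : Commute u d)
    (hDd : D ≤ Subgroup.centralizer ({d} : Set A))
    (hmax : ∀ P : Subgroup A, IsPGroup p P → P ≤ Subgroup.centralizer ({u * d} : Set A) →
      D ≤ P → P = D) {j : ℕ}
    (hmem : u ^ j ∈
      ⁅Subgroup.centralizer ({u * d} : Set A), Subgroup.centralizer ({u * d} : Set A)⁆) :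
    u ^ j ∈ ⁅D, D⁆ := by
  classical
  let _ : Fintype A := Fintype.ofFinite A
  set C : Subgroup A := Subgroup.centralizer ({u * d} : Set A) with hC
  have hpel : Pel p u := by
    obtain ⟨n, hn⟩ := hDp ⟨u, hu⟩
    exact ⟨n, congrArg Subtype.val hn⟩
  have hp : p.Prime := Fact.out
  -- `u` and `d` are powers of `u * d`
  have hcop : Nat.Coprime (orderOf u) (orderOf d) := by
    obtain ⟨m, hm⟩ := hpel
    exact Nat.Coprime.coprime_dvd_left (orderOf_dvd_of_pow_eq_one hm)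
      (Nat.Coprime.pow_left m ((Nat.Prime.coprime_iff_not_dvd hp).2 hd))
  have hcu : ∀ x ∈ C, Commute x u := by
    intro x hx
    have h1 : Commute x (u * d) := GdAux.mem_cent.1 hx
    obtain ⟨t, ht1, ht2⟩ := Nat.chineseRemainder hcop 1 0
    have h2 : (u * d) ^ t = u := by
      rw [hud.mul_pow, pow_eq_pow_iff_modEq.2 ht1, pow_eq_pow_iff_modEq.2 ht2, pow_one, pow_zero,
        mul_one]
    rw [← h2]
    exact h1.pow_right t
  have hcd : ∀ x ∈ C, Commute x d := by
    intro x hx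
    have h1 : Commute x (u * d) := GdAux.mem_cent.1 hx
    obtain ⟨t, ht1, ht2⟩ := Nat.chineseRemainder hcop 0 1
    have h2 : (u * d) ^ t = d := by
      rw [hud.mul_pow, pow_eq_pow_iff_modEq.2 ht1, pow_eq_pow_iff_modEq.2 ht2, pow_one, pow_zero,
        one_mul]
    rw [← h2]
    exact h1.pow_right t
  have hDC : D ≤ C := by
    intro x hx
    refine GdAux.mem_cent.2 ?_
    exact (show Commute x u from (huc x hx).symm).mul_right (GdAux.mem_cent.1 (hDd hx))
  have hCd : C ≤ Subgroup.centralizer ({d} : Set A) := fun x hx => GdAux.mem_cent.2 (hcd x hx)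
  have hsyl : IsSyl p C D := GdAux.isSyl_of_max hDC hDp
    (fun P hP hPC hDP => hmax P hP hPC hDP)
  have huC : u ^ j ∈ C := C.pow_mem (hDC hu) j
  -- the transfer
  let D' : Subgroup ↥C := D.subgroupOf C
  let ϕ : ↥D' →* Abelianization ↥D' := Abelianization.of
  have hcen : ∀ g : ↥C, Commute g (⟨u ^ j, huC⟩ : ↥C) := fun g =>
    Subtype.ext ((hcu g g.2).pow_right j).eq
  have hkey : ∀ (i : ℕ) (g₀ : ↥C), g₀⁻¹ * (⟨u ^ j, huC⟩ : ↥C) ^ i * g₀ ∈ D' →
      g₀⁻¹ * (⟨u ^ j, huC⟩ : ↥C) ^ i * g₀ = (⟨u ^ j, huC⟩ : ↥C) ^ i := by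
    intro i g₀ _
    have h1 : Commute g₀ ((⟨u ^ j, huC⟩ : ↥C) ^ i) := (hcen g₀).pow_right i
    rw [mul_assoc, ← h1.eq, inv_mul_cancel_left]
  have htr := MonoidHom.transfer_eq_pow ϕ (⟨u ^ j, huC⟩ : ↥C) hkey
  have h1 : (⟨u ^ j, huC⟩ : ↥C) ∈ commutator ↥C := by
    have h3 : (commutator ↥C).map C.subtype = ⁅C, C⁆ := by
      rw [commutator_def, Subgroup.map_commutator, ← MonoidHom.range_eq_map, Subgroup.range_subtype]
    rw [← h3] at hmem
    obtain ⟨x, hx, hxu⟩ := hmem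
    have : x = ⟨u ^ j, huC⟩ := Subtype.ext hxu
    rwa [← this]
  have h2 : MonoidHom.transfer ϕ (⟨u ^ j, huC⟩ : ↥C) = 1 :=
    Abelianization.commutator_subset_ker (MonoidHom.transfer ϕ) h1
  rw [h2] at htr
  have h4 := (QuotientGroup.eq_one_iff _).1 htr.symm
  have h5 : (u ^ j) ^ D'.index ∈ ⁅D, D⁆ := by
    have h6 : ((commutator ↥D').map D'.subtype).map C.subtype = ⁅D, D⁆ := by
      have h7 : D'.map C.subtype = D := by
        rw [Subgroup.map_subgroupOf_eq_of_le hDC]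
      rw [commutator_def, Subgroup.map_commutator, ← MonoidHom.range_eq_map, Subgroup.range_subtype,
        Subgroup.map_commutator, h7]
    rw [← h6]
    exact ⟨_, ⟨_, h4, rfl⟩, rfl⟩
  have h8 : Nat.Coprime D'.index (orderOf (u ^ j)) := by
    obtain ⟨m, hm⟩ := hpel
    have hm' : (u ^ j) ^ p ^ m = 1 := by rw [← pow_mul, mul_comm, pow_mul, hm, one_pow]
    refine Nat.Coprime.coprime_dvd_right (orderOf_dvd_of_pow_eq_one hm') (Nat.Coprime.pow_right m ?_)
    rw [Nat.coprime_comm]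
    exact (Nat.Prime.coprime_iff_not_dvd hp).2 hsyl.ndvd
  obtain ⟨m, hm⟩ := exists_pow_eq_self_of_coprime h8
  rw [← hm]
  exact Subgroup.pow_mem _ h5 m

end

end Pool.Agent.Lib.P0c8ca5.Kk
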