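import Mathlib
import Pool.Agent.Lib.P0c8ca5Id.Gd
import Pool.Agent.Lib.P0c8ca5Id.Kz
import Pool.Agent.Lib.P0c8ca5R.Inf3
import Pool.Agent.Lib.P0c8ca5Ex.Defs

/-!
# Kb: class sums modulo a normal p-subgroup

`R` a normal p-subgroup of `A` (`hn : normalizer R = ⊤`), `b` a block of `kA` with the abelian
defect group `D`, `R ≤ D`, `b' = proj R b` in `k[NQ R]`.

* `proj_hI`: the image of the class sum of `y` is `m` times the class sum of the image of `y`,
  `m = mR R y` the number of the conjugates of `y` over the image of `y`;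
* `card_cls`: the class of `y` has `m` times as many elements as the class of its image;
* `cent_bar`: if `D ≥ R` is maximal among the p-subgroups of `C(y)` and `p` does not divide `m`,
  the image of `D` is maximal among the p-subgroups of the centralizer of the image of `y`;
* `unit_bar`: for `u ∈ D` there is a p-regular `d` such that the class sum of the image of `u d`
  is invertible on `b'` and the image of `D` is maximal in the centralizer.
-/

namespace Pool.Agent.Lib.P0c8ca5.Kk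

open MonoidAlgebra Bw Ex

set_option linter.unusedSectionVars false

variable {p : ℕ} {k : Type*} [Field k] {A : Type*} [Group A] [Fintype A]

/-- the number of the conjugates of `y` over the image of `y` -/
noncomputable def mR (R : Subgroup A) (y : A) : ℕ := Nat.card {x : A // IsConj y x ∧ y⁻¹ * x ∈ R}

namespace KbAux

theorem norm_mem {R : Subgroup A} (hn : Subgroup.normalizer (R : Set A) = ⊤) (x : A) :
    x ∈ Subgroup.normalizer (R : Set A) := hn ▸ Subgroup.mem_top x

/-- the image of `x` -/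
def q (R : Subgroup A) (hn : Subgroup.normalizer (R : Set A) = ⊤) (x : A) : NQ R :=
  qm R x (norm_mem hn x)

variable {R : Subgroup A} (hn : Subgroup.normalizer (R : Set A) = ⊤)

theorem q_mul (x y : A) : q R hn (x * y) = q R hn x * q R hn y := rfl

theorem q_inv (x : A) : q R hn x⁻¹ = (q R hn x)⁻¹ := rfl

theorem q_surj (w : NQ R) : ∃ x, w = q R hn x := by
  obtain ⟨x, hx, rfl⟩ := qm_surj w
  exact ⟨x, rfl⟩

theorem q_eq {x y : A} : q R hn x = q R hn y ↔ x⁻¹ * y ∈ R := qm_eq_iff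

/-- conjugates of the image are images of conjugates -/
theorem isConj_q {x y : A} : IsConj (q R hn x) (q R hn y) ↔
    ∃ z, IsConj x z ∧ q R hn z = q R hn y := by
  constructor
  · intro h
    obtain ⟨w, hw⟩ := isConj_iff.1 h
    obtain ⟨g, rfl⟩ := q_surj hn w
    exact ⟨g * x * g⁻¹, isConj_iff.2 ⟨g, rfl⟩, hw⟩
  · rintro ⟨z, hz, h⟩
    obtain ⟨g, hg⟩ := isConj_iff.1 hz
    refine isConj_iff.2 ⟨q R hn g, ?_⟩
    rw [← h, ← hg]
    rfl

/-- the number of conjugates over a conjugate of the image -/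
theorem card_fib {y z : A} (h : IsConj (q R hn y) (q R hn z)) :
    Nat.card {x : A // IsConj y x ∧ q R hn x = q R hn z} = mR R y := by
  obtain ⟨w, hw⟩ := isConj_iff.1 h
  obtain ⟨g, rfl⟩ := q_surj hn w
  symm
  unfold mR
  refine Nat.card_congr ⟨fun x => ⟨g * x.1 * g⁻¹, ?_, ?_⟩, fun x => ⟨g⁻¹ * x.1 * g, ?_, ?_⟩,
    fun x => Subtype.ext (by group), fun x => Subtype.ext (by group)⟩
  · exact x.2.1.trans (isConj_iff.2 ⟨g, rfl⟩)
  · rw [← hw]
    have h1 : q R hn y = q R hn x.1 := (q_eq hn).2 x.2.2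
    rw [h1]
    rfl
  · exact x.2.1.trans (isConj_iff.2 ⟨g⁻¹, by rw [inv_inv]⟩)
  · rw [← q_eq hn]
    have h1 : q R hn (g⁻¹ * x.1 * g) = (q R hn g)⁻¹ * q R hn x.1 * q R hn g := rfl
    rw [h1, x.2.2, ← hw]
    group

/-- the class of `y` has `m` times as many elements as the class of its image -/
theorem card_cls (y : A) : Nat.card {x : A // IsConj y x} =
    mR R y * Nat.card {w : NQ R // IsConj (q R hn y) w} := by
  classical
  have h1 : Nat.card {x : A // IsConj y x} = Nat.card (Σ w : {w : NQ R // IsConj (q R hn y) w},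
      {x : A // IsConj y x ∧ q R hn x = w.1}) := by
    refine Nat.card_congr ⟨fun x => ⟨⟨q R hn x.1, (isConj_q hn).2 ⟨x.1, x.2, rfl⟩⟩,
      ⟨x.1, x.2, rfl⟩⟩, fun s => ⟨s.2.1, s.2.2.1⟩, fun x => rfl, ?_⟩
    rintro ⟨⟨w, hw⟩, x, hx, hxw⟩
    change q R hn x = w at hxw
    subst hxw
    rfl
  rw [h1, Nat.card_sigma, Finset.sum_congr rfl (g := fun _ => mR R y)]
  · rw [Finset.sum_const, Finset.card_univ, smul_eq_mul, Nat.card_eq_fintype_card (α :=
      {w : NQ R // IsConj (q R hn y) w}), mul_comm]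
  · rintro ⟨w, hw⟩ _
    obtain ⟨z, rfl⟩ := q_surj hn w
    exact card_fib hn hw

/-- orbit and stabilizer -/
theorem card_cls_cent {G : Type*} [Group G] [Finite G] (y : G) :
    Nat.card {x : G // IsConj y x} * Nat.card (Subgroup.centralizer ({y} : Set G)) = Nat.card G := by
  have h1 : Nat.card {x : G // IsConj y x}
      = Nat.card (G ⧸ Subgroup.centralizer ({y} : Set G)) := by
    refine (Nat.card_congr (Equiv.ofBijective (fun t : G ⧸ Subgroup.centralizer ({y} : Set G) =>
      Quotient.liftOn' t (fun g => (⟨g * y * g⁻¹, isConj_iff.2 ⟨g, rfl⟩⟩ : {x : G // IsConj y x}))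
      ?_) ⟨?_, ?_⟩)).symm
    · intro a b hab
      have h2 : a⁻¹ * b ∈ Subgroup.centralizer ({y} : Set G) := QuotientGroup.leftRel_apply.1 hab
      have h3 := Subgroup.mem_centralizer_iff.1 h2 y rfl
      apply Subtype.ext
      change a * y * a⁻¹ = b * y * b⁻¹
      have h4 : b * y * b⁻¹ = a * ((a⁻¹ * b) * y) * b⁻¹ := by group
      rw [h4, ← h3]
      group
    · intro s t
      obtain ⟨a, rfl⟩ := QuotientGroup.mk_surjective s
      obtain ⟨b, rfl⟩ := QuotientGroup.mk_surjective t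
      intro hab
      have h2 : a * y * a⁻¹ = b * y * b⁻¹ := congrArg Subtype.val hab
      apply QuotientGroup.eq.2
      rw [Subgroup.mem_centralizer_iff]
      intro z hz
      rw [Set.mem_singleton_iff] at hz
      subst hz
      calc z * (a⁻¹ * b) = a⁻¹ * (a * z * a⁻¹) * b := by group
        _ = a⁻¹ * (b * z * b⁻¹) * b := by rw [h2]
        _ = a⁻¹ * b * z := by group
    · rintro ⟨x, hx⟩
      obtain ⟨g, hg⟩ := isConj_iff.1 hx
      exact ⟨QuotientGroup.mk g, Subtype.ext hg⟩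
  rw [h1]
  exact (Subgroup.card_eq_card_quotient_mul_card_subgroup _).symm

/-- the image of the class sum -/
theorem proj_hI (y : A) : proj R (hI k {x : A | IsConj y x} (⊤ : Subgroup A)) =
    (mR R y : k) • hI k {w : NQ R | IsConj (q R hn y) w} (⊤ : Subgroup (NQ R)) := by
  classical
  ext w
  obtain ⟨n, rfl⟩ := q_surj hn w
  rw [coeff_smul_apply]
  change (proj R (hI k {x : A | IsConj y x} (⊤ : Subgroup A))).coeff (qm R n (norm_mem hn n)) = _
  rw [coeff_proj, hI_coeff]
  have h1 : ∀ x : A, (if n⁻¹ * x ∈ R then (hI k {x : A | IsConj y x} (⊤ : Subgroup A)).coeff x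
      else 0) = if IsConj y x⁻¹ ∧ q R hn x⁻¹ = q R hn n⁻¹ then (1 : k) else 0 := by
    intro x
    rw [hI_coeff]
    have h2 : n⁻¹ * x ∈ R ↔ q R hn x⁻¹ = q R hn n⁻¹ := by
      rw [q_inv, q_inv, inv_inj, eq_comm, q_eq]
    by_cases h3 : n⁻¹ * x ∈ R
    · rw [if_pos h3]
      by_cases h4 : IsConj y x⁻¹
      · rw [if_pos ⟨h4, Subgroup.mem_top _⟩, if_pos ⟨h4, h2.1 h3⟩]
      · rw [if_neg (fun h => h4 h.1), if_neg (fun h => h4 h.1)]
    · rw [if_neg h3, if_neg (fun h => h3 (h2.2 h.2))]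
  rw [Finset.sum_congr rfl fun x _ => h1 x]
  rw [← Equiv.sum_comp (Equiv.inv A)]
  have h2 : ∀ x : A, (if IsConj y ((Equiv.inv A) x)⁻¹ ∧ q R hn ((Equiv.inv A) x)⁻¹ = q R hn n⁻¹
      then (1 : k) else 0) = if IsConj y x ∧ q R hn x = q R hn n⁻¹ then (1 : k) else 0 := by
    intro x
    rw [Equiv.inv_apply, inv_inv]
  rw [Finset.sum_congr rfl fun x _ => h2 x, Finset.sum_boole, smul_eq_mul]
  by_cases h3 : IsConj (q R hn y) (q R hn n⁻¹)
  · rw [if_pos ⟨h3, Subgroup.mem_top _⟩, mul_one, ← card_fib hn h3, Nat.card_eq_fintype_card,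
      Fintype.card_subtype]
  · rw [if_neg (fun h => h3 h.1), mul_zero, Finset.card_eq_zero.2, Nat.cast_zero]
    rw [Finset.filter_eq_empty_iff]
    rintro x _ ⟨h4, h5⟩
    exact h3 ((isConj_q hn).2 ⟨x, h4, h5⟩)

/-- the p-regular part as a power -/
theorem exists_pow_eq {G : Type*} [Group G] [Finite G] [Fact p.Prime] {u d : G} {n : ℕ}
    (hu : u ^ p ^ n = 1) (hud : Commute u d) (hd : Preg p d) : ∃ a : ℕ, (u * d) ^ a = d := by
  have hp := (Fact.out : p.Prime)
  have hcop : Nat.Coprime (p ^ n) (orderOf d) :=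
    Nat.Coprime.pow_left n ((Nat.Prime.coprime_iff_not_dvd hp).2 hd)
  obtain ⟨a, ha1, ha2⟩ := Nat.chineseRemainder hcop 0 1
  refine ⟨a, ?_⟩
  rw [hud.mul_pow]
  obtain ⟨c, hc⟩ := (Nat.modEq_zero_iff_dvd).1 ha1
  have h1 : u ^ a = 1 := by rw [hc, pow_mul, hu, one_pow]
  have h2 : d ^ a = d ^ 1 := pow_eq_pow_iff_modEq.2 ha2
  rw [h1, h2, one_mul, pow_one]

end KbAux

open KbAux

/-- the image of a maximal p-subgroup of the centralizer -/
theorem cent_bar [Fact p.Prime] {R D : Subgroup A} (hn : Subgroup.normalizer (R : Set A) = ⊤)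
    (hRD : R ≤ D) (hD : IsPGroup p D) {y : A} (hDy : D ≤ Subgroup.centralizer ({y} : Set A))
    (hmax : ∀ P : Subgroup A, IsPGroup p P → P ≤ Subgroup.centralizer ({y} : Set A) → D ≤ P →
      P = D) (hm : ¬ p ∣ mR R y) :
    sec D R ≤ Subgroup.centralizer ({q R hn y} : Set (NQ R)) ∧
    ∀ P : Subgroup (NQ R), IsPGroup p P → P ≤ Subgroup.centralizer ({q R hn y} : Set (NQ R)) →
      sec D R ≤ P → P = sec D R := by
  have hp := (Fact.out : p.Prime)
  refine ⟨?_, fun P hP hPc hDP => ?_⟩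
  · intro w hw
    obtain ⟨x, hx, hx', rfl⟩ := mem_sec.1 hw
    rw [Subgroup.mem_centralizer_iff]
    intro z hz
    rw [Set.mem_singleton_iff] at hz
    subst hz
    have h1 := Subgroup.mem_centralizer_iff.1 (hDy hx) y rfl
    have h2 : q R hn (y * x) = q R hn (x * y) := by rw [h1]
    exact h2
  have hsyl := Id.GdAux.isSyl_of_max hDy hD hmax
  have hc := hsyl.ndvd
  -- orders
  have h1 := card_cls_cent y
  have h2 := card_cls_cent (q R hn y)
  have h3 := card_cls hn y
  have hNtop : Nat.card A = Nat.card R * Nat.card (NQ R) := by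
    have h4 := Rk.Inf3Aux.card_secK (K := (⊤ : Subgroup A)) (R := R) le_top (le_of_eq hn.symm)
    rw [Subgroup.card_top] at h4
    rw [h4]
    congr 1
    have h5 : sec (⊤ : Subgroup A) R = ⊤ := by
      rw [eq_top_iff]
      intro w _
      obtain ⟨x, hx, rfl⟩ := qm_surj w
      exact mem_sec.2 ⟨x, Subgroup.mem_top x, hx, rfl⟩
    rw [h5, Subgroup.card_top]
  have hDN : D ≤ Subgroup.normalizer (R : Set A) := fun x _ => norm_mem hn x
  have hDcard := Rk.Inf3Aux.card_secK hRD hDN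
  have hCy : Nat.card (Subgroup.centralizer ({y} : Set A)) =
      D.relIndex (Subgroup.centralizer ({y} : Set A)) * Nat.card D := by
    have h4 := Subgroup.card_mul_index (D.subgroupOf (Subgroup.centralizer ({y} : Set A)))
    rw [Nat.card_congr (Subgroup.subgroupOfEquivOfLe hDy).toEquiv] at h4
    rw [mul_comm]
    exact h4.symm
  have hcls : 0 < Nat.card {w : NQ R // IsConj (q R hn y) w} := by
    have : Nonempty {w : NQ R // IsConj (q R hn y) w} := ⟨⟨q R hn y, IsConj.refl _⟩⟩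
    exact Nat.card_pos
  have hRpos : 0 < Nat.card R := Nat.card_pos
  -- `|C(y bar)| = m c |D bar|`
  have key : Nat.card (Subgroup.centralizer ({q R hn y} : Set (NQ R))) =
      (mR R y * D.relIndex (Subgroup.centralizer ({y} : Set A))) * Nat.card (sec D R) := by
    apply Nat.eq_of_mul_eq_mul_left (Nat.mul_pos hRpos hcls)
    calc Nat.card R * Nat.card {w : NQ R // IsConj (q R hn y) w} *
          Nat.card (Subgroup.centralizer ({q R hn y} : Set (NQ R)))
        = Nat.card R * Nat.card (NQ R) := by rw [mul_assoc, h2]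
      _ = Nat.card A := hNtop.symm
      _ = Nat.card {x : A // IsConj y x} * Nat.card (Subgroup.centralizer ({y} : Set A)) := h1.symm
      _ = _ := by
        rw [h3, hCy, hDcard]
        ring
  have hcop : Nat.Coprime (Nat.card P) (mR R y * D.relIndex (Subgroup.centralizer ({y} : Set A))) := by
    obtain ⟨n, hPn⟩ := IsPGroup.iff_card.1 hP
    rw [hPn]
    apply Nat.Coprime.pow_left
    rw [Nat.Prime.coprime_iff_not_dvd hp]
    intro h
    rcases (Nat.Prime.dvd_mul hp).1 h with h | h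
    · exact hm h
    · exact hc h
  have hdvd : Nat.card P ∣ Nat.card (sec D R) := by
    have h4 : Nat.card P ∣ Nat.card (Subgroup.centralizer ({q R hn y} : Set (NQ R))) :=
      Subgroup.card_dvd_of_le hPc
    rw [key] at h4
    exact hcop.dvd_of_dvd_mul_left h4
  exact (Subgroup.eq_of_le_of_card_ge hDP (Nat.le_of_dvd Nat.card_pos hdvd)).symm

/-- **the class sum of the image of `u d` is invertible on the image of the block** -/
theorem unit_bar [Fact p.Prime] [CharP k p] [IsAlgClosed k] {b : MonoidAlgebra k A}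
    (hb : IsBlock (⊤ : Subgroup A) b) {D : Subgroup A}
    (hD : IsDefectGroup p (⊤ : Subgroup A) b D) {R : Subgroup A}
    (hn : Subgroup.normalizer (R : Set A) = ⊤) (hRD : R ≤ D) {u : A} (hu : u ∈ D)
    (huc : ∀ x ∈ D, u * x = x * u) :
    ∃ d : A, Commute u d ∧ Preg p d ∧ D ≤ Subgroup.centralizer ({d} : Set A) ∧
      sec D R ≤ Subgroup.centralizer ({q R hn (u * d)} : Set (NQ R)) ∧
      (∀ P : Subgroup (NQ R), IsPGroup p P →
        P ≤ Subgroup.centralizer ({q R hn (u * d)} : Set (NQ R)) → sec D R ≤ P → P = sec D R) ∧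
      ∃ w ∈ fixAlg k (⊤ : Subgroup (NQ R)) ⊤,
        hI k {x : NQ R | IsConj (q R hn (u * d)) x} (⊤ : Subgroup (NQ R)) * w = proj R b := by
  obtain ⟨d, hud, hd, hDd, hmax, hnn⟩ := Id.exists_dd hb hD hu huc
  have hp := (Fact.out : p.Prime)
  have hRp : IsPGroup p R := hD.isPGroup.to_le hRD
  have hS : CInv {x : A | IsConj (u * d) x} := Id.cInv_isConj (u * d)
  obtain ⟨w, hw, hwb⟩ := (blk_nilp_or_unit hb (NilCAux.hI_mem (k := k) hS ⊤)).resolve_left hnn
  have hwb' : w * b ∈ fixAlg k (⊤ : Subgroup A) ⊤ := (fixAlg k (⊤ : Subgroup A) ⊤).mul_mem hw hb.mem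
  have hKw : hI k {x : A | IsConj (u * d) x} (⊤ : Subgroup A) * (w * b) = b := by
    rw [← mul_assoc]
    exact hwb
  have hinv : ∀ z ∈ fixAlg k (⊤ : Subgroup A) ⊤, InvBy R z := fun z hz =>
    (mem_fixAlg.1 hz).2.mono le_top
  have h1 : proj R b = (mR R (u * d) : k) •
      (hI k {x : NQ R | IsConj (q R hn (u * d)) x} (⊤ : Subgroup (NQ R)) * proj R (w * b)) := by
    rw [← smul_mul_assoc, ← proj_hI hn, ← proj_mul hRp (hinv _ (NilCAux.hI_mem (k := k) hS ⊤))
      (hinv _ hwb'), hKw]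
  have hb0 : proj R b ≠ 0 := by
    refine NilBAux.proj_ne_zero hRp (hinv b hb.mem) hb.idem ?_
    obtain ⟨x, hx, hbx⟩ := hD.br
    exact ⟨x, Subgroup.centralizer_le hRD hx, hbx⟩
  have hm0 : (mR R (u * d) : k) ≠ 0 := by
    intro h
    apply hb0
    rw [h1, h, zero_smul]
  have hm : ¬ p ∣ mR R (u * d) := fun h => hm0 ((CharP.cast_eq_zero_iff k p _).2 h)
  have hDy : D ≤ Subgroup.centralizer ({u * d} : Set A) := by
    intro x hx
    rw [Id.GdAux.mem_cent]
    exact (show Commute x u from (huc x hx).symm).mul_right (Id.GdAux.mem_cent.1 (hDd hx))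
  have hmax' : ∀ P : Subgroup A, IsPGroup p P → P ≤ Subgroup.centralizer ({u * d} : Set A) →
      D ≤ P → P = D := by
    intro P hP hPy hDP
    refine hmax P hP (fun x hx => ?_) hDP
    rw [Id.GdAux.mem_cent]
    have h2 : Commute x (u * d) := Id.GdAux.mem_cent.1 (hPy hx)
    obtain ⟨n, hn'⟩ : ∃ n : ℕ, u ^ p ^ n = 1 := by
      obtain ⟨n, hn'⟩ := hD.isPGroup ⟨u, hu⟩
      exact ⟨n, congrArg Subtype.val hn'⟩
    obtain ⟨a, ha⟩ := exists_pow_eq hn' hud hd
    rw [← ha]
    exact h2.pow_right a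
  obtain ⟨h2, h3⟩ := cent_bar hn hRD hD.isPGroup hDy hmax' hm
  refine ⟨d, hud, hd, hDd, h2, h3, (mR R (u * d) : k) • proj R (w * b), ?_, ?_⟩
  · exact (fixAlg k (⊤ : Subgroup (NQ R)) ⊤).smul_mem (NilBAux.proj_mem hwb') _
  · rw [mul_smul_comm, ← h1]

end Pool.Agent.Lib.P0c8ca5.Kk
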