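import Mathlib
import Pool.Agent.Lib.P0c8ca5Kk.Ka
import Pool.Agent.Lib.P0c8ca5Kk.Kb

/-!
# P0c8ca5Kk.Kc: the alternating sum of the numbers of characters of a quotient

`b` a block of `kA` with defect group `D`, `R ≤ D` normal in `A`, `u` in the centre of `D`: the
alternating sum for the image of `b` in `k[A/R]` is divisible by `p ^ (s + 1)` if the image of
`u ^ (p ^ s)` is not in the commutator subgroup of `D/R` (`krQ`), in particular if `D` is abelian
and `u ^ (p ^ s)` is not in `R` (`krQ_comm`).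
-/

namespace Pool.Agent.Lib.P0c8ca5.Kk

open MonoidAlgebra Bw Pool.Agent.Lib.P0c8ca5.Id Pool.Agent.Lib.P0c8ca5.Kp KbAux

set_option linter.unusedSectionVars false

section
universe v w
variable {p s : ℕ} {k : Type v} [Field k] {A : Type w} [Group A] [Fintype A]
variable [Fact p.Prime] [CharP k p] [IsAlgClosed k]

theorem krQ {b : MonoidAlgebra k A} (hb : IsBlock (⊤ : Subgroup A) b) {D : Subgroup A}
    (hD : IsDefectGroup p (⊤ : Subgroup A) b D) {R : Subgroup A}
    (hn : Subgroup.normalizer (R : Set A) = ⊤) (hRD : R ≤ D) {u : A} (hu : u ∈ D)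
    (huc : ∀ x ∈ D, u * x = x * u) (hu' : q R hn u ^ p ^ s ∉ ⁅sec D R, sec D R⁆) :
    ((p ^ (s + 1) : ℕ) : ℤ) ∣
      ∑ σ ∈ chRE p (NQ R), (-1) ^ σ.card * (kB σ (proj R b) : ℤ) := by
  classical
  obtain ⟨d, hud, hd, hDd, -, hmax, w, hw, hwb⟩ := unit_bar hb hD hn hRD hu huc
  have hRp : IsPGroup p R := hD.isPGroup.to_le hRD
  have hbi : proj R b * proj R b = proj R b := by
    rw [← proj_mul hRp (hb.invBy.mono le_top) (hb.invBy.mono le_top), hb.idem]
  have hbm : proj R b ∈ fixAlg k (⊤ : Subgroup (NQ R)) ⊤ := NilBAux.proj_mem hb.mem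
  have hDp : IsPGroup p (sec D R) := isPGroup_sec hD.isPGroup
  have huD : q R hn u ∈ sec D R := mem_sec.2 ⟨u, hu, norm_mem hn u, rfl⟩
  have hudq : Commute (q R hn u) (q R hn d) := by
    change q R hn u * q R hn d = q R hn d * q R hn u
    rw [← q_mul, ← q_mul, hud.eq]
  have hucq : ∀ x ∈ sec D R, q R hn u * x = x * q R hn u := by
    intro x hx
    obtain ⟨y, hy, hy', rfl⟩ := mem_sec.1 hx
    change q R hn u * q R hn y = q R hn y * q R hn u
    rw [← q_mul, ← q_mul, huc y hy]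
  have hqpow : ∀ (x : A) (n : ℕ), q R hn x ^ n = q R hn (x ^ n) := by
    intro x n
    induction n with
    | zero =>
      rw [pow_zero, pow_zero]
      rfl
    | succ n ih => rw [pow_succ, pow_succ, ih, q_mul]
  have hq1 : q R hn 1 = 1 := rfl
  have hdq : Preg p (q R hn d) := by
    intro h
    apply hd
    refine h.trans (orderOf_dvd_of_pow_eq_one ?_)
    rw [hqpow, pow_orderOf_eq_one, hq1]
  have hDdq : sec D R ≤ Subgroup.centralizer ({q R hn d} : Set (NQ R)) := by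
    intro x hx
    obtain ⟨y, hy, hy', rfl⟩ := mem_sec.1 hx
    rw [GdAux.mem_cent]
    have h1 : Commute y d := GdAux.mem_cent.1 (hDd hy)
    change q R hn y * q R hn d = q R hn d * q R hn y
    rw [← q_mul, ← q_mul, h1.eq]
  have hup : Pel p (q R hn u) := by
    obtain ⟨n, hn'⟩ := hDp ⟨q R hn u, huD⟩
    exact ⟨n, congrArg Subtype.val hn'⟩
  have hG : Gs p (s + 1) (q R hn u * q R hn d) := Gs_of hudq hup hdq fun j hj =>
    dvd_of_pow_mem hDp huD hu' (pow_mem_comm_ud hDp huD hucq hdq hudq hDdq hmax hj)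
  refine kR_dvd_idem hbm hbi (Id.cInv_isConj (q R hn u * q R hn d)) (fun U hU w hw M => ?_) hw ?_
  · obtain ⟨g, hg⟩ := isConj_iff.1 (show IsConj (q R hn u * q R hn d) (w : NQ R) from hw)
    have h1 : Gs p (s + 1) (w : NQ R) := hg ▸ Gs_conj g hG
    exact KM_of_Gs ((NoP_dn U).2 hU) (Gs_sub h1) M
  · have h2 : hI k {x : NQ R | IsConj (q R hn u * q R hn d) x} (⊤ : Subgroup (NQ R)) * w
        = proj R b := hwb
    rw [h2, hbi]

theorem krQ_comm {b : MonoidAlgebra k A} (hb : IsBlock (⊤ : Subgroup A) b) {D : Subgroup A}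
    (hD : IsDefectGroup p (⊤ : Subgroup A) b D) (hab : ∀ x ∈ D, ∀ y ∈ D, x * y = y * x)
    {R : Subgroup A} (hn : Subgroup.normalizer (R : Set A) = ⊤) (hRD : R ≤ D) {u : A} (hu : u ∈ D)
    (hu' : u ^ p ^ s ∉ R) :
    ((p ^ (s + 1) : ℕ) : ℤ) ∣
      ∑ σ ∈ chRE p (NQ R), (-1) ^ σ.card * (kB σ (proj R b) : ℤ) := by
  refine krQ hb hD hn hRD hu (fun x hx => hab u hu x hx) ?_
  have h1 : ⁅sec D R, sec D R⁆ = ⊥ := by
    rw [Subgroup.commutator_eq_bot_iff_le_centralizer]
    intro x hx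
    obtain ⟨y, hy, hy', rfl⟩ := mem_sec.1 hx
    rw [Subgroup.mem_centralizer_iff]
    intro z hz
    obtain ⟨t, ht, ht', rfl⟩ := mem_sec.1 hz
    change q R hn t * q R hn y = q R hn y * q R hn t
    rw [← q_mul, ← q_mul, hab t ht y hy]
  rw [h1, Subgroup.mem_bot]
  have hqpow : ∀ (x : A) (n : ℕ), q R hn x ^ n = q R hn (x ^ n) := by
    intro x n
    induction n with
    | zero =>
      rw [pow_zero, pow_zero]
      rfl
    | succ n ih => rw [pow_succ, pow_succ, ih, q_mul]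
  have hq1 : q R hn 1 = 1 := rfl
  intro h2
  apply hu'
  rw [hqpow, ← hq1] at h2
  have h3 := (q_eq hn).1 h2.symm
  rwa [inv_one, one_mul] at h3

end

end Pool.Agent.Lib.P0c8ca5.Kk
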