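import Mathlib
import Pool.Agent.Lib.P0c8ca5Kq.Cg
import Pool.Agent.Lib.P0c8ca5Ku.KE
import Pool.Agent.Lib.P0c8ca5Ex.Fg
import Pool.Agent.Lib.P0c8ca5X.T2x

/-!
# Kk.Kh: the hypotheses of the theorem and their transport to a local subgroup

`HypK p r i n b D f`: `D` abelian, at most `p ^ r` elements `x` of `D` with `x ^ p = 1`, inertial index at most `p ^ i`, and every
`x ∈ [D, E]` (`Ku.cmD D f`) with `x ^ p = 1` is a `p ^ n`-th power in `D`.

PROOF of `dn_hypK`. `g` as in Kk.Kg (`exists_root`). `CD (cg g D) ≤ CD M ≤ U`. Root: `root_dn U` with `cj g f` (a block of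
`CD (cg g D) = U ⊓ CD (cg g D)`, `isBlock_cg`, `FuAux.cg_CD`). `eN_dn`: the inertial index is
`(CD (cg g D)).relIndex (U ⊓ St (cg g D) (cj g f))`, `St (cg g D) (cj g f) = cg g (St D f)`, at most the index in
`cg g (St D f)`, which is `eN D f`. The elements of order `p`: `(cg g D).subgroupOf U` is isomorphic with `D`. `cmD`: the image of
`cmD ((cg g D).subgroupOf U) (dn U (cj g f))` in `A` is contained in `cg g (cmD D f)` (`FinAux.St_subgroupOf`); a `p ^ n`-th root in `D`, conjugated by `g`, is in `cg g D ≤ U`.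

`irX_dn`: the representations of `V.subgroupOf U` (a subgroup of the group `↥U`) and of `V` (a subgroup of `A`) are the same
(`MulEquiv` `Subgroup.subgroupOfEquivOfLe`); for `V = U` compare `gap_transport`. `kap_dn`: `normalizer ((cg g D).subgroupOf U) = (normalizer (cg g D) ⊓ U).subgroupOf U`
(here `D' = cg g D ≤ U`), `CD (D'.subgroupOf U) = (U ⊓ CD D').subgroupOf U` (`FinAux.CD_subgroupOf`), `FinAux.dn_resS`, `irX_dn`.
-/

set_option autoImplicit false
set_option linter.unusedSectionVars false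

namespace Pool.Agent.Lib.P0c8ca5.Kk

open MonoidAlgebra Bq Ex Kq

universe u v

/-- the hypotheses of the theorem -/
structure HypK {k : Type v} [Field k] {A : Type u} [Group A] (p r i n : ℕ)
    (b : MonoidAlgebra k A) (D : Subgroup A) (f : MonoidAlgebra k A) : Prop where
  root : Root p b D f
  rank : Nat.card {x : A // x ∈ D ∧ x ^ p = 1} ≤ p ^ r
  ine : eN D f ≤ p ^ i
  big : ∀ x ∈ Ku.cmD D f, x ^ p = 1 → ∃ y ∈ D, x = y ^ p ^ n

namespace KhAux

theorem conj_norm {A : Type u} [Group A] {D : Subgroup A} {g x : A} :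
    x ∈ Subgroup.normalizer (cg g D : Set A) ↔ g⁻¹ * x * g ∈ Subgroup.normalizer (D : Set A) := by
  rw [Subgroup.mem_normalizer_iff, Subgroup.mem_normalizer_iff]
  constructor
  · intro h y
    have h1 := h (g * y * g⁻¹)
    rw [mem_cg, mem_cg] at h1
    have e1 : g⁻¹ * (g * y * g⁻¹) * g = y := by group
    have e2 : g⁻¹ * (x * (g * y * g⁻¹) * x⁻¹) * g
        = (g⁻¹ * x * g) * y * (g⁻¹ * x * g)⁻¹ := by group
    rw [e1, e2] at h1
    exact h1
  · intro h y
    have h1 := h (g⁻¹ * y * g)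
    rw [mem_cg, mem_cg]
    have e2 : g⁻¹ * (x * y * x⁻¹) * g
        = (g⁻¹ * x * g) * (g⁻¹ * y * g) * (g⁻¹ * x * g)⁻¹ := by group
    rw [e2]
    exact h1

theorem mem_St_cg {k : Type v} [Field k] {A : Type u} [Group A] {D : Subgroup A}
    {f : MonoidAlgebra k A} {g x : A} :
    x ∈ St (cg g D) (cj g f) ↔ g⁻¹ * x * g ∈ St D f := by
  rw [mem_St, mem_St, conj_norm]
  have h1 : cj x (cj g f) = cj g f ↔ cj (g⁻¹ * x * g) f = f := by
    rw [cj_cj, mul_assoc, ← cj_cj g⁻¹]
    constructor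
    · intro h
      rw [h, cj_cj, inv_mul_cancel, cj_one_left]
    · intro h
      have h2 := congrArg (cj g) h
      rwa [cj_cj, mul_inv_cancel, cj_one_left] at h2
  rw [h1]

theorem St_cg {k : Type v} [Field k] {A : Type u} [Group A] {D : Subgroup A}
    {f : MonoidAlgebra k A} {g : A} : St (cg g D) (cj g f) = cg g (St D f) := by
  ext x
  rw [mem_St_cg, mem_cg]

theorem cmD_cg {k : Type v} [Field k] [IsAlgClosed k] {A : Type u} [Group A] [Fintype A]
    {D : Subgroup A} {f : MonoidAlgebra k A} {g : A} :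
    Ku.cmD (cg g D) (cj g f) ≤ cg g (Ku.cmD D f) := by
  rw [Ku.cmD, Subgroup.closure_le]
  rintro w ⟨x, hx, u, hu, rfl⟩
  rw [SetLike.mem_coe, mem_cg]
  rw [mem_St_cg] at hx
  rw [mem_cg] at hu
  refine Subgroup.subset_closure ⟨_, hx, _, hu, ?_⟩
  group

end KhAux

open KhAux

section
variable {p : ℕ} {k : Type v} [Field k] {A : Type u} [Group A] [Fintype A]
variable {b f c : MonoidAlgebra k A} {D M U : Subgroup A}

theorem KhAux.irX_dn' {V : Subgroup A} (hV : V ≤ U) (e : MonoidAlgebra k A) :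
    Nat.card (IrX (V.subgroupOf U) (dn U e)) = Nat.card (IrX V e) := by
  have hf : ∀ s ∈ V.subgroupOf U, (dn U e).coeff s = e.coeff (U.subtype s) := fun s _ => rfl
  have hE : ∀ s : ↥(V.subgroupOf U), ((Subgroup.subgroupOfEquivOfLe hV s : ↥V) : A)
      = U.subtype s := fun s => rfl
  exact (Nat.card_congr (Equiv.ofBijective (Xx.T2xAux.cls _ hE hf)
    (Xx.T2xAux.cls_bij _ hE hf))).symm

theorem irX_dn {V : Subgroup A} (hV : V ≤ U) {e : MonoidAlgebra k A} (_he : SuppIn V e) :
    Nat.card (IrX (V.subgroupOf U) (dn U e)) = Nat.card (IrX V e) := KhAux.irX_dn' hV e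

theorem kap_dn {D' : Subgroup A} (hD : D' ≤ U) (_hCU : CD D' ≤ U) {e : MonoidAlgebra k A} :
    kap (D'.subgroupOf U) (dn U e) =
      Nat.card (IrX (Subgroup.normalizer (D' : Set A) ⊓ U) (resS (CD D' : Set A) e)) := by
  unfold kap
  have h1 : Subgroup.normalizer ((D'.subgroupOf U : Subgroup ↥U) : Set ↥U)
      = (Subgroup.normalizer (D' : Set A) ⊓ U).subgroupOf U := by
    ext x
    rw [Subgroup.mem_subgroupOf, Subgroup.mem_inf]
    constructor
    · intro hx
      refine ⟨?_, x.2⟩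
      rw [Subgroup.mem_normalizer_iff] at hx ⊢
      intro y
      constructor
      · intro hy
        exact Subgroup.mem_subgroupOf.1 ((hx ⟨y, hD hy⟩).1 (Subgroup.mem_subgroupOf.2 hy))
      · intro hy
        have hyU : y ∈ U := by
          have h2 := U.mul_mem (U.mul_mem (U.inv_mem x.2) (hD hy)) x.2
          have h3 : (x : A)⁻¹ * ((x : A) * y * (x : A)⁻¹) * (x : A) = y := by group
          rwa [h3] at h2
        exact Subgroup.mem_subgroupOf.1 ((hx ⟨y, hyU⟩).2 (Subgroup.mem_subgroupOf.2 hy))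
    · rintro ⟨hx, -⟩
      rw [Subgroup.mem_normalizer_iff] at hx ⊢
      intro y
      rw [Subgroup.mem_subgroupOf, Subgroup.mem_subgroupOf]
      exact hx y
  have h2 : resS ((CD (D'.subgroupOf U) : Subgroup ↥U) : Set ↥U) (dn U e)
      = dn U (resS (CD D' : Set A) e) := by
    rw [FinAux.dn_resS]
    congr 1
    ext x
    rw [FinAux.CD_subgroupOf hD]
    simp only [SetLike.mem_coe, Subgroup.mem_subgroupOf, Subgroup.mem_inf, Set.mem_preimage]
    exact ⟨fun h => h.2, fun h => ⟨x.2, h⟩⟩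
  rw [h1, h2]
  exact KhAux.irX_dn' inf_le_right _

variable [Fact p.Prime] [CharP k p] [IsAlgClosed k]

theorem dn_hypK {r i n : ℕ} (h : HypK p r i n b D f) (hMU : CD M ≤ U) {g : A}
    (hg : M ≤ cg g D) (hc : IsBlock U c) (hgd : IsDefectGroup p U c (cg g D))
    (hcf : resS (CD (cg g D) : Set A) c * cj g f = cj g f) :
    HypK p r i n (dn U c) ((cg g D).subgroupOf U) (dn U (cj g f)) := by
  have hDU : cg g D ≤ U := hgd.le
  have hCU : CD (cg g D) ≤ U := (Subgroup.centralizer_le hg).trans hMU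
  have hfb : IsBlock (CD (cg g D)) (cj g f) := by
    rw [← FuAux.cg_CD]
    exact isBlock_cg h.root.fblk g
  have hfs : SuppIn U (cj g f) := fun x hx => hCU (((mem_fixAlg.1 hfb.mem).1 x hx))
  have hcom : ∀ x ∈ cg g D, ∀ y ∈ cg g D, x * y = y * x := by
    intro x hx y hy
    rw [mem_cg] at hx hy
    have h1 := h.root.com _ hx _ hy
    have e1 : x * y = g * ((g⁻¹ * x * g) * (g⁻¹ * y * g)) * g⁻¹ := by group
    rw [e1, h1]
    group
  refine ⟨?_, ?_, ?_, ?_⟩
  · refine root_dn U hc hgd hcom ?_ hcf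
    rw [inf_eq_right.2 hCU]
    exact hfb
  · refine le_trans ?_ h.rank
    refine Nat.card_le_card_of_injective (fun x => ⟨g⁻¹ * (x.1 : A) * g, ?_, ?_⟩) ?_
    · have h1 := Subgroup.mem_subgroupOf.1 x.2.1
      exact mem_cg.1 h1
    · have h2 : ((x.1 : ↥U) : A) ^ p = 1 := congrArg Subtype.val x.2.2
      have e1 : (g⁻¹ * ((x.1 : ↥U) : A) * g) ^ p = g⁻¹ * ((x.1 : ↥U) : A) ^ p * g := by
        have := conj_pow (a := g⁻¹) (b := ((x.1 : ↥U) : A)) (i := p)
        rwa [inv_inv] at this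
      rw [e1, h2]
      group
    · intro x y hxy
      have h3 : g⁻¹ * ((x.1 : ↥U) : A) * g = g⁻¹ * ((y.1 : ↥U) : A) * g := congrArg Subtype.val hxy
      exact Subtype.ext (Subtype.ext (mul_left_cancel (mul_right_cancel h3)))
  · rw [eN_dn U hDU hfs]
    refine le_trans ?_ h.ine
    have h1 : (CD (cg g D)).relIndex (St (cg g D) (cj g f)) = eN D f := by
      rw [St_cg, ← FuAux.cg_CD, eN, cg, cg]
      exact Subgroup.relIndex_map_map_of_injective _ _ (MulAut.conj g).injective
    rw [← h1]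
    have : (CD (cg g D)).IsFiniteRelIndex (St (cg g D) (cj g f)) :=
      Subgroup.isFiniteRelIndex_of_finiteIndex
    exact Subgroup.relIndex_le_of_le_right inf_le_right Subgroup.relIndex_ne_zero
  · intro x hx hxp
    have h1 : (x : A) ∈ Ku.cmD (cg g D) (cj g f) := by
      have hle : Ku.cmD ((cg g D).subgroupOf U) (dn U (cj g f))
          ≤ (Ku.cmD (cg g D) (cj g f)).comap U.subtype := by
        rw [Ku.cmD, Subgroup.closure_le]
        rintro w ⟨y, hy, u, hu, rfl⟩
        rw [FinAux.St_subgroupOf hDU hfs, Subgroup.mem_subgroupOf, Subgroup.mem_inf] at hy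
        exact Subgroup.subset_closure ⟨y, hy.2, u, Subgroup.mem_subgroupOf.1 hu, rfl⟩
      exact hle hx
    have h2 := cmD_cg h1
    rw [mem_cg] at h2
    have h3 : (x : A) ^ p = 1 := congrArg Subtype.val hxp
    obtain ⟨y, hy, hxy⟩ := h.big _ h2 (by
      have := conj_pow (a := g⁻¹) (b := (x : A)) (i := p)
      rw [inv_inv] at this
      rw [this, h3]
      group)
    have hy' : g * y * g⁻¹ ∈ cg g D := by
      rw [mem_cg]
      have e1 : g⁻¹ * (g * y * g⁻¹) * g = y := by group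
      rw [e1]
      exact hy
    refine ⟨⟨g * y * g⁻¹, hDU hy'⟩, Subgroup.mem_subgroupOf.2 hy', Subtype.ext ?_⟩
    rw [SubmonoidClass.coe_pow, Subgroup.coe_mk, conj_pow, ← hxy]
    group

end

end Pool.Agent.Lib.P0c8ca5.Kk
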