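import Mathlib
import Pool.Agent.Lib.P0c8ca5Kq.Dc

/-!
# Kk.Kd: the alternating sum of the numbers of characters as a sum over all chains

PROOF of `kR_chains`: the first half of the proof of `sum_kB` (P0c8ca5Kq.Dc): `exists_N`, `chS_kB`,
`Id.chS_sumE` with `t U = finrank (ctr k U ((rz U b) ^ p ^ N))`, `Id.finrank_ctr_cj`, `rz_cg`.
-/

set_option autoImplicit false
set_option linter.unusedSectionVars false

namespace Pool.Agent.Lib.P0c8ca5.Kk

open MonoidAlgebra Bq Ex Bw Kq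

section
variable {p : ℕ} {k : Type*} [Field k] {A : Type*} [Group A] [Fintype A]
variable [Fact p.Prime] [CharP k p] [IsAlgClosed k]

open Classical in
theorem kR_chains {b : MonoidAlgebra k A} (hb : b ∈ fixAlg k (⊤ : Subgroup A) ⊤)
    (hbb : b * b = b) [Fintype (Finset (Subgroup A))] :
    (Nat.card A : ℤ) * ∑ σ ∈ Id.chRE p A, (-1 : ℤ) ^ σ.card * (Id.kB σ b : ℤ) =
      ∑ σ ∈ (Finset.univ : Finset (Finset (Subgroup A))).filter (fun σ => IsCh p σ),
        (-1 : ℤ) ^ σ.card *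
          ((Nat.card (sN σ) * Nat.card (IrX (sN σ) (resS (Id.sC σ : Set A) b)) : ℕ) : ℤ) := by
  have hpp : p.Prime := Fact.out
  have hbi : InvBy (⊤ : Subgroup A) b := (mem_fixAlg.1 hb).2
  obtain ⟨N, hN⟩ := DcAux.exists_N (p := p) hb hbb
  obtain ⟨r, hr⟩ := Nat.exists_eq_succ_of_ne_zero (pow_ne_zero N hpp.ne_zero)
  have h1 := chS_kB (p := p) hb hbb hN
  have h2 := Id.chS_sumE (p := p) (fun U => (Nat.card U : ℤ) *
      (Module.finrank k ↥(Id.ctr k U ((rz U b) ^ (p ^ N))) : ℤ))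
    (fun U => (Module.finrank k ↥(Id.ctr k U ((rz U b) ^ (p ^ N))) : ℤ)) (fun U => rfl) (by
      intro g U
      change (Module.finrank k ↥(Id.ctr k (cg g U) ((rz (cg g U) b) ^ (p ^ N))) : ℤ) =
        (Module.finrank k ↥(Id.ctr k U ((rz U b) ^ (p ^ N))) : ℤ)
      rw [DcAux.rz_cg hbi, hr, ← DcAux.cj_pow', Id.finrank_ctr_cj])
  rw [h2] at h1
  rw [← h1]
  congr 1
  refine Finset.sum_congr rfl fun σ hσ => ?_
  unfold Id.kB
  rw [hN σ (Id.isChE_of_mem hσ).1]

end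

end Pool.Agent.Lib.P0c8ca5.Kk
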