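import Mathlib
import Pool.Agent.Lib.P0c8ca5Kq.Dc
import Pool.Agent.Lib.P0c8ca5V.QCor
import Pool.Agent.Lib.P0c8ca5V.TFin
import Pool.Agent.Lib.P0c8ca5R.Inf1

/-!
# Kk.Ke: the chains of the quotient by a normal p-subgroup

`Up p R τ` (`QCorAux.Up`): `τ` is a chain of p-subgroups of `N(R)` strictly containing `R`; here `N(R) = A`. The
chain of `NQ R` is `τ.image fun P => sec P R`.

`proj_rz`. PROOF: `coeff_proj` at `qm R n`; `n⁻¹ * x ∈ R ≤ U` implies `x ∈ U ↔ n ∈ U ↔ qm R n ∈ sec U R` (`qm_mem_sec_iff`).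

`irX_quo`. PROOF. `exists_N` for `A` and for `NQ R` (idempotents: the exponent can be enlarged, take the sum of the two):
`(rz (sN τ) b) ^ p ^ N = resS (sC τ) b` and `(rz (sN τ') b') ^ p ^ N = resS (sC τ') b'`, `τ'` the image, `b' = proj R b` (idempotent, central:
`proj_mul`, `TFinAux.proj_mem`). `sN τ' = sec (sN τ) R` (`QCorAux.sN_image`, `N(R) = ⊤`), so by `proj_rz` and `proj_mul`
(`R ≤ sN τ`; `rz (sN τ) b` is invariant under `R`) `resS (sC τ') b' = proj R (resS (sC τ) b)`; then `Rk.card_irr_infl` with `K = sN τ`.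
-/

set_option autoImplicit false
set_option linter.unusedSectionVars false

namespace Pool.Agent.Lib.P0c8ca5.Kk

open MonoidAlgebra Bq Ex Bw Kq QCorAux

section
variable {p : ℕ} {k : Type*} [Field k] {A : Type*} [Group A] [Fintype A]

theorem proj_rz {R U : Subgroup A} (hRU : R ≤ U) (hn : Subgroup.normalizer (R : Set A) = ⊤)
    (z : MonoidAlgebra k A) : proj R (rz U z) = rz (sec U R) (proj R z) := by
  classical
  ext w
  obtain ⟨n, hnn, rfl⟩ := qm_surj w
  rw [rz_coeff, coeff_proj, coeff_proj]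
  by_cases h : n ∈ U
  · rw [if_pos ((qm_mem_sec_iff hRU).2 h)]
    refine Finset.sum_congr rfl fun x _ => ?_
    by_cases hx : n⁻¹ * x ∈ R
    · have h2 := U.mul_mem h (hRU hx)
      rw [mul_inv_cancel_left] at h2
      rw [if_pos hx, if_pos hx, rz_coeff, if_pos h2]
    · rw [if_neg hx, if_neg hx]
  · rw [if_neg (fun h' => h ((qm_mem_sec_iff hRU).1 h'))]
    refine Finset.sum_eq_zero fun x _ => ?_
    by_cases hx : n⁻¹ * x ∈ R
    · have h2 : x ∉ U := by
        intro hxU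
        have h3 := U.mul_mem hxU (U.inv_mem (hRU hx))
        rw [mul_inv_rev, inv_inv, mul_inv_cancel_left] at h3
        exact h h3
      rw [if_pos hx, rz_coeff, if_neg h2]
    · rw [if_neg hx]

theorem proj_pow' [Fact p.Prime] [CharP k p] {R : Subgroup A} (hR : IsPGroup p R)
    {z : MonoidAlgebra k A} (hz : z ∈ fixAlg k (⊤ : Subgroup A) R) (n : ℕ) :
    proj R (z ^ n) = proj R z ^ n := by
  induction n with
  | zero => rw [pow_zero, pow_zero, proj_one]
  | succ n ih =>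
    rw [pow_succ, pow_succ, proj_mul hR, ih]
    · exact (mem_fixAlg.1 ((fixAlg k (⊤ : Subgroup A) R).pow_mem hz n)).2
    · exact (mem_fixAlg.1 hz).2

theorem idem_pow {M : Type*} [Monoid M] {e : M} (he : e * e = e) {n : ℕ} (hn : n ≠ 0) :
    e ^ n = e := by
  obtain ⟨r, rfl⟩ := Nat.exists_eq_succ_of_ne_zero hn
  exact IsIdempotentElem.pow_succ_eq r he

open Classical in
theorem irX_quo [Fact p.Prime] [CharP k p] [IsAlgClosed k] {b : MonoidAlgebra k A}
    (hb : b ∈ fixAlg k (⊤ : Subgroup A) ⊤) (hbb : b * b = b) {R : Subgroup A}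
    (hR : IsPGroup p R) (hn : Subgroup.normalizer (R : Set A) = ⊤) {τ : Finset (Subgroup A)}
    (hτ : Up p R τ) :
    Nat.card (IrX (sN (τ.image fun P => sec P R))
        (resS (Id.sC (τ.image fun P => sec P R) : Set (NQ R)) (proj R b))) =
      Nat.card (IrX (sN τ) (resS (Id.sC τ : Set A) b)) := by
  have hpp : p.Prime := Fact.out
  letI : Fintype (NQ R) := Fintype.ofFinite _
  have hb' : proj R b ∈ fixAlg k (⊤ : Subgroup (NQ R)) ⊤ := TFinAux.proj_mem hb
  have hbb' : proj R b * proj R b = proj R b := proj_idem (mem_fixAlg.1 hb).2 hbb hR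
  have hc' : IsCh p (τ.image fun P => sec P R) := isCh_sec hτ
  obtain ⟨N1, hN1⟩ := DcAux.exists_N (p := p) hb hbb
  obtain ⟨N2, hN2⟩ := DcAux.exists_N (p := p) hb' hbb'
  have e1 : (rz (sN τ) b) ^ (p ^ (N1 + N2)) = resS (Id.sC τ : Set A) b := by
    rw [pow_add, pow_mul, hN1 τ hτ.1]
    exact idem_pow (DcAux.e_idem hb hbb hτ.1) (pow_ne_zero _ hpp.ne_zero)
  have e2 : (rz (sN (τ.image fun P => sec P R)) (proj R b)) ^ (p ^ (N1 + N2)) =
      resS (Id.sC (τ.image fun P => sec P R) : Set (NQ R)) (proj R b) := by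
    rw [add_comm N1 N2, pow_add, pow_mul, hN2 _ hc']
    exact idem_pow (DcAux.e_idem hb' hbb' hc') (pow_ne_zero _ hpp.ne_zero)
  have hRs : R ≤ sN τ := by
    intro y hy
    exact NTogAux.mem_sN.2 fun P hP => Subgroup.le_normalizer ((hτ.2 P hP).1.le hy)
  have hsN : sN (τ.image fun P => sec P R) = sec (sN τ) R := by
    have h0 : Subgroup.normalizer (R : Set A) ⊓ sN τ = sN τ := by rw [hn, top_inf_eq]
    rw [sN_image hτ]
    exact congrArg (fun U => sec U R) h0
  have hinv : rz (sN τ) b ∈ fixAlg k (⊤ : Subgroup A) R := by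
    have h1 := mem_fixAlg.1 (DcAux.rz_mem' (V := sN τ) le_top hb)
    exact mem_fixAlg.2 ⟨fun x _ => Subgroup.mem_top x, h1.2.mono hRs⟩
  have e3 : resS (Id.sC (τ.image fun P => sec P R) : Set (NQ R)) (proj R b) =
      proj R (resS (Id.sC τ : Set A) b) := by
    rw [← e2, hsN, ← proj_rz hRs hn, ← proj_pow' hR hinv, e1]
  rw [e3, hsN]
  exact (Rk.card_irr_infl hRs (hn.symm ▸ le_top) hR
    (mem_fixAlg.1 (DcAux.e_mem hb hτ.1)).1).symm

end

end Pool.Agent.Lib.P0c8ca5.Kk
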