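import Mathlib
import Pool.Agent.Lib.P0c8ca5Kk.Kd
import Pool.Agent.Lib.P0c8ca5Kk.Ke

/-!
# Kk.Kf: the alternating sum for the quotient by a normal p-subgroup as a sum over chains of `A`

PROOF of `kR_quot`. `kR_chains` for the group `NQ R` and `proj R b`; the bijection of `eL_quo` (P0c8ca5V.QCor:
`isCh_sec`, `up_pre`, `image_sec_pre`, `image_pre_sec`, `card_image_sec`, `sN_image`); `irX_quo`;
`card (sN τ) = card R * card (sec (sN τ) R)` (`card_sec` or `RkAux.card_secK`), `card A = card R * card (NQ R)`. Cancel nothing: multiply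
`kR_chains` by `card R`.
-/

set_option autoImplicit false
set_option linter.unusedSectionVars false

namespace Pool.Agent.Lib.P0c8ca5.Kk

open MonoidAlgebra Bq Ex Bw Kq QCorAux

section
variable {p : ℕ} {k : Type*} [Field k] {A : Type*} [Group A] [Fintype A]

open Classical in
theorem kR_quot [Fact p.Prime] [CharP k p] [IsAlgClosed k] {b : MonoidAlgebra k A}
    (hb : b ∈ fixAlg k (⊤ : Subgroup A) ⊤) (hbb : b * b = b) {R : Subgroup A}
    (hR : IsPGroup p R) (hn : Subgroup.normalizer (R : Set A) = ⊤)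
    [Fintype (Finset (Subgroup A))] :
    (Nat.card A : ℤ) * ∑ σ ∈ Id.chRE p (NQ R), (-1 : ℤ) ^ σ.card * (Id.kB σ (proj R b) : ℤ) =
      ∑ τ ∈ (Finset.univ : Finset (Finset (Subgroup A))).filter (fun τ => Up p R τ),
        (-1 : ℤ) ^ τ.card *
          ((Nat.card (sN τ) * Nat.card (IrX (sN τ) (resS (Id.sC τ : Set A) b)) : ℕ) : ℤ) := by
  have hRm : InvBy R b := (mem_fixAlg.1 hb).2.mono le_top
  have hbi : proj R b * proj R b = proj R b := by
    rw [← proj_mul hR hRm hRm, hbb]
  have hbm : proj R b ∈ fixAlg k (⊤ : Subgroup (NQ R)) ⊤ := NilBAux.proj_mem hb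
  have : Fintype (Finset (Subgroup (NQ R))) := Fintype.ofFinite _
  have hcA : (Nat.card A : ℤ) = (Nat.card R : ℤ) * (Nat.card (NQ R) : ℤ) := by
    have h0 : (⊤ : Subgroup A) ⊓ Subgroup.normalizer (R : Set A) = ⊤ := by rw [hn, inf_top_eq]
    have h1 := card_sec (H := (⊤ : Subgroup A)) (Q := R) le_top
    rw [h0, Subgroup.card_top, TFinAux.sec_top, Subgroup.card_top] at h1
    rw [← h1]
    push_cast
    ring
  have h1 := kR_chains (p := p) hbm hbi
  rw [hcA, mul_assoc, h1, Finset.mul_sum]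
  symm
  refine Finset.sum_nbij' (fun τ => τ.image fun P => sec P R) (fun σ => σ.image (pre R))
    ?_ ?_ ?_ ?_ ?_
  · intro τ hτ
    exact Finset.mem_filter.2 ⟨Finset.mem_univ _, isCh_sec (Finset.mem_filter.1 hτ).2⟩
  · intro σ hσ
    exact Finset.mem_filter.2 ⟨Finset.mem_univ _, up_pre hR (Finset.mem_filter.1 hσ).2⟩
  · intro τ hτ
    exact image_pre_sec (p := p) (Finset.mem_filter.1 hτ).2
  · intro σ _
    exact image_sec_pre σ
  · intro τ hτ
    have h : Up p R τ := (Finset.mem_filter.1 hτ).2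
    have hQ' : R ≤ sN τ := by
      intro y hy
      exact NTogAux.mem_sN.2 fun P hP => Subgroup.le_normalizer ((h.2 P hP).1.le hy)
    have h2 := irX_quo hb hbb hR hn h
    have h3 := card_image_sec h
    have h0 : Subgroup.normalizer (R : Set A) ⊓ sN τ = sN τ := by rw [hn, top_inf_eq]
    have h0' : sN τ ⊓ Subgroup.normalizer (R : Set A) = sN τ := by rw [hn, inf_top_eq]
    have h4 := sN_image h
    rw [h0] at h4
    have h5 := card_sec (H := sN τ) (Q := R) hQ'
    rw [h0'] at h5
    rw [h3, h2, h4, ← h5]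
    push_cast
    ring

end

end Pool.Agent.Lib.P0c8ca5.Kk
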