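import Mathlib
import Pool.Agent.Lib.P0c8ca5Kq.Cd
import Pool.Agent.Lib.P0c8ca5Kq.Cf
import Pool.Agent.Lib.P0c8ca5Ku.ND
import Pool.Agent.Lib.P0c8ca5E.SmallG
import Pool.Agent.Lib.P0c8ca5Id.Tru

/-!
# Kk.Kg: the blocks of a local subgroup below `b`

`M` is a p-subgroup of `A`, `CD M ≤ U ≤ N(M)`, `c` is a block of `U` below `resS (CD M) b`.

PROOF of `exists_root`. `¬ p ∣ eN D f` by `Ku.ndvd`. `resS (CD M) b ≠ 0`, so there is a block `c₀` of `CD M` below it (if
`resS (CD M) b * c₀ = 0` for all blocks of `CD M` it is `0`), and `M ≤ cg g D` for some `g` (`exists_bel`); `D` is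
abelian, so `M ≤ CD M ≤ U`. Now `M` is a normal p-subgroup of `U`, hence `c` is supported in `CD M`: `c` and
`resS (CD M) c` are idempotents of `Z(kU)` (`resS_mul`), their difference is nilpotent (`Id.nil_sub`), so they agree
(`Kp.eq_of_nil`). So `c ∈ Z(k CD M)`; let `c₁` be a block of `CD M` with `c * c₁ ≠ 0`, so `c * c₁ = c₁` and
`resS (CD M) b * c₁ = c₁`. `exists_bel`: `g` with `Bel D f M c₁ g`, that is `M ≤ cg g D` and
`resS (CD (cg g D)) c₁ * cj g f = cj g f`. Multiplicativity (`resS_mul` for the p-group `cg g D ≤ CD M`):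
`resS (CD (cg g D)) c * cj g f = resS c * resS c₁ * cj g f = resS (c * c₁) * cj g f = cj g f`. In particular
`resS (CD (cg g D)) c ≠ 0`. `cg g D` is a defect group of `c`: let `P ≤ U` be a p-subgroup, `cg g D ≤ P`, `c` with nonzero
coefficient in `CD P`. Then `resS (CD P) b * resS (CD P) c = resS (CD P) (resS (CD M) b * c) = resS (CD P) c ≠ 0`, so
`resS (CD P) b ≠ 0`, and `P = cg g D` by the maximality of `cg g D` for `b` (`WaAux.defect_cg`, `cj g b = b`).

`exists_conj_U`. PROOF: as above `cg g' D` is a defect group of `c` in `U`; the defect groups of a block of `U` are conjugate in `U` (library).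
-/

set_option autoImplicit false
set_option linter.unusedSectionVars false

namespace Pool.Agent.Lib.P0c8ca5.Kk

open MonoidAlgebra Bq Ex Kq

namespace KgAux

/-- commuting idempotents with nilpotent difference are equal -/
theorem eq_of_nil {R : Type*} [Ring R] {c e : R} (hce : c * e = e * c) (hcc : c * c = c)
    (hee : e * e = e) (hn : IsNilpotent (c - e)) : c = e := by
  have h3 : (c - e) * (c - e) * (c - e) = c - e := by
    have h1 : (c - e) * (c - e) = c + e - (c * e + c * e) := by
      rw [sub_mul, mul_sub, mul_sub, hcc, hee, ← hce]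
      abel
    have h2 : c * e * c = c * e := by rw [hce, mul_assoc, hcc]
    have h4 : c * e * e = c * e := by rw [mul_assoc, hee]
    rw [h1, sub_mul, add_mul, add_mul, mul_sub, mul_sub, mul_sub, hcc, hee, h2, h4, ← hce]
    abel
  obtain ⟨n, hn⟩ := hn
  have key : ∀ m : ℕ, (c - e) ^ (2 * m + 1) = c - e := by
    intro m
    induction m with
    | zero => rw [mul_zero, zero_add, pow_one]
    | succ m ih =>
      have e1 : 2 * (m + 1) + 1 = 2 * m + 1 + 2 := by ring
      rw [e1, pow_add, ih, pow_two, ← mul_assoc]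
      exact h3
  have h4 : (c - e) ^ (2 * n + 1) = 0 := by
    rw [pow_add, mul_comm 2 n, pow_mul, hn, zero_pow (by norm_num), zero_mul]
  rw [key] at h4
  exact sub_eq_zero.1 h4

section
variable {p : ℕ} {k : Type*} [Field k] {A : Type*} [Group A]
variable [Fact p.Prime] [CharP k p] [IsAlgClosed k] [Fintype A]
variable {b f i c : MonoidAlgebra k A} {D M U : Subgroup A}

/-- idempotents of the centre of `kU` are supported in `C(M)` -/
theorem supp_CD (hM : IsPGroup p M) (hMU : M ≤ U) (hU : U ≤ Subgroup.normalizer (M : Set A))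
    (hc : c ∈ fixAlg k U U) (hcc : c * c = c) : resS (CD M : Set A) c = c := by
  have hcs := (mem_fixAlg.1 hc).1
  have hci := (mem_fixAlg.1 hc).2
  have he : resS (CD M : Set A) c ∈ fixAlg k U U := by
    rw [mem_fixAlg]
    constructor
    · intro x hx
      rw [coeff_resS] at hx
      split_ifs at hx with h1
      · exact hcs x hx
      · exact absurd rfl hx
    · exact JdAux.invBy_resS hci fun g hg x => Ku.NDAux.conj_CD_iff (hU hg)
  have hee : resS (CD M : Set A) c * resS (CD M : Set A) c = resS (CD M : Set A) c := by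
    rw [← resS_mul hM (hci.mono hMU) (hci.mono hMU), hcc]
  have hn : IsNilpotent (c - resS (CD M : Set A) c) := by
    refine Id.nil_sub (p := p) hMU hU hM ((fixAlg k U U).sub_mem hc he) fun x hx => ?_
    have h1 : (c - resS (CD M : Set A) c).coeff x = c.coeff x - (resS (CD M : Set A) c).coeff x :=
      rfl
    rw [h1, coeff_resS_of_mem _ (show x ∈ (CD M : Set A) from hx), sub_self]
  exact (eq_of_nil (commute_of hcs (mem_fixAlg.1 he).2) hcc hee hn).symm

/-- a block below a central idempotent -/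
theorem exists_blk {K : Subgroup A} {e : MonoidAlgebra k A} (he : e ∈ fixAlg k K K)
    (hee : e * e = e) (he0 : e ≠ 0) : ∃ c, IsBlock K c ∧ e * c = c := by
  let d : fixAlg k K K := ⟨e, he⟩
  have hd0 : d ≠ 0 := fun h => he0 (congrArg Subtype.val h)
  have hdd : d * d = d := Subtype.ext hee
  obtain ⟨f, hf, hfd⟩ := exists_prim_le k hd0 hdd
  refine ⟨f.1, isBlock_of_primIdem hf, ?_⟩
  have h1 : d * f = f := by rw [mul_comm]; exact hfd
  exact congrArg Subtype.val h1

theorem com_cg (h : Root p b D f) {g x y : A} (hx : x ∈ cg g D) (hy : y ∈ cg g D) :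
    x * y = y * x := by
  rw [mem_cg] at hx hy
  have h1 := h.com _ hx _ hy
  calc x * y = g * ((g⁻¹ * x * g) * (g⁻¹ * y * g)) * g⁻¹ := by group
    _ = g * ((g⁻¹ * y * g) * (g⁻¹ * x * g)) * g⁻¹ := by rw [h1]
    _ = y * x := by group

theorem cg_le_CD (h : Root p b D f) {g : A} (hg : M ≤ cg g D) : cg g D ≤ CD M := by
  intro x hx
  rw [Subgroup.mem_centralizer_iff]
  intro y hy
  exact com_cg h (hg hy) hx

/-- a conjugate of `D` above `M` with nonzero Brauer image of `c` is a defect group of `c` -/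
theorem dfg_of (h : Root p b D f) (hMU : CD M ≤ U)
    (hU : U ≤ Subgroup.normalizer (M : Set A)) (hc : IsBlock U c)
    (hcb : resS (CD M : Set A) b * c = c) {g : A} (hg : M ≤ cg g D)
    (hbr : resS (CD (cg g D) : Set A) c ≠ 0) : IsDefectGroup p U c (cg g D) := by
  have hDp : IsPGroup p (cg g D : Subgroup A) := isPGroup_cg h.dfg.isPGroup
  have hDU : cg g D ≤ U := (cg_le_CD h hg).trans hMU
  refine ⟨hDU, hDp, ?_, ?_⟩
  · by_contra hcon
    push Not at hcon
    apply hbr
    ext x
    rw [coeff_resS]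
    split_ifs with h1
    · exact hcon x h1
    · rfl
  · intro P hPU hP hbrP hDP
    have hb : IsDefectGroup p (⊤ : Subgroup A) b (cg g D) := by
      have h1 := WaAux.defect_cg h.dfg g
      rw [invBy_iff_cj.1 h.blk.invBy g (Subgroup.mem_top _)] at h1
      have h2 : cg g (⊤ : Subgroup A) = ⊤ := by
        rw [eq_top_iff]
        intro x _
        rw [mem_cg]
        exact Subgroup.mem_top _
      rwa [h2] at h1
    refine hb.max P le_top hP ?_ hDP
    by_contra hcon
    push Not at hcon
    obtain ⟨x, hx, hcx⟩ := hbrP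
    apply hcx
    have h1 : resS (CD P : Set A) (resS (CD M : Set A) b) = 0 := by
      ext y
      rw [coeff_resS]
      split_ifs with h2
      · rw [coeff_resS]
        split_ifs with h3
        · exact hcon y h2
        · rfl
      · rfl
    have hbi : InvBy P (resS (CD M : Set A) b) :=
      JdAux.invBy_resS (h.blk.invBy.mono le_top) fun y hy x =>
        Ku.NDAux.conj_CD_iff (hU (hPU hy))
    have h2 := resS_mul (p := p) hP hbi (hc.invBy.mono hPU)
    rw [h1, zero_mul, hcb] at h2
    rw [← coeff_resS_of_mem c (show x ∈ (CD P : Set A) from hx)]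
    change (resS (Subgroup.centralizer (P : Set A) : Set A) c).coeff x = 0
    rw [h2]
    rfl

end

end KgAux

open KgAux

section
variable {p : ℕ} {k : Type*} [Field k] {A : Type*} [Group A] [Fintype A]
variable [Fact p.Prime] [CharP k p] [IsAlgClosed k]
variable {b f i c : MonoidAlgebra k A} {D M U : Subgroup A}

theorem exists_root (h : Src p b D f i) (hM : IsPGroup p M) (hMU : CD M ≤ U)
    (hU : U ≤ Subgroup.normalizer (M : Set A)) (hc : IsBlock U c)
    (hcb : resS (CD M : Set A) b * c = c) :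
    ∃ g : A, M ≤ cg g D ∧ IsDefectGroup p U c (cg g D) ∧
      resS (CD (cg g D) : Set A) c * cj g f = cj g f := by
  have hE := Ku.ndvd h.root
  have hCN : CD M ≤ Subgroup.normalizer (M : Set A) := Subgroup.centralizer_le_normalizer _
  -- `M` is abelian
  have hMC : M ≤ CD M := by
    have he0 : resS (CD M : Set A) b ≠ 0 := by
      intro h0
      apply hc.ne_zero
      rw [← hcb, h0, zero_mul]
    obtain ⟨c₀, hc₀, hbc₀⟩ := exists_blk (CfAux.res_mem h.root.blk.mem le_rfl hCN)
      (CfAux.res_idem h.root.blk.mem h.root.blk.idem hM) he0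
    obtain ⟨g, hg⟩ := exists_bel h hE hM hc₀ hbc₀
    exact hg.1.trans (cg_le_CD h.root hg.1)
  have hMU' : M ≤ U := hMC.trans hMU
  have hcs := supp_CD hM hMU' hU hc.mem hc.idem
  have hcC : c ∈ fixAlg k (CD M) (CD M) := by
    rw [mem_fixAlg]
    refine ⟨fun x hx => ?_, hc.invBy.mono hMU⟩
    rw [← hcs, coeff_resS] at hx
    split_ifs at hx with h1
    · exact h1
    · exact absurd rfl hx
  obtain ⟨c₁, hc₁, hcc₁⟩ := exists_blk hcC hc.idem hc.ne_zero
  have hbc₁ : resS (CD M : Set A) b * c₁ = c₁ := by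
    rw [← hcc₁, ← mul_assoc, hcb]
  obtain ⟨g, hg⟩ := exists_bel h hE hM hc₁ hbc₁
  have hDC := cg_le_CD h.root hg.1
  have hDp : IsPGroup p (cg g D : Subgroup A) := isPGroup_cg h.root.dfg.isPGroup
  have hmul : resS (CD (cg g D) : Set A) c * cj g f = cj g f := by
    have h1 := resS_mul (p := p) hDp (hc.invBy.mono (hDC.trans hMU)) (hc₁.invBy.mono hDC)
    rw [hcc₁] at h1
    calc resS (CD (cg g D) : Set A) c * cj g f
        = resS (CD (cg g D) : Set A) c * (resS (CD (cg g D) : Set A) c₁ * cj g f) := by rw [hg.2]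
      _ = resS (CD (cg g D) : Set A) c₁ * cj g f := by rw [← mul_assoc, ← h1]
      _ = cj g f := hg.2
  refine ⟨g, hg.1, dfg_of h.root hMU hU hc hcb hg.1 fun h0 => ?_, hmul⟩
  rw [h0, zero_mul] at hmul
  have h1 := congrArg (cj g⁻¹) hmul
  rw [cj_inv_cj] at h1
  apply h.root.fblk.ne_zero
  rw [← h1]
  ext x
  rw [coeff_cj]
  rfl

theorem exists_conj_U (h : Src p b D f i) (hM : IsPGroup p M) (hMU : CD M ≤ U)
    (hU : U ≤ Subgroup.normalizer (M : Set A)) (hc : IsBlock U c)
    (hcb : resS (CD M : Set A) b * c = c) {g g' : A} (hg : M ≤ cg g D)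
    (hgd : IsDefectGroup p U c (cg g D)) (hg' : M ≤ cg g' D)
    (hbr : resS (CD (cg g' D) : Set A) c ≠ 0) :
    ∃ u ∈ U, cg g' D = cg u (cg g D) :=
  Hy.defect_conj_sub hc hgd (dfg_of h.root hMU hU hc hcb hg' hbr)

end

end Pool.Agent.Lib.P0c8ca5.Kk
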