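import Mathlib
import Pool.Agent.Lib.P0c8ca5Kq.Ch

/-!
# Kk.Ks: the number of the simple modules of a sum of orthogonal central idempotents
-/

set_option autoImplicit false
set_option linter.unusedSectionVars false

namespace Pool.Agent.Lib.P0c8ca5.Kk

open MonoidAlgebra Bq Ex Kq

section
variable {k : Type*} [Field k] {A : Type*} [Group A] [Fintype A]

theorem irX_add (p : ℕ) [Fact p.Prime] [CharP k p] [IsAlgClosed k] {N : Subgroup A}
    {a b : MonoidAlgebra k A} (ha : a ∈ fixAlg k N N) (hb : b ∈ fixAlg k N N) (haa : a * a = a)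
    (hbb : b * b = b) (hab : a * b = 0) :
    Nat.card (IrX N (a + b)) = Nat.card (IrX N a) + Nat.card (IrX N b) := by
  classical
  have hba : b * a = 0 := by
    rw [← commute_of (mem_fixAlg.1 ha).1 (mem_fixAlg.1 hb).2, hab]
  have hs := (fixAlg k N N).add_mem ha hb
  have hss : (a + b) * (a + b) = a + b := by
    rw [mul_add, add_mul, add_mul, haa, hbb, hab, hba, add_zero, zero_add]
  let Bl : MonoidAlgebra k A → Finset (MonoidAlgebra k A) := fun e =>
    ((finite_isBlock (k := k) N).toFinset).filter (fun c => c * e ≠ 0)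
  have hBl : ∀ e c, c ∈ Bl e ↔ IsBlock N c ∧ c * e ≠ 0 := by
    intro e c
    rw [Finset.mem_filter, Set.Finite.mem_toFinset]
    rfl
  have hmul : ∀ {e : MonoidAlgebra k A}, e ∈ fixAlg k N N → e * e = e → ∀ c ∈ Bl e, c * e = c := by
    intro e he hee c hc
    obtain ⟨h2, h3⟩ := (hBl e c).1 hc
    have h5 : e * c = c * e := commute_of (mem_fixAlg.1 he).1 h2.invBy
    rcases h2.mul_eq he hee with h4 | h4
    · exact absurd (by rw [← h5, h4]) h3
    · rw [← h5, h4]
  have e1 := card_irX_blocks (p := p) (mem_fixAlg.1 hs).1 (mem_fixAlg.1 hs).2 hss (Bl (a + b))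
    (hBl _)
  have e2 := card_irX_blocks (p := p) (mem_fixAlg.1 ha).1 (mem_fixAlg.1 ha).2 haa (Bl a) (hBl _)
  have e3 := card_irX_blocks (p := p) (mem_fixAlg.1 hb).1 (mem_fixAlg.1 hb).2 hbb (Bl b) (hBl _)
  have hdisj : Disjoint (Bl a) (Bl b) := by
    rw [Finset.disjoint_left]
    intro c hca hcb
    have h1 := hmul ha haa c hca
    have h2 := hmul hb hbb c hcb
    apply ((hBl a c).1 hca).1.ne_zero
    rw [← h2]
    nth_rw 1 [← h1]
    rw [mul_assoc, hab, mul_zero]
  have hun : Bl (a + b) = Bl a ∪ Bl b := by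
    ext c
    rw [Finset.mem_union, hBl, hBl, hBl]
    constructor
    · rintro ⟨h1, h2⟩
      by_cases h3 : c * a = 0
      · right
        refine ⟨h1, fun h4 => h2 ?_⟩
        rw [mul_add, h3, h4, add_zero]
      · exact Or.inl ⟨h1, h3⟩
    · rintro (⟨h1, h2⟩ | ⟨h1, h2⟩)
      · refine ⟨h1, fun h3 => h2 ?_⟩
        have h4 : c * (a + b) * a = 0 := by rw [h3, zero_mul]
        rwa [mul_assoc, add_mul, haa, hba, add_zero] at h4
      · refine ⟨h1, fun h3 => h2 ?_⟩
        have h4 : c * (a + b) * b = 0 := by rw [h3, zero_mul]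
        rwa [mul_assoc, add_mul, hbb, hab, zero_add] at h4
  change Nat.card (Quotient (irrInvSetoid N ⊥ (a + b))) =
    Nat.card (Quotient (irrInvSetoid N ⊥ a)) + Nat.card (Quotient (irrInvSetoid N ⊥ b))
  rw [e1, e2, e3, hun, Finset.sum_union hdisj]

theorem irX_zero (p : ℕ) [Fact p.Prime] [CharP k p] [IsAlgClosed k] {N : Subgroup A} :
    Nat.card (IrX N (0 : MonoidAlgebra k A)) = 0 := by
  have h1 := irX_add (k := k) (A := A) p (N := N) (a := 0) (b := 0) (fixAlg k N N).zero_mem
    (fixAlg k N N).zero_mem (mul_zero 0) (mul_zero 0) (mul_zero 0)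
  rw [add_zero] at h1
  omega

/-- the simple modules of a sum of orthogonal central idempotents -/
theorem irX_sum (p : ℕ) [Fact p.Prime] [CharP k p] [IsAlgClosed k] {N : Subgroup A} {ι : Type*} (S : Finset ι)
    (e : ι → MonoidAlgebra k A)
    (he : ∀ j ∈ S, e j ∈ fixAlg k N N) (hi : ∀ j ∈ S, e j * e j = e j)
    (ho : ∀ j ∈ S, ∀ j' ∈ S, j ≠ j' → e j * e j' = 0) :
    Nat.card (IrX N (∑ j ∈ S, e j)) = ∑ j ∈ S, Nat.card (IrX N (e j)) := by
  classical
  have key : ∀ T : Finset ι, T ⊆ S → (∑ j ∈ T, e j) * (∑ j ∈ T, e j) = ∑ j ∈ T, e j ∧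
      (∑ j ∈ T, e j) ∈ fixAlg k N N ∧
      Nat.card (IrX N (∑ j ∈ T, e j)) = ∑ j ∈ T, Nat.card (IrX N (e j)) := by
    intro T
    induction T using Finset.induction_on with
    | empty =>
      intro _
      rw [Finset.sum_empty, Finset.sum_empty]
      exact ⟨mul_zero 0, (fixAlg k N N).zero_mem, irX_zero p⟩
    | insert j T hj ih =>
      intro hT
      obtain ⟨h1, h2, h3⟩ := ih ((Finset.subset_insert j T).trans hT)
      have hjS := hT (Finset.mem_insert_self j T)
      have h0 : e j * ∑ j ∈ T, e j = 0 := by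
        rw [Finset.mul_sum]
        refine Finset.sum_eq_zero fun j' hj' => ho j hjS j' (hT (Finset.mem_insert_of_mem hj')) ?_
        rintro rfl
        exact hj hj'
      have h0' : (∑ j ∈ T, e j) * e j = 0 := by
        rw [← commute_of (mem_fixAlg.1 (he j hjS)).1 (mem_fixAlg.1 h2).2, h0]
      rw [Finset.sum_insert hj, Finset.sum_insert hj]
      refine ⟨?_, (fixAlg k N N).add_mem (he j hjS) h2, ?_⟩
      · rw [mul_add, add_mul, add_mul, hi j hjS, h1, h0, h0', add_zero, zero_add]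
      · rw [irX_add p (he j hjS) h2 (hi j hjS) h1 h0, h3]
  exact (key S (Finset.Subset.refl S)).2.2

end

end Pool.Agent.Lib.P0c8ca5.Kk
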