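import Mathlib
import Pool.Agent.Lib.P0c8ca5Kk.Kg
import Pool.Agent.Lib.P0c8ca5Kk.Ks
import Pool.Agent.Lib.P0c8ca5Kq.Ch

/-!
# Kk.Ki: the local formula

`M` a p-subgroup, `CD M ≤ U ≤ N(M)`, and for every block `c` of `U` below `resS (CD M) b` the number of
simple modules is the local number (hypothesis `hl`). Then
`|N(D)| |U| l(U, Br_M b) = ∑_(g : A, M ≤ cg g D) |N(cg g D) ⊓ U| l(N(cg g D) ⊓ U, Br_(cg g D) b)`.

PROOF. Put `e = resS (CD M) b` (an idempotent of `Z(kU)`), `Bl` = the finite set of the blocks `c` of `U`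
with `c * e ≠ 0` (then `e * c = c`), `WSumAux.sum_blocks`: `e = ∑ c ∈ Bl, c`; `irX_sum`: `|IrX U e| = ∑ c ∈ Bl, |IrX U c|`.
For `g` with `M ≤ cg g D` write `N' = N(cg g D) ⊓ U`, `C' = CD (cg g D) ≤ CD M ≤ U`: `resS C' b = resS C' e = ∑ c ∈ Bl, resS C' c`, an
orthogonal sum of central idempotents of `kN'` (`resS_mul` for the p-group `cg g D`), so `|IrX N' (resS C' b)| = ∑ c ∈ Bl, |IrX N' (resS C' c)|`
(`irX_sum`). This is `sum_loc`. `local_one`: for `c ∈ Bl` and a defect group `cg g₀ D ≥ M` of `c`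
`|N(D)| |U| |IrX (N(cg g₀ D) ⊓ U) (resS (CD (cg g₀ D)) c)| = ∑_(g : M ≤ cg g D) |N(cg g D) ⊓ U| |IrX (N(cg g D) ⊓ U) (resS (CD (cg g D)) c)|`.
By `exists_conj_U` only the `g` with `cg g D = cg u (cg g₀ D)`, `u ∈ U`, count (if `resS (CD (cg g D)) c = 0` the number of irreducible
representations below `0` is `0`), that is `g ∈ u g₀ N(D)`; for these `M ≤ cg g D` (`M = cg u M`), the term is the term of `g₀`
(conjugation by `u`: `card_irX_cj`, `cj u c = c`, `card_cg`); the number of these `g` is `|U| |N(D)| / |U ⊓ N(cg g₀ D)|` (`card_dbl`).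
-/

set_option autoImplicit false
set_option linter.unusedSectionVars false

namespace Pool.Agent.Lib.P0c8ca5.Kk

open MonoidAlgebra Bq Ex Kq

namespace KiAux

section
variable {A : Type*} [Group A] [Fintype A]

open Classical in
theorem card_cos {U Q : Subgroup A} {u₀ : A} (h0 : u₀ ∈ U) :
    (Finset.univ.filter fun u : A => u ∈ U ∧ cg u Q = cg u₀ Q).card
      = Nat.card ↥(Subgroup.normalizer (Q : Set A) ⊓ U) := by
  rw [← Fintype.card_subtype, ← Nat.card_eq_fintype_card]
  refine Nat.card_congr ⟨fun u => ⟨u₀⁻¹ * u.1, ?_, U.mul_mem (U.inv_mem h0) u.2.1⟩,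
    fun m => ⟨u₀ * m.1, U.mul_mem h0 m.2.2, ?_⟩, fun u => ?_, fun m => ?_⟩
  · show u₀⁻¹ * u.1 ∈ Subgroup.normalizer (Q : Set A)
    rw [← cg_eq_self_iff, ← cg_cg, u.2.2, cg_cg, inv_mul_cancel, cg_one]
  · rw [← cg_cg, cg_eq_self_iff.2 m.2.1]
  · exact Subtype.ext (by show u₀ * (u₀⁻¹ * u.1) = u.1; rw [mul_inv_cancel_left])
  · exact Subtype.ext (by show u₀⁻¹ * (u₀ * m.1) = m.1; rw [inv_mul_cancel_left])

open Classical in
theorem card_dbl (U D : Subgroup A) (g₀ : A) :
    (Finset.univ.filter fun g : A => ∃ u ∈ U, cg g D = cg u (cg g₀ D)).card *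
        Nat.card ↥(Subgroup.normalizer (cg g₀ D : Set A) ⊓ U)
      = Nat.card U * Nat.card (Subgroup.normalizer (D : Set A)) := by
  set r : A → A → Prop := fun u g => cg g D = cg u (cg g₀ D) with hr
  set s : Finset A := Finset.univ.filter fun u => u ∈ U with hs
  set t : Finset A := Finset.univ.filter fun g : A => ∃ u ∈ U, cg g D = cg u (cg g₀ D) with ht
  have h1 := Finset.sum_card_bipartiteAbove_eq_sum_card_bipartiteBelow (s := s) (t := t) r
  have h2 : ∀ u ∈ s, (t.bipartiteAbove r u).card = Nat.card (Subgroup.normalizer (D : Set A)) := by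
    intro u hu
    have hu' : u ∈ U := (Finset.mem_filter.1 hu).2
    have e1 : t.bipartiteAbove r u
        = Finset.univ.filter fun g : A => g ∈ (⊤ : Subgroup A) ∧ cg g D = cg (u * g₀) D := by
      ext g
      rw [Finset.mem_bipartiteAbove, Finset.mem_filter, Finset.mem_filter, ← cg_cg]
      constructor
      · rintro ⟨-, h⟩
        exact ⟨Finset.mem_univ _, Subgroup.mem_top _, h⟩
      · rintro ⟨-, -, h⟩
        exact ⟨⟨Finset.mem_univ _, u, hu', h⟩, h⟩
    rw [e1, card_cos (Subgroup.mem_top _), inf_top_eq]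
  have h3 : ∀ g ∈ t, (s.bipartiteBelow r g).card
      = Nat.card ↥(Subgroup.normalizer (cg g₀ D : Set A) ⊓ U) := by
    intro g hg
    obtain ⟨u₀, hu₀, hg'⟩ := (Finset.mem_filter.1 hg).2
    have e1 : s.bipartiteBelow r g
        = Finset.univ.filter fun u : A => u ∈ U ∧ cg u (cg g₀ D) = cg u₀ (cg g₀ D) := by
      ext u
      rw [Finset.mem_bipartiteBelow, Finset.mem_filter, Finset.mem_filter]
      constructor
      · rintro ⟨⟨-, h⟩, h'⟩
        have h' : cg g D = cg u (cg g₀ D) := h'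
        exact ⟨Finset.mem_univ _, h, by rw [← h', hg']⟩
      · rintro ⟨-, h, h'⟩
        refine ⟨⟨Finset.mem_univ _, h⟩, ?_⟩
        show cg g D = cg u (cg g₀ D)
        rw [h', hg']
    rw [e1, card_cos hu₀]
  rw [Finset.sum_congr rfl h2, Finset.sum_congr rfl h3, Finset.sum_const, Finset.sum_const,
    smul_eq_mul, smul_eq_mul] at h1
  have h4 : s.card = Nat.card U := by
    rw [hs, ← Fintype.card_subtype, ← Nat.card_eq_fintype_card]
  rw [← h1, h4]

end

section
variable {p : ℕ} {k : Type*} [Field k] {A : Type*} [Group A] [Fintype A]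
variable [Fact p.Prime] [CharP k p] [IsAlgClosed k]
variable {b f i c : MonoidAlgebra k A} {D M U : Subgroup A}

/-- the Brauer image at a p-subgroup `P ≤ U` is an idempotent of `Z(k (N(P) ⊓ U))` -/
theorem res_mem {P : Subgroup A} (hP : IsPGroup p P) (hPU : P ≤ U) (hCU : CD P ≤ U)
    (hc : c ∈ fixAlg k U U) (hcc : c * c = c) :
    resS (CD P : Set A) c ∈ fixAlg k (Subgroup.normalizer (P : Set A) ⊓ U)
      (Subgroup.normalizer (P : Set A) ⊓ U) ∧
    resS (CD P : Set A) c * resS (CD P : Set A) c = resS (CD P : Set A) c := by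
  have hci := (mem_fixAlg.1 hc).2
  refine ⟨mem_fixAlg.2 ⟨fun x hx => ?_, JdAux.invBy_resS (hci.mono inf_le_right) fun g hg x =>
    Ku.NDAux.conj_CD_iff hg.1⟩, ?_⟩
  · have h1 : x ∈ (CD P : Set A) := by
      by_contra h
      exact hx (coeff_resS_of_notMem c h)
    refine ⟨?_, hCU h1⟩
    exact Subgroup.centralizer_le_normalizer _ h1
  · rw [← resS_mul hP (hci.mono hPU) (hci.mono hPU), hcc]

end

end KiAux

open KiAux

section
variable {p : ℕ} {k : Type*} [Field k] {A : Type*} [Group A] [Fintype A]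
variable [Fact p.Prime] [CharP k p] [IsAlgClosed k]
variable {b f i c : MonoidAlgebra k A} {D M U : Subgroup A}

open Classical in
/-- the local formula for one block of `U` -/
theorem local_one (h : Src p b D f i) (hM : IsPGroup p M) (hMU : CD M ≤ U)
    (hU : U ≤ Subgroup.normalizer (M : Set A)) (hc : IsBlock U c)
    (hcb : resS (CD M : Set A) b * c = c) {g₀ : A} (hg₀ : M ≤ cg g₀ D)
    (hdg : IsDefectGroup p U c (cg g₀ D)) :
    Nat.card (Subgroup.normalizer (D : Set A)) *
        (Nat.card U * Nat.card (IrX (Subgroup.normalizer (cg g₀ D : Set A) ⊓ U)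
          (resS (CD (cg g₀ D) : Set A) c))) =
      ∑ g ∈ Finset.univ.filter (fun g : A => M ≤ cg g D),
        Nat.card ↥(Subgroup.normalizer (cg g D : Set A) ⊓ U) *
          Nat.card (IrX (Subgroup.normalizer (cg g D : Set A) ⊓ U)
            (resS (CD (cg g D) : Set A) c)) := by
  have hcU : ∀ u ∈ U, cj u c = c := fun u hu => invBy_iff_cj.1 hc.invBy u hu
  set X₀ := Nat.card (IrX (Subgroup.normalizer (cg g₀ D : Set A) ⊓ U)
    (resS (CD (cg g₀ D) : Set A) c)) with hX₀
  set t₀ := Nat.card ↥(Subgroup.normalizer (cg g₀ D : Set A) ⊓ U) * X₀ with ht₀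
  have hroot := h.root
  -- the terms at the conjugates
  have key : ∀ g : A, (∃ u ∈ U, cg g D = cg u (cg g₀ D)) →
      Nat.card ↥(Subgroup.normalizer (cg g D : Set A) ⊓ U) *
          Nat.card (IrX (Subgroup.normalizer (cg g D : Set A) ⊓ U)
            (resS (CD (cg g D) : Set A) c)) = t₀ := by
    rintro g ⟨u, hu, hgu⟩
    have hUu : cg u U = U := cg_eq_self_iff.2 (Subgroup.le_normalizer hu)
    have e1 : Subgroup.normalizer (cg g D : Set A) ⊓ U
        = cg u (Subgroup.normalizer (cg g₀ D : Set A) ⊓ U) := by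
      rw [cg_inf, cg_normalizer, hUu, ← hgu]
    have e2 : resS (CD (cg g D) : Set A) c = cj u (resS (CD (cg g₀ D) : Set A) c) := by
      rw [hgu, WaAux.CD_cg, ← FuAux.resS_cg, hcU u hu]
    have hmem := res_mem (p := p) (isPGroup_cg hroot.dfg.isPGroup) hdg.le
      ((Subgroup.centralizer_le hg₀).trans hMU) hc.mem hc.idem
    rw [e1, e2, card_cg, card_irX_cj (p := p) u hmem.1 hmem.2]
  have hsub : ∀ g : A, (∃ u ∈ U, cg g D = cg u (cg g₀ D)) → M ≤ cg g D := by
    rintro g ⟨u, hu, hgu⟩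
    have h1 : cg u M = M := cg_eq_self_iff.2 (hU hu)
    rw [hgu, ← h1]
    exact cg_le_cg hg₀
  have e1 : ∑ g ∈ Finset.univ.filter (fun g : A => M ≤ cg g D),
        Nat.card ↥(Subgroup.normalizer (cg g D : Set A) ⊓ U) *
          Nat.card (IrX (Subgroup.normalizer (cg g D : Set A) ⊓ U)
            (resS (CD (cg g D) : Set A) c))
      = ∑ g ∈ Finset.univ.filter (fun g : A => ∃ u ∈ U, cg g D = cg u (cg g₀ D)), t₀ := by
    symm
    rw [← Finset.sum_congr rfl fun g hg => key g (Finset.mem_filter.1 hg).2]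
    refine Finset.sum_subset (fun g hg => ?_) fun g hg hg' => ?_
    · rw [Finset.mem_filter] at hg ⊢
      exact ⟨hg.1, hsub g hg.2⟩
    · rw [Finset.mem_filter] at hg hg'
      have h0 : resS (CD (cg g D) : Set A) c = 0 := by
        by_contra h0
        exact hg' ⟨hg.1, exists_conj_U h hM hMU hU hc hcb hg₀ hdg hg.2 h0⟩
      rw [h0, irX_zero p, mul_zero]
  rw [e1, Finset.sum_const, smul_eq_mul, ht₀, ← mul_assoc (Finset.card _), card_dbl]
  ring

open Classical in
/-- the Brauer images of `b` as sums over the blocks of `U` -/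
theorem sum_loc (h : Src p b D f i) (hM : IsPGroup p M) (hMU : CD M ≤ U)
    (hU : U ≤ Subgroup.normalizer (M : Set A)) :
    ∃ Bl : Finset (MonoidAlgebra k A),
      (∀ c ∈ Bl, IsBlock U c ∧ resS (CD M : Set A) b * c = c) ∧
      Nat.card (IrX U (resS (CD M : Set A) b)) = ∑ c ∈ Bl, Nat.card (IrX U c) ∧
      ∀ g : A, M ≤ cg g D →
        Nat.card (IrX (Subgroup.normalizer (cg g D : Set A) ⊓ U) (resS (CD (cg g D) : Set A) b))
          = ∑ c ∈ Bl, Nat.card (IrX (Subgroup.normalizer (cg g D : Set A) ⊓ U)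
            (resS (CD (cg g D) : Set A) c)) := by
  have hroot := h.root
  have hbi : InvBy ⊤ b := hroot.blk.invBy
  set e : MonoidAlgebra k A := resS (CD M : Set A) b with he
  have hee : e * e = e := by
    rw [he, ← resS_mul hM (hbi.mono le_top) (hbi.mono le_top), hroot.blk.idem]
  have hem : e ∈ fixAlg k U U := by
    refine mem_fixAlg.2 ⟨fun x hx => ?_, JdAux.invBy_resS (hbi.mono le_top) fun g hg x =>
      Ku.NDAux.conj_CD_iff (hU hg)⟩
    have h1 : x ∈ (CD M : Set A) := by
      by_contra h1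
      exact hx (coeff_resS_of_notMem b h1)
    exact hMU h1
  let Bl : Finset (MonoidAlgebra k A) :=
    ((finite_isBlock (k := k) U).toFinset).filter (fun c => c * e ≠ 0)
  have hBl : ∀ c, c ∈ Bl ↔ IsBlock U c ∧ c * e ≠ 0 := by
    intro c
    rw [Finset.mem_filter, Set.Finite.mem_toFinset]
    rfl
  have hsum := WSumAux.sum_blocks (p := p) hem hee Bl hBl
  have hbl : ∀ c ∈ Bl, IsBlock U c ∧ e * c = c := by
    intro c hc
    obtain ⟨h1, h2⟩ := (hBl c).1 hc
    refine ⟨h1, ?_⟩
    rcases h1.mul_eq hem hee with h3 | h3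
    · exact absurd (by rw [commute_of h1.suppIn (mem_fixAlg.1 hem).2, h3]) h2
    · exact h3
  have horth : ∀ c ∈ Bl, ∀ c' ∈ Bl, c ≠ c' → c * c' = 0 := by
    intro c hc c' hc' hne
    rcases (hbl c hc).1.eq_or_mul_eq_zero (hbl c' hc').1 with h1 | h1
    · exact absurd h1 hne
    · exact h1
  refine ⟨Bl, hbl, ?_, fun g hg => ?_⟩
  · conv_lhs => rw [← hsum]
    exact irX_sum p Bl (fun c => c) (fun c hc => (hbl c hc).1.mem)
      (fun c hc => (hbl c hc).1.idem) horth
  · have hgp : IsPGroup p (cg g D : Subgroup A) := isPGroup_cg hroot.dfg.isPGroup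
    have hgM : cg g D ≤ CD M := KgAux.cg_le_CD hroot hg
    have hgU : cg g D ≤ U := hgM.trans hMU
    have hCU : CD (cg g D) ≤ U := (Subgroup.centralizer_le hg).trans hMU
    have e1 : resS (CD (cg g D) : Set A) b = ∑ c ∈ Bl, resS (CD (cg g D) : Set A) c := by
      have e2 : resS (CD (cg g D) : Set A) b = resS (CD (cg g D) : Set A) e := by
        rw [he]
        ext x
        by_cases hx : x ∈ (CD (cg g D) : Set A)
        · rw [coeff_resS_of_mem _ hx, coeff_resS_of_mem _ hx,
            coeff_resS_of_mem _ (show x ∈ (CD M : Set A) from Subgroup.centralizer_le hg hx)]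
        · rw [coeff_resS_of_notMem _ hx, coeff_resS_of_notMem _ hx]
      rw [e2]
      conv_lhs => rw [← hsum]
      ext x
      by_cases hx : x ∈ (CD (cg g D) : Set A)
      · rw [coeff_resS_of_mem _ hx, coeff_sum, coeff_sum]
        rw [Finsupp.finsetSum_apply, Finsupp.finsetSum_apply]
        exact Finset.sum_congr rfl fun c _ => (coeff_resS_of_mem _ hx).symm
      · rw [coeff_resS_of_notMem _ hx, coeff_sum, Finsupp.finsetSum_apply]
        exact (Finset.sum_eq_zero fun c _ => coeff_resS_of_notMem _ hx).symm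
    rw [e1]
    refine irX_sum p Bl (fun c => resS (CD (cg g D) : Set A) c) (fun c hc => ?_) (fun c hc => ?_)
      fun c hc c' hc' hne => ?_
    · exact (res_mem hgp hgU hCU (hbl c hc).1.mem (hbl c hc).1.idem).1
    · exact (res_mem hgp hgU hCU (hbl c hc).1.mem (hbl c hc).1.idem).2
    · show resS (CD (cg g D) : Set A) c * resS (CD (cg g D) : Set A) c' = 0
      rw [← resS_mul hgp ((hbl c hc).1.invBy.mono hgU) ((hbl c' hc').1.invBy.mono hgU),
        horth c hc c' hc' hne]
      ext x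
      rw [coeff_resS]
      split_ifs <;> rfl

open Classical in
theorem local_kap (h : Src p b D f i) (hM : IsPGroup p M) (hMU : CD M ≤ U)
    (hU : U ≤ Subgroup.normalizer (M : Set A))
    (hl : ∀ c, IsBlock U c → resS (CD M : Set A) b * c = c → ∀ g : A, M ≤ cg g D →
      IsDefectGroup p U c (cg g D) → resS (CD (cg g D) : Set A) c * cj g f = cj g f →
      Nat.card (IrX U c) = Nat.card (IrX (Subgroup.normalizer (cg g D : Set A) ⊓ U)
        (resS (CD (cg g D) : Set A) c))) :
    Nat.card (Subgroup.normalizer (D : Set A)) *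
        (Nat.card U * Nat.card (IrX U (resS (CD M : Set A) b))) =
      ∑ g ∈ Finset.univ.filter (fun g : A => M ≤ cg g D),
        Nat.card ↥(Subgroup.normalizer (cg g D : Set A) ⊓ U) *
          Nat.card (IrX (Subgroup.normalizer (cg g D : Set A) ⊓ U)
            (resS (CD (cg g D) : Set A) b)) := by
  obtain ⟨Bl, hbl, h1, h2⟩ := sum_loc h hM hMU hU
  rw [h1, Finset.mul_sum, Finset.mul_sum]
  have e1 : ∑ g ∈ Finset.univ.filter (fun g : A => M ≤ cg g D),
        Nat.card ↥(Subgroup.normalizer (cg g D : Set A) ⊓ U) *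
          Nat.card (IrX (Subgroup.normalizer (cg g D : Set A) ⊓ U)
            (resS (CD (cg g D) : Set A) b))
      = ∑ c ∈ Bl, ∑ g ∈ Finset.univ.filter (fun g : A => M ≤ cg g D),
        Nat.card ↥(Subgroup.normalizer (cg g D : Set A) ⊓ U) *
          Nat.card (IrX (Subgroup.normalizer (cg g D : Set A) ⊓ U)
            (resS (CD (cg g D) : Set A) c)) := by
    rw [Finset.sum_comm]
    refine Finset.sum_congr rfl fun g hg => ?_
    rw [h2 g (Finset.mem_filter.1 hg).2, Finset.mul_sum]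
  rw [e1]
  refine Finset.sum_congr rfl fun c hc => ?_
  obtain ⟨hc1, hc2⟩ := hbl c hc
  obtain ⟨g₀, hg₀, hdg, hr⟩ := exists_root h hM hMU hU hc1 hc2
  rw [hl c hc1 hc2 g₀ hg₀ hdg hr, local_one h hM hMU hU hc1 hc2 hg₀ hdg]

end

end Pool.Agent.Lib.P0c8ca5.Kk
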