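import Mathlib
import Pool.Agent.Lib.P0c8ca5Kk.Kf
import Pool.Agent.Lib.P0c8ca5Kk.Ki

/-!
# Kk.Kj: the alternating sum for the quotient is `l(b) - kap D b`

`R` a normal p-subgroup of `A`, `R < D`, and `l = local number` for all blocks below `b` of the stabilizers of the
nonempty chains of p-subgroups above `R` (hypothesis `hloc`).

`toggle_top`. PROOF: the involution `τ ↦ τ.erase D'` or `insert D' τ`, as in `CgAux.inner` (P0c8ca5Kq.Cg); `N(D') ⊓ sN (insert D' τ) = N(D') ⊓ sN τ` (`TogAux.sN_insert`).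

PROOF of `kR_eq`. `kR_quot`: `|A| KR = ∑_(τ, Up p R τ) (-1) ^ |τ| |sN τ| l(sN τ, Br_τ b)`. For `τ` nonempty with largest member `M` (`CgAux.exists_max`: `sC τ = CD M`, `CD M ≤ sN τ ≤ N(M)`)
`local_kap` with `U = sN τ` (`hloc`), where `M ≤ cg g D ↔ ∀ Q ∈ τ, Q ≤ cg g D`. So `|N(D)|` times the part of the nonempty chains is
`∑_g ∑_(τ nonempty, Up p R τ, all members ≤ cg g D) (-1) ^ |τ| F g τ`,
`F g τ = |N(cg g D) ⊓ sN τ| l(N(cg g D) ⊓ sN τ, Br_(cg g D) b)`; by `toggle_top` (`D' = cg g D`, `R = cg g R < cg g D`) the inner sum is `- F g ∅ = - |N(cg g D)| l(N(cg g D), Br_(cg g D) b) = - |N(D)| kap D b`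
(conjugation: `card_irX_cj`, `cj g b = b`). The sum over `g` is `- |A| |N(D)| kap D b`. The empty chain gives `|A| l(b)`
(`DcAux.sN_empty`, `sC_empty`, `resS_top`). Cancel `|A| |N(D)|`.
-/

set_option autoImplicit false
set_option linter.unusedSectionVars false

namespace Pool.Agent.Lib.P0c8ca5.Kk

open MonoidAlgebra Bq Ex Kq QCorAux

section
variable {p : ℕ} {A : Type*} [Group A]

open Classical in
theorem toggle_top [Fintype (Finset (Subgroup A))] {R D' : Subgroup A} (hD : IsPGroup p D')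
    (hRD : R < D') (hDR : D' ≤ Subgroup.normalizer (R : Set A)) (F : Subgroup A → ℤ) :
    ∑ τ ∈ (Finset.univ : Finset (Finset (Subgroup A))).filter
        (fun τ => Up p R τ ∧ ∀ Q ∈ τ, Q ≤ D'),
      (-1 : ℤ) ^ τ.card * F (Subgroup.normalizer (D' : Set A) ⊓ sN τ) = 0 := by
  have hins : ∀ τ : Finset (Subgroup A), (Up p R τ ∧ ∀ Q ∈ τ, Q ≤ D') →
      (Up p R (insert D' τ) ∧ ∀ Q ∈ insert D' τ, Q ≤ D') := by
    rintro τ ⟨⟨h1, h2⟩, h3⟩
    refine ⟨⟨⟨?_, ?_⟩, ?_⟩, ?_⟩
    · rw [Finset.coe_insert]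
      refine h1.1.insert ?_
      intro Q hQ _
      exact Or.inr (h3 Q hQ)
    · intro Q hQ
      rcases Finset.mem_insert.1 hQ with rfl | hQ
      · exact ⟨hD, (lt_of_le_of_lt bot_le hRD).ne'⟩
      · exact h1.2 Q hQ
    · intro Q hQ
      rcases Finset.mem_insert.1 hQ with rfl | hQ
      · exact ⟨hRD, hDR⟩
      · exact h2 Q hQ
    · intro Q hQ
      rcases Finset.mem_insert.1 hQ with rfl | hQ
      · exact le_rfl
      · exact h3 Q hQ
  have hera : ∀ τ : Finset (Subgroup A), (Up p R τ ∧ ∀ Q ∈ τ, Q ≤ D') →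
      (Up p R (τ.erase D') ∧ ∀ Q ∈ τ.erase D', Q ≤ D') := by
    rintro τ ⟨⟨h1, h2⟩, h3⟩
    have hsub : τ.erase D' ⊆ τ := Finset.erase_subset _ _
    exact ⟨⟨⟨h1.1.mono (by exact_mod_cast hsub), fun Q hQ => h1.2 Q (hsub hQ)⟩,
      fun Q hQ => h2 Q (hsub hQ)⟩, fun Q hQ => h3 Q (hsub hQ)⟩
  have hN : ∀ τ : Finset (Subgroup A),
      Subgroup.normalizer (D' : Set A) ⊓ sN (insert D' τ) =
        Subgroup.normalizer (D' : Set A) ⊓ sN τ := by
    intro τ
    rw [TogAux.sN_insert, ← inf_assoc, inf_idem]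
  refine Finset.sum_involution (fun τ _ => if D' ∈ τ then τ.erase D' else insert D' τ) ?_ ?_ ?_ ?_
  · intro τ _
    by_cases h : D' ∈ τ
    · simp only [if_pos h]
      have h1 := Finset.card_erase_add_one h
      have h2 := hN (τ.erase D')
      rw [Finset.insert_erase h] at h2
      rw [← h1, pow_succ, h2]
      ring
    · simp only [if_neg h]
      rw [Finset.card_insert_of_notMem h, pow_succ, hN]
      ring
  · intro τ _ _
    by_cases h : D' ∈ τ
    · simp only [if_pos h]
      intro h1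
      rw [Finset.erase_eq_self] at h1
      exact h1 h
    · simp only [if_neg h]
      intro h1
      rw [Finset.insert_eq_self] at h1
      exact h h1
  · intro τ hτ
    have hτ' := (Finset.mem_filter.1 hτ).2
    rw [Finset.mem_filter]
    refine ⟨Finset.mem_univ _, ?_⟩
    by_cases h : D' ∈ τ
    · simp only [if_pos h]
      exact hera τ hτ'
    · simp only [if_neg h]
      exact hins τ hτ'
  · intro τ _
    by_cases h : D' ∈ τ
    · simp only [if_pos h, if_neg (Finset.notMem_erase D' τ), Finset.insert_erase h]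
    · simp only [if_neg h, if_pos (Finset.mem_insert_self D' τ), Finset.erase_insert h]

end

section
variable {p : ℕ} {k : Type*} [Field k] {A : Type*} [Group A] [Fintype A]
variable [Fact p.Prime] [CharP k p] [IsAlgClosed k]
variable {b f i : MonoidAlgebra k A} {D R : Subgroup A}

theorem kR_eq (h : Src p b D f i) (hRD : R < D) (hn : Subgroup.normalizer (R : Set A) = ⊤)
    (hloc : ∀ τ : Finset (Subgroup A), Up p R τ → τ.Nonempty → ∀ c, IsBlock (sN τ) c →
      resS (Id.sC τ : Set A) b * c = c → ∀ g : A, (∀ Q ∈ τ, Q ≤ cg g D) →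
      IsDefectGroup p (sN τ) c (cg g D) → resS (CD (cg g D) : Set A) c * cj g f = cj g f →
      Nat.card (IrX (sN τ) c) = Nat.card (IrX (Subgroup.normalizer (cg g D : Set A) ⊓ sN τ)
        (resS (CD (cg g D) : Set A) c))) :
    ∑ σ ∈ Id.chRE p (NQ R), (-1 : ℤ) ^ σ.card * (Id.kB σ (proj R b) : ℤ) =
      (Nat.card (IrX (⊤ : Subgroup A) b) : ℤ) - (kap D b : ℤ) := by
  classical
  have : Fintype (Finset (Subgroup A)) := Fintype.ofFinite _
  have hb := h.root.blk.mem
  have hbb := h.root.blk.idem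
  have hbi : InvBy (⊤ : Subgroup A) b := h.root.blk.invBy
  have hDp := h.root.dfg.isPGroup
  have hRp : IsPGroup p R := hDp.to_le hRD.le
  have hcj : ∀ g : A, cj g b = b := by
    intro g
    ext x
    have h1 := hbi g⁻¹ (Subgroup.mem_top _) x
    rw [inv_inv] at h1
    rw [coeff_cj, h1]
  have hcgR : ∀ g : A, cg g R = R := fun g => cg_eq_self_iff.2 (hn ▸ Subgroup.mem_top g)
  -- the terms of the sum over the conjugates of `D`
  let F : A → Subgroup A → ℤ := fun g V =>
    ((Nat.card V * Nat.card (IrX V (resS (CD (cg g D) : Set A) b)) : ℕ) : ℤ)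
  have hF : ∀ g : A, F g (Subgroup.normalizer (cg g D : Set A)) =
      ((Nat.card (Subgroup.normalizer (D : Set A)) * kap D b : ℕ) : ℤ) := by
    intro g
    have h0 : resS (CD D : Set A) b ∈ fixAlg k (Subgroup.normalizer (D : Set A))
        (Subgroup.normalizer (D : Set A)) :=
      DcAux.resS_mem' le_top le_rfl
        (inf_le_left.trans (Subgroup.centralizer_le_normalizer _)) hb
    have h0' : resS (CD D : Set A) b * resS (CD D : Set A) b = resS (CD D : Set A) b := by
      have h6 : InvBy D b := hbi.mono le_top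
      rw [← resS_mul hDp h6 h6, hbb]
    have h1 := card_irX_cj (p := p) g h0 h0'
    rw [cg_normalizer, ← FuAux.resS_cg, hcj, FuAux.cg_CD] at h1
    change ((Nat.card (Subgroup.normalizer (cg g D : Set A)) *
      Nat.card (IrX (Subgroup.normalizer (cg g D : Set A))
        (resS (CD (cg g D) : Set A) b)) : ℕ) : ℤ) = _
    rw [h1, ← cg_normalizer, card_cg]
    rfl
  -- the toggle
  have htog : ∀ g : A, ∑ τ ∈ (Finset.univ : Finset (Finset (Subgroup A))).filter
      (fun τ => (Up p R τ ∧ τ.Nonempty) ∧ ∀ Q ∈ τ, Q ≤ cg g D),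
      (-1 : ℤ) ^ τ.card * F g (Subgroup.normalizer (cg g D : Set A) ⊓ sN τ) =
      -((Nat.card (Subgroup.normalizer (D : Set A)) * kap D b : ℕ) : ℤ) := by
    intro g
    have hlt : R < cg g D := by
      rw [← hcgR g]
      refine lt_of_le_of_ne (cg_le_cg hRD.le) ?_
      intro h1
      have h2 := congrArg (cg g⁻¹) h1
      rw [cg_cg, cg_cg, inv_mul_cancel, cg_one, cg_one] at h2
      exact hRD.ne h2
    have h1 := toggle_top (p := p) (isPGroup_cg (g := g) hDp) hlt (hn ▸ le_top) (F g)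
    have h2 : (Finset.univ : Finset (Finset (Subgroup A))).filter
        (fun τ => Up p R τ ∧ ∀ Q ∈ τ, Q ≤ cg g D) =
        insert ∅ ((Finset.univ : Finset (Finset (Subgroup A))).filter
          (fun τ => (Up p R τ ∧ τ.Nonempty) ∧ ∀ Q ∈ τ, Q ≤ cg g D)) := by
      ext τ
      simp only [Finset.mem_filter, Finset.mem_univ, true_and, Finset.mem_insert]
      constructor
      · rintro ⟨h3, h4⟩
        rcases τ.eq_empty_or_nonempty with h5 | h5
        · exact Or.inl h5
        · exact Or.inr ⟨⟨h3, h5⟩, h4⟩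
      · rintro (rfl | ⟨⟨h3, _⟩, h4⟩)
        · refine ⟨⟨⟨?_, ?_⟩, ?_⟩, ?_⟩
          · simp
          · simp
          · simp
          · simp
        · exact ⟨h3, h4⟩
    have h3 : ∑ τ ∈ (Finset.univ : Finset (Finset (Subgroup A))).filter
        (fun τ => Up p R τ ∧ ∀ Q ∈ τ, Q ≤ cg g D),
        (-1 : ℤ) ^ τ.card * F g (Subgroup.normalizer (cg g D : Set A) ⊓ sN τ) = 0 :=
      Eq.trans (Finset.sum_congr (by
        ext τ
        simp only [Finset.mem_filter]) fun τ _ => rfl) h1
    rw [h2, Finset.sum_insert (by simp), Finset.card_empty, pow_zero, one_mul, DcAux.sN_empty,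
      inf_top_eq, hF] at h3
    linarith
  -- the nonempty chains
  have hne : (Nat.card (Subgroup.normalizer (D : Set A)) : ℤ) *
      ∑ τ ∈ (Finset.univ : Finset (Finset (Subgroup A))).filter
        (fun τ => Up p R τ ∧ τ.Nonempty), (-1 : ℤ) ^ τ.card *
          ((Nat.card (sN τ) * Nat.card (IrX (sN τ) (resS (Id.sC τ : Set A) b)) : ℕ) : ℤ) =
      -((Nat.card A : ℤ) *
        ((Nat.card (Subgroup.normalizer (D : Set A)) * kap D b : ℕ) : ℤ)) := by
    have h1 : ∀ τ ∈ (Finset.univ : Finset (Finset (Subgroup A))).filter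
        (fun τ => Up p R τ ∧ τ.Nonempty),
        (Nat.card (Subgroup.normalizer (D : Set A)) : ℤ) * ((-1 : ℤ) ^ τ.card *
          ((Nat.card (sN τ) * Nat.card (IrX (sN τ) (resS (Id.sC τ : Set A) b)) : ℕ) : ℤ)) =
        ∑ g : A, if ∀ Q ∈ τ, Q ≤ cg g D then
          (-1 : ℤ) ^ τ.card * F g (Subgroup.normalizer (cg g D : Set A) ⊓ sN τ) else 0 := by
      intro τ hτ
      obtain ⟨hup, hne⟩ := (Finset.mem_filter.1 hτ).2
      obtain ⟨M, hM, hall, hsC, hCN, hNM⟩ := CgAux.exists_max hup.1 hne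
      have hiff : ∀ g : A, (∀ Q ∈ τ, Q ≤ cg g D) ↔ M ≤ cg g D := fun g =>
        ⟨fun h3 => h3 M hM, fun h3 Q hQ => (hall Q hQ).trans h3⟩
      have h2 := local_kap h (hup.1.2 M hM).1 hCN hNM (by
        intro c hc hcb g hg hgd hcf
        exact hloc τ hup hne c hc (by rw [hsC]; exact hcb) g ((hiff g).2 hg) hgd hcf)
      rw [hsC]
      calc (Nat.card (Subgroup.normalizer (D : Set A)) : ℤ) * ((-1 : ℤ) ^ τ.card *
          ((Nat.card (sN τ) * Nat.card (IrX (sN τ) (resS (CD M : Set A) b)) : ℕ) : ℤ))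
          = (-1 : ℤ) ^ τ.card * ((Nat.card (Subgroup.normalizer (D : Set A)) *
            (Nat.card (sN τ) * Nat.card (IrX (sN τ) (resS (CD M : Set A) b))) : ℕ) : ℤ) := by
            push_cast
            ring
        _ = (-1 : ℤ) ^ τ.card * ((∑ g ∈ Finset.univ.filter (fun g : A => M ≤ cg g D),
            Nat.card ↥(Subgroup.normalizer (cg g D : Set A) ⊓ sN τ) *
              Nat.card (IrX (Subgroup.normalizer (cg g D : Set A) ⊓ sN τ)
                (resS (CD (cg g D) : Set A) b)) : ℕ) : ℤ) := by rw [h2]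
        _ = _ := by
            rw [Nat.cast_sum, Finset.mul_sum, Finset.sum_filter]
            refine Finset.sum_congr rfl fun g _ => ?_
            by_cases hMg : M ≤ cg g D
            · rw [if_pos hMg, if_pos ((hiff g).2 hMg)]
            · rw [if_neg hMg, if_neg (fun h3 => hMg ((hiff g).1 h3))]
    rw [Finset.mul_sum, Finset.sum_congr rfl h1, Finset.sum_comm]
    have h2 : ∀ g : A, ∑ τ ∈ (Finset.univ : Finset (Finset (Subgroup A))).filter
        (fun τ => Up p R τ ∧ τ.Nonempty), (if ∀ Q ∈ τ, Q ≤ cg g D then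
          (-1 : ℤ) ^ τ.card * F g (Subgroup.normalizer (cg g D : Set A) ⊓ sN τ) else 0) =
        -((Nat.card (Subgroup.normalizer (D : Set A)) * kap D b : ℕ) : ℤ) := by
      intro g
      rw [← Finset.sum_filter, Finset.filter_filter]
      exact htog g
    rw [Finset.sum_congr rfl fun g _ => h2 g, Finset.sum_const, Finset.card_univ,
      ← Nat.card_eq_fintype_card, nsmul_eq_mul]
    ring
  have hall : (Finset.univ : Finset (Finset (Subgroup A))).filter (fun τ => Up p R τ) =
      insert ∅ ((Finset.univ : Finset (Finset (Subgroup A))).filter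
        (fun τ => Up p R τ ∧ τ.Nonempty)) := by
    ext τ
    simp only [Finset.mem_filter, Finset.mem_univ, true_and, Finset.mem_insert]
    constructor
    · intro h5
      rcases τ.eq_empty_or_nonempty with h6 | h6
      · exact Or.inl h6
      · exact Or.inr ⟨h5, h6⟩
    · rintro (rfl | h5)
      · refine ⟨⟨?_, ?_⟩, ?_⟩
        · simp
        · simp
        · simp
      · exact h5.1
  have h1 := kR_quot (p := p) hb hbb hRp hn
  have h1' : ∑ τ ∈ (Finset.univ : Finset (Finset (Subgroup A))).filter (fun τ => Up p R τ),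
      (-1 : ℤ) ^ τ.card *
        ((Nat.card (sN τ) * Nat.card (IrX (sN τ) (resS (Id.sC τ : Set A) b)) : ℕ) : ℤ) =
      (Nat.card A : ℤ) *
        ∑ σ ∈ Id.chRE p (NQ R), (-1 : ℤ) ^ σ.card * (Id.kB σ (proj R b) : ℤ) :=
    Eq.trans (Finset.sum_congr (by
        ext τ
        simp only [Finset.mem_filter]) fun τ _ => rfl) h1.symm
  rw [hall, Finset.sum_insert (by simp), Finset.card_empty, pow_zero, one_mul, DcAux.sN_empty,
    DcAux.sC_empty, resS_top, Subgroup.card_top] at h1'
  have h2 := congrArg (fun z : ℤ => (Nat.card (Subgroup.normalizer (D : Set A)) : ℤ) * z) h1'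
  simp only [mul_add] at h2
  rw [hne] at h2
  have h3 : ((Nat.card (Subgroup.normalizer (D : Set A)) : ℤ) * (Nat.card A : ℤ)) ≠ 0 :=
    mul_ne_zero (by exact_mod_cast Nat.card_pos.ne') (by exact_mod_cast Nat.card_pos.ne')
  apply mul_left_cancel₀ h3
  rw [mul_assoc, ← h2]
  push_cast
  ring

end

end Pool.Agent.Lib.P0c8ca5.Kk
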