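import Mathlib
import Pool.Agent.Lib.P0c8ca5Nc.CH

/-!
# Kk.Kl: normal p-subgroups are contained in the defect groups

`op_le`. PROOF: `b` is supported in `CD R` (`Nc.resS_self`). `P = D ⊔ R` is a p-subgroup; `b` has a
nonzero coefficient in `CD P`: the restriction of `b` to `CD D` is nonzero (`IsDefectGroup.br`) at some `x ∈ CD D`, and
`x ∈ CD R` because `b` is supported in `CD R`. So `P = D` by the maximality (`IsDefectGroup.max`).
-/

set_option autoImplicit false
set_option linter.unusedSectionVars false

namespace Pool.Agent.Lib.P0c8ca5.Kk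

open MonoidAlgebra Bq Ex Kq

section
variable {p : ℕ} {k : Type*} [Field k] {A : Type*} [Group A] [Fintype A]
variable [Fact p.Prime] [CharP k p] [IsAlgClosed k]
variable {b f : MonoidAlgebra k A} {D R : Subgroup A}

theorem op_le (hb : IsBlock (⊤ : Subgroup A) b) (hD : IsDefectGroup p (⊤ : Subgroup A) b D)
    (hR : IsPGroup p R) (hn : Subgroup.normalizer (R : Set A) = ⊤) : R ≤ D := by
  have hRn : R.Normal := Subgroup.normalizer_eq_top_iff.1 hn
  have hP : IsPGroup p (D ⊔ R : Subgroup A) := hD.isPGroup.to_sup_of_normal_right hR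
  obtain ⟨x, hx, hbx⟩ := hD.br
  have hs := Nc.resS_self (p := p) hR hn hb.mem hb.idem
  have hxR : x ∈ (CD R : Set A) := by
    by_contra h
    apply hbx
    rw [← hs]
    exact coeff_resS_of_notMem _ h
  have h1 : D ⊔ R ≤ Subgroup.centralizer ({x} : Set A) := by
    refine sup_le (fun y hy => ?_) (fun y hy => ?_)
    · rw [Subgroup.mem_centralizer_iff]
      intro z hz
      rw [Set.mem_singleton_iff] at hz
      subst hz
      exact (Subgroup.mem_centralizer_iff.1 hx y hy).symm
    · rw [Subgroup.mem_centralizer_iff]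
      intro z hz
      rw [Set.mem_singleton_iff] at hz
      subst hz
      exact (Subgroup.mem_centralizer_iff.1 (SetLike.mem_coe.1 hxR) y hy).symm
  have h2 := hD.max (D ⊔ R) le_top hP ⟨x, by
    rw [Subgroup.mem_centralizer_iff]
    intro y hy
    exact (Subgroup.mem_centralizer_iff.1 (h1 hy) x rfl).symm, hbx⟩ le_sup_left
  rw [← h2]
  exact le_sup_right

end

end Pool.Agent.Lib.P0c8ca5.Kk
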