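import Mathlib
import Pool.Agent.Lib.P0c8ca5Kk.Kc
import Pool.Agent.Lib.P0c8ca5Kk.Kh
import Pool.Agent.Lib.P0c8ca5Kk.Kj
import Pool.Agent.Lib.P0c8ca5Kk.Kl
import Pool.Agent.Lib.P0c8ca5Ku.KF
import Pool.Agent.Lib.P0c8ca5Nc.CH
import Pool.Agent.Lib.P0c8ca5Kq.Fin

/-!
# Kk.Km: the weight conjecture for blocks with large abelian defect groups

Induction on the order of the group, `R` a maximal normal p-subgroup.

* `C_E(R) = 1`: `Nc.l_eq_local`.
* otherwise: `p ^ (n + 1)` divides the alternating sum for the image of `b` in `A / R` (`krQ_comm`), which is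
  `l(b) - kap D b` (`kR_eq`, by induction); and `|l(b) - kap D b| < p ^ (n + 1)` (`Ku.l_le_large`, `kap_le`).
-/

set_option autoImplicit false
set_option linter.unusedSectionVars false

namespace Pool.Agent.Lib.P0c8ca5.Kk

open MonoidAlgebra Bq Ex Kq QCorAux

universe u v

/-- a maximal normal p-subgroup -/
theorem exists_op (p : ℕ) (A : Type*) [Group A] [Finite A] :
    ∃ R : Subgroup A, IsPGroup p R ∧ Subgroup.normalizer (R : Set A) = ⊤ ∧
      ∀ Q : Subgroup A, IsPGroup p Q → Subgroup.normalizer (Q : Set A) = ⊤ → R ≤ Q → Q = R := by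
  classical
  have : Fintype (Subgroup A) := Fintype.ofFinite _
  let S : Finset (Subgroup A) := Finset.univ.filter
    (fun Q => IsPGroup p Q ∧ Subgroup.normalizer (Q : Set A) = ⊤)
  have hne : S.Nonempty := by
    refine ⟨⊥, Finset.mem_filter.2 ⟨Finset.mem_univ _, IsPGroup.of_bot, ?_⟩⟩
    rw [eq_top_iff]
    intro x _
    rw [Subgroup.mem_normalizer_iff]
    intro y
    rw [Subgroup.mem_bot, Subgroup.mem_bot, conj_eq_one_iff]
  obtain ⟨R, hR, hmax⟩ := Finset.exists_maximal hne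
  obtain ⟨_, h1, h2⟩ := Finset.mem_filter.1 hR
  refine ⟨R, h1, h2, fun Q hQ hQn hRQ => ?_⟩
  exact le_antisymm (hmax (Finset.mem_filter.2 ⟨Finset.mem_univ _, hQ, hQn⟩) hRQ) hRQ

section
variable {p : ℕ} [Fact p.Prime] {k : Type v} [Field k] [IsAlgClosed k] [CharP k p]
variable {A : Type u} [Group A] [Fintype A] {b f i : MonoidAlgebra k A} {D : Subgroup A}

theorem kap_le (h : Src p b D f i) : kap D b ≤ eN D f := by
  have hE : ¬ p ∣ eN D f := Ku.ndvd h.root
  obtain ⟨T, hT1, hT2⟩ := exists_transversal (⊤ : Subgroup A) (Theta p (⊤ : Subgroup A) ⊤ b)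
  rw [← wt_kap h hE T hT1 hT2]
  exact wt_le h hE T hT1 hT2

theorem kap_pos (h : Root p b D f) : 0 < kap D b := by
  classical
  have hb := h.blk.mem
  have hem := CfAux.res_mem (M := D) (Y := Subgroup.normalizer (D : Set A)) hb
    (Subgroup.centralizer_le_normalizer _) le_rfl
  have hee := CfAux.res_idem (p := p) (M := D) hb h.blk.idem h.dfg.isPGroup
  set e := resS (CD D : Set A) b with he
  let Bl : Finset (MonoidAlgebra k A) :=
    ((finite_isBlock (k := k) (Subgroup.normalizer (D : Set A))).toFinset).filter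
      (fun c => c * e ≠ 0)
  have hBl : ∀ c, c ∈ Bl ↔ IsBlock (Subgroup.normalizer (D : Set A)) c ∧ c * e ≠ 0 := by
    intro c
    rw [Finset.mem_filter, Set.Finite.mem_toFinset]
    rfl
  have h1 := card_irX_blocks (p := p) (mem_fixAlg.1 hem).1 (mem_fixAlg.1 hem).2 hee Bl hBl
  have h2 := WSumAux.sum_blocks (p := p) hem hee Bl hBl
  have hne : e ≠ 0 := by
    intro h0
    apply h.fblk.ne_zero
    rw [← h.bf, ← he, h0, zero_mul]
  have hBne : Bl.Nonempty := by
    rw [Finset.nonempty_iff_ne_empty]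
    rintro h0
    rw [h0, Finset.sum_empty] at h2
    exact hne h2.symm
  obtain ⟨c, hc⟩ := hBne
  have h3 : 0 < Nat.card (IrX (Subgroup.normalizer (D : Set A)) c) :=
    card_irX_pos ((hBl c).1 hc).1
  unfold kap
  change 0 < Nat.card (Quotient (irrInvSetoid (Subgroup.normalizer (D : Set A)) ⊥ e))
  rw [h1]
  exact Finset.sum_pos' (fun _ _ => Nat.zero_le _) ⟨c, hc, h3⟩

theorem sN_ne_top {R : Subgroup A} (hRmax : ∀ Q : Subgroup A, IsPGroup p Q →
      Subgroup.normalizer (Q : Set A) = ⊤ → R ≤ Q → Q = R) {τ : Finset (Subgroup A)}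
    (hτ : Up p R τ) (hne : τ.Nonempty) : sN τ ≠ ⊤ := by
  intro htop
  obtain ⟨P, hP⟩ := hne
  have h1 : Subgroup.normalizer (P : Set A) = ⊤ := by
    rw [eq_top_iff, ← htop]
    intro x hx
    exact TogAux.mem_sN.1 hx P hP
  have h2 := hRmax P (hτ.1.2 P hP).1 h1 (hτ.2 P hP).1.le
  exact (hτ.2 P hP).1.ne h2.symm

end

theorem l_eq_kap_aux {p : ℕ} [Fact p.Prime] (hp : p ≠ 2) {k : Type v} [Field k] [IsAlgClosed k]
    [CharP k p] {r i n : ℕ} (hin : i ≤ n) (hrn : r * (i * (r + 1) + 1) ≤ n + 1) (m : ℕ) :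
    ∀ (A : Type u) [Group A] [Fintype A], Nat.card A = m →
      ∀ (b : MonoidAlgebra k A) (D : Subgroup A) (f : MonoidAlgebra k A),
        HypK p r i n b D f → Nat.card (IrX (⊤ : Subgroup A) b) = kap D b := by
  classical
  induction m using Nat.strong_induction_on with
  | _ m ih =>
    intro A _ _ hA b D f h
    have hpp : p.Prime := Fact.out
    have hr := h.root
    obtain ⟨j, hj⟩ := exists_src hr
    have hE : ¬ p ∣ eN D f := Ku.ndvd hr
    obtain ⟨R, hRp, hRn, hRmax⟩ := exists_op p A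
    have hRD : R ≤ D := op_le hr.blk hr.dfg hRp hRn
    by_cases hreg : ∀ g ∈ St D f, (∀ u ∈ R, g * u = u * g) → g ∈ CD D
    · exact Nc.l_eq_local hp hj hE hRD hRn hreg
    push Not at hreg
    obtain ⟨g, hg, hgR, hgD⟩ := hreg
    obtain ⟨y, hy, hyR⟩ := Ku.exists_notMem hr h.big hg hgD hgR
    have hlt : R < D := lt_of_le_of_ne hRD (by
      rintro rfl
      exact hyR (R.pow_mem hy _))
    have h1 := krQ_comm hr.blk hr.dfg hr.com hRn hRD hy hyR
    have h2 := kR_eq hj hlt hRn (fun τ hτ hne c hc hcb g hg hgd hcf => by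
      obtain ⟨M, hM, hall, hsC, hCN, hNM⟩ := CgAux.exists_max hτ.1 hne
      have hMg : M ≤ cg g D := hg M hM
      have hU : sN τ ≠ ⊤ := sN_ne_top hRmax hτ hne
      have hlt' : Nat.card (sN τ) < m := by
        rw [← hA]
        have h3 := Subgroup.card_le_card_group (sN τ)
        refine lt_of_le_of_ne h3 (fun h4 => hU ?_)
        exact Subgroup.eq_top_of_card_eq _ h4
      have : Fintype ↥(sN τ) := Fintype.ofFinite _
      have h4 := ih _ hlt' ↥(sN τ) rfl _ _ _ (dn_hypK h hCN hMg hc hgd hcf)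
      have h5 := irX_dn (le_refl (sN τ)) hc.suppIn
      rw [Subgroup.subgroupOf_self] at h5
      rw [← h5, h4]
      exact kap_dn hgd.le ((Subgroup.centralizer_le hMg).trans hCN))
    rw [h2] at h1
    -- the size
    have h3 : Nat.card (IrX (⊤ : Subgroup A) b) ≤ p ^ (n + 1) := by
      have h4 := Ku.l_le_large hp hr h.rank h.ine (fun x hx hxp => by
        obtain ⟨y, hy, rfl⟩ := h.big x hx hxp
        refine ⟨y ^ p ^ (n - i), D.pow_mem hy _, ?_⟩
        rw [← pow_mul, ← pow_add, Nat.sub_add_cancel hin])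
      rw [card_top hr.blk] at h4
      exact h4.trans (Nat.pow_le_pow_right hpp.pos hrn)
    have h4 : kap D b ≤ p ^ (n + 1) :=
      (kap_le hj).trans (h.ine.trans (Nat.pow_le_pow_right hpp.pos (by omega)))
    have h5 : 0 < Nat.card (IrX (⊤ : Subgroup A) b) := card_irX_pos hr.blk
    have h6 : 0 < kap D b := kap_pos hr
    have h7 : (Nat.card (IrX (⊤ : Subgroup A) b) : ℤ) - (kap D b : ℤ) = 0 := by
      refine Int.eq_zero_of_abs_lt_dvd h1 ?_
      rw [abs_lt]
      have e3 : (Nat.card (IrX (⊤ : Subgroup A) b) : ℤ) ≤ ((p ^ (n + 1) : ℕ) : ℤ) := by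
        exact_mod_cast h3
      have e4 : (kap D b : ℤ) ≤ ((p ^ (n + 1) : ℕ) : ℤ) := by exact_mod_cast h4
      constructor <;> omega
    omega

/-- **the weight conjecture for blocks with large abelian defect groups** -/
theorem l_eq_kap {p : ℕ} [Fact p.Prime] (hp : p ≠ 2) {k : Type v} [Field k] [IsAlgClosed k]
    [CharP k p] {r i n : ℕ} (hin : i ≤ n) (hrn : r * (i * (r + 1) + 1) ≤ n + 1)
    {A : Type u} [Group A] [Fintype A] {b : MonoidAlgebra k A} {D : Subgroup A}
    {f : MonoidAlgebra k A} (h : HypK p r i n b D f) :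
    Nat.card (IrX (⊤ : Subgroup A) b) = kap D b :=
  l_eq_kap_aux hp hin hrn _ A rfl b D f h

theorem gap_zero_large {p : ℕ} [Fact p.Prime] (hp : p ≠ 2) {k : Type v} [Field k]
    [IsAlgClosed k] [CharP k p] {r i n : ℕ} (hin : i ≤ n)
    (hrn : r * (i * (r + 1) + 1) ≤ n + 1) {A : Type u} [Group A] [Fintype A]
    {b : MonoidAlgebra k A} {D : Subgroup A} {f : MonoidAlgebra k A}
    (h : HypK p r i n b D f) : gap p (⊤ : Subgroup A) ⊤ b = 0 := by
  obtain ⟨j, hj⟩ := exists_src h.root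
  have hnd : ¬ p ∣ eN D f := Ku.ndvd h.root
  obtain ⟨T, hT1, hT2⟩ := exists_transversal (⊤ : Subgroup A) (Theta p (⊤ : Subgroup A) ⊤ b)
  have hk := wt_kap hj hnd T hT1 hT2
  have hinv : InvBy ⊤ b := h.root.blk.invBy
  have hg := gap_eq (p := p) (le_refl (⊤ : Subgroup A)) (by
    intro x _
    rw [Subgroup.mem_normalizer_iff]
    intro y
    simp) (fun x _ => ⟨0, Subgroup.mem_top _⟩) h.root.blk hinv T hT1 hT2
  rw [card_top h.root.blk, hk] at hg
  rw [hg, l_eq_kap hp hin hrn h, sub_self]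

end Pool.Agent.Lib.P0c8ca5.Kk
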