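import Mathlib
import Pool.Agent.Lib.P0c8ca5Kk.Km
import Pool.Agent.Lib.P0c8ca5Nc.CJ

/-!
# Kk.Kv: the congruence between the number of simple modules and the number of weights

`l_kap_dvd`: `b` a block with abelian defect group `D`, every element of order `p` of `[D, E]` is a
`p ^ n`-th power in `D`; then `p ^ (n + 1)` divides `l(b) - kap D b`. The induction is that of Kk.Km, with `kR_cong`.
-/

set_option autoImplicit false
set_option linter.unusedSectionVars false

namespace Pool.Agent.Lib.P0c8ca5.Kk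

open MonoidAlgebra Bq Ex Kq QCorAux

universe u v

section
variable {p : ℕ} {k : Type*} [Field k] {A : Type*} [Group A] [Fintype A]
variable [Fact p.Prime] [CharP k p] [IsAlgClosed k]
variable {b f i : MonoidAlgebra k A} {D R : Subgroup A}

theorem kR_cong (h : Src p b D f i) (hRD : R < D) (hn : Subgroup.normalizer (R : Set A) = ⊤)
    {q : ℤ} (hloc : ∀ τ : Finset (Subgroup A), Up p R τ → τ.Nonempty → ∀ c, IsBlock (sN τ) c →
      resS (Id.sC τ : Set A) b * c = c → ∀ g : A, (∀ Q ∈ τ, Q ≤ cg g D) →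
      IsDefectGroup p (sN τ) c (cg g D) → resS (CD (cg g D) : Set A) c * cj g f = cj g f →
      q ∣ (Nat.card (IrX (sN τ) c) : ℤ) -
        (Nat.card (IrX (Subgroup.normalizer (cg g D : Set A) ⊓ sN τ)
          (resS (CD (cg g D) : Set A) c)) : ℤ)) :
    q ∣ (∑ σ ∈ Id.chRE p (NQ R), (-1 : ℤ) ^ σ.card * (Id.kB σ (proj R b) : ℤ)) -
      ((Nat.card (IrX (⊤ : Subgroup A) b) : ℤ) - (kap D b : ℤ)) := by
  by_cases hq : q = 0
  · subst hq
    rw [kR_eq h hRD hn (fun τ h1 h2 c h3 h4 g h5 h6 h7 => by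
      have h8 := zero_dvd_iff.1 (hloc τ h1 h2 c h3 h4 g h5 h6 h7)
      exact_mod_cast sub_eq_zero.1 h8), sub_self]
  · exact Nc.kR_eq_dvd hq h hRD hn hloc

end

theorem l_kap_dvd_aux {p : ℕ} [Fact p.Prime] (hp : p ≠ 2) {k : Type v} [Field k] [IsAlgClosed k]
    [CharP k p] {r i n : ℕ} (m : ℕ) :
    ∀ (A : Type u) [Group A] [Fintype A], Nat.card A = m →
      ∀ (b : MonoidAlgebra k A) (D : Subgroup A) (f : MonoidAlgebra k A),
        HypK p r i n b D f → ((p ^ (n + 1) : ℕ) : ℤ) ∣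
          (Nat.card (IrX (⊤ : Subgroup A) b) : ℤ) - (kap D b : ℤ) := by
  classical
  induction m using Nat.strong_induction_on with
  | _ m ih =>
    intro A _ _ hA b D f h
    have hpp : p.Prime := Fact.out
    have hr := h.root
    obtain ⟨j, hj⟩ := exists_src hr
    have hE : ¬ p ∣ eN D f := Ku.ndvd hr
    obtain ⟨R, hRp, hRn, hRmax⟩ := exists_op p A
    have hRD : R ≤ D := op_le hr.blk hr.dfg hRp hRn
    by_cases hreg : ∀ g ∈ St D f, (∀ u ∈ R, g * u = u * g) → g ∈ CD D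
    · rw [Nc.l_eq_local hp hj hE hRD hRn hreg, sub_self]
      exact dvd_zero _
    push Not at hreg
    obtain ⟨g, hg, hgR, hgD⟩ := hreg
    obtain ⟨y, hy, hyR⟩ := Ku.exists_notMem hr h.big hg hgD hgR
    have hlt : R < D := lt_of_le_of_ne hRD (by
      rintro rfl
      exact hyR (R.pow_mem hy _))
    have h1 := krQ_comm hr.blk hr.dfg hr.com hRn hRD hy hyR
    have h2 := kR_cong (q := ((p ^ (n + 1) : ℕ) : ℤ)) hj hlt hRn
      (fun τ hτ hne c hc hcb g hg hgd hcf => by
      obtain ⟨M, hM, hall, hsC, hCN, hNM⟩ := CgAux.exists_max hτ.1 hne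
      have hMg : M ≤ cg g D := hg M hM
      have hU : sN τ ≠ ⊤ := sN_ne_top hRmax hτ hne
      have hlt' : Nat.card (sN τ) < m := by
        rw [← hA]
        have h3 := Subgroup.card_le_card_group (sN τ)
        refine lt_of_le_of_ne h3 (fun h4 => hU ?_)
        exact Subgroup.eq_top_of_card_eq _ h4
      have : Fintype ↥(sN τ) := Fintype.ofFinite _
      have h4 := ih _ hlt' ↥(sN τ) rfl _ _ _ (dn_hypK h hCN hMg hc hgd hcf)
      have h5 := irX_dn (le_refl (sN τ)) hc.suppIn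
      rw [Subgroup.subgroupOf_self] at h5
      rw [h5, kap_dn hgd.le ((Subgroup.centralizer_le hMg).trans hCN)] at h4
      exact h4)
    exact (dvd_sub_right h1).1 h2

/-- **the number of simple modules is congruent to the number of weights** -/
theorem l_kap_dvd {p : ℕ} [Fact p.Prime] (hp : p ≠ 2) {k : Type v} [Field k] [IsAlgClosed k]
    [CharP k p] {n : ℕ} {A : Type u} [Group A] [Fintype A] {b : MonoidAlgebra k A}
    {D : Subgroup A} {f : MonoidAlgebra k A} (h : Root p b D f)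
    (hbig : ∀ x ∈ Ku.cmD D f, x ^ p = 1 → ∃ y ∈ D, x = y ^ p ^ n) :
    ((p ^ (n + 1) : ℕ) : ℤ) ∣ (Nat.card (IrX (⊤ : Subgroup A) b) : ℤ) - (kap D b : ℤ) := by
  have hpp : p.Prime := Fact.out
  exact l_kap_dvd_aux hp _ A rfl b D f (r := Nat.card {x : A // x ∈ D ∧ x ^ p = 1})
    (i := eN D f) ⟨h, (Nat.lt_pow_self hpp.one_lt).le, (Nat.lt_pow_self hpp.one_lt).le, hbig⟩

end Pool.Agent.Lib.P0c8ca5.Kk
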