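import Mathlib
import Pool.Agent.Lib.P0c8ca5Kk.Kg
import Pool.Agent.Lib.P0c8ca5R.Final
import Pool.Agent.Lib.P0c8ca5R.BrB

/-!
# Kk.Kx: climbing of Brauer pairs

`e` is a block of `A`, `R` a p-subgroup, `c` a block of `C(R)` with `Br_R(e) c = c`.

`climb`: either `R` is a defect group of `e` or there is a p-subgroup `R' > R` which normalizes `R` and `c`, and a block
`c'` of `C(R')` with `Br_R'(c) c' = c'`. PROOF: let `T` be the stabilizer of `c` in `N(R)`. If there is a p-subgroup
`R'` of `T` with `R < R'` and `Br_R'(c) /= 0`, take a block `c'` below `Br_R'(c)`. Otherwise let `y` be an element of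
`C(R)` such that the sum of the `T`-class of `y` is not nilpotent on `c`; `R` is a Sylow p-subgroup of `C_T(y)`; for
`z = Tr_R^A(y c)` one has `Br_R(z) c = |C_T(y) : R| (class sum) c`, so `z e` is not nilpotent and `e = Tr_R^A(y c w e)`.

`exists_top`: there is a defect group `P` of `e` above `R` such that `Br_(R Z)(c) /= 0` for all subgroups `Z` of `Z(P)`.
-/

set_option autoImplicit false
set_option linter.unusedSectionVars false

namespace Pool.Agent.Lib.P0c8ca5.Kk

open MonoidAlgebra Ex Rk KgAux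

namespace KxAux

section
variable {p : ℕ} {k : Type*} [Field k] {A : Type*} [Group A] [Fintype A]
variable [Fact p.Prime] [CharP k p] [IsAlgClosed k]
variable {c e : MonoidAlgebra k A} {R T U : Subgroup A}

theorem invBy_cls {c : MonoidAlgebra k A} {T : Subgroup A} (hinv : InvBy T c) (y : A) :
    InvBy T (resS (cls T y : Set A) c) := by
  refine JdAux.invBy_resS hinv fun g hg x => ?_
  rw [Finset.mem_coe, Finset.mem_coe, mem_cls, mem_cls]
  constructor
  · rintro ⟨v, hv, h⟩
    exact ⟨g * v, T.mul_mem hg hv, by rw [h]; group⟩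
  · rintro ⟨v, hv, h⟩
    refine ⟨g⁻¹ * v, T.mul_mem (T.inv_mem hg) hv, ?_⟩
    calc x = g⁻¹ * (g * x * g⁻¹) * g := by group
      _ = g⁻¹ * v * y * (g⁻¹ * v)⁻¹ := by rw [h]; group

/-- a class sum under a larger group which does not vanish at the central character -/
theorem exists_cls (hc : IsBlock U c) (hinv : InvBy T c) (hUT : U ≤ T) :
    ∃ l : fixAlg k U U →ₐ[k] k, l ⟨c, hc.mem⟩ = 1 ∧ ∃ y ∈ U, c.coeff y ≠ 0 ∧
      ∃ hm : resS (cls T y : Set A) c ∈ fixAlg k U U, l ⟨_, hm⟩ ≠ 0 := by
  classical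
  obtain ⟨l, hl⟩ := hc.primIdem.exists_char (k := k)
  refine ⟨l, hl, ?_⟩
  have h2 : ∀ y : A, resS (cls T y : Set A) c ∈ fixAlg k U U := by
    intro y
    rw [mem_fixAlg]
    refine ⟨fun x hx => ?_, (invBy_cls hinv y).mono hUT⟩
    rw [coeff_resS] at hx
    split_ifs at hx with h1
    · exact hc.suppIn x hx
    · exact absurd rfl hx
  by_contra hcon
  push Not at hcon
  let X : Finset (Finset A) := (Finset.univ.filter (fun y => y ∈ U)).image (cls T)
  have hX : ∀ s, s ∈ X ↔ ∃ y ∈ U, cls T y = s := by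
    intro s
    simp only [X, Finset.mem_image, Finset.mem_filter, Finset.mem_univ, true_and]
  have h2' : ∀ s ∈ X, resS (s : Set A) c ∈ fixAlg k U U := by
    intro s hs
    obtain ⟨y, _, rfl⟩ := (hX s).1 hs
    exact h2 y
  have h3 : ∑ s ∈ X.attach, (⟨resS (s.1 : Set A) c, h2' s.1 s.2⟩ : fixAlg k U U)
      = ⟨c, hc.mem⟩ := by
    apply Subtype.ext
    rw [AddSubmonoidClass.coe_finsetSum]
    ext z
    rw [coeff_sum, Finsupp.finsetSum_apply]
    by_cases hz : z ∈ U
    · rw [Finset.sum_eq_single (⟨cls T z, (hX _).2 ⟨z, hz, rfl⟩⟩ : X)]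
      · change (resS (cls T z : Set A) c).coeff z = c.coeff z
        rw [coeff_resS_of_mem _ (Finset.mem_coe.2 (self_mem_cls T z))]
      · intro s _ hs
        change (resS (s.1 : Set A) c).coeff z = 0
        apply coeff_resS_of_notMem
        intro h
        apply hs
        apply Subtype.ext
        obtain ⟨y, _, hy⟩ := (hX s.1).1 s.2
        change s.1 = cls T z
        rw [← hy] at h ⊢
        exact (cls_eq_of_mem (Finset.mem_coe.1 h)).symm
      · intro h; exact absurd (Finset.mem_attach _ _) h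
    · have h0 : c.coeff z = 0 := by by_contra h; exact hz (hc.suppIn z h)
      rw [h0]
      apply Finset.sum_eq_zero
      intro s _
      change (resS (s.1 : Set A) c).coeff z = 0
      by_cases hzc : z ∈ (s.1 : Set A)
      · rw [coeff_resS_of_mem _ hzc, h0]
      · exact coeff_resS_of_notMem _ hzc
  have h4 : (1 : k) = 0 := by
    rw [← hl, ← h3, map_sum]
    apply Finset.sum_eq_zero
    intro s _
    obtain ⟨y, hy, hys⟩ := (hX s.1).1 s.2
    by_cases hcy : c.coeff y = 0
    · have h5 : resS (s.1 : Set A) c = 0 := by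
        ext z
        rw [coeff_resS]
        split_ifs with h6
        · rw [← hys] at h6
          obtain ⟨x, hx, rfl⟩ := mem_cls.1 (Finset.mem_coe.1 h6)
          rw [hinv x hx, hcy]
          rfl
        · rfl
      have h6 : (⟨resS (s.1 : Set A) c, h2' s.1 s.2⟩ : fixAlg k U U) = 0 := Subtype.ext h5
      rw [h6, map_zero]
    · have h5 := hcon y hy hcy (h2 y)
      have h6 : (⟨resS (s.1 : Set A) c, h2' s.1 s.2⟩ : fixAlg k U U)
          = ⟨resS (cls T y : Set A) c, h2 y⟩ := by
        apply Subtype.ext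
        change resS (s.1 : Set A) c = resS (cls T y : Set A) c
        rw [hys]
      rw [h6, h5]
  exact one_ne_zero h4

/-- the sum of the conjugates of `y` by representatives of `T / R` -/
theorem tr_cls {y : A} (hRT : R ≤ T) (hy : y ∈ CD R) {X : Finset A} (hX : Reps X ⊤ R) [DecidablePred (· ∈ T)] :
    ∑ q ∈ X.filter (fun q => q ∈ T), cj q (single y (1 : k))
      = ((R.relIndex (T ⊓ Subgroup.centralizer ({y} : Set A)) : ℕ) : k) • ∑ z ∈ cls T y, single z (1 : k) := by
  classical
  have hRC : R ≤ T ⊓ Subgroup.centralizer ({y} : Set A) := by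
    refine le_inf hRT fun r hr => ?_
    rw [Subgroup.mem_centralizer_iff]
    intro t ht
    rw [Set.mem_singleton_iff] at ht
    subst ht
    exact (Subgroup.mem_centralizer_iff.1 hy r hr).symm
  ext z
  rw [coeff_smul_apply, coeff_sum, Finsupp.finsetSum_apply, coeff_sum, Finsupp.finsetSum_apply]
  have h1 : ∀ q : A, (cj q (single y (1 : k))).coeff z = if q * y * q⁻¹ = z then 1 else 0 := by
    intro q
    rw [coeff_cj, coeff_single, Finsupp.single_apply]
    congr 1
    apply propext
    constructor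
    · intro h
      rw [h]
      group
    · intro h
      rw [← h]
      group
  have h2 : ∀ w : A, (single w (1 : k) : MonoidAlgebra k A).coeff z = if w = z then 1 else 0 := by
    intro w
    rw [coeff_single, Finsupp.single_apply]
  rw [Finset.sum_congr rfl fun q _ => h1 q, Finset.sum_congr rfl fun w _ => h2 w,
    Finset.sum_ite_eq' (cls T y) z (fun _ => (1 : k))]
  by_cases hz : z ∈ cls T y
  · rw [if_pos hz, smul_eq_mul, mul_one]
    obtain ⟨g, hg, rfl⟩ := mem_cls.1 hz
    rw [← BrAAux.card_reps hX hRC g, Finset.card_filter, Nat.cast_sum, Finset.sum_filter]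
    refine Finset.sum_congr rfl fun q _ => ?_
    rw [Nat.cast_ite, Nat.cast_one, Nat.cast_zero]
    have h3 : (g⁻¹ * q ∈ T ⊓ Subgroup.centralizer ({y} : Set A)) ↔
        (q ∈ T ∧ q * y * q⁻¹ = g * y * g⁻¹) := by
      rw [Subgroup.mem_inf, Subgroup.mul_mem_cancel_left _ (T.inv_mem hg),
        Subgroup.mem_centralizer_iff]
      refine and_congr_right fun _ => ?_
      constructor
      · intro h
        have h4 := h y rfl
        calc q * y * q⁻¹ = g * ((g⁻¹ * q) * y) * q⁻¹ := by group
          _ = g * (y * (g⁻¹ * q)) * q⁻¹ := by rw [h4]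
          _ = g * y * g⁻¹ := by group
      · intro h t ht
        rw [Set.mem_singleton_iff] at ht
        subst ht
        calc t * (g⁻¹ * q) = g⁻¹ * (g * t * g⁻¹) * q := by group
          _ = g⁻¹ * (q * t * q⁻¹) * q := by rw [h]
          _ = g⁻¹ * q * t := by group
    by_cases h5 : q ∈ T
    · rw [if_pos h5]
      by_cases h6 : q * y * q⁻¹ = g * y * g⁻¹
      · rw [if_pos h6, if_pos (h3.2 ⟨h5, h6⟩)]
      · rw [if_neg h6, if_neg (fun h => h6 (h3.1 h).2)]
    · rw [if_neg h5, if_neg (fun h => h5 (h3.1 h).1)]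
  · rw [if_neg hz, smul_zero]
    apply Finset.sum_eq_zero
    intro q hq
    rw [if_neg]
    intro h
    exact hz (mem_cls.2 ⟨q, (Finset.mem_filter.1 hq).2, h.symm⟩)

theorem resS_cls_eq {y : A} (hinv : InvBy T c) :
    resS (cls T y : Set A) c = c.coeff y • ∑ z ∈ cls T y, single z (1 : k) := by
  classical
  ext z
  rw [coeff_smul_apply, coeff_sum, Finsupp.finsetSum_apply]
  have h2 : ∀ w : A, (single w (1 : k) : MonoidAlgebra k A).coeff z = if w = z then 1 else 0 := by
    intro w
    rw [coeff_single, Finsupp.single_apply]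
  rw [Finset.sum_congr rfl fun w _ => h2 w, Finset.sum_ite_eq' (cls T y) z (fun _ => (1 : k))]
  by_cases hz : z ∈ cls T y
  · rw [if_pos hz, coeff_resS_of_mem _ (Finset.mem_coe.2 hz), smul_eq_mul, mul_one]
    obtain ⟨g, hg, rfl⟩ := mem_cls.1 hz
    exact hinv g hg y
  · rw [if_neg hz, smul_zero, coeff_resS_of_notMem _ (fun h => hz (Finset.mem_coe.1 h))]

theorem card_relIndex {H K : Subgroup A} (h : H ≤ K) :
    Nat.card H * H.relIndex K = Nat.card K := by
  have h1 := Subgroup.card_mul_index (H.subgroupOf K)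
  rwa [Nat.card_congr (Subgroup.subgroupOfEquivOfLe h).toEquiv] at h1

theorem isBlock_cjR (hc : IsBlock (CD R) c) {q : A} (hq : q ∈ Subgroup.normalizer (R : Set A)) :
    IsBlock (CD R) (cj q c) := by
  have h1 := isBlock_cg hc q
  have h2 : cg q (CD R) = CD R := cg_eq_self_iff.2 (BrBAux.mem_norm_cent hq)
  rwa [h2] at h1

theorem le_St (hc : IsBlock (CD R) c) : R ≤ St R c := fun r hr =>
  mem_St.2 ⟨Subgroup.le_normalizer hr, invBy_iff_cj.1 (invBy_of_supp hc.suppIn) r hr⟩

theorem CD_le_StR (hc : IsBlock (CD R) c) : CD R ≤ St R c := fun r hr =>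
  mem_St.2 ⟨Subgroup.centralizer_le_normalizer _ hr, invBy_iff_cj.1 hc.invBy r hr⟩

open Classical in
/-- the Brauer image of the relative trace of `y c`, times `c` -/
theorem br_tr (hR : IsPGroup p R) (hc : IsBlock (CD R) c) {y : A} (hy : y ∈ CD R) {X : Finset A}
    (hX : Reps X ⊤ R) :
    resS (CD R : Set A) (∑ q ∈ X, cj q (single y (1 : k) * c)) * c
      = (∑ q ∈ X.filter (fun q => q ∈ St R c), cj q (single y (1 : k))) * c := by
  have hys : SuppIn (CD R) (single y (1 : k)) := by
    intro x hx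
    rw [coeff_single, Finsupp.single_apply] at hx
    split_ifs at hx with h1
    · rw [← h1]
      exact hy
    · exact absurd rfl hx
  have hs : SuppIn (CD R) (single y (1 : k) * c) := hys.mul hc.suppIn
  have hinv : InvBy R (single y (1 : k) * c) := invBy_of_supp hs
  rw [BrBAux.resS_sum_cj hX hR hinv, resS_eq_self hs, Finset.sum_mul, Finset.sum_mul]
  have hsub : X.filter (fun q => q ∈ St R c) ⊆
      X.filter (fun q => q ∈ Subgroup.normalizer (R : Set A)) := by
    intro q hq
    exact Finset.mem_filter.2 ⟨(Finset.mem_filter.1 hq).1, (mem_St.1 (Finset.mem_filter.1 hq).2).1⟩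
  rw [← Finset.sum_subset hsub]
  · refine Finset.sum_congr rfl fun q hq => ?_
    rw [cj_mul, (mem_St.1 (Finset.mem_filter.1 hq).2).2, mul_assoc, hc.idem]
  · intro q hq hq'
    have hqN := (Finset.mem_filter.1 hq).2
    rw [cj_mul, mul_assoc]
    rcases (isBlock_cjR hc hqN).eq_or_mul_eq_zero hc with h | h
    · exact absurd (Finset.mem_filter.2 ⟨(Finset.mem_filter.1 hq).1, mem_St.2 ⟨hqN, h⟩⟩) hq'
    · rw [h, mul_zero]

theorem res_pow (hR : IsPGroup p R) {x : MonoidAlgebra k A} (hx : InvBy R x) (n : ℕ) :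
    resS (CD R : Set A) (x ^ (n + 1)) = resS (CD R : Set A) x ^ (n + 1) := by
  have hp : ∀ n, InvBy R (x ^ (n + 1)) := by
    intro n
    rw [invBy_iff_commute] at hx ⊢
    intro g hg
    exact (hx g hg).pow_right _
  induction n with
  | zero => rw [zero_add, pow_one, pow_one]
  | succ n ih => rw [pow_succ, resS_mul hR (hp n) hx, ih, ← pow_succ]

end

end KxAux

open KxAux

section
variable {p : ℕ} {k : Type*} [Field k] {A : Type*} [Group A] [Fintype A]
variable [Fact p.Prime] [CharP k p] [IsAlgClosed k]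
variable {c e : MonoidAlgebra k A} {R : Subgroup A}

/-- **climbing of Brauer pairs** -/
theorem climb (he : IsBlock (⊤ : Subgroup A) e) (hR : IsPGroup p R) (hc : IsBlock (CD R) c)
    (hec : resS (CD R : Set A) e * c = c) : IsDefectGroup p (⊤ : Subgroup A) e R ∨
      ∃ R' : Subgroup A, R < R' ∧ IsPGroup p R' ∧ R' ≤ St R c ∧
        ∃ c', IsBlock (CD R') c' ∧ resS (CD R' : Set A) c * c' = c' := by
  classical
  by_cases hcase : ∃ R' : Subgroup A, R < R' ∧ IsPGroup p R' ∧ R' ≤ St R c ∧ HasBr R' c
  · right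
    obtain ⟨R', hRR, hR'p, hR'S, x, hx, hcx⟩ := hcase
    refine ⟨R', hRR, hR'p, hR'S, ?_⟩
    have hinv : InvBy R' c := invBy_iff_cj.2 fun g hg => (mem_St.1 (hR'S hg)).2
    have hCC : CD R' ≤ CD R := Subgroup.centralizer_le hRR.le
    have hinvC : InvBy (CD R') c := hc.invBy.mono hCC
    refine exists_blk (K := CD R') (e := resS (CD R' : Set A) c) ?_ ?_ ?_
    · rw [mem_fixAlg]
      refine ⟨resS_suppIn, ?_⟩
      refine JdAux.invBy_resS hinvC fun g hg y => ?_
      exact Ku.NDAux.conj_CD_iff (Subgroup.centralizer_le_normalizer _ hg)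
    · rw [← resS_mul hR'p hinv hinv, hc.idem]
    · intro h0
      apply hcx
      rw [← coeff_resS_of_mem c (show x ∈ (CD R' : Set A) from hx), h0]
      rfl
  · left
    push Not at hcase
    -- a class sum
    obtain ⟨l, hl, y, hy, hcy, hm, hly⟩ := exists_cls (T := St R c) hc
      (invBy_iff_cj.2 fun g hg => (mem_St.1 hg).2) (CD_le_StR hc)
    have hRT := le_St hc
    -- `R` is a Sylow subgroup of the centralizer of `y` in `T`
    set C := St R c ⊓ Subgroup.centralizer ({y} : Set A) with hCdef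
    have hRC : R ≤ C := by
      refine le_inf hRT fun r hr => ?_
      rw [Subgroup.mem_centralizer_iff]
      intro t ht
      rw [Set.mem_singleton_iff] at ht
      subst ht
      exact (Subgroup.mem_centralizer_iff.1 hy r hr).symm
    have hmk : ((R.relIndex C : ℕ) : k) ≠ 0 := by
      intro h0
      have hdvd := (CharP.cast_eq_zero_iff k p _).1 h0
      -- a larger p-subgroup
      obtain ⟨R', hR'C, hR'p, hlt⟩ : ∃ R' : Subgroup A, R' ≤ C ∧ IsPGroup p R' ∧ R < R' := by
        obtain ⟨P, hP⟩ := exists_isSyl (p := p) C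
        obtain ⟨g, hg, hRg⟩ := hP.conj R hRC hR
        refine ⟨cg g P, ?_, isPGroup_cg hP.isPGroup, lt_of_le_of_ne hRg fun heq => ?_⟩
        · intro x hx
          rw [mem_cg] at hx
          have h1 := C.mul_mem (C.mul_mem hg (hP.le hx)) (C.inv_mem hg)
          have h2 : g * (g⁻¹ * x * g) * g⁻¹ = x := by group
          rwa [h2] at h1
        · have h1 : Nat.card R = Nat.card P := by
            rw [heq, card_cg]
          have h2 := card_relIndex hRC
          have h3 := card_relIndex hP.le
          rw [h1] at h2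
          have h4 := Nat.eq_of_mul_eq_mul_left (Nat.card_pos (α := P)) (h2.trans h3.symm)
          exact hP.ndvd (h4 ▸ hdvd)
      refine hcase R' hlt hR'p (hR'C.trans inf_le_left) ⟨y, ?_, hcy⟩
      rw [Subgroup.mem_centralizer_iff]
      intro r hr
      exact (Subgroup.mem_centralizer_iff.1 (hR'C hr).2 y rfl).symm
    -- the relative trace
    obtain ⟨X, hX⟩ := exists_reps (le_top : R ≤ ⊤)
    have hys : SuppIn (CD R) (single y (1 : k)) := by
      intro x hx
      rw [coeff_single, Finsupp.single_apply] at hx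
      split_ifs at hx with h1
      · rw [← h1]
        exact hy
      · exact absurd rfl hx
    have hinvR : InvBy R (single y (1 : k) * c) := invBy_of_supp (hys.mul hc.suppIn)
    set z := ∑ q ∈ X, cj q (single y (1 : k) * c) with hzdef
    have hzi : InvBy ⊤ z := BrBAux.invBy_sum_cj hX hinvR
    have hzm : z ∈ fixAlg k (⊤ : Subgroup A) ⊤ :=
      mem_fixAlg.2 ⟨fun x _ => Subgroup.mem_top x, hzi⟩
    have hei := he.invBy
    rcases blk_nilp_or_unit he hzm with ⟨n, hn⟩ | ⟨w, hw, hwe⟩
    · exfalso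
      have hN := Subgroup.centralizer_le_normalizer (R : Set A)
      have hbz := Kq.CfAux.res_mem hzm (M := R) le_rfl hN
      have hbe := Kq.CfAux.res_mem he.mem (M := R) le_rfl hN
      have hzei : InvBy R (z * e) := by
        rw [invBy_iff_commute] at hzi hei ⊢
        intro g _
        exact (hzi g (Subgroup.mem_top g)).mul_right (hei g (Subgroup.mem_top g))
      have h1 : resS (CD R : Set A) z * resS (CD R : Set A) e = resS (CD R : Set A) (z * e) :=
        (resS_mul hR (hzi.mono le_top) (hei.mono le_top)).symm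
      have h2 : resS (CD R : Set A) (z * e) ^ (n + 1) = 0 := by
        rw [← res_pow hR hzei, pow_succ, hn, zero_mul, resS_zero]
      have h3 : (⟨_, hbz⟩ * ⟨_, hbe⟩ : fixAlg k (CD R) (CD R)) ^ (n + 1) = 0 := by
        apply Subtype.ext
        change (resS (CD R : Set A) z * resS (CD R : Set A) e) ^ (n + 1) = 0
        rw [h1, h2]
      have h4 : l ⟨_, hbz⟩ * l ⟨_, hbe⟩ = 0 := by
        have h5 := congrArg l h3
        rw [map_pow, map_mul, map_zero] at h5
        exact pow_eq_zero_iff (Nat.succ_ne_zero n) |>.1 h5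
      have h5 : l ⟨_, hbe⟩ = 1 := by
        have h6 : (⟨_, hbe⟩ * ⟨c, hc.mem⟩ : fixAlg k (CD R) (CD R)) = ⟨c, hc.mem⟩ := Subtype.ext hec
        have h7 := congrArg l h6
        rw [map_mul, hl, mul_one] at h7
        exact h7
      rw [h5, mul_one] at h4
      have h6 : (⟨_, hbz⟩ * ⟨c, hc.mem⟩ : fixAlg k (CD R) (CD R))
          = (((R.relIndex C : ℕ) : k) * (c.coeff y)⁻¹) • (⟨_, hm⟩ * ⟨c, hc.mem⟩) := by
        apply Subtype.ext
        change resS (CD R : Set A) z * c
          = (((R.relIndex C : ℕ) : k) * (c.coeff y)⁻¹) • (resS (cls (St R c) y : Set A) c * c)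
        rw [hzdef, br_tr hR hc hy hX, tr_cls hRT hy hX,
          resS_cls_eq (invBy_iff_cj.2 fun g hg => (mem_St.1 hg).2), smul_mul_assoc, smul_mul_assoc,
          smul_smul, mul_assoc, inv_mul_cancel₀ hcy, mul_one]
      have h7 := congrArg l h6
      rw [map_mul, map_smul, map_mul, hl, h4, zero_mul, mul_one, smul_eq_mul] at h7
      exact mul_ne_zero (mul_ne_zero hmk (inv_ne_zero hcy)) hly h7.symm
    · -- `R` is a defect group
      have hbr : HasBr R e := by
        by_contra hcon
        apply hc.ne_zero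
        have h0 : resS (CD R : Set A) e = 0 := by
          ext x
          rw [coeff_resS]
          split_ifs with h1
          · by_contra h2
            exact hcon ⟨x, h1, h2⟩
          · rfl
        rw [← hec, h0, zero_mul]
      obtain ⟨P, hP, hRP⟩ := exists_defect (p := p) (N := ⊤) le_top hR hbr
      have hwe' : InvBy ⊤ (w * e) := (mem_fixAlg.1 ((fixAlg k ⊤ ⊤).mul_mem hw he.mem)).2
      have hai : InvBy R (single y (1 : k) * c * (w * e)) := by
        rw [invBy_iff_commute] at hinvR hwe' ⊢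
        intro g hg
        exact (hinvR g hg).mul_right (hwe' g (Subgroup.mem_top g))
      have hsum : ∑ q ∈ X, cj q (single y (1 : k) * c * (w * e)) = e := by
        have h1 : ∀ q ∈ X, cj q (single y (1 : k) * c * (w * e))
            = cj q (single y (1 : k) * c) * (w * e) := by
          intro q _
          rw [cj_mul, invBy_iff_cj.1 hwe' q (Subgroup.mem_top q)]
        rw [Finset.sum_congr rfl h1, ← Finset.sum_mul, ← hzdef, ← mul_assoc, hwe]
      obtain ⟨g, hg⟩ := conj_of_hasBr (p := p) hX hai hsum hP.isPGroup hP.br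
      have h1 : Nat.card P ≤ Nat.card R := by
        rw [← card_cg g R]
        exact Subgroup.card_le_of_le hg
      rwa [Subgroup.eq_of_le_of_card_ge hRP h1]

namespace KxAux

theorem resS_resS_le {Q Q' : Subgroup A} (h : Q' ≤ Q) (a : MonoidAlgebra k A) :
    resS (CD Q : Set A) (resS (CD Q' : Set A) a) = resS (CD Q : Set A) a := by
  classical
  have hC : CD Q ≤ CD Q' := Subgroup.centralizer_le h
  ext x
  by_cases hx : x ∈ (CD Q : Set A)
  · rw [coeff_resS_of_mem _ hx, coeff_resS_of_mem _ hx,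
      coeff_resS_of_mem _ (show x ∈ (CD Q' : Set A) from hC hx)]
  · rw [coeff_resS_of_notMem _ hx, coeff_resS_of_notMem _ hx]

theorem hasBr_of_ne {Q : Subgroup A} {a : MonoidAlgebra k A} (h : resS (CD Q : Set A) a ≠ 0) :
    HasBr Q a := by
  by_contra hcon
  apply h
  ext x
  rw [coeff_resS]
  split_ifs with h1
  · by_contra h2
    exact hcon ⟨x, h1, h2⟩
  · rfl

theorem ne_of_hasBr {Q : Subgroup A} {a : MonoidAlgebra k A} (h : HasBr Q a) :
    resS (CD Q : Set A) a ≠ 0 := by
  obtain ⟨x, hx, h1⟩ := h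
  intro h0
  apply h1
  rw [← coeff_resS_of_mem a (show x ∈ (CD Q : Set A) from hx), h0]
  rfl

theorem invBy_res {Q M : Subgroup A} {a : MonoidAlgebra k A} (ha : InvBy M a)
    (hM : M ≤ Subgroup.normalizer (Q : Set A)) : InvBy M (resS (CD Q : Set A) a) :=
  JdAux.invBy_resS ha fun _ hg _ => Ku.NDAux.conj_CD_iff (hM hg)

end KxAux

/-- **the top of the climbing**: a defect group above `R` such that the Brauer maps at `R Z`, `Z` in its centre, do not
vanish on `c` -/
theorem exists_top (he : IsBlock (⊤ : Subgroup A) e) (hR : IsPGroup p R) (hc : IsBlock (CD R) c)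
    (hec : resS (CD R : Set A) e * c = c) : ∃ P : Subgroup A, IsDefectGroup p (⊤ : Subgroup A) e P ∧
      R ≤ P ∧ ∀ Z : Subgroup A, Z ≤ P → Z ≤ CD P → HasBr (R ⊔ Z) c := by
  classical
  induction hn : Nat.card A - Nat.card R using Nat.strong_induction_on generalizing R c with
  | _ n ih =>
  rcases climb he hR hc hec with h | ⟨R', hRR, hR'p, hR'S, c', hc', hcc'⟩
  · refine ⟨R, h, le_rfl, fun Z hZ _ => ?_⟩
    rw [sup_eq_left.2 hZ]
    apply hasBr_of_ne
    rw [resS_eq_self hc.suppIn]
    exact hc.ne_zero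
  · have hCC : CD R' ≤ CD R := Subgroup.centralizer_le hRR.le
    have hcR' : InvBy R' c := invBy_iff_cj.2 fun g hg => (mem_St.1 (hR'S hg)).2
    have hR'N : R' ≤ Subgroup.normalizer (R : Set A) := fun g hg => (mem_St.1 (hR'S hg)).1
    have hec' : resS (CD R' : Set A) e * c' = c' := by
      have h1 : resS (CD R' : Set A) (resS (CD R : Set A) e * c)
          = resS (CD R' : Set A) e * resS (CD R' : Set A) c := by
        rw [resS_mul hR'p (invBy_res (he.invBy.mono le_top) hR'N) hcR', resS_resS_le hRR.le]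
      rw [hec] at h1
      calc resS (CD R' : Set A) e * c' = resS (CD R' : Set A) e * (resS (CD R' : Set A) c * c') := by
            rw [hcc']
        _ = (resS (CD R' : Set A) e * resS (CD R' : Set A) c) * c' := by rw [mul_assoc]
        _ = c' := by rw [← h1, hcc']
    have hlt : Nat.card R < Nat.card R' :=
      lt_of_le_of_ne (Subgroup.card_le_of_le hRR.le) fun h =>
        hRR.ne (Subgroup.eq_of_le_of_card_ge hRR.le h.ge)
    have hle : Nat.card R' ≤ Nat.card A := Subgroup.card_le_card_group R'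
    obtain ⟨P, hP, hRP, hZ⟩ := ih (Nat.card A - Nat.card R') (by omega) hR'p hc' hec' rfl
    refine ⟨P, hP, hRR.le.trans hRP, fun Z hZP hZC => ?_⟩
    have hbr := hZ Z hZP hZC
    have hQp : IsPGroup p (R' ⊔ Z : Subgroup A) := hP.isPGroup.to_le (sup_le hRP hZP)
    have hZC' : Z ≤ CD R' := hZC.trans (Subgroup.centralizer_le hRP)
    have hcQ : InvBy (R' ⊔ Z) c := invBy_sup hcR' (hc.invBy.mono (hZC'.trans hCC))
    have hc'Q : InvBy (R' ⊔ Z) c' := invBy_sup (invBy_of_supp hc'.suppIn) (hc'.invBy.mono hZC')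
    have hN : R' ⊔ Z ≤ Subgroup.normalizer (R' : Set A) :=
      sup_le Subgroup.le_normalizer (hZC'.trans (Subgroup.centralizer_le_normalizer _))
    have h1 : resS (CD (R' ⊔ Z) : Set A) c * resS (CD (R' ⊔ Z) : Set A) c'
        = resS (CD (R' ⊔ Z) : Set A) c' := by
      conv_rhs => rw [← hcc']
      rw [resS_mul hQp (invBy_res hcQ hN) hc'Q, resS_resS_le le_sup_left]
    have h2 : HasBr (R' ⊔ Z) c := by
      apply hasBr_of_ne
      intro h0
      rw [h0, zero_mul] at h1
      exact ne_of_hasBr hbr h1.symm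
    obtain ⟨x, hx, hcx⟩ := h2
    exact ⟨x, Subgroup.centralizer_le (sup_le_sup_right hRR.le Z) hx, hcx⟩

end

end Pool.Agent.Lib.P0c8ca5.Kk
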