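import Mathlib
import Pool.Agent.Lib.P0c8ca5N.Final
import Pool.Agent.Lib.P0c8ca5N.Defs

/-!
# Kk.Kxa: elements of order prime to `p` in the stabilizers of chains

`G` is a normal subgroup of `A`, `σ` a chain of p-subgroups `Q` of `A` with `G Q = A`, `S` the largest member, and
`T = S ∩ G` is abelian. `supp_cen`: a p-regular element `x` of `G` which normalizes all members of `σ` and commutes with
the elements of `T` which normalize all members of `σ` centralizes `S`.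

PROOF. Let `Q` be the smallest member. For `q` in `Q` one has `x q x⁻¹ = t q` with `t` in `Q ∩ G`, and `x` commutes with
`t`, so `t ^ n = 1` for the order `n` of `x` and `t = 1`. So `x` centralizes `Q`. The subgroup `V` of the elements
`x t x⁻¹ t⁻¹`, `t` in `T`, is normalized by `Q`; if it is not trivial it contains an element `v ≠ 1` which commutes with
`Q`, and with `T`, so with all members of `σ`; so `x` commutes with `v` and again `v = 1`.
-/

set_option autoImplicit false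
set_option linter.unusedSectionVars false

namespace Pool.Agent.Lib.P0c8ca5.Kk

namespace KxaAux

section
variable {p : ℕ} {A : Type*} [Group A] [Finite A] [Fact p.Prime]

/-- a commutator which commutes with the p-regular element `x` and has p-power order is trivial -/
theorem triv {x q v : A} (hx : Preg p x) (hv : x * q * x⁻¹ = v * q) (hxv : x * v = v * x) {m : ℕ}
    (hm : v ^ p ^ m = 1) : v = 1 := by
  have hp : p.Prime := Fact.out
  have h1 : ∀ n : ℕ, x ^ n * q * (x ^ n)⁻¹ = v ^ n * q := by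
    intro n
    induction n with
    | zero => simp
    | succ n ih =>
      have h2 : x * v ^ n = v ^ n * x := by
        have h3 : Commute x v := hxv
        exact (h3.pow_right n).eq
      calc x ^ (n + 1) * q * (x ^ (n + 1))⁻¹ = x * (x ^ n * q * (x ^ n)⁻¹) * x⁻¹ := by
            rw [pow_succ']
            group
        _ = x * (v ^ n * q) * x⁻¹ := by rw [ih]
        _ = (x * v ^ n) * q * x⁻¹ := by simp only [mul_assoc]
        _ = (v ^ n * x) * q * x⁻¹ := by rw [h2]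
        _ = v ^ n * (x * q * x⁻¹) := by simp only [mul_assoc]
        _ = v ^ (n + 1) * q := by rw [hv, pow_succ, mul_assoc]
  have h2 := h1 (orderOf x)
  rw [pow_orderOf_eq_one, one_mul, inv_one, mul_one] at h2
  have h3 : v ^ orderOf x = 1 := by
    have h4 : 1 * q = v ^ orderOf x * q := by rw [one_mul]; exact h2
    exact (mul_right_cancel h4).symm
  have h4 : orderOf v ∣ p ^ m := orderOf_dvd_of_pow_eq_one hm
  have h5 : orderOf v ∣ orderOf x := orderOf_dvd_of_pow_eq_one h3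
  obtain ⟨j, -, hj⟩ := (Nat.dvd_prime_pow hp).1 h4
  rcases j with _ | j
  · rw [pow_zero] at hj
    exact orderOf_eq_one_iff.1 hj
  · exfalso
    apply hx
    refine dvd_trans ?_ h5
    rw [hj]
    exact dvd_pow_self p (Nat.succ_ne_zero j)

/-- a nontrivial p-subgroup normalized by a p-subgroup contains a nontrivial element commuting with it -/
theorem exists_comm {V Q : Subgroup A} (hV : IsPGroup p V) (hQ : IsPGroup p Q)
    (hQV : Q ≤ Subgroup.normalizer (V : Set A)) (hV1 : V ≠ ⊥) :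
    ∃ v ∈ V, v ≠ 1 ∧ ∀ q ∈ Q, q * v = v * q := by
  classical
  have hp : p.Prime := Fact.out
  have : Fintype A := Fintype.ofFinite A
  let act : MulAction Q V :=
    { smul := fun q v => ⟨q * v * (q : A)⁻¹, (Subgroup.mem_normalizer_iff.1 (hQV q.2) v).1 v.2⟩
      one_smul := fun v => by
        apply Subtype.ext
        change ((1 : Q) : A) * v * ((1 : Q) : A)⁻¹ = v
        simp
      mul_smul := fun q r v => by
        apply Subtype.ext
        change ((q * r : Q) : A) * v * ((q * r : Q) : A)⁻¹ = q * (r * v * (r : A)⁻¹) * (q : A)⁻¹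
        rw [Subgroup.coe_mul]
        group }
  obtain ⟨n, hn⟩ := IsPGroup.iff_card.1 hV
  have hdvd : p ∣ Nat.card V := by
    rcases n with _ | n
    · rw [pow_zero] at hn
      exact absurd (Subgroup.card_eq_one.1 hn) hV1
    · rw [hn]
      exact dvd_pow_self p (Nat.succ_ne_zero n)
  have h1 : (1 : V) ∈ MulAction.fixedPoints Q V := by
    intro q
    apply Subtype.ext
    change (q : A) * ((1 : V) : A) * (q : A)⁻¹ = ((1 : V) : A)
    simp
  obtain ⟨v, hv, hv1⟩ := hQ.exists_fixed_point_of_prime_dvd_card_of_fixed_point V hdvd h1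
  refine ⟨v, v.2, fun h => hv1 (Subtype.ext h.symm), fun q hq => ?_⟩
  have h2 := congrArg Subtype.val (hv ⟨q, hq⟩)
  change q * (v : A) * q⁻¹ = v at h2
  calc q * (v : A) = q * v * q⁻¹ * q := by group
    _ = v * q := by rw [h2]

end

end KxaAux

open KxaAux

section
variable {p : ℕ} {A : Type*} [Group A] [Finite A] [Fact p.Prime]

theorem supp_cen {G : Subgroup A} (hG : G.Normal) {σ : Finset (Subgroup A)} {S Q₁ : Subgroup A}
    (hσ : ∀ Q ∈ σ, Q₁ ≤ Q ∧ Q ≤ S) (hS : IsPGroup p S) (hSσ : S ∈ σ) (hQ₁ : Q₁ ∈ σ)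
    (hsup : S ≤ G ⊔ Q₁) (hcom : ∀ s ∈ S ⊓ G, ∀ t ∈ S ⊓ G, s * t = t * s)
    {x : A} (hx : Preg p x) (hxG : x ∈ G) (hxσ : ∀ Q ∈ σ, x ∈ Subgroup.normalizer (Q : Set A))
    (hxT : ∀ t ∈ S ⊓ G, (∀ Q ∈ σ, t ∈ Subgroup.normalizer (Q : Set A)) → x * t = t * x) :
    x ∈ Subgroup.centralizer (S : Set A) := by
  have hQS : Q₁ ≤ S := (hσ Q₁ hQ₁).2
  -- elements of members of the chain
  have hdec : ∀ Q ∈ σ, ∀ g ∈ Q, ∃ q ∈ Q₁, ∃ t ∈ S ⊓ G, t ∈ Q ∧ g = t * q := by
    intro Q hQ g hg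
    have h1 : g ∈ G ⊔ Q₁ := hsup ((hσ Q hQ).2 hg)
    obtain ⟨t, ht, q, hq, rfl⟩ := Subgroup.mem_sup_of_normal_left.1 h1
    have htQ : t ∈ Q := by
      have h2 := Q.mul_mem hg (Q.inv_mem ((hσ Q hQ).1 hq))
      rwa [mul_inv_cancel_right] at h2
    exact ⟨q, hq, t, Subgroup.mem_inf.2 ⟨(hσ Q hQ).2 htQ, ht⟩, htQ, rfl⟩
  have hpow : ∀ t ∈ S, ∃ m : ℕ, t ^ p ^ m = 1 := by
    intro t ht
    obtain ⟨m, hm⟩ := hS ⟨t, ht⟩
    exact ⟨m, congrArg Subtype.val hm⟩
  -- `x` centralizes `Q₁`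
  have hx1 : ∀ q ∈ Q₁, x * q = q * x := by
    intro q hq
    have h1 : x * q * x⁻¹ ∈ Q₁ := (Subgroup.mem_normalizer_iff.1 (hxσ Q₁ hQ₁) q).1 hq
    have h2 : x * q * x⁻¹ * q⁻¹ ∈ Q₁ := Q₁.mul_mem h1 (Q₁.inv_mem hq)
    have h3 : x * q * x⁻¹ * q⁻¹ ∈ G := by
      have h4 : q * x⁻¹ * q⁻¹ ∈ G := hG.conj_mem _ (G.inv_mem hxG) q
      have h5 := G.mul_mem hxG h4
      have h6 : x * (q * x⁻¹ * q⁻¹) = x * q * x⁻¹ * q⁻¹ := by group
      rwa [h6] at h5
    obtain ⟨m, hm⟩ := hpow _ (hQS h2)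
    have h4 := hxT _ (Subgroup.mem_inf.2 ⟨hQS h2, h3⟩)
      (fun Q hQ => Subgroup.le_normalizer ((hσ Q hQ).1 h2))
    have h5 := triv hx (q := q) (v := x * q * x⁻¹ * q⁻¹) (by group) h4 hm
    calc x * q = x * q * x⁻¹ * q⁻¹ * (q * x) := by group
      _ = q * x := by rw [h5, one_mul]
  -- `x` centralizes `S ∩ G`
  have hxS := Subgroup.mem_normalizer_iff.1 (hxσ S hSσ)
  have hxin : ∀ t ∈ S ⊓ G, x * t * x⁻¹ ∈ S ⊓ G := fun t ht =>
    Subgroup.mem_inf.2 ⟨(hxS t).1 (Subgroup.mem_inf.1 ht).1, hG.conj_mem _ (Subgroup.mem_inf.1 ht).2 x⟩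
  let V : Subgroup A :=
    { carrier := {v | ∃ t ∈ S ⊓ G, v = x * t * x⁻¹ * t⁻¹}
      mul_mem' := by
        rintro _ _ ⟨s, hs, rfl⟩ ⟨t, ht, rfl⟩
        refine ⟨s * t, (S ⊓ G).mul_mem hs ht, ?_⟩
        have h1 := hcom _ ((S ⊓ G).inv_mem hs) _
          ((S ⊓ G).mul_mem (hxin t ht) ((S ⊓ G).inv_mem ht))
        calc x * s * x⁻¹ * s⁻¹ * (x * t * x⁻¹ * t⁻¹)
            = x * s * x⁻¹ * (s⁻¹ * (x * t * x⁻¹ * t⁻¹)) := by group
          _ = x * s * x⁻¹ * ((x * t * x⁻¹ * t⁻¹) * s⁻¹) := by rw [h1]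
          _ = x * (s * t) * x⁻¹ * (s * t)⁻¹ := by group
      one_mem' := ⟨1, (S ⊓ G).one_mem, by group⟩
      inv_mem' := by
        rintro _ ⟨s, hs, rfl⟩
        refine ⟨s⁻¹, (S ⊓ G).inv_mem hs, ?_⟩
        have h1 := hcom _ hs _ ((S ⊓ G).inv_mem (hxin s hs))
        calc (x * s * x⁻¹ * s⁻¹)⁻¹ = s * (x * s * x⁻¹)⁻¹ := by group
          _ = (x * s * x⁻¹)⁻¹ * s := h1
          _ = x * s⁻¹ * x⁻¹ * s⁻¹⁻¹ := by group }
  have hVS : V ≤ S ⊓ G := by
    rintro _ ⟨t, ht, rfl⟩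
    exact (S ⊓ G).mul_mem (hxin t ht) ((S ⊓ G).inv_mem ht)
  have hQV : Q₁ ≤ Subgroup.normalizer (V : Set A) := by
    have key : ∀ q ∈ Q₁, ∀ v ∈ V, q * v * q⁻¹ ∈ V := by
      rintro q hq _ ⟨t, ht, rfl⟩
      refine ⟨q * t * q⁻¹, Subgroup.mem_inf.2 ⟨?_, hG.conj_mem _ (Subgroup.mem_inf.1 ht).2 q⟩, ?_⟩
      · exact S.mul_mem (S.mul_mem (hQS hq) (Subgroup.mem_inf.1 ht).1) (S.inv_mem (hQS hq))
      · have h1 := hx1 q hq
        have h2 : q⁻¹ * x⁻¹ = x⁻¹ * q⁻¹ := by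
          have h3 := congrArg (fun z => z⁻¹) h1
          simpa using h3
        calc q * (x * t * x⁻¹ * t⁻¹) * q⁻¹ = (q * x) * t * x⁻¹ * t⁻¹ * q⁻¹ := by group
          _ = (x * q) * t * x⁻¹ * t⁻¹ * q⁻¹ := by rw [h1]
          _ = x * q * t * (x⁻¹ * q⁻¹) * q * t⁻¹ * q⁻¹ := by group
          _ = x * q * t * (q⁻¹ * x⁻¹) * q * t⁻¹ * q⁻¹ := by rw [h2]
          _ = x * (q * t * q⁻¹) * x⁻¹ * (q * t * q⁻¹)⁻¹ := by group
    intro q hq
    rw [Subgroup.mem_normalizer_iff]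
    intro v
    refine ⟨key q hq v, fun h => ?_⟩
    have h1 := key q⁻¹ (Q₁.inv_mem hq) _ h
    have h2 : q⁻¹ * (q * v * q⁻¹) * q⁻¹⁻¹ = v := by group
    rwa [h2] at h1
  have hV1 : V = ⊥ := by
    by_contra hne
    obtain ⟨v, hv, hv1, hvq⟩ := exists_comm (hS.to_le (hVS.trans inf_le_left))
      (hS.to_le hQS) hQV hne
    apply hv1
    have hvT := hVS hv
    have hvc : ∀ Q ∈ σ, v ∈ Subgroup.normalizer (Q : Set A) := by
      intro Q hQ
      apply Subgroup.centralizer_le_normalizer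
      rw [Subgroup.mem_centralizer_iff]
      intro g hg
      obtain ⟨q, hq, t, ht, -, rfl⟩ := hdec Q hQ g hg
      calc t * q * v = t * (q * v) := mul_assoc _ _ _
        _ = t * (v * q) := by rw [hvq q hq]
        _ = t * v * q := (mul_assoc _ _ _).symm
        _ = v * t * q := by rw [hcom t ht v hvT]
        _ = v * (t * q) := mul_assoc _ _ _
    have h1 := hxT v hvT hvc
    obtain ⟨t, ht, rfl⟩ := hv
    obtain ⟨m, hm⟩ := hpow _ (hVS.trans inf_le_left (show _ ∈ V from ⟨t, ht, rfl⟩))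
    exact triv hx (q := t) (by group) h1 hm
  have hx2 : ∀ t ∈ S ⊓ G, x * t = t * x := by
    intro t ht
    have h1 : x * t * x⁻¹ * t⁻¹ ∈ V := ⟨t, ht, rfl⟩
    rw [hV1, Subgroup.mem_bot] at h1
    calc x * t = x * t * x⁻¹ * t⁻¹ * (t * x) := by group
      _ = t * x := by rw [h1, one_mul]
  rw [Subgroup.mem_centralizer_iff]
  intro g hg
  obtain ⟨q, hq, t, ht, -, rfl⟩ := hdec S hSσ g hg
  calc t * q * x = t * (q * x) := mul_assoc _ _ _
    _ = t * (x * q) := by rw [hx1 q hq]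
    _ = (t * x) * q := (mul_assoc _ _ _).symm
    _ = (x * t) * q := by rw [hx2 t ht]
    _ = x * (t * q) := mul_assoc _ _ _

end

end Pool.Agent.Lib.P0c8ca5.Kk
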