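import Mathlib
import Pool.Agent.Lib.P0c8ca5Kk.Kx
import Pool.Agent.Lib.P0c8ca5Kk.Kxa
import Pool.Agent.Lib.P0c8ca5V.TOsi
import Pool.Agent.Lib.P0c8ca5N.DefW

/-!
# Kk.Kxb: Navarro's equality from the weight conjecture for blocks with large abelian defect groups

`G` is normal in `A`, `A / G` a p-group, `e` a block of `G` which is invariant under `A`, `P` a defect group of `e`
as a block of `A`, `P ∩ G` is abelian and its elements of order `p` are `n`-th powers of elements of `P ∩ G` which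
commute with `P`.

For a chain `σ` of p-subgroups `Q` of `A` with `G Q = A` with largest member `S` and a block `b` of `H = N_G(σ)` with
`b Br_S(e) ≠ 0`: `b` is supported in `C(S)` (`chain_supp`, from `supp_cen`), so there is a block `c` of `C(S)` with
`b c = c` and `Br_S(e) c = c`; `exists_top` gives a defect group `P'` of `e` above `S` such that `Br_Z(b) ≠ 0` for all
`Z ≤ Z(P') ∩ G` (`chain_top`). So `b` has a defect group `D` which contains `Z(P') ∩ G`; the elements of order `p` of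
`P' ∩ G` are in `Z(P') ∩ G ≤ D`, and `D` is contained in another conjugate of `P ∩ G`; comparing the numbers of the
elements of order `p`: those of `D` are `n`-th powers in `D` (`chain_dfg`).
-/

set_option autoImplicit false
set_option linter.unusedSectionVars false

namespace Pool.Agent.Lib.P0c8ca5.Kk

open MonoidAlgebra Ex Rk KgAux KxAux

section
variable {p : ℕ} {k : Type*} [Field k] {A : Type*} [Group A] [Fintype A]
variable [Fact p.Prime] [CharP k p] [IsAlgClosed k]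
variable {b c e : MonoidAlgebra k A} {G H S : Subgroup A} {σ : Finset (Subgroup A)}

namespace KxbAux

theorem osima_sub (hb : IsBlock H b) {x : A} (hx : b.coeff x ≠ 0) : Preg p x := by
  have hxH : x ∈ H := hb.suppIn x hx
  have hd := dn_isBlock hb
  have h1 : (dn H b).coeff ⟨x, hxH⟩ ≠ 0 := hx
  have h2 : Preg p (⟨x, hxH⟩ : ↥H) := osima (p := p) hd.mem hd.idem h1
  intro h
  apply h2
  rwa [← Subgroup.orderOf_coe]

theorem mem_H {x : A} (hx : x ∈ G ⊓ stab ⊤ σ) :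
    x ∈ G ∧ ∀ Q ∈ σ, x ∈ Subgroup.normalizer (Q : Set A) :=
  ⟨(Subgroup.mem_inf.1 hx).1, fun Q hQ => (mem_stab.1 (Subgroup.mem_inf.1 hx).2).2 Q hQ⟩

theorem mem_H' {x : A} (hxG : x ∈ G) (h : ∀ Q ∈ σ, x ∈ Subgroup.normalizer (Q : Set A)) :
    x ∈ G ⊓ stab ⊤ σ := Subgroup.mem_inf.2 ⟨hxG, mem_stab.2 ⟨Subgroup.mem_top x, h⟩⟩

end KxbAux

open KxbAux

/-- **the blocks of the stabilizers of the chains are supported in `C(S)`** -/
theorem chain_supp (hG : G.Normal) (hne : σ.Nonempty)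
    (hσ : IsChain (· ≤ ·) (σ : Set (Subgroup A))) (hσS : ∀ Q ∈ σ, Q ∈ Supp p G ⊤)
    (hcom : ∀ s ∈ σ.sup id ⊓ G, ∀ t ∈ σ.sup id ⊓ G, s * t = t * s)
    (hb : IsBlock (G ⊓ stab ⊤ σ) b) : SuppIn (CD (σ.sup id)) b := by
  set S := σ.sup id with hSdef
  have hSσ : S ∈ σ := sup_mem_chain hne hσ
  obtain ⟨Q₁, hQ₁, hmin⟩ := exists_least hne hσ
  have hSp : IsPGroup p S := (hσS S hSσ).2.1
  -- the intersection of `S` with the stabilizer
  have hMp : IsPGroup p (S ⊓ (G ⊓ stab ⊤ σ) : Subgroup A) := hSp.to_le inf_le_left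
  have hMN : G ⊓ stab ⊤ σ ≤ Subgroup.normalizer ((S ⊓ (G ⊓ stab ⊤ σ) : Subgroup A) : Set A) := by
    intro x hx
    have hxS := (mem_H hx).2 S hSσ
    rw [Subgroup.mem_normalizer_iff] at hxS ⊢
    intro t
    change (t ∈ S ∧ t ∈ G ⊓ stab ⊤ σ) ↔ (x * t * x⁻¹ ∈ S ∧ x * t * x⁻¹ ∈ G ⊓ stab ⊤ σ)
    have hxSt : x * t * x⁻¹ ∈ S ↔ t ∈ S := (hxS t).symm
    rw [hxSt]
    refine and_congr_right fun _ => ?_
    constructor
    · intro ht
      exact Subgroup.mul_mem _ (Subgroup.mul_mem _ hx ht) (Subgroup.inv_mem _ hx)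
    · intro ht
      have h1 := Subgroup.mul_mem _ (Subgroup.mul_mem _ (Subgroup.inv_mem _ hx) ht) hx
      have h2 : x⁻¹ * (x * t * x⁻¹) * x = t := by group
      rwa [h2] at h1
  have hsup := supp_CD hMp inf_le_right hMN hb.mem hb.idem
  intro x hx
  have hxH := hb.suppIn x hx
  have hxM : x ∈ CD (S ⊓ (G ⊓ stab ⊤ σ)) := by
    by_contra h
    apply hx
    rw [← hsup]
    exact coeff_resS_of_notMem _ h
  refine supp_cen hG (S := S) (Q₁ := Q₁) (p := p)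
    (fun Q hQ => ⟨hmin Q hQ, Finset.le_sup (f := id) hQ⟩) hSp hSσ hQ₁
    (by rw [(hσS Q₁ hQ₁).2.2]; exact le_top) hcom
    (osima_sub hb hx) (mem_H hxH).1 (mem_H hxH).2 ?_
  intro t ht htσ
  have h1 : t ∈ S ⊓ (G ⊓ stab ⊤ σ) :=
    Subgroup.mem_inf.2 ⟨(Subgroup.mem_inf.1 ht).1, mem_H' (Subgroup.mem_inf.1 ht).2 htσ⟩
  exact (Subgroup.mem_centralizer_iff.1 hxM t h1).symm

/-- **a defect group above the chain whose centre is visible in the block `b`** -/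
theorem chain_top (hG : G.Normal) (hp : ∀ x : A, ∃ n : ℕ, x ^ p ^ n ∈ G) (he : IsBlock G e)
    (hinv : InvBy ⊤ e) (hne : σ.Nonempty)
    (hσ : IsChain (· ≤ ·) (σ : Set (Subgroup A))) (hσS : ∀ Q ∈ σ, Q ∈ Supp p G ⊤)
    (hcom : ∀ s ∈ σ.sup id ⊓ G, ∀ t ∈ σ.sup id ⊓ G, s * t = t * s)
    (hb : IsBlock (G ⊓ stab ⊤ σ) b) (hbe : b * cS (σ.sup id) e ≠ 0) :
    ∃ P : Subgroup A, IsDefectGroup p (⊤ : Subgroup A) e P ∧ σ.sup id ≤ P ∧
      ∀ Z : Subgroup A, Z ≤ P → Z ≤ CD P → HasBr Z b := by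
  have hbs := chain_supp hG hne hσ hσS hcom hb
  set S := σ.sup id with hSdef
  have hSσ : S ∈ σ := sup_mem_chain hne hσ
  obtain ⟨Q₁, hQ₁, hmin⟩ := exists_least hne hσ
  have hSp : IsPGroup p S := (hσS S hSσ).2.1
  have heT : IsBlock (⊤ : Subgroup A) e := isBlock_up' le_top
    (by rw [Subgroup.normalizer_eq_top]) (fun x _ => hp x) he hinv
  have hQS : Q₁ ≤ S := hmin S hSσ
  -- `b` is invariant under `C(S)`
  have hbS : InvBy S b := invBy_of_supp hbs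
  have hbC : InvBy (CD S) b := by
    intro x hx
    have h1 : x ∈ G ⊔ Q₁ := by
      rw [(hσS Q₁ hQ₁).2.2]
      exact Subgroup.mem_top x
    obtain ⟨g, hg, q, hq, rfl⟩ := Subgroup.mem_sup_of_normal_left.1 h1
    have hgH : g ∈ G ⊓ stab ⊤ σ := by
      refine mem_H' hg fun Q hQ => ?_
      have hQS' : Q ≤ S := Finset.le_sup (f := id) hQ
      have h2 : g * q ∈ Subgroup.normalizer (Q : Set A) :=
        Subgroup.centralizer_le_normalizer _ (Subgroup.centralizer_le hQS' hx)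
      have h3 : q ∈ Subgroup.normalizer (Q : Set A) := Subgroup.le_normalizer (hmin Q hQ hq)
      have h4 := Subgroup.mul_mem _ h2 (Subgroup.inv_mem _ h3)
      rwa [mul_inv_cancel_right] at h4
    intro y
    have h5 : g * q * y * (g * q)⁻¹ = g * (q * y * q⁻¹) * g⁻¹ := by group
    rw [h5, hb.invBy g hgH, hbS q (hQS hq)]
  have hbmem : b ∈ fixAlg k (CD S) (CD S) := mem_fixAlg.2 ⟨hbs, hbC⟩
  obtain ⟨c, hc, hbc⟩ := exists_blk hbmem hb.idem hb.ne_zero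
  -- `Br_S(e) b = b`
  have hctx : Ctx p ⊤ (stab ⊤ σ) S e :=
    { hHX := inf_le_left
      hS := hSp
      hHS := fun x hx => (mem_stab.1 hx).2 S hSσ
      hCS := by
        intro x hx
        rw [mem_stab]
        refine ⟨hx.1, fun Q hQ => ?_⟩
        have hQS : Q ≤ S := Finset.le_sup (f := id) hQ
        exact Subgroup.centralizer_le_normalizer _ (Subgroup.centralizer_le hQS hx.2)
      supp := he.suppIn.mono le_top
      inv := hinv }
  have hcH : SuppIn (stab ⊤ σ) (cS S e) := hctx.cS_supp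
  have hcK : SuppIn (G ⊓ stab ⊤ σ) (cS S e) := by
    intro x hx
    refine Subgroup.mem_inf.2 ⟨?_, hcH x hx⟩
    apply he.suppIn
    intro h0
    apply hx
    rw [coeff_resS]
    split_ifs
    · exact h0
    · rfl
  have hcinvK : InvBy (G ⊓ stab ⊤ σ) (cS S e) := hctx.cS_inv.mono inf_le_right
  have hcc : cS S e * cS S e = cS S e := hctx.cS_idem le_top he.idem
  have hcmem : cS S e ∈ fixAlg k (G ⊓ stab ⊤ σ) (G ⊓ stab ⊤ σ) := mem_fixAlg.2 ⟨hcK, hcinvK⟩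
  have hcomm : cS S e * b = b * cS S e := (commute_of hcK hb.invBy)
  have hmul : cS S e * b = b := by
    rcases hb.mul_eq hcmem hcc with h | h
    · rw [hcomm] at h; exact absurd h hbe
    · exact h
  have hec : resS (CD S : Set A) e * c = c := by
    calc resS (CD S : Set A) e * c = cS S e * (b * c) := by rw [hbc]
      _ = cS S e * b * c := (mul_assoc _ _ _).symm
      _ = c := by rw [hmul, hbc]
  obtain ⟨P, hP, hSP, hZ⟩ := exists_top heT hSp hc hec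
  refine ⟨P, hP, hSP, fun Z hZP hZC => ?_⟩
  have hZS : Z ≤ CD S := hZC.trans (Subgroup.centralizer_le hSP)
  have hZp : IsPGroup p Z := hP.isPGroup.to_le hZP
  obtain ⟨x, hx, hcx⟩ := hZ Z hZP hZC
  have hZS' : Z ≤ S ⊔ Z := le_sup_right
  have hcZ : HasBr Z c := ⟨x, Subgroup.centralizer_le hZS' hx, hcx⟩
  apply hasBr_of_ne
  intro h0
  have h1 := resS_mul hZp (hbC.mono hZS) (hc.invBy.mono hZS)
  rw [hbc, h0, zero_mul] at h1
  exact ne_of_hasBr hcZ h1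

/-- **the defect groups of the blocks of the stabilizers of the chains** -/
theorem chain_dfg (hG : G.Normal) (hp : ∀ x : A, ∃ n : ℕ, x ^ p ^ n ∈ G) (he : IsBlock G e)
    (hinv : InvBy ⊤ e) {P : Subgroup A} (hP : IsDefectGroup p (⊤ : Subgroup A) e P)
    (hcom : ∀ x ∈ P ⊓ G, ∀ y ∈ P ⊓ G, x * y = y * x) {n r : ℕ}
    (hr : Nat.card {x : A // x ∈ P ⊓ G ∧ x ^ p = 1} ≤ p ^ r)
    (hbig : ∀ x ∈ P ⊓ G, x ^ p = 1 → ∃ y ∈ P ⊓ G, y ∈ CD P ∧ y ^ n = x)
    (hne : σ.Nonempty) (hσ : IsChain (· ≤ ·) (σ : Set (Subgroup A)))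
    (hσS : ∀ Q ∈ σ, Q ∈ Supp p G ⊤)
    (hb : IsBlock (G ⊓ stab ⊤ σ) b) (hbe : b * cS (σ.sup id) e ≠ 0) :
    ∃ D : Subgroup A, IsDefectGroup p (G ⊓ stab ⊤ σ) b D ∧ (∀ x ∈ D, ∀ y ∈ D, x * y = y * x) ∧
      Nat.card {x : A // x ∈ D ∧ x ^ p = 1} ≤ p ^ r ∧
      ∀ x ∈ D, x ^ p = 1 → ∃ y ∈ D, y ^ n = x := by
  classical
  have heT : IsBlock (⊤ : Subgroup A) e := isBlock_up' le_top
    (by rw [Subgroup.normalizer_eq_top]) (fun x _ => hp x) he hinv
  -- transport of the hypotheses to the conjugates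
  have hGc : ∀ g : A, cg g G = G := fun g => cg_eq_self_iff.2 (by
    rw [Subgroup.normalizer_eq_top]
    exact Subgroup.mem_top g)
  have hmem : ∀ g x : A, x ∈ cg g P ⊓ G ↔ g⁻¹ * x * g ∈ P ⊓ G := by
    intro g x
    conv_lhs => rw [← hGc g]
    rw [Subgroup.mem_inf, mem_cg, mem_cg, Subgroup.mem_inf]
  have hpowc : ∀ (g x : A) (m : ℕ), (g⁻¹ * x * g) ^ m = g⁻¹ * x ^ m * g := by
    intro g x m
    have h1 := conj_pow (a := g⁻¹) (b := x) (i := m)
    rwa [inv_inv] at h1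
  have hone : ∀ (g x : A), g⁻¹ * x * g = 1 ↔ x = 1 := by
    intro g x
    constructor
    · intro h
      calc x = g * (g⁻¹ * x * g) * g⁻¹ := by group
        _ = 1 := by rw [h]; group
    · rintro rfl
      group
  have hcomc : ∀ g : A, ∀ x ∈ cg g P ⊓ G, ∀ y ∈ cg g P ⊓ G, x * y = y * x := by
    intro g x hx y hy
    have h1 := hcom _ ((hmem g x).1 hx) _ ((hmem g y).1 hy)
    calc x * y = g * ((g⁻¹ * x * g) * (g⁻¹ * y * g)) * g⁻¹ := by group
      _ = g * ((g⁻¹ * y * g) * (g⁻¹ * x * g)) * g⁻¹ := by rw [h1]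
      _ = y * x := by group
  have hcardc : ∀ g : A, Nat.card {x : A // x ∈ cg g P ⊓ G ∧ x ^ p = 1}
      = Nat.card {x : A // x ∈ P ⊓ G ∧ x ^ p = 1} := by
    intro g
    refine Nat.card_congr ⟨fun x => ⟨g⁻¹ * x.1 * g, (hmem g x.1).1 x.2.1, ?_⟩,
      fun x => ⟨g * x.1 * g⁻¹, (hmem g _).2 ?_, ?_⟩, fun x => ?_, fun x => ?_⟩
    · rw [hpowc, x.2.2]
      group
    · have h1 : g⁻¹ * (g * x.1 * g⁻¹) * g = x.1 := by group
      rw [h1]
      exact x.2.1
    · rw [conj_pow, x.2.2]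
      group
    · apply Subtype.ext
      change g * (g⁻¹ * x.1 * g) * g⁻¹ = x.1
      group
    · apply Subtype.ext
      change g⁻¹ * (g * x.1 * g⁻¹) * g = x.1
      group
  have hbigc : ∀ g : A, ∀ x ∈ cg g P ⊓ G, x ^ p = 1 →
      ∃ y ∈ cg g P ⊓ G, y ∈ CD (cg g P) ∧ y ^ n = x := by
    intro g x hx hxp
    obtain ⟨y, hy, hyC, hyn⟩ := hbig _ ((hmem g x).1 hx) (by rw [hpowc, hxp]; group)
    refine ⟨g * y * g⁻¹, (hmem g _).2 ?_, ?_, ?_⟩
    · have h1 : g⁻¹ * (g * y * g⁻¹) * g = y := by group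
      rw [h1]
      exact hy
    · rw [Subgroup.mem_centralizer_iff]
      intro z hz
      have hz' : g⁻¹ * z * g ∈ P := mem_cg.1 hz
      have h1 := Subgroup.mem_centralizer_iff.1 hyC _ hz'
      calc z * (g * y * g⁻¹) = g * ((g⁻¹ * z * g) * y) * g⁻¹ := by group
        _ = g * (y * (g⁻¹ * z * g)) * g⁻¹ := by rw [h1]
        _ = g * y * g⁻¹ * z := by group
    · rw [conj_pow, hyn]
      group
  -- the largest member of the chain
  have hSσ : σ.sup id ∈ σ := sup_mem_chain hne hσ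
  have hSe : HasBr (σ.sup id) e := by
    apply hasBr_of_ne
    intro h0
    apply hbe
    have h1 : cS (σ.sup id) e = 0 := h0
    rw [h1, mul_zero]
  have hcomS : ∀ s ∈ σ.sup id ⊓ G, ∀ t ∈ σ.sup id ⊓ G, s * t = t * s := by
    obtain ⟨P₁, hP₁, hSP₁⟩ := exists_defect (p := p) (N := ⊤) le_top (hσS _ hSσ).2.1 hSe
    obtain ⟨g, rfl⟩ := defect_conj heT hP hP₁
    intro s hs t ht
    exact hcomc g s ((inf_le_inf_right G hSP₁) hs) t ((inf_le_inf_right G hSP₁) ht)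
  obtain ⟨P', hP', hSP', hZ⟩ := chain_top hG hp he hinv hne hσ hσS hcomS hb hbe
  obtain ⟨g, rfl⟩ := defect_conj heT hP hP'
  -- the centre of `P'`, intersected with `G`
  set Z : Subgroup A := cg g P ⊓ G ⊓ CD (cg g P) with hZdef
  have hZP : Z ≤ cg g P := inf_le_left.trans inf_le_left
  have hZC : Z ≤ CD (cg g P) := inf_le_right
  have hZG : Z ≤ G := inf_le_left.trans inf_le_right
  have hZH : Z ≤ G ⊓ stab ⊤ σ := by
    intro x hx
    refine mem_H' (hZG hx) fun Q hQ => ?_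
    apply Subgroup.centralizer_le_normalizer
    exact Subgroup.centralizer_le ((Finset.le_sup (f := id) hQ).trans hSP') (hZC hx)
  have hZp : IsPGroup p Z := hP'.isPGroup.to_le hZP
  obtain ⟨D, hD, hZD⟩ := exists_defect (p := p) hZH hZp (hZ Z hZP hZC)
  -- `D` is in a conjugate of `P`
  have hDe : HasBr D e :=
    hasBr_of_chain_block le_top he hinv hne hσ hσS hb hbe hD.isPGroup hD.le hD.br
  obtain ⟨P₂, hP₂, hDP₂⟩ := exists_defect (p := p) (N := ⊤) le_top hD.isPGroup hDe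
  obtain ⟨g', rfl⟩ := defect_conj heT hP hP₂
  have hDG : D ≤ G := hD.le.trans inf_le_left
  have hDP : D ≤ cg g' P ⊓ G := le_inf hDP₂ hDG
  have hfin : ∀ B : Subgroup A, ({x : A | x ∈ B ∧ x ^ p = 1} : Set A).Finite :=
    fun _ => Set.toFinite _
  have hsub1 : ({x : A | x ∈ cg g P ⊓ G ∧ x ^ p = 1} : Set A) ⊆ {x : A | x ∈ D ∧ x ^ p = 1} := by
    rintro x ⟨hx, hxp⟩
    obtain ⟨y, hy, hyC, hyn⟩ := hbigc g x hx hxp
    have hyZ : y ∈ Z := Subgroup.mem_inf.2 ⟨hy, hyC⟩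
    refine ⟨hZD ?_, hxp⟩
    rw [← hyn]
    exact Z.pow_mem hyZ n
  have hsub2 : ({x : A | x ∈ D ∧ x ^ p = 1} : Set A) ⊆ {x : A | x ∈ cg g' P ⊓ G ∧ x ^ p = 1} :=
    fun x hx => ⟨hDP hx.1, hx.2⟩
  have hcards : ({x : A | x ∈ cg g' P ⊓ G ∧ x ^ p = 1} : Set A).ncard
      = ({x : A | x ∈ cg g P ⊓ G ∧ x ^ p = 1} : Set A).ncard := by
    have h1 := (hcardc g').trans (hcardc g).symm
    exact h1
  have heq : ({x : A | x ∈ cg g P ⊓ G ∧ x ^ p = 1} : Set A) = {x : A | x ∈ D ∧ x ^ p = 1} := by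
    refine Set.eq_of_subset_of_ncard_le hsub1 ?_ (hfin D)
    rw [← hcards]
    exact Set.ncard_le_ncard hsub2 (hfin _)
  refine ⟨D, hD, fun x hx y hy => hcomc g' x (hDP hx) y (hDP hy), ?_, fun x hx hxp => ?_⟩
  · have h1 : Nat.card {x : A // x ∈ D ∧ x ^ p = 1}
        = Nat.card {x : A // x ∈ cg g P ⊓ G ∧ x ^ p = 1} := by
      have h2 := congrArg Set.ncard heq
      exact h2.symm
    rw [h1, hcardc g]
    exact hr
  · have h1 : x ∈ ({x : A | x ∈ cg g P ⊓ G ∧ x ^ p = 1} : Set A) := by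
      rw [heq]
      exact ⟨hx, hxp⟩
    obtain ⟨y, hy, hyC, hyn⟩ := hbigc g x h1.1 hxp
    exact ⟨y, hZD (Subgroup.mem_inf.2 ⟨hy, hyC⟩), hyn⟩

/-- **Navarro's equality** from the weight conjecture for blocks with large abelian defect groups -/
theorem nav_of_local (hG : G.Normal) (hp : ∀ x : A, ∃ n : ℕ, x ^ p ^ n ∈ G) (he : IsBlock G e)
    (hinv : InvBy ⊤ e) {P : Subgroup A} (hP : IsDefectGroup p (⊤ : Subgroup A) e P)
    (hcom : ∀ x ∈ P ⊓ G, ∀ y ∈ P ⊓ G, x * y = y * x) {n r : ℕ}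
    (hr : Nat.card {x : A // x ∈ P ⊓ G ∧ x ^ p = 1} ≤ p ^ r)
    (hbig : ∀ x ∈ P ⊓ G, x ^ p = 1 → ∃ y ∈ P ⊓ G, y ∈ CD P ∧ y ^ n = x)
    (hK : ∀ (H D : Subgroup A) (b : MonoidAlgebra k A), IsBlock H b → IsDefectGroup p H b D →
      (∀ x ∈ D, ∀ y ∈ D, x * y = y * x) → Nat.card {x : A // x ∈ D ∧ x ^ p = 1} ≤ p ^ r →
      (∀ x ∈ D, x ^ p = 1 → ∃ y ∈ D, y ^ n = x) → NavarroEq p H H b) :
    NavarroEq p G ⊤ e := by
  refine navarro_of_baw le_top (by rw [Subgroup.normalizer_eq_top]) (fun x _ => hp x) he hinv ?_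
  intro σ hne hσ hσS b hb hbe
  obtain ⟨D, hD, h1, h2, h3⟩ := chain_dfg hG hp he hinv hP hcom hr hbig hne hσ hσS hb hbe
  exact hK _ D b hb hD h1 h2 h3

end

end Pool.Agent.Lib.P0c8ca5.Kk
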