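import Mathlib
import Pool.Agent.Lib.P0c8ca5Kk.Kxb
import Pool.Agent.Lib.P0c8ca5Ku.KN
import Pool.Agent.Lib.P0c8ca5Ex.Fin

/-!
# Kk.Kxc: Navarro's equality for blocks with large abelian defect groups, arbitrary inertial quotient

`nav_root`: the hypothesis on the subgroups is formulated for all finite groups, with roots. `nav_large`: Navarro's
equality for `(G, A, e)` if the elements of order `p` of the abelian group `P ∩ G` of rank at most `r` are
`p ^ N`-th powers of elements of `P ∩ G` which commute with `P`, `N = r ^ 3 + r ^ 2 + 2 * r`.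
-/

set_option autoImplicit false
set_option linter.unusedSectionVars false

namespace Pool.Agent.Lib.P0c8ca5.Kk

open MonoidAlgebra Ex Rk KgAux KxAux

universe u v

theorem nav_root {p : ℕ} {k : Type v} [Field k] [Fact p.Prime] [CharP k p] [IsAlgClosed k]
    {A : Type u} [Group A] [Fintype A] {e : MonoidAlgebra k A} {G : Subgroup A}
    (hG : G.Normal) (hp : ∀ x : A, ∃ n : ℕ, x ^ p ^ n ∈ G) (he : IsBlock G e)
    (hinv : InvBy ⊤ e) {P : Subgroup A} (hP : IsDefectGroup p (⊤ : Subgroup A) e P)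
    (hcom : ∀ x ∈ P ⊓ G, ∀ y ∈ P ⊓ G, x * y = y * x) {n r : ℕ}
    (hr : Nat.card {x : A // x ∈ P ⊓ G ∧ x ^ p = 1} ≤ p ^ r)
    (hbig : ∀ x ∈ P ⊓ G, x ^ p = 1 → ∃ y ∈ P ⊓ G, y ∈ CD P ∧ y ^ n = x)
    (hloc : ∀ {B : Type u} [Group B] [Fintype B] {b f : MonoidAlgebra k B} {D : Subgroup B},
      Root p b D f → Nat.card {x : B // x ∈ D ∧ x ^ p = 1} ≤ p ^ r →
      (∀ x ∈ D, x ^ p = 1 → ∃ y ∈ D, x = y ^ n) → gap p (⊤ : Subgroup B) ⊤ b = 0) :
    NavarroEq p G ⊤ e := by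
  refine nav_of_local hG hp he hinv hP hcom hr hbig ?_
  intro H D b hb hD h1 h2 h3
  have : Fintype ↥H := Fintype.ofFinite _
  have hDH : D ≤ H := hD.le
  have hDp := hD.isPGroup
  -- a root
  have hN : H ⊓ CD D ≤ Subgroup.normalizer (D : Set A) :=
    inf_le_right.trans (Subgroup.centralizer_le_normalizer _)
  obtain ⟨f, hf, hbf⟩ := exists_blk (K := H ⊓ CD D) (e := resS (CD D : Set A) b)
    (mem_fixAlg.2 ⟨resS_suppIn' hb.suppIn, invBy_res (hb.invBy.mono inf_le_left) hN⟩)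
    (by rw [← resS_mul hDp (hb.invBy.mono hDH) (hb.invBy.mono hDH), hb.idem])
    (ne_of_hasBr hD.br)
  have hroot := root_dn H hb hD h1 hf hbf
  have hg : gap p (⊤ : Subgroup ↥H) ⊤ (dn H b) = 0 := by
    refine hloc hroot ?_ fun x hx hxp => ?_
    · refine le_trans (Nat.card_le_card_of_injective
        (fun x => (⟨(x.1 : A), Subgroup.mem_subgroupOf.1 x.2.1,
          congrArg Subtype.val x.2.2⟩ : {x : A // x ∈ D ∧ x ^ p = 1})) ?_) h2
      intro x y hxy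
      have h4 : ((x.1 : ↥H) : A) = ((y.1 : ↥H) : A) :=
        congrArg (fun z : {x : A // x ∈ D ∧ x ^ p = 1} => (z : A)) hxy
      exact Subtype.ext (Subtype.ext h4)
    · obtain ⟨y, hy, hyx⟩ := h3 x (Subgroup.mem_subgroupOf.1 hx) (congrArg Subtype.val hxp)
      refine ⟨⟨y, hDH hy⟩, Subgroup.mem_subgroupOf.2 hy, Subtype.ext ?_⟩
      rw [SubmonoidClass.coe_pow]
      exact hyx.symm
  have hHH : ∀ x ∈ H, ∃ m : ℕ, x ^ p ^ m ∈ H := fun x hx => ⟨0, by simpa using hx⟩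
  rw [navarroEq_iff_gap le_rfl Subgroup.le_normalizer hHH hb hb.invBy, ← gap_transport hb]
  exact hg

/-- **Navarro's equality, large abelian `P ∩ G`, arbitrary inertial quotient** -/
theorem nav_large {p : ℕ} {k : Type v} [Field k] [Fact p.Prime] [CharP k p] [IsAlgClosed k]
    {A : Type u} [Group A] [Fintype A] {e : MonoidAlgebra k A} {G : Subgroup A} (hp2 : p ≠ 2)
    (hG : G.Normal) (hp : ∀ x : A, ∃ n : ℕ, x ^ p ^ n ∈ G) (he : IsBlock G e)
    (hinv : InvBy ⊤ e) {P : Subgroup A} (hP : IsDefectGroup p (⊤ : Subgroup A) e P)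
    (hcom : ∀ x ∈ P ⊓ G, ∀ y ∈ P ⊓ G, x * y = y * x) {r : ℕ}
    (hr : Nat.card {x : A // x ∈ P ⊓ G ∧ x ^ p = 1} ≤ p ^ r)
    (hbig : ∀ x ∈ P ⊓ G, x ^ p = 1 →
      ∃ y ∈ P ⊓ G, y ∈ CD P ∧ y ^ p ^ (r ^ 3 + r ^ 2 + 2 * r) = x) :
    NavarroEq p G ⊤ e := by
  refine nav_root hG hp he hinv hP hcom hr hbig ?_
  intro B _ _ b f D hroot hr' hbig'
  refine (Ku.large' hp2 hroot (r := r) (i := r * (r + 1) / 2) hr' (Ku.eN_le_gl hroot hr') ?_).1
  have hm : r ^ 3 + r ^ 2 + 2 * r = 2 * r * (r * (r + 1) / 2 + 1) := by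
    have h2 : 2 * (r * (r + 1) / 2) = r * (r + 1) :=
      Nat.mul_div_cancel' (even_iff_two_dvd.1 (Nat.even_mul_succ_self r))
    calc r ^ 3 + r ^ 2 + 2 * r = r * (r * (r + 1)) + 2 * r := by ring
      _ = r * (2 * (r * (r + 1) / 2)) + 2 * r := by rw [h2]
      _ = _ := by ring
  rw [← hm]
  exact Ku.faith_of_big hroot hbig'

end Pool.Agent.Lib.P0c8ca5.Kk
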