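import Mathlib
import Pool.Agent.Lib.P0c8ca5Kk.Kx
import Pool.Agent.Lib.P0c8ca5Ex.Fg
import Pool.Agent.Lib.P0c8ca5Ex.Loc
import Pool.Agent.Lib.P0c8ca5E.SmallG

/-!
# Kk.Ky: the top of the climbing in a subgroup

`exists_topX`: the statement of `exists_top` for a block `e` of the subgroup `X` of `A`.
-/

set_option autoImplicit false
set_option linter.unusedSectionVars false

namespace Pool.Agent.Lib.P0c8ca5.Kk

open MonoidAlgebra Ex Rk KgAux KxAux

universe u v

section
variable {p : ℕ} {k : Type v} [Field k] {A : Type u} [Group A] [Fintype A]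
variable [Fact p.Prime] [CharP k p] [IsAlgClosed k]
variable {c e : MonoidAlgebra k A} {R X : Subgroup A}

namespace KyAux

theorem dfg_up (he : SuppIn X e) {P : Subgroup ↥X}
    (hP : IsDefectGroup p (⊤ : Subgroup ↥X) (dn X e) P) : IsDefectGroup p X e (P.map X.subtype) := by
  refine ⟨?_, hP.isPGroup.map _, ?_, ?_⟩
  · rintro _ ⟨x, -, rfl⟩
    exact x.2
  · exact Rk.hasBr_up hP.br
  · intro Q hQX hQ hbr hle
    have h1 : Q.subgroupOf X = P := by
      refine hP.max _ le_top (hQ.comap_of_injective X.subtype X.subtype_injective)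
        (Hy.hasBr_dn he hbr) ?_
      intro x hx
      exact Subgroup.mem_subgroupOf.2 (hle ⟨x, hx, rfl⟩)
    rw [← h1, Subgroup.map_subgroupOf_eq_of_le hQX]

end KyAux

open KyAux

theorem exists_topX (he : IsBlock X e) (hRX : R ≤ X) (hR : IsPGroup p R)
    (hc : IsBlock (X ⊓ CD R) c) (hec : resS (CD R : Set A) e * c = c) :
    ∃ P : Subgroup A, IsDefectGroup p X e P ∧ R ≤ P ∧
      ∀ Z : Subgroup A, Z ≤ P → Z ≤ CD P → HasBr (R ⊔ Z) c := by
  have : Fintype ↥X := Fintype.ofFinite _
  have hcs : SuppIn X c := fun x hx => (Subgroup.mem_inf.1 (hc.suppIn x hx)).1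
  have hes : SuppIn X (resS (CD R : Set A) e) := by
    intro x hx
    rw [coeff_resS] at hx
    split_ifs at hx with h1
    · exact he.suppIn x hx
    · exact absurd rfl hx
  obtain ⟨P', hP', hRP', hZ'⟩ := exists_top (A := ↥X) (e := dn X e) (R := R.subgroupOf X)
    (c := dn X c) (dn_isBlock he) (hR.comap_of_injective X.subtype X.subtype_injective)
    (by rw [FinAux.CD_subgroupOf hRX]; exact FinAux.dn_blk inf_le_left hc)
    (by rw [LocAux.resS_dn hRX, ← LocAux.dn_mul hes hcs, hec])
  refine ⟨P'.map X.subtype, dfg_up he.suppIn hP', ?_, ?_⟩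
  · intro x hx
    exact ⟨⟨x, hRX hx⟩, hRP' (Subgroup.mem_subgroupOf.2 hx), rfl⟩
  · intro Z hZP hZC
    have hZX : Z ≤ X := by
      intro z hz
      obtain ⟨y, -, rfl⟩ := hZP hz
      exact y.2
    have h1 : HasBr (R.subgroupOf X ⊔ Z.subgroupOf X) (dn X c) := by
      apply hZ'
      · intro z hz
        obtain ⟨y, hy, hyz⟩ := hZP (Subgroup.mem_subgroupOf.1 hz)
        have h2 : y = z := Subtype.ext hyz
        rwa [← h2]
      · intro z hz
        rw [Subgroup.mem_centralizer_iff]
        intro y hy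
        have h2 := Subgroup.mem_centralizer_iff.1 (hZC (Subgroup.mem_subgroupOf.1 hz)) (y : A)
          ⟨y, hy, rfl⟩
        exact Subtype.ext h2
    have h2 := Rk.hasBr_up h1
    rwa [Subgroup.map_sup, Subgroup.map_subgroupOf_eq_of_le hRX,
      Subgroup.map_subgroupOf_eq_of_le hZX] at h2

end

end Pool.Agent.Lib.P0c8ca5.Kk
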