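import Mathlib
import Pool.Agent.Lib.P0c8ca5Kk.Kyb
import Pool.Agent.Lib.P0c8ca5Kk.Kxc

/-!
# Kk.Kyc: Navarro's equality for all pairs above `G`

`nav_all`: `e` is a block of the normal subgroup `G` of `A`, invariant under `A`, `A / G` a p-group, `P` a defect group
of `e` as a block of `A`, `P ∩ G` abelian of rank at most `r`, and the elements of order `p` of `P ∩ G` are `n`-th powers
of elements of `P ∩ G` which commute with `P`. If the weight conjecture holds for all blocks with an abelian defect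
group `D` of rank at most `r` in which the elements of order `p` are `n`-th powers, then Navarro's equality holds for
`(N, H, e)` for all `G ≤ N ⊴ H`; for `N = H = A` this is the weight conjecture for the block `e` of `A`, with the
defect group `P`, which need not be abelian.
-/

set_option autoImplicit false
set_option linter.unusedSectionVars false

namespace Pool.Agent.Lib.P0c8ca5.Kk

open MonoidAlgebra Ex Rk KgAux KxAux

universe u v

section
variable {p : ℕ} {k : Type v} [Field k] [Fact p.Prime] [CharP k p] [IsAlgClosed k]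
variable {A : Type u} [Group A] [Fintype A]

/-- from the form with roots to the form for subgroups -/
theorem local_of_root {n r : ℕ}
    (hloc : ∀ {B : Type u} [Group B] [Fintype B] {b f : MonoidAlgebra k B} {D : Subgroup B},
      Root p b D f → Nat.card {x : B // x ∈ D ∧ x ^ p = 1} ≤ p ^ r →
      (∀ x ∈ D, x ^ p = 1 → ∃ y ∈ D, x = y ^ n) → gap p (⊤ : Subgroup B) ⊤ b = 0)
    (H D : Subgroup A) (b : MonoidAlgebra k A) (hb : IsBlock H b) (hD : IsDefectGroup p H b D)
    (h1 : ∀ x ∈ D, ∀ y ∈ D, x * y = y * x) (h2 : Nat.card {x : A // x ∈ D ∧ x ^ p = 1} ≤ p ^ r)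
    (h3 : ∀ x ∈ D, x ^ p = 1 → ∃ y ∈ D, y ^ n = x) : NavarroEq p H H b := by
  have : Fintype ↥H := Fintype.ofFinite _
  have hDH : D ≤ H := hD.le
  have hDp := hD.isPGroup
  -- a root
  have hN : H ⊓ CD D ≤ Subgroup.normalizer (D : Set A) :=
    inf_le_right.trans (Subgroup.centralizer_le_normalizer _)
  obtain ⟨f, hf, hbf⟩ := exists_blk (K := H ⊓ CD D) (e := resS (CD D : Set A) b)
    (mem_fixAlg.2 ⟨resS_suppIn' hb.suppIn, invBy_res (hb.invBy.mono inf_le_left) hN⟩)
    (by rw [← resS_mul hDp (hb.invBy.mono hDH) (hb.invBy.mono hDH), hb.idem])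
    (ne_of_hasBr hD.br)
  have hroot := root_dn H hb hD h1 hf hbf
  have hg : gap p (⊤ : Subgroup ↥H) ⊤ (dn H b) = 0 := by
    refine hloc hroot ?_ fun x hx hxp => ?_
    · refine le_trans (Nat.card_le_card_of_injective
        (fun x => (⟨(x.1 : A), Subgroup.mem_subgroupOf.1 x.2.1,
          congrArg Subtype.val x.2.2⟩ : {x : A // x ∈ D ∧ x ^ p = 1})) ?_) h2
      intro x y hxy
      have h4 : ((x.1 : ↥H) : A) = ((y.1 : ↥H) : A) :=
        congrArg (fun z : {x : A // x ∈ D ∧ x ^ p = 1} => (z : A)) hxy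
      exact Subtype.ext (Subtype.ext h4)
    · obtain ⟨y, hy, hyx⟩ := h3 x (Subgroup.mem_subgroupOf.1 hx) (congrArg Subtype.val hxp)
      refine ⟨⟨y, hDH hy⟩, Subgroup.mem_subgroupOf.2 hy, Subtype.ext ?_⟩
      rw [SubmonoidClass.coe_pow]
      exact hyx.symm
  have hHH : ∀ x ∈ H, ∃ m : ℕ, x ^ p ^ m ∈ H := fun x hx => ⟨0, by simpa using hx⟩
  rw [navarroEq_iff_gap le_rfl Subgroup.le_normalizer hHH hb hb.invBy, ← gap_transport hb]
  exact hg

/-- **Navarro's equality for all pairs above `G`** -/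
theorem nav_all {e : MonoidAlgebra k A} {G : Subgroup A}
    (hG : G.Normal) (hp : ∀ x : A, ∃ n : ℕ, x ^ p ^ n ∈ G) (he : IsBlock G e)
    (hinv : InvBy ⊤ e) {P : Subgroup A} (hP : IsDefectGroup p (⊤ : Subgroup A) e P)
    (hcom : ∀ x ∈ P ⊓ G, ∀ y ∈ P ⊓ G, x * y = y * x) {n r : ℕ}
    (hr : Nat.card {x : A // x ∈ P ⊓ G ∧ x ^ p = 1} ≤ p ^ r)
    (hbig : ∀ x ∈ P ⊓ G, x ^ p = 1 → ∃ y ∈ P ⊓ G, y ∈ CD P ∧ y ^ n = x)
    (hloc : ∀ {B : Type u} [Group B] [Fintype B] {b f : MonoidAlgebra k B} {D : Subgroup B},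
      Root p b D f → Nat.card {x : B // x ∈ D ∧ x ^ p = 1} ≤ p ^ r →
      (∀ x ∈ D, x ^ p = 1 → ∃ y ∈ D, x = y ^ n) → gap p (⊤ : Subgroup B) ⊤ b = 0) :
    ∀ N H : Subgroup A, G ≤ N → N ≤ H → H ≤ Subgroup.normalizer (N : Set A) →
      NavarroEq p N H e :=
  nav_all_of_local hG hp he hinv hP hcom hr hbig (local_of_root hloc)

end

end Pool.Agent.Lib.P0c8ca5.Kk
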