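import Mathlib
import Pool.Agent.Lib.P0c8ca5Kk.Kyc
import Pool.Agent.Lib.P0c8ca5Ex.Fu

/-!
# Kk.Kz: Navarro's equality from the weight conjecture for blocks with defect groups between `C_D(P)` and `D`

`G` is normal in `A`, `A / G` a p-group, `e` a block of `G` which is invariant under `A`, `P` a defect group of `e` as
a block of `A`, `D = P ∩ G` is abelian. `chain_midX`: the blocks of the stabilizers of the chains have a defect group
which contains a conjugate of `C_D(P)` and is contained in a conjugate of `D`. `nav_mid`: if the weight conjecture holds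
for the blocks with such defect groups, then Navarro's equality holds for all pairs above `G`.
-/

set_option autoImplicit false
set_option linter.unusedSectionVars false

namespace Pool.Agent.Lib.P0c8ca5.Kk

open MonoidAlgebra Ex Rk KgAux KxAux KxbAux KybAux

universe u v

section
variable {p : ℕ} {k : Type v} [Field k] {A : Type u} [Group A] [Fintype A]
variable [Fact p.Prime] [CharP k p] [IsAlgClosed k]
variable {b c e : MonoidAlgebra k A} {G H S X : Subgroup A} {σ : Finset (Subgroup A)}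

/-- **the defect groups of the blocks of the stabilizers of the chains** lie between the conjugates of `C_D(P)` and
of `D` -/
theorem chain_midX (hG : G.Normal) (hGX : G ≤ X) (hp : ∀ x ∈ X, ∃ n : ℕ, x ^ p ^ n ∈ G)
    (he : IsBlock G e) (hinv : InvBy X e) {P : Subgroup A} (hP : IsDefectGroup p X e P)
    (hcom : ∀ x ∈ P ⊓ G, ∀ y ∈ P ⊓ G, x * y = y * x)
    (hne : σ.Nonempty) (hσ : IsChain (· ≤ ·) (σ : Set (Subgroup A)))
    (hσS : ∀ Q ∈ σ, Q ∈ Supp p G X)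
    (hb : IsBlock (G ⊓ stab X σ) b) (hbe : b * cS (σ.sup id) e ≠ 0) :
    ∃ D : Subgroup A, IsDefectGroup p (G ⊓ stab X σ) b D ∧
      (∃ g ∈ X, cg g (P ⊓ G ⊓ CD P) ≤ D) ∧ ∃ g ∈ X, D ≤ cg g (P ⊓ G) := by
  classical
  have hn : X ≤ Subgroup.normalizer (G : Set A) := fun x _ => mem_norm_of_normal G x
  have heT : IsBlock X e := isBlock_up' hGX hn hp he hinv
  have hGc : ∀ g : A, cg g G = G := fun g => cg_eq_self_iff.2 (mem_norm_of_normal G g)
  have hmem : ∀ g x : A, x ∈ cg g P ⊓ G ↔ g⁻¹ * x * g ∈ P ⊓ G := by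
    intro g x
    conv_lhs => rw [← hGc g]
    rw [Subgroup.mem_inf, mem_cg, mem_cg, Subgroup.mem_inf]
  have hcomc : ∀ g : A, ∀ x ∈ cg g P ⊓ G, ∀ y ∈ cg g P ⊓ G, x * y = y * x := by
    intro g x hx y hy
    have h1 := hcom _ ((hmem g x).1 hx) _ ((hmem g y).1 hy)
    calc x * y = g * ((g⁻¹ * x * g) * (g⁻¹ * y * g)) * g⁻¹ := by group
      _ = g * ((g⁻¹ * y * g) * (g⁻¹ * x * g)) * g⁻¹ := by rw [h1]
      _ = y * x := by group
  -- the largest member of the chain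
  have hSσ : σ.sup id ∈ σ := sup_mem_chain hne hσ
  have hSe : HasBr (σ.sup id) e := by
    apply hasBr_of_ne
    intro h0
    apply hbe
    have h1 : cS (σ.sup id) e = 0 := h0
    rw [h1, mul_zero]
  have hcomS : ∀ s ∈ σ.sup id ⊓ G, ∀ t ∈ σ.sup id ⊓ G, s * t = t * s := by
    obtain ⟨P₁, hP₁, hSP₁⟩ := exists_defect (p := p) (N := X) (hσS _ hSσ).1 (hσS _ hSσ).2.1 hSe
    obtain ⟨g, -, rfl⟩ := defect_conjX heT hP hP₁
    intro s hs t ht
    exact hcomc g s ((inf_le_inf_right G hSP₁) hs) t ((inf_le_inf_right G hSP₁) ht)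
  obtain ⟨P', hP', hSP', hZ⟩ := chain_topX hG hGX hp he hinv hne hσ hσS hcomS hb hbe
  obtain ⟨g, hg, rfl⟩ := defect_conjX heT hP hP'
  -- the centre of `P'`, intersected with `G`
  set Z : Subgroup A := cg g P ⊓ G ⊓ CD (cg g P) with hZdef
  have hZP : Z ≤ cg g P := inf_le_left.trans inf_le_left
  have hZC : Z ≤ CD (cg g P) := inf_le_right
  have hZG : Z ≤ G := inf_le_left.trans inf_le_right
  have hZH : Z ≤ G ⊓ stab X σ := by
    intro x hx
    refine mem_HX' hGX (hZG hx) fun Q hQ => ?_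
    apply Subgroup.centralizer_le_normalizer
    exact Subgroup.centralizer_le ((Finset.le_sup (f := id) hQ).trans hSP') (hZC hx)
  have hZp : IsPGroup p Z := hP'.isPGroup.to_le hZP
  obtain ⟨D, hD, hZD⟩ := exists_defect (p := p) hZH hZp (hZ Z hZP hZC)
  -- `D` is in a conjugate of `P`
  have hDe : HasBr D e :=
    hasBr_of_chain_block hGX he hinv hne hσ hσS hb hbe hD.isPGroup hD.le hD.br
  have hDG : D ≤ G := hD.le.trans inf_le_left
  obtain ⟨P₂, hP₂, hDP₂⟩ := exists_defect (p := p) (N := X) (hDG.trans hGX) hD.isPGroup hDe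
  obtain ⟨g', hg', rfl⟩ := defect_conjX heT hP hP₂
  refine ⟨D, hD, ⟨g, hg, ?_⟩, g', hg', ?_⟩
  · rw [cg_inf, cg_inf, hGc, FuAux.cg_CD]
    exact hZD
  · rw [cg_inf, hGc]
    exact le_inf hDP₂ hDG

/-- **Navarro's equality for `(G, X, e)`** -/
theorem nav_midX (hG : G.Normal) (hGX : G ≤ X) (hp : ∀ x ∈ X, ∃ n : ℕ, x ^ p ^ n ∈ G)
    (he : IsBlock G e) (hinv : InvBy X e) {P : Subgroup A} (hP : IsDefectGroup p X e P)
    (hcom : ∀ x ∈ P ⊓ G, ∀ y ∈ P ⊓ G, x * y = y * x)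
    (hK : ∀ (H D : Subgroup A) (b : MonoidAlgebra k A), IsBlock H b → IsDefectGroup p H b D →
      (∃ g : A, cg g (P ⊓ G ⊓ CD P) ≤ D) → (∃ g : A, D ≤ cg g (P ⊓ G)) → NavarroEq p H H b) :
    NavarroEq p G X e := by
  refine navarro_of_baw hGX (fun x _ => mem_norm_of_normal G x) hp he hinv ?_
  intro σ hne hσ hσS b hb hbe
  obtain ⟨D, hD, ⟨g, -, h1⟩, g', -, h2⟩ := chain_midX hG hGX hp he hinv hP hcom hne hσ hσS hb hbe
  exact hK _ D b hb hD ⟨g, h1⟩ ⟨g', h2⟩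

/-- **Navarro's equality for all pairs above `G`** -/
theorem nav_mid (hG : G.Normal) (hp : ∀ x : A, ∃ n : ℕ, x ^ p ^ n ∈ G)
    (he : IsBlock G e) (hinv : InvBy ⊤ e) {P : Subgroup A}
    (hP : IsDefectGroup p (⊤ : Subgroup A) e P)
    (hcom : ∀ x ∈ P ⊓ G, ∀ y ∈ P ⊓ G, x * y = y * x)
    (hK : ∀ (H D : Subgroup A) (b : MonoidAlgebra k A), IsBlock H b → IsDefectGroup p H b D →
      (∃ g : A, cg g (P ⊓ G ⊓ CD P) ≤ D) → (∃ g : A, D ≤ cg g (P ⊓ G)) → NavarroEq p H H b) :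
    ∀ N H : Subgroup A, G ≤ N → N ≤ H → H ≤ Subgroup.normalizer (N : Set A) →
      NavarroEq p N H e := by
  classical
  have heT : IsBlock (⊤ : Subgroup A) e := isBlock_up' le_top
    (by rw [Subgroup.normalizer_eq_top]) (fun x _ => hp x) he hinv
  have h1 : ∀ X, G ≤ X → NavarroEq p G X e := by
    intro X hGX
    -- a defect group of `e` in `X`
    have hbrPX : HasBr (P ⊓ X) e := by
      obtain ⟨x, hx, hex⟩ := hP.br
      have h2 : P ⊓ X ≤ P := inf_le_left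
      exact ⟨x, Subgroup.centralizer_le h2 hx, hex⟩
    obtain ⟨P₁, hP₁, hle⟩ := exists_defect (p := p) (N := X) inf_le_right
      (hP.isPGroup.to_le inf_le_left) hbrPX
    obtain ⟨P₂, hP₂, hle₂⟩ := exists_defect (p := p) (N := ⊤) le_top hP₁.isPGroup hP₁.br
    obtain ⟨g, rfl⟩ := defect_conj heT hP hP₂
    have hGc : cg g G = G := cg_eq_self_iff.2 (mem_norm_of_normal G g)
    have hD1 : P ⊓ G ≤ P₁ ⊓ G := fun x hx =>
      Subgroup.mem_inf.2 ⟨hle (Subgroup.mem_inf.2 ⟨(Subgroup.mem_inf.1 hx).1,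
        hGX (Subgroup.mem_inf.1 hx).2⟩), (Subgroup.mem_inf.1 hx).2⟩
    have hcgG : cg g P ⊓ G = cg g (P ⊓ G) := by
      rw [cg_inf, hGc]
    have hD2 : P₁ ⊓ G ≤ cg g (P ⊓ G) := by
      rw [← hcgG]
      exact inf_le_inf_right G hle₂
    have hcard : Nat.card ↥(cg g (P ⊓ G)) = Nat.card ↥(P ⊓ G) := card_cg g _
    have heq1 : P ⊓ G = P₁ ⊓ G := Subgroup.eq_of_le_of_card_ge hD1 (by
      rw [← hcard]
      exact Subgroup.card_le_of_le hD2)
    have heq2 : P ⊓ G = cg g (P ⊓ G) := Subgroup.eq_of_le_of_card_ge (hD1.trans hD2) hcard.le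
    refine nav_midX hG hGX (fun x _ => hp x) he (hinv.mono le_top) hP₁
      (by rw [← heq1]; exact hcom) ?_
    intro H D b hb hD h3 h4
    refine hK H D b hb hD ?_ (by rw [heq1]; exact h4)
    obtain ⟨h, h3⟩ := h3
    refine ⟨h * g, le_trans ?_ h3⟩
    rw [← cg_cg]
    refine cg_le_cg ?_
    rw [cg_inf, ← heq2, ← heq1, FuAux.cg_CD]
    exact inf_le_inf_left _ (Subgroup.centralizer_le hle₂)
  exact (equivariant_iff (p := p) hp he hinv).2 ((equivariant_iff (p := p) hp he hinv).1.1 h1)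

/-- **Navarro's equality for all pairs above `G`**, from the form with roots of the weight conjecture for a class `Φ`
of defect groups: `Φ` contains all groups between the conjugates of `C_D(P)` and `D` -/
theorem nav_mid_root (hG : G.Normal) (hp : ∀ x : A, ∃ n : ℕ, x ^ p ^ n ∈ G)
    (he : IsBlock G e) (hinv : InvBy ⊤ e) {P : Subgroup A}
    (hP : IsDefectGroup p (⊤ : Subgroup A) e P)
    (hcom : ∀ x ∈ P ⊓ G, ∀ y ∈ P ⊓ G, x * y = y * x)
    (Φ : ∀ {B : Type u} [Group B], Subgroup B → Prop)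
    (hΦ : ∀ D : Subgroup A, (∃ g : A, cg g (P ⊓ G ⊓ CD P) ≤ D) → (∃ g : A, D ≤ cg g (P ⊓ G)) →
      ∀ H : Subgroup A, D ≤ H → Φ (D.subgroupOf H))
    (hloc : ∀ {B : Type u} [Group B] [Fintype B] {b f : MonoidAlgebra k B} {D : Subgroup B},
      Root p b D f → Φ D → gap p (⊤ : Subgroup B) ⊤ b = 0) :
    ∀ N H : Subgroup A, G ≤ N → N ≤ H → H ≤ Subgroup.normalizer (N : Set A) →
      NavarroEq p N H e := by
  refine nav_mid hG hp he hinv hP hcom ?_
  intro H D b hb hD h1 h2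
  have : Fintype ↥H := Fintype.ofFinite _
  have hDH : D ≤ H := hD.le
  have hDp := hD.isPGroup
  have hDcom : ∀ x ∈ D, ∀ y ∈ D, x * y = y * x := by
    obtain ⟨g, hg⟩ := h2
    intro x hx y hy
    have h3 := hcom _ (mem_cg.1 (hg hx)) _ (mem_cg.1 (hg hy))
    calc x * y = g * ((g⁻¹ * x * g) * (g⁻¹ * y * g)) * g⁻¹ := by group
      _ = g * ((g⁻¹ * y * g) * (g⁻¹ * x * g)) * g⁻¹ := by rw [h3]
      _ = y * x := by group
  -- a root
  have hN : H ⊓ CD D ≤ Subgroup.normalizer (D : Set A) :=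
    inf_le_right.trans (Subgroup.centralizer_le_normalizer _)
  obtain ⟨f, hf, hbf⟩ := exists_blk (K := H ⊓ CD D) (e := resS (CD D : Set A) b)
    (mem_fixAlg.2 ⟨resS_suppIn' hb.suppIn, invBy_res (hb.invBy.mono inf_le_left) hN⟩)
    (by rw [← resS_mul hDp (hb.invBy.mono hDH) (hb.invBy.mono hDH), hb.idem])
    (ne_of_hasBr hD.br)
  have hroot := root_dn H hb hD hDcom hf hbf
  have hg : gap p (⊤ : Subgroup ↥H) ⊤ (dn H b) = 0 := hloc hroot (hΦ D h1 h2 H hDH)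
  have hHH : ∀ x ∈ H, ∃ m : ℕ, x ^ p ^ m ∈ H := fun x hx => ⟨0, by simpa using hx⟩
  rw [navarroEq_iff_gap le_rfl Subgroup.le_normalizer hHH hb hb.invBy, ← gap_transport hb]
  exact hg

/-- **Navarro's equality for all pairs above `G`, rank two**: `y ∈ D = P ∩ G` commutes with `P`, `y ^ p ^ a ≠ 1` and
`|D| ≤ p ^ (2 a + 1)` -/
theorem nav_rank2 (hG : G.Normal) (hp : ∀ x : A, ∃ n : ℕ, x ^ p ^ n ∈ G)
    (he : IsBlock G e) (hinv : InvBy ⊤ e) {P : Subgroup A}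
    (hP : IsDefectGroup p (⊤ : Subgroup A) e P)
    (hcom : ∀ x ∈ P ⊓ G, ∀ y ∈ P ⊓ G, x * y = y * x)
    (hr : Nat.card {x : A // x ∈ P ⊓ G ∧ x ^ p = 1} ≤ p ^ 2) {a c : ℕ}
    {y : A} (hy : y ∈ P ⊓ G) (hyC : y ∈ CD P) (hya : y ^ p ^ a ≠ 1)
    (hc : Nat.card ↥(P ⊓ G) ≤ p ^ c)
    (hloc : ∀ {B : Type u} [Group B] [Fintype B] {b f : MonoidAlgebra k B} {D : Subgroup B},
      Root p b D f → Nat.card {x : B // x ∈ D ∧ x ^ p = 1} ≤ p ^ 2 →
      (∃ y ∈ D, y ^ p ^ a ≠ 1) → Nat.card D ≤ p ^ c → gap p (⊤ : Subgroup B) ⊤ b = 0) :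
    ∀ N H : Subgroup A, G ≤ N → N ≤ H → H ≤ Subgroup.normalizer (N : Set A) →
      NavarroEq p N H e := by
  classical
  refine nav_mid_root hG hp he hinv hP hcom
    (fun {B} [Group B] (D : Subgroup B) => Nat.card {x : B // x ∈ D ∧ x ^ p = 1} ≤ p ^ 2 ∧
      (∃ y ∈ D, y ^ p ^ a ≠ 1) ∧ Nat.card D ≤ p ^ c) ?_
    (fun {B} _ _ {b f D} h hD => hloc h hD.1 hD.2.1 hD.2.2)
  rintro D ⟨g, hg⟩ ⟨g', hg'⟩ H hDH
  have hpowc : ∀ (g x : A) (m : ℕ), (g⁻¹ * x * g) ^ m = g⁻¹ * x ^ m * g := by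
    intro g x m
    have h1 := conj_pow (a := g⁻¹) (b := x) (i := m)
    rwa [inv_inv] at h1
  refine ⟨?_, ?_, ?_⟩
  · refine le_trans (Nat.card_le_card_of_injective
      (fun x => (⟨g'⁻¹ * (x.1 : A) * g', mem_cg.1 (hg' (Subgroup.mem_subgroupOf.1 x.2.1)), by
        have h1 : ((x.1 : ↥H) : A) ^ p = 1 := congrArg Subtype.val x.2.2
        rw [hpowc, h1]
        group⟩ : {x : A // x ∈ P ⊓ G ∧ x ^ p = 1})) ?_) hr
    intro x z hxz
    have h4 : g'⁻¹ * ((x.1 : ↥H) : A) * g' = g'⁻¹ * ((z.1 : ↥H) : A) * g' :=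
      congrArg (fun z : {x : A // x ∈ P ⊓ G ∧ x ^ p = 1} => (z : A)) hxz
    exact Subtype.ext (Subtype.ext (mul_left_cancel (mul_right_cancel h4)))
  · have h1 : g * y * g⁻¹ ∈ D := by
      apply hg
      rw [mem_cg]
      have h2 : g⁻¹ * (g * y * g⁻¹) * g = y := by group
      rw [h2]
      exact Subgroup.mem_inf.2 ⟨hy, hyC⟩
    refine ⟨⟨g * y * g⁻¹, hDH h1⟩, Subgroup.mem_subgroupOf.2 h1, fun h3 => hya ?_⟩
    have h4 : (g * y * g⁻¹) ^ p ^ a = 1 := congrArg Subtype.val h3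
    rw [conj_pow] at h4
    calc y ^ p ^ a = g⁻¹ * (g * y ^ p ^ a * g⁻¹) * g := by group
      _ = 1 := by rw [h4]; group
  · have h1 : Nat.card ↥(D.subgroupOf H) = Nat.card ↥D :=
      Nat.card_congr (Subgroup.subgroupOfEquivOfLe hDH).toEquiv
    rw [h1]
    refine le_trans (Subgroup.card_le_of_le hg') ?_
    rw [card_cg]
    exact hc

end

end Pool.Agent.Lib.P0c8ca5.Kk
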