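import Mathlib
import Pool.Agent.Lib.P0c8ca5Kk.Kz
import Pool.Agent.Lib.P0c8ca5N.Final

/-!
# Kk.Kyd: the centralizer of the smallest member of a chain in the defect group

`G` is normal in `A`, `X` between `G` and `A`, `X / G` a p-group, `e` a block of `G` which is invariant under `X`, `P` a
defect group of `e` as a block of `X`, `P ∩ G` is abelian. For a chain `σ` of p-subgroups `Q` of `X` with `G Q = X`,
largest member `S`, smallest member `Q₁`, and a block `b` of `H = N_G(σ)` with `b Br_S(e) ≠ 0` there are a defect group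
`D` of `b` and a conjugate `P'` of `P` with `D S ≤ P'` and `C_D(Q₁) = Z(P') ∩ G`; `Q₁ ∩ G ≤ D` and `[H, Q₁] ≤ Q₁ ∩ G`
(`chain_cent`).
-/

set_option autoImplicit false
set_option linter.unusedSectionVars false

namespace Pool.Agent.Lib.P0c8ca5.Kk

open MonoidAlgebra Ex Rk KgAux KxAux KxbAux KybAux

universe u v

section
variable {p : ℕ} {k : Type v} [Field k] {A : Type u} [Group A] [Fintype A]
variable [Fact p.Prime] [CharP k p] [IsAlgClosed k]
variable {b c e : MonoidAlgebra k A} {G H S X : Subgroup A} {σ : Finset (Subgroup A)}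

/-- **the centralizer of the smallest member of the chain in the defect group** -/
theorem chain_cent (hG : G.Normal) (hGX : G ≤ X) (hp : ∀ x ∈ X, ∃ n : ℕ, x ^ p ^ n ∈ G)
    (he : IsBlock G e) (hinv : InvBy X e) {P : Subgroup A} (hP : IsDefectGroup p X e P)
    (hcom : ∀ x ∈ P ⊓ G, ∀ y ∈ P ⊓ G, x * y = y * x)
    (hne : σ.Nonempty) (hσ : IsChain (· ≤ ·) (σ : Set (Subgroup A)))
    (hσS : ∀ Q ∈ σ, Q ∈ Supp p G X)
    (hb : IsBlock (G ⊓ stab X σ) b) (hbe : b * cS (σ.sup id) e ≠ 0)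
    {Q₁ : Subgroup A} (hQ₁ : Q₁ ∈ σ) (hmin : ∀ Q ∈ σ, Q₁ ≤ Q) :
    ∃ D P' : Subgroup A, IsDefectGroup p (G ⊓ stab X σ) b D ∧ IsDefectGroup p X e P' ∧
      (∃ g ∈ X, P' = cg g P) ∧ D ⊔ σ.sup id ≤ P' ∧ D ⊓ CD Q₁ = P' ⊓ G ⊓ CD P' ∧
      Q₁ ⊓ G ≤ D ∧ ∀ h ∈ G ⊓ stab X σ, ∀ q ∈ Q₁, h * q * h⁻¹ * q⁻¹ ∈ Q₁ ⊓ G := by
  classical
  have hn : X ≤ Subgroup.normalizer (G : Set A) := fun x _ => mem_norm_of_normal G x
  have heT : IsBlock X e := isBlock_up' hGX hn hp he hinv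
  have hGc : ∀ g : A, cg g G = G := fun g => cg_eq_self_iff.2 (mem_norm_of_normal G g)
  have hmem : ∀ g x : A, x ∈ cg g P ⊓ G ↔ g⁻¹ * x * g ∈ P ⊓ G := by
    intro g x
    conv_lhs => rw [← hGc g]
    rw [Subgroup.mem_inf, mem_cg, mem_cg, Subgroup.mem_inf]
  have hcomc : ∀ g : A, ∀ x ∈ cg g P ⊓ G, ∀ y ∈ cg g P ⊓ G, x * y = y * x := by
    intro g x hx y hy
    have h1 := hcom _ ((hmem g x).1 hx) _ ((hmem g y).1 hy)
    calc x * y = g * ((g⁻¹ * x * g) * (g⁻¹ * y * g)) * g⁻¹ := by group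
      _ = g * ((g⁻¹ * y * g) * (g⁻¹ * x * g)) * g⁻¹ := by rw [h1]
      _ = y * x := by group
  -- the largest member of the chain
  have hSσ : σ.sup id ∈ σ := sup_mem_chain hne hσ
  have hSX : σ.sup id ≤ X := (hσS _ hSσ).1
  have hSp : IsPGroup p (σ.sup id : Subgroup A) := (hσS _ hSσ).2.1
  have hQ₁S : Q₁ ≤ σ.sup id := hmin _ hSσ
  have hSe : HasBr (σ.sup id) e := by
    apply hasBr_of_ne
    intro h0
    apply hbe
    have h1 : cS (σ.sup id) e = 0 := h0
    rw [h1, mul_zero]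
  have hcomS : ∀ s ∈ σ.sup id ⊓ G, ∀ t ∈ σ.sup id ⊓ G, s * t = t * s := by
    obtain ⟨P₁, hP₁, hSP₁⟩ := exists_defect (p := p) (N := X) hSX hSp hSe
    obtain ⟨g, -, rfl⟩ := defect_conjX heT hP hP₁
    intro s hs t ht
    exact hcomc g s ((inf_le_inf_right G hSP₁) hs) t ((inf_le_inf_right G hSP₁) ht)
  have hbs := chain_suppX hG hGX hne hσ hσS hcomS hb
  obtain ⟨P', hP', hSP', hZ⟩ := chain_topX hG hGX hp he hinv hne hσ hσS hcomS hb hbe
  obtain ⟨g, hg, rfl⟩ := defect_conjX heT hP hP'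
  -- the centre of `P'`, intersected with `G`
  set Z : Subgroup A := cg g P ⊓ G ⊓ CD (cg g P) with hZdef
  have hZP : Z ≤ cg g P := inf_le_left.trans inf_le_left
  have hZC : Z ≤ CD (cg g P) := inf_le_right
  have hZG : Z ≤ G := inf_le_left.trans inf_le_right
  have hZH : Z ≤ G ⊓ stab X σ := by
    intro x hx
    refine mem_HX' hGX (hZG hx) fun Q hQ => ?_
    apply Subgroup.centralizer_le_normalizer
    exact Subgroup.centralizer_le ((Finset.le_sup (f := id) hQ).trans hSP') (hZC hx)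
  have hZp : IsPGroup p Z := hP'.isPGroup.to_le hZP
  obtain ⟨D, hD, hZD⟩ := exists_defect (p := p) hZH hZp (hZ Z hZP hZC)
  have hDG : D ≤ G := hD.le.trans inf_le_left
  have hDst : D ≤ stab X σ := hD.le.trans inf_le_right
  have hDN : D ≤ Subgroup.normalizer ((σ.sup id : Subgroup A) : Set A) := fun x hx =>
    (mem_stab.1 (hDst hx)).2 _ hSσ
  have hDX : D ≤ X := hDG.trans hGX
  -- `Br` at `D S`
  have hDS : IsPGroup p (D ⊔ σ.sup id : Subgroup A) := isPGroup_sup hD.isPGroup hSp hDN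
  obtain ⟨x₀, hx₀, hbx₀⟩ := hD.br
  have hsupC : ∀ T : Subgroup A, T ≤ σ.sup id → x₀ ∈ CD (D ⊔ T) := by
    intro T hT
    rw [Subgroup.mem_centralizer_iff]
    have h1 : D ⊔ T ≤ Subgroup.centralizer ({x₀} : Set A) := by
      refine sup_le ?_ ?_
      · intro y hy
        rw [Subgroup.mem_centralizer_iff]
        intro z hz
        rw [Set.mem_singleton_iff.1 hz]
        exact (Subgroup.mem_centralizer_iff.1 hx₀ y hy).symm
      · intro y hy
        rw [Subgroup.mem_centralizer_iff]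
        intro z hz
        rw [Set.mem_singleton_iff.1 hz]
        exact (Subgroup.mem_centralizer_iff.1 (hbs x₀ hbx₀) y (hT hy)).symm
    intro y hy
    exact (Subgroup.mem_centralizer_iff.1 (h1 hy) x₀ rfl).symm
  have hbDS : HasBr (D ⊔ σ.sup id) b := ⟨x₀, hsupC _ le_rfl, hbx₀⟩
  -- `Br_S(e) b = b`
  have hctx : Ctx p X (stab X σ) (σ.sup id) e :=
    { hHX := inf_le_left
      hS := hSp
      hHS := fun x hx => (mem_stab.1 hx).2 _ hSσ
      hCS := by
        intro x hx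
        rw [mem_stab]
        refine ⟨hx.1, fun Q hQ => ?_⟩
        have hQS : Q ≤ σ.sup id := Finset.le_sup (f := id) hQ
        exact Subgroup.centralizer_le_normalizer _ (Subgroup.centralizer_le hQS hx.2)
      supp := he.suppIn.mono hGX
      inv := hinv }
  have hcH : SuppIn (stab X σ) (cS (σ.sup id) e) := hctx.cS_supp
  have hcK : SuppIn (G ⊓ stab X σ) (cS (σ.sup id) e) := by
    intro x hx
    refine Subgroup.mem_inf.2 ⟨?_, hcH x hx⟩
    apply he.suppIn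
    intro h0
    apply hx
    rw [coeff_resS]
    split_ifs
    · exact h0
    · rfl
  have hcinvK : InvBy (G ⊓ stab X σ) (cS (σ.sup id) e) := hctx.cS_inv.mono inf_le_right
  have hcc : cS (σ.sup id) e * cS (σ.sup id) e = cS (σ.sup id) e := hctx.cS_idem hSX he.idem
  have hcmem : cS (σ.sup id) e ∈ fixAlg k (G ⊓ stab X σ) (G ⊓ stab X σ) :=
    mem_fixAlg.2 ⟨hcK, hcinvK⟩
  have hcomm : cS (σ.sup id) e * b = b * cS (σ.sup id) e := (commute_of hcK hb.invBy)
  have hmul : cS (σ.sup id) e * b = b := by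
    rcases hb.mul_eq hcmem hcc with h | h
    · rw [hcomm] at h; exact absurd h hbe
    · exact h
  have hcDS : InvBy (D ⊔ σ.sup id) (cS (σ.sup id) e) := by
    refine invBy_sup (hcinvK.mono hD.le) ?_
    exact invBy_res (hinv.mono hSX) Subgroup.le_normalizer
  have hbiDS : InvBy (D ⊔ σ.sup id) b := invBy_sup (hb.invBy.mono hD.le) (invBy_of_supp hbs)
  have hres := resS_mul hDS hcDS hbiDS
  rw [hmul] at hres
  have heDS : HasBr (D ⊔ σ.sup id) e := by
    have h2 : resS (CD (D ⊔ σ.sup id) : Set A) (cS (σ.sup id) e) ≠ 0 := by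
      intro h0
      rw [h0, zero_mul] at hres
      exact ne_of_hasBr hbDS hres
    by_contra hno
    apply h2
    ext y
    by_cases hy : y ∈ (CD (D ⊔ σ.sup id) : Set A)
    · have h3 : e.coeff y = 0 := by
        by_contra h4
        exact hno ⟨y, hy, h4⟩
      rw [coeff_resS_of_mem _ hy, coeff_resS, h3]
      simp
    · rw [coeff_resS_of_notMem _ hy]
      simp
  obtain ⟨P₂, hP₂, hDP₂⟩ := exists_defect (p := p) (N := X) (sup_le hDX hSX) hDS heDS
  obtain ⟨g', hg', rfl⟩ := defect_conjX heT hP hP₂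
  refine ⟨D, cg g' P, hD, hP₂, ⟨g', hg', rfl⟩, hDP₂, ?_, ?_, ?_⟩
  · -- the two inclusions
    have hQ₁P : Q₁ ≤ cg g' P := hQ₁S.trans (le_sup_right.trans hDP₂)
    have hle1 : D ⊓ CD Q₁ ≤ cg g' P ⊓ G ⊓ CD (cg g' P) := by
      intro x hx
      obtain ⟨hxD, hxQ⟩ := Subgroup.mem_inf.1 hx
      have hxPG : x ∈ cg g' P ⊓ G := Subgroup.mem_inf.2 ⟨hDP₂ (le_sup_left (a := D) hxD), hDG hxD⟩
      refine Subgroup.mem_inf.2 ⟨hxPG, ?_⟩
      rw [Subgroup.mem_centralizer_iff]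
      intro y hy
      have hyX : y ∈ G ⊔ Q₁ := by
        rw [(hσS Q₁ hQ₁).2.2]
        exact hP₂.le hy
      obtain ⟨h, hh, q, hq, rfl⟩ := Subgroup.mem_sup_of_normal_left.1 hyX
      have hhP : h ∈ cg g' P ⊓ G := by
        refine Subgroup.mem_inf.2 ⟨?_, hh⟩
        have h1 := Subgroup.mul_mem _ hy (Subgroup.inv_mem _ (hQ₁P hq))
        rwa [mul_inv_cancel_right] at h1
      have h2 := hcomc g' h hhP x hxPG
      have h3 := Subgroup.mem_centralizer_iff.1 hxQ q hq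
      calc h * q * x = h * (q * x) := mul_assoc _ _ _
        _ = h * (x * q) := by rw [h3]
        _ = h * x * q := (mul_assoc _ _ _).symm
        _ = x * h * q := by rw [h2]
        _ = x * (h * q) := mul_assoc _ _ _
    have hle2 : Z ≤ D ⊓ CD Q₁ := le_inf hZD (hZC.trans (Subgroup.centralizer_le
      (hQ₁S.trans hSP')))
    have hcard : Nat.card ↥(cg g' P ⊓ G ⊓ CD (cg g' P)) = Nat.card ↥Z := by
      have h1 : ∀ h : A, cg h P ⊓ G ⊓ CD (cg h P) = cg h (P ⊓ G ⊓ CD P) := by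
        intro h
        rw [cg_inf, cg_inf, hGc, FuAux.cg_CD]
      rw [hZdef, h1, h1, card_cg, card_cg]
    have heq : Z = cg g' P ⊓ G ⊓ CD (cg g' P) :=
      Subgroup.eq_of_le_of_card_ge (hle2.trans hle1) hcard.le
    exact le_antisymm hle1 (heq ▸ hle2)
  · -- `Q₁ ∩ G ≤ D`
    have hR1 : Q₁ ⊓ G ≤ G ⊓ stab X σ := by
      intro x hx
      refine mem_HX' hGX (Subgroup.mem_inf.1 hx).2 fun Q hQ => ?_
      exact Subgroup.le_normalizer (hmin Q hQ (Subgroup.mem_inf.1 hx).1)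
    have hDR : IsPGroup p (D ⊔ Q₁ ⊓ G : Subgroup A) :=
      hDS.to_le (sup_le_sup_left (inf_le_left.trans hQ₁S) D)
    have h1 := hD.max (D ⊔ Q₁ ⊓ G) (sup_le hD.le hR1) hDR
      ⟨x₀, hsupC _ (inf_le_left.trans hQ₁S), hbx₀⟩ le_sup_left
    exact le_sup_right.trans h1.le
  · -- the commutators
    intro h hh q hq
    have hhQ : h ∈ Subgroup.normalizer (Q₁ : Set A) := (mem_HX hh).2 Q₁ hQ₁
    have h1 : h * q * h⁻¹ ∈ Q₁ := (Subgroup.mem_normalizer_iff.1 hhQ q).1 hq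
    refine Subgroup.mem_inf.2 ⟨Q₁.mul_mem h1 (Q₁.inv_mem hq), ?_⟩
    have h2 : h * q * h⁻¹ * q⁻¹ = h * (q * h⁻¹ * q⁻¹) := by group
    rw [h2]
    exact G.mul_mem (mem_HX hh).1 (hG.conj_mem _ (G.inv_mem (mem_HX hh).1) q)

end

end Pool.Agent.Lib.P0c8ca5.Kk
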