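import Mathlib
import Pool.Agent.Lib.P0c8ca5Kk.Kyd

/-!
# Kk.Kye: actions commuting with the action of a p-group

`D` is an abelian p-group, `Q` a p-group normalizing `D`, `W` normalizes `D` and `[W, Q] ≤ D`. Every element `g` of `W`
which centralizes the elements of order `p` of `C_D(Q)` centralizes `D` if the order of its action on `D` is prime to
`p` (`faith_of_cent`), and for every `x ≠ 1` in `D` there is an element `z` of order `p` of `C_D(Q)` such that the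
elements of `W` which centralize `x` centralize `z` (`stab_of_cent`).

`nav_cent_root`: Navarro's equality for all pairs above `G` from the weight conjecture for the blocks with a defect
group `D` containing `Z` such that the inertial quotient acts faithfully on the elements of order `p` of `Z` and every
stabilizer of an element of `D` is contained in the stabilizer of an element of order `p` of `Z`; here `Z` is a
conjugate of `Z(P) ∩ G`, and `D` is contained in a conjugate of `P ∩ G`.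
-/

set_option autoImplicit false
set_option linter.unusedSectionVars false

namespace Pool.Agent.Lib.P0c8ca5.Kk

open MonoidAlgebra Ex Rk KgAux KxAux KxbAux KybAux

universe u v

namespace KyeAux

section
variable {p : ℕ} [Fact p.Prime] {A : Type u} [Group A] [Finite A]

/-- a p-group `Q` acting on a nontrivial p-group `V` has a fixed point of order `p` -/
theorem exists_fix {Q V : Subgroup A} (hQ : IsPGroup p Q) (hV : IsPGroup p V) (hV1 : V ≠ ⊥)
    (hQV : ∀ q ∈ Q, ∀ v ∈ V, q * v * q⁻¹ ∈ V)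
    (hVc : ∀ x ∈ V, ∀ y ∈ V, x * y = y * x) :
    ∃ z ∈ V, z ≠ 1 ∧ z ^ p = 1 ∧ z ∈ CD Q := by
  classical
  have hp : p.Prime := Fact.out
  -- the elements of order p
  let W : Subgroup A :=
    { carrier := {z | z ∈ V ∧ z ^ p = 1}
      mul_mem' := by
        rintro a b ⟨ha, ha'⟩ ⟨hb, hb'⟩
        refine ⟨V.mul_mem ha hb, ?_⟩
        have h1 : Commute a b := hVc a ha b hb
        rw [h1.mul_pow, ha', hb', one_mul]
      one_mem' := ⟨V.one_mem, one_pow p⟩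
      inv_mem' := by
        rintro a ⟨ha, ha'⟩
        refine ⟨V.inv_mem ha, ?_⟩
        rw [inv_pow, ha', inv_one] }
  have hW : ∀ z, z ∈ W ↔ z ∈ V ∧ z ^ p = 1 := fun z => Iff.rfl
  have hW1 : W ≠ ⊥ := by
    have hdvd : p ∣ Nat.card V := by
      obtain ⟨n, hn⟩ := IsPGroup.iff_card.1 hV
      rw [hn]
      rcases n with _ | n
      · exfalso
        rw [pow_zero] at hn
        exact hV1 (Subgroup.card_eq_one.1 hn)
      · exact dvd_pow_self p (Nat.succ_ne_zero n)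
    obtain ⟨x, hx⟩ := exists_prime_orderOf_dvd_card' (G := ↥V) p hdvd
    rw [Subgroup.ne_bot_iff_exists_ne_one]
    refine ⟨⟨x, (hW _).2 ⟨x.2, ?_⟩⟩, ?_⟩
    · have h1 : x ^ p = 1 := by rw [← hx]; exact pow_orderOf_eq_one x
      exact congrArg Subtype.val h1
    · intro h
      have h1 : (x : A) = 1 := congrArg Subtype.val h
      have h2 : x = 1 := Subtype.ext h1
      rw [h2, orderOf_one] at hx
      exact hp.one_lt.ne hx
  have hWp : IsPGroup p W := hV.to_le fun x hx => ((hW x).1 hx).1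
  -- the action
  let _ : MulAction ↥Q ↥W :=
    { smul := fun q w => ⟨q * w * (q : A)⁻¹, (hW _).2 ⟨hQV q q.2 w ((hW _).1 w.2).1, by
        rw [conj_pow, ((hW _).1 w.2).2]
        group⟩⟩
      one_smul := fun w => Subtype.ext (by
        change ((1 : ↥Q) : A) * w * ((1 : ↥Q) : A)⁻¹ = w
        simp)
      mul_smul := fun q r w => Subtype.ext (by
        change ((q * r : ↥Q) : A) * w * ((q * r : ↥Q) : A)⁻¹ = q * (r * w * (r : A)⁻¹) * (q : A)⁻¹
        rw [Subgroup.coe_mul]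
        group) }
  have hsm : ∀ (q : ↥Q) (w : ↥W), ((q • w : ↥W) : A) = q * w * (q : A)⁻¹ := fun _ _ => rfl
  have hdvd : p ∣ Nat.card W := by
    obtain ⟨n, hn⟩ := IsPGroup.iff_card.1 hWp
    rw [hn]
    rcases n with _ | n
    · exfalso
      rw [pow_zero] at hn
      exact hW1 (Subgroup.card_eq_one.1 hn)
    · exact dvd_pow_self p (Nat.succ_ne_zero n)
  have h1 : (1 : ↥W) ∈ MulAction.fixedPoints ↥Q ↥W := by
    intro q
    apply Subtype.ext
    rw [hsm]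
    simp
  obtain ⟨w, hw, hw1⟩ := hQ.exists_fixed_point_of_prime_dvd_card_of_fixed_point ↥W hdvd h1
  refine ⟨w, ((hW _).1 w.2).1, fun h => hw1 (Subtype.ext h.symm), ((hW _).1 w.2).2, ?_⟩
  rw [Subgroup.mem_centralizer_iff]
  intro q hq
  have h2 := congrArg Subtype.val (hw ⟨q, hq⟩)
  rw [hsm] at h2
  change q * (w : A) * q⁻¹ = w at h2
  calc q * (w : A) = q * w * q⁻¹ * q := by group
    _ = w * q := by rw [h2]

end

end KyeAux

open KyeAux

section
variable {p : ℕ} [Fact p.Prime] {A : Type u} [Group A] [Finite A]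

/-- the stabilizers are contained in stabilizers of elements of order `p` of `C_D(Q)` -/
theorem stab_of_cent {D Q W : Subgroup A} (hD : IsPGroup p D) (hQ : IsPGroup p Q)
    (hDc : ∀ x ∈ D, ∀ y ∈ D, x * y = y * x) (hQD : ∀ q ∈ Q, ∀ v ∈ D, q * v * q⁻¹ ∈ D)
    (hWQ : ∀ h ∈ W, ∀ q ∈ Q, h * q * h⁻¹ * q⁻¹ ∈ D) {x : A} (hx : x ∈ D) (hx1 : x ≠ 1) :
    ∃ z ∈ D, z ∈ CD Q ∧ z ^ p = 1 ∧ z ≠ 1 ∧ ∀ g ∈ W, g * x = x * g → g * z = z * g := by
  classical
  let V : Subgroup A :=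
    { carrier := {y | y ∈ D ∧ ∀ g ∈ W, g * x = x * g → g * y = y * g}
      mul_mem' := by
        rintro a b ⟨ha, ha'⟩ ⟨hb, hb'⟩
        refine ⟨D.mul_mem ha hb, fun g hg hgx => ?_⟩
        rw [← mul_assoc, ha' g hg hgx, mul_assoc, hb' g hg hgx, mul_assoc]
      one_mem' := ⟨D.one_mem, fun g _ _ => by rw [mul_one, one_mul]⟩
      inv_mem' := by
        rintro a ⟨ha, ha'⟩
        refine ⟨D.inv_mem ha, fun g hg hgx => ?_⟩
        have h1 : Commute g a := ha' g hg hgx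
        exact h1.inv_right.eq }
  have hV : ∀ y, y ∈ V ↔ y ∈ D ∧ ∀ g ∈ W, g * x = x * g → g * y = y * g := fun y => Iff.rfl
  have hVD : V ≤ D := fun y hy => ((hV y).1 hy).1
  have hV1 : V ≠ ⊥ := by
    rw [Subgroup.ne_bot_iff_exists_ne_one]
    exact ⟨⟨x, (hV x).2 ⟨hx, fun g _ h => h⟩⟩, fun h => hx1 (congrArg Subtype.val h)⟩
  have hQV : ∀ q ∈ Q, ∀ v ∈ V, q * v * q⁻¹ ∈ V := by
    intro q hq v hv
    obtain ⟨hvD, hv'⟩ := (hV v).1 hv
    refine (hV _).2 ⟨hQD q hq v hvD, fun g hg hgx => ?_⟩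
    obtain ⟨d, hd, h1, h5⟩ : ∃ d ∈ D, g * q = d * q * g ∧ d * (q * g * q⁻¹) = g :=
      ⟨g * q * g⁻¹ * q⁻¹, hWQ g hg q hq, by group, by group⟩
    have h2 := hDc d hd (q * v * q⁻¹) (hQD q hq v hvD)
    have h3 := hv' g hg hgx
    calc g * (q * v * q⁻¹) = (g * q) * v * q⁻¹ := by group
      _ = d * q * g * v * q⁻¹ := by rw [h1]
      _ = d * q * (g * v) * q⁻¹ := by group
      _ = d * q * (v * g) * q⁻¹ := by rw [h3]
      _ = d * (q * v * q⁻¹) * (q * g * q⁻¹) := by group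
      _ = (q * v * q⁻¹) * d * (q * g * q⁻¹) := by rw [h2]
      _ = (q * v * q⁻¹) * (d * (q * g * q⁻¹)) := mul_assoc _ _ _
      _ = (q * v * q⁻¹) * g := by rw [h5]
  obtain ⟨z, hz, hz1, hzp, hzQ⟩ := exists_fix hQ (hD.to_le hVD) hV1 hQV
    fun a ha b hb => hDc a (hVD ha) b (hVD hb)
  exact ⟨z, hVD hz, hzQ, hzp, hz1, ((hV z).1 hz).2⟩

/-- the elements of order `p` of `C_D(Q)` detect the action of the elements of order prime to `p` -/
theorem faith_of_cent {D Q W : Subgroup A} (hD : IsPGroup p D) (hQ : IsPGroup p Q)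
    (hDc : ∀ x ∈ D, ∀ y ∈ D, x * y = y * x) (hQD : ∀ q ∈ Q, ∀ v ∈ D, q * v * q⁻¹ ∈ D)
    (hWD : ∀ h ∈ W, ∀ v ∈ D, h * v * h⁻¹ ∈ D)
    (hWQ : ∀ h ∈ W, ∀ q ∈ Q, h * q * h⁻¹ * q⁻¹ ∈ D) {g : A} (hg : g ∈ W) {m : ℕ}
    (hm : ¬ p ∣ m) (hgm : g ^ m ∈ CD D)
    (hz : ∀ z ∈ D, z ∈ CD Q → z ^ p = 1 → g * z = z * g) : g ∈ CD D := by
  classical
  have hp : p.Prime := Fact.out
  by_contra hcon
  -- the commutators
  let V : Subgroup A :=
    { carrier := {u | ∃ y ∈ D, u = y⁻¹ * (g * y * g⁻¹)}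
      mul_mem' := by
        rintro _ _ ⟨y, hy, rfl⟩ ⟨z, hz, rfl⟩
        refine ⟨y * z, D.mul_mem hy hz, ?_⟩
        have h1 := hDc (g * y * g⁻¹) (hWD g hg y hy) z⁻¹ (D.inv_mem hz)
        have h2 := hDc y⁻¹ (D.inv_mem hy) z⁻¹ (D.inv_mem hz)
        calc y⁻¹ * (g * y * g⁻¹) * (z⁻¹ * (g * z * g⁻¹))
            = y⁻¹ * ((g * y * g⁻¹) * z⁻¹) * (g * z * g⁻¹) := by group
          _ = y⁻¹ * (z⁻¹ * (g * y * g⁻¹)) * (g * z * g⁻¹) := by rw [h1]
          _ = (y⁻¹ * z⁻¹) * ((g * y * g⁻¹) * (g * z * g⁻¹)) := by group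
          _ = (z⁻¹ * y⁻¹) * ((g * y * g⁻¹) * (g * z * g⁻¹)) := by rw [h2]
          _ = (y * z)⁻¹ * (g * (y * z) * g⁻¹) := by group
      one_mem' := ⟨1, D.one_mem, by group⟩
      inv_mem' := by
        rintro _ ⟨y, hy, rfl⟩
        refine ⟨y⁻¹, D.inv_mem hy, ?_⟩
        have h1 := hDc (g * y * g⁻¹)⁻¹ (D.inv_mem (hWD g hg y hy)) y hy
        calc (y⁻¹ * (g * y * g⁻¹))⁻¹ = (g * y * g⁻¹)⁻¹ * y := by group
          _ = y * (g * y * g⁻¹)⁻¹ := h1
          _ = y⁻¹⁻¹ * (g * y⁻¹ * g⁻¹) := by group }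
  have hV : ∀ u, u ∈ V ↔ ∃ y ∈ D, u = y⁻¹ * (g * y * g⁻¹) := fun u => Iff.rfl
  have hVD : V ≤ D := by
    intro u hu
    obtain ⟨y, hy, rfl⟩ := (hV u).1 hu
    exact D.mul_mem (D.inv_mem hy) (hWD g hg y hy)
  have hV1 : V ≠ ⊥ := by
    intro h0
    apply hcon
    rw [Subgroup.mem_centralizer_iff]
    intro y hy
    have h1 : y⁻¹ * (g * y * g⁻¹) ∈ V := (hV _).2 ⟨y, hy, rfl⟩
    rw [h0, Subgroup.mem_bot] at h1
    calc y * g = y * (y⁻¹ * (g * y * g⁻¹)) * g := by rw [h1, mul_one]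
      _ = g * y := by group
  have hQV : ∀ q ∈ Q, ∀ v ∈ V, q * v * q⁻¹ ∈ V := by
    intro q hq v hv
    obtain ⟨y, hy, rfl⟩ := (hV v).1 hv
    refine (hV _).2 ⟨q * y * q⁻¹, hQD q hq y hy, ?_⟩
    obtain ⟨d, hd, h1⟩ : ∃ d ∈ D, q * g * q⁻¹ = d⁻¹ * g :=
      ⟨g * q * g⁻¹ * q⁻¹, hWQ g hg q hq, by group⟩
    have h2 := hDc (g * (q * y * q⁻¹) * g⁻¹) (hWD g hg _ (hQD q hq y hy)) d hd
    calc q * (y⁻¹ * (g * y * g⁻¹)) * q⁻¹
        = (q * y * q⁻¹)⁻¹ * ((q * g * q⁻¹) * (q * y * q⁻¹) * (q * g * q⁻¹)⁻¹) := by group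
      _ = (q * y * q⁻¹)⁻¹ * (d⁻¹ * ((g * (q * y * q⁻¹) * g⁻¹) * d)) := by rw [h1]; group
      _ = (q * y * q⁻¹)⁻¹ * (d⁻¹ * (d * (g * (q * y * q⁻¹) * g⁻¹))) := by rw [h2]
      _ = (q * y * q⁻¹)⁻¹ * (g * (q * y * q⁻¹) * g⁻¹) := by group
  obtain ⟨z, hzV, hz1, hzp, hzQ⟩ := exists_fix hQ (hD.to_le hVD) hV1 hQV
    fun a ha b hb => hDc a (hVD ha) b (hVD hb)
  have hgz := hz z (hVD hzV) hzQ hzp
  obtain ⟨y, hy, hzy⟩ := (hV z).1 hzV
  -- the powers of `g`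
  have hpow : ∀ i : ℕ, g ^ i * y * (g ^ i)⁻¹ = y * z ^ i := by
    intro i
    induction i with
    | zero => simp
    | succ i ih =>
      have h1 : Commute g z := hgz
      have h2 : g * z ^ i = z ^ i * g := (h1.pow_right i).eq
      calc g ^ (i + 1) * y * (g ^ (i + 1))⁻¹ = g * (g ^ i * y * (g ^ i)⁻¹) * g⁻¹ := by
            rw [pow_succ']
            group
        _ = g * (y * z ^ i) * g⁻¹ := by rw [ih]
        _ = (g * y * g⁻¹) * (g * z ^ i * g⁻¹) := by group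
        _ = (g * y * g⁻¹) * (z ^ i * g * g⁻¹) := by rw [h2]
        _ = y * (y⁻¹ * (g * y * g⁻¹)) * z ^ i := by group
        _ = y * z * z ^ i := by rw [← hzy]
        _ = y * z ^ (i + 1) := by rw [pow_succ', mul_assoc]
  have h1 := hpow m
  have h2 : g ^ m * y * (g ^ m)⁻¹ = y := by
    rw [← Subgroup.mem_centralizer_iff.1 hgm y hy]
    group
  rw [h2] at h1
  have h3 : z ^ m = 1 := mul_left_cancel (a := y) (by rw [← h1, mul_one])
  apply hz1
  have h4 : orderOf z ∣ Nat.gcd m p :=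
    Nat.dvd_gcd (orderOf_dvd_of_pow_eq_one h3) (orderOf_dvd_of_pow_eq_one hzp)
  have h5 : Nat.gcd m p = 1 := ((Nat.Prime.coprime_iff_not_dvd hp).2 hm).symm
  rw [h5, Nat.dvd_one, orderOf_eq_one_iff] at h4
  exact h4

end

end Pool.Agent.Lib.P0c8ca5.Kk
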