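import Mathlib
import Pool.Agent.Lib.P0c8ca5Kk.Kye

/-!
# Kk.Kyf: Navarro's equality under conditions on `Z(P) ∩ G`

`G` is normal in `A`, `X` between `G` and `A`, `X / G` a p-group, `e` a block of `G` which is invariant under `X`, `P` a
defect group of `e` as a block of `X`, `P ∩ G` is abelian. `nav_centX`: Navarro's equality for `(G, X, e)` follows from
the weight conjecture for the blocks with an abelian defect group `D` contained in a conjugate of `P ∩ G` and
containing the conjugate `Z` of `Z(P) ∩ G`, such that the inertial quotient acts faithfully on the elements of order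
`p` of `Z` and every stabilizer of an element `x ≠ 1` of `D` is contained in the stabilizer of an element of order `p`
of `Z`.
-/

set_option autoImplicit false
set_option linter.unusedSectionVars false

namespace Pool.Agent.Lib.P0c8ca5.Kk

open MonoidAlgebra Ex Rk KgAux KxAux KxbAux KybAux FinAux

universe u v

/-- the inertial quotient acts faithfully on the elements of order `p` of `Z`, and the stabilizers of the elements of
`D` are contained in stabilizers of elements of order `p` of `Z` -/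
structure CenAct {k : Type v} [Field k] {A : Type u} [Group A] (p : ℕ) (D Z : Subgroup A)
    (f : MonoidAlgebra k A) : Prop where
  le : Z ≤ D
  faith : ∀ g ∈ St D f, (∀ z ∈ Z, z ^ p = 1 → g * z = z * g) → g ∈ CD D
  stab : ∀ x ∈ D, x ≠ 1 → ∃ z ∈ Z, z ^ p = 1 ∧ z ≠ 1 ∧ ∀ g ∈ St D f, g * x = x * g → g * z = z * g
  inv : ∀ g ∈ St D f, ∀ z ∈ Z, g * z * g⁻¹ ∈ Z

section
variable {p : ℕ} {k : Type v} [Field k] {A : Type u} [Group A] [Fintype A]
variable [Fact p.Prime] [CharP k p] [IsAlgClosed k]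
variable {b c e : MonoidAlgebra k A} {G H S X : Subgroup A} {σ : Finset (Subgroup A)}

/-- **Navarro's equality for `(G, X, e)` under conditions on `Z(P) ∩ G`** -/
theorem nav_centX (hG : G.Normal) (hGX : G ≤ X) (hp : ∀ x ∈ X, ∃ n : ℕ, x ^ p ^ n ∈ G)
    (he : IsBlock G e) (hinv : InvBy X e) {P : Subgroup A} (hP : IsDefectGroup p X e P)
    (hcom : ∀ x ∈ P ⊓ G, ∀ y ∈ P ⊓ G, x * y = y * x)
    (Φ : ∀ {B : Type u} [Group B], Subgroup B → Subgroup B → Prop)
    (hΦ : ∀ D Z : Subgroup A, (∃ g : A, D ≤ cg g (P ⊓ G)) → (∃ g : A, Z = cg g (P ⊓ G ⊓ CD P)) →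
      Z ≤ D → ∀ H : Subgroup A, D ≤ H → Φ (D.subgroupOf H) (Z.subgroupOf H))
    (hloc : ∀ {B : Type u} [Group B] [Fintype B] {b f : MonoidAlgebra k B} {D Z : Subgroup B},
      Root p b D f → CenAct p D Z f → Φ D Z → gap p (⊤ : Subgroup B) ⊤ b = 0) :
    NavarroEq p G X e := by
  refine navarro_of_baw hGX (fun x _ => mem_norm_of_normal G x) hp he hinv ?_
  intro σ hne hσ hσS b hb hbe
  obtain ⟨Q₁, hQ₁, hmin⟩ := exists_least hne hσ
  obtain ⟨D, P', hD, hP', ⟨g, hg, rfl⟩, hDS, hDZ, hRD, hHQ⟩ :=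
    chain_cent hG hGX hp he hinv hP hcom hne hσ hσS hb hbe hQ₁ hmin
  have hGc : ∀ g : A, cg g G = G := fun g => cg_eq_self_iff.2 (mem_norm_of_normal G g)
  have hDp := hD.isPGroup
  have hQp : IsPGroup p Q₁ := (hσS Q₁ hQ₁).2.1
  have hDG : D ≤ G := hD.le.trans inf_le_left
  have hDP : D ≤ cg g (P ⊓ G) := by
    rw [cg_inf, hGc]
    exact le_inf (le_sup_left.trans hDS) hDG
  have hDcom : ∀ x ∈ D, ∀ y ∈ D, x * y = y * x := by
    intro x hx y hy
    have h3 := hcom _ (mem_cg.1 (hDP hx)) _ (mem_cg.1 (hDP hy))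
    calc x * y = g * ((g⁻¹ * x * g) * (g⁻¹ * y * g)) * g⁻¹ := by group
      _ = g * ((g⁻¹ * y * g) * (g⁻¹ * x * g)) * g⁻¹ := by rw [h3]
      _ = y * x := by group
  set H : Subgroup A := G ⊓ stab X σ with hHdef
  have : Fintype ↥H := Fintype.ofFinite _
  have hDH : D ≤ H := hD.le
  -- the group `Z`
  set Z : Subgroup A := D ⊓ CD Q₁ with hZdef
  have hZg : Z = cg g (P ⊓ G ⊓ CD P) := by
    rw [hDZ, cg_inf, cg_inf, hGc, FuAux.cg_CD]
  have hZD : Z ≤ D := inf_le_left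
  -- the action of `Q₁`
  have hQD : ∀ q ∈ Q₁, ∀ v ∈ D, q * v * q⁻¹ ∈ D := by
    intro q hq v hv
    have h1 := hRD (hHQ v (hDH hv) q hq)
    have h2 : q * v * q⁻¹ = (v * q * v⁻¹ * q⁻¹)⁻¹ * v := by group
    rw [h2]
    exact D.mul_mem (D.inv_mem h1) hv
  -- a root
  have hN : H ⊓ CD D ≤ Subgroup.normalizer (D : Set A) :=
    inf_le_right.trans (Subgroup.centralizer_le_normalizer _)
  obtain ⟨f, hf, hbf⟩ := exists_blk (K := H ⊓ CD D) (e := resS (CD D : Set A) b)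
    (mem_fixAlg.2 ⟨resS_suppIn' hb.suppIn, invBy_res (hb.invBy.mono inf_le_left) hN⟩)
    (by rw [← resS_mul hDp (hb.invBy.mono hDH) (hb.invBy.mono hDH), hb.idem])
    (ne_of_hasBr hD.br)
  have hroot := root_dn H hb hD hDcom hf hbf
  have hfs : SuppIn H f := fun x hx => ((mem_fixAlg.1 hf.mem).1 x hx).1
  have hSt : ∀ x : ↥H, x ∈ St (D.subgroupOf H) (dn H f) ↔ (x : A) ∈ H ⊓ St D f := by
    intro x
    rw [St_subgroupOf hDH hfs, Subgroup.mem_subgroupOf]
  have hCD : ∀ x : ↥H, x ∈ CD (D.subgroupOf H) ↔ (x : A) ∈ CD D := by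
    intro x
    rw [CD_subgroupOf hDH, Subgroup.mem_subgroupOf, Subgroup.mem_inf]
    exact ⟨fun h => h.2, fun h => ⟨x.2, h⟩⟩
  have hWD : ∀ h ∈ H ⊓ St D f, ∀ v ∈ D, h * v * h⁻¹ ∈ D := fun h hh v hv =>
    (Subgroup.mem_normalizer_iff.1 (Subgroup.mem_inf.1 hh).2.1 v).1 hv
  have hWQ : ∀ h ∈ H ⊓ St D f, ∀ q ∈ Q₁, h * q * h⁻¹ * q⁻¹ ∈ D := fun h hh q hq =>
    hRD (hHQ h (Subgroup.mem_inf.1 hh).1 q hq)
  have hact : CenAct p (D.subgroupOf H) (Z.subgroupOf H) (dn H f) := by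
    refine ⟨fun x hx => Subgroup.mem_subgroupOf.2 (hZD (Subgroup.mem_subgroupOf.1 hx)), ?_, ?_, ?_⟩
    · intro x hx hxz
      rw [hCD]
      have hxW := (hSt x).1 hx
      -- the order of the action
      have hpow : x ^ eN (D.subgroupOf H) (dn H f) ∈ CD (D.subgroupOf H) := by
        have h1 : ((CD (D.subgroupOf H)).subgroupOf (St (D.subgroupOf H) (dn H f))).Normal := by
          refine ⟨fun y hy z => ?_⟩
          rw [Subgroup.mem_subgroupOf] at hy ⊢
          have hzN : (z : ↥H) ∈ Subgroup.normalizer ((D.subgroupOf H : Subgroup ↥H) : Set ↥H) :=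
            (mem_St.1 z.2).1
          rw [Subgroup.mem_centralizer_iff] at hy ⊢
          intro t ht
          have h2 : (z : ↥H)⁻¹ * t * z ∈ D.subgroupOf H := by
            have h3 := (Subgroup.mem_normalizer_iff.1 (Subgroup.inv_mem _ hzN) t).1 ht
            rwa [inv_inv] at h3
          have h3 := hy _ h2
          change t * ((z : ↥H) * y * (z : ↥H)⁻¹) = (z : ↥H) * y * (z : ↥H)⁻¹ * t
          calc t * ((z : ↥H) * y * (z : ↥H)⁻¹)
              = z * ((z : ↥H)⁻¹ * t * z * y) * (z : ↥H)⁻¹ := by group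
            _ = z * (y * ((z : ↥H)⁻¹ * t * z)) * (z : ↥H)⁻¹ := by rw [h3]
            _ = z * y * (z : ↥H)⁻¹ * t := by group
        have h2 := Subgroup.pow_index_mem
          ((CD (D.subgroupOf H)).subgroupOf (St (D.subgroupOf H) (dn H f)))
          (⟨x, hx⟩ : ↥(St (D.subgroupOf H) (dn H f)))
        exact Subgroup.mem_subgroupOf.1 h2
      refine faith_of_cent hDp hQp hDcom hQD hWD hWQ hxW
        (m := eN (D.subgroupOf H) (dn H f)) (Ku.ndvd hroot) ?_ ?_
      · have h3 := (hCD _).1 hpow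
        rwa [SubmonoidClass.coe_pow] at h3
      · intro z hz hzQ hzp
        have hzH : z ∈ H := hDH hz
        exact congrArg Subtype.val (hxz ⟨z, hzH⟩
          (Subgroup.mem_subgroupOf.2 (Subgroup.mem_inf.2 ⟨hz, hzQ⟩)) (Subtype.ext hzp))
    · intro x hx hx1
      obtain ⟨z, hz, hzQ, hzp, hz1, hzs⟩ := stab_of_cent hDp hQp hDcom hQD hWQ
        (Subgroup.mem_subgroupOf.1 hx) (fun h => hx1 (Subtype.ext h))
      refine ⟨⟨z, hDH hz⟩, Subgroup.mem_subgroupOf.2 (Subgroup.mem_inf.2 ⟨hz, hzQ⟩),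
        Subtype.ext hzp, fun h => hz1 (congrArg Subtype.val h), fun g' hg' hgx => ?_⟩
      exact Subtype.ext (hzs g' ((hSt g').1 hg') (congrArg Subtype.val hgx))
    · intro x hx z hz
      rw [Subgroup.mem_subgroupOf] at hz ⊢
      have hxW := (hSt x).1 hx
      obtain ⟨hzD, hzQ⟩ := Subgroup.mem_inf.1 hz
      have hxz : (x : A) * z * (x : A)⁻¹ ∈ D := hWD x hxW z hzD
      refine Subgroup.mem_inf.2 ⟨hxz, ?_⟩
      rw [Subgroup.mem_centralizer_iff]
      intro q hq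
      have hd := hWQ x hxW q hq
      obtain ⟨d, hdD, h1⟩ : ∃ d ∈ D, (q : A) * x = d⁻¹ * (x * q) :=
        ⟨x * q * (x : A)⁻¹ * q⁻¹, hd, by group⟩
      have h2 := Subgroup.mem_centralizer_iff.1 hzQ q hq
      have h3 := hDcom d⁻¹ (D.inv_mem hdD) _ hxz
      have h4 : (x : A) * q = d * (q * x) := by rw [h1]; group
      have h5 : q * (x : A)⁻¹ = (x : A)⁻¹ * (d * q) := by
        have h6 : (x : A)⁻¹ * (d * (q * x)) = q := by rw [← h4]; group
        calc q * (x : A)⁻¹ = (x : A)⁻¹ * (d * (q * x)) * (x : A)⁻¹ := by rw [h6]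
          _ = (x : A)⁻¹ * (d * q) := by group
      calc q * ((x : A) * z * (x : A)⁻¹) = (q * x) * z * (x : A)⁻¹ := by group
        _ = d⁻¹ * (x * q) * z * (x : A)⁻¹ := by rw [h1]
        _ = d⁻¹ * (x * (q * z) * (x : A)⁻¹) := by group
        _ = d⁻¹ * (x * (z * q) * (x : A)⁻¹) := by rw [h2]
        _ = d⁻¹ * (x * z * (q * (x : A)⁻¹)) := by group
        _ = d⁻¹ * (x * z * ((x : A)⁻¹ * (d * q))) := by rw [h5]
        _ = d⁻¹ * ((x : A) * z * (x : A)⁻¹) * (d * q) := by group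
        _ = ((x : A) * z * (x : A)⁻¹) * d⁻¹ * (d * q) := by rw [h3]
        _ = (x : A) * z * (x : A)⁻¹ * q := by group
  have hgap : gap p (⊤ : Subgroup ↥H) ⊤ (dn H b) = 0 :=
    hloc hroot hact (hΦ D Z ⟨g, hDP⟩ ⟨g, hZg⟩ hZD H hDH)
  have hHH : ∀ x ∈ H, ∃ m : ℕ, x ^ p ^ m ∈ H := fun x hx => ⟨0, by simpa using hx⟩
  rw [navarroEq_iff_gap le_rfl Subgroup.le_normalizer hHH hb hb.invBy, ← gap_transport hb]
  exact hgap

end

end Pool.Agent.Lib.P0c8ca5.Kk
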