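import Mathlib
import Pool.Agent.Lib.P0c8ca5Kk.Kyf
import Pool.Agent.Lib.P0c8ca5Ex.ZQ
import Pool.Agent.Lib.P0c8ca5Ex.ZVd

/-!
# Kk.Kyg: Navarro's equality if `Z(P) ∩ G` is cyclic, or of rank two and large

`G` is normal in `A`, `X` between `G` and `A`, `X / G` a p-group, `e` a block of `G` which is invariant under `X`, `P` a
defect group of `e` as a block of `X`, `P ∩ G` is abelian (of any rank), `Z = Z(P) ∩ G`.

`nav_z1`: if `Z` is cyclic, then Navarro's equality holds for `(G, X, e)`. `nav_z2`: the same if `Z` has rank at most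
two and its elements of order `p` are `p ^ 2`-th powers in `Z`.
-/

set_option autoImplicit false
set_option linter.unusedSectionVars false

namespace Pool.Agent.Lib.P0c8ca5.Kk

open MonoidAlgebra Ex Rk KgAux KxAux KxbAux KybAux FinAux

universe u v

namespace KygAux

section
variable {p : ℕ} {k : Type v} [Field k] {A : Type u} [Group A] [Fintype A]
variable [Fact p.Prime] [CharP k p] [IsAlgClosed k]
variable {b f : MonoidAlgebra k A} {D Z : Subgroup A}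
variable {T : Type u} [CommGroup T] [Fintype T] {φ : T →* A}

/-- the elements of `EG` preserve the preimage of `Z` -/
theorem inv_EG (h : CenAct p D Z f) {α : MulAut T} (hα : α ∈ EG φ D f) {y : T}
    (hy : y ∈ Z.comap φ) : α y ∈ Z.comap φ := by
  obtain ⟨g, hg, hgt⟩ := hα
  rw [Subgroup.mem_comap] at hy ⊢
  rw [hgt]
  exact h.inv g hg _ hy

/-- the restriction to the preimage of `Z` is injective -/
theorem cen_inj (h : CenAct p D Z f) (hφ : Function.Injective φ)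
    (hr : ∀ x, x ∈ D ↔ ∃ t, φ t = x) {E₁ : Subgroup (MulAut T)} (hE : E₁ ≤ EG φ D f) :
    Function.Injective (Ku.resG E₁ (Z.comap φ) fun _ hα _ hy => inv_EG h (hE hα) hy) := by
  rw [injective_iff_map_eq_one]
  intro α hα
  apply Subtype.ext
  obtain ⟨g, hg, hgt⟩ := hE α.2
  have hgD : g ∈ CD D := by
    refine h.faith g hg fun z hz hzp => ?_
    obtain ⟨t, rfl⟩ := (hr z).1 (h.le hz)
    have h1 := DFunLike.congr_fun hα ⟨t, Subgroup.mem_comap.2 hz⟩
    have h2 : (α : MulAut T) t = t := congrArg Subtype.val h1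
    have h3 := hgt t
    rw [h2] at h3
    calc g * φ t = g * φ t * g⁻¹ * g := by group
      _ = φ t * g := by rw [← h3]
  ext t
  change (α : MulAut T) t = t
  apply hφ
  rw [hgt, ← Subgroup.mem_centralizer_iff.1 hgD (φ t) ((hr _).2 ⟨t, rfl⟩)]
  group

/-- the elements of order `p` of the preimage of `Z` -/
theorem card_pre (hφ : Function.Injective φ) {m : ℕ}
    (hm : Nat.card {z : A // z ∈ Z ∧ z ^ p = 1} ≤ m) :
    Nat.card {x : ↥(Z.comap φ) // x ^ p = 1} ≤ m := by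
  refine le_trans ?_ hm
  refine Nat.card_le_card_of_injective (fun x : {x : ↥(Z.comap φ) // x ^ p = 1} =>
    (⟨φ x.1, Subgroup.mem_comap.1 x.1.2, by
      have h1 : (x.1 : T) ^ p = 1 := congrArg Subtype.val x.2
      rw [← map_pow, h1, map_one]⟩ : {z : A // z ∈ Z ∧ z ^ p = 1})) ?_
  intro x y hxy
  exact Subtype.ext (Subtype.ext (hφ (congrArg Subtype.val hxy)))

/-- a point of `Z` above a point of `D` -/
theorem exists_pt (h : CenAct p D Z f) (hφ : Function.Injective φ)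
    (hr : ∀ x, x ∈ D ↔ ∃ t, φ t = x) {u : T} (hu : u ≠ 1) :
    ∃ t ∈ Z.comap φ, t ≠ 1 ∧ ∀ α ∈ EG φ D f, α u = u → α t = t := by
  obtain ⟨z, hz, hzp, hz1, hst⟩ := h.stab (φ u) ((hr _).2 ⟨u, rfl⟩)
    fun h1 => hu (hφ (by rw [h1, map_one]))
  obtain ⟨t, rfl⟩ := (hr z).1 (h.le hz)
  refine ⟨t, Subgroup.mem_comap.2 hz, fun h1 => hz1 (by rw [h1, map_one]), fun α hα hαu => ?_⟩
  obtain ⟨g, hg, hgt⟩ := hα
  have h1 : g * φ u = φ u * g := by
    have h2 := hgt u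
    rw [hαu] at h2
    calc g * φ u = g * φ u * g⁻¹ * g := by group
      _ = φ u * g := by rw [← h2]
  have h2 := hst g hg h1
  apply hφ
  rw [hgt, h2]
  group

end

end KygAux

open KygAux

section
variable {p : ℕ} {k : Type v} [Field k] {A : Type u} [Group A] [Fintype A]
variable [Fact p.Prime] [CharP k p] [IsAlgClosed k]
variable {b c e f : MonoidAlgebra k A} {D Z G H S X : Subgroup A} {σ : Finset (Subgroup A)}

/-- `T = D` with its properties -/
theorem exists_T (h : Root p b D f) : ∃ (T : Type u) (_ : CommGroup T) (_ : Fintype T)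
    (φ : T →* A), IsPGroup p T ∧ Function.Injective φ ∧ (∀ x, x ∈ D ↔ ∃ t, φ t = x) ∧
      Nat.card (EG φ D f) = eN D f ∧ ¬ p ∣ Nat.card (EG φ D f) := by
  let _ : CommGroup ↥D := cgrp D h.com
  let _ : Fintype ↥D := Fintype.ofFinite _
  have hφ : Function.Injective (D.subtype : ↥D →* A) := Subtype.val_injective
  have hrD : ∀ x, x ∈ D ↔ ∃ t, (D.subtype : ↥D →* A) t = x :=
    fun x => ⟨fun hx => ⟨⟨x, hx⟩, rfl⟩, by rintro ⟨t, rfl⟩; exact t.2⟩
  have hT : IsPGroup p ↥D := by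
    intro u
    obtain ⟨m, hm⟩ := h.dfg.isPGroup u
    exact ⟨m, Subtype.ext (congrArg Subtype.val hm)⟩
  have hcard : Nat.card (EG D.subtype D f) = eN D f := card_EG hφ hrD
  exact ⟨↥D, inferInstance, inferInstance, D.subtype, hT, hφ, hrD, hcard, by
    rw [hcard]
    exact Ku.ndvd h⟩

/-- the inertial index is bounded by the rank of `Z` -/
theorem eN_cen_le (h : Root p b D f) (hc : CenAct p D Z f) {s : ℕ}
    (hs : Nat.card {z : A // z ∈ Z ∧ z ^ p = 1} ≤ p ^ s) : eN D f ≤ p ^ (s * (s + 1) / 2) := by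
  obtain ⟨T, _, _, φ, hT, hφ, hr, hcard, hpE⟩ := exists_T h
  have hinj := cen_inj hc hφ hr (le_refl (EG φ D f))
  set ρ := Ku.resG (EG φ D f) (Z.comap φ) fun _ hα _ hy => inv_EG hc hα hy with hρ
  have h1 : Nat.card ρ.range = Nat.card (EG φ D f) :=
    Nat.card_congr (MonoidHom.ofInjective hinj).symm.toEquiv
  rw [← hcard, ← h1]
  exact Ku.card_le_gl (Fact.out) (hT.to_subgroup _) ρ.range (by rwa [h1]) (card_pre hφ hs)

/-- the local theorem if `Z` is cyclic -/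
theorem gap_z1 (hp2 : p ≠ 2) (h : Root p b D f) (hc : CenAct p D Z f)
    (hs : Nat.card {z : A // z ∈ Z ∧ z ^ p = 1} ≤ p) : gap p (⊤ : Subgroup A) ⊤ b = 0 := by
  have h1 := eN_cen_le h hc (s := 1) (by rwa [pow_one])
  rw [show 1 * (1 + 1) / 2 = 1 from rfl, pow_one] at h1
  exact gap_lt_p hp2 h (lt_of_le_of_ne h1 fun h2 => Ku.ndvd h (by rw [h2]))

/-- the stabilizers of the elements of `T` -/
theorem cen_st (hc : CenAct p D Z f) {T : Type u} [CommGroup T] [Fintype T] {φ : T →* A}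
    (hT : IsPGroup p T) (hφ : Function.Injective φ) (hr : ∀ x, x ∈ D ↔ ∃ t, φ t = x)
    (hpE : ¬ p ∣ Nat.card (EG φ D f)) (hs : Nat.card {z : A // z ∈ Z ∧ z ^ p = 1} ≤ p ^ 2)
    {u : T} (hu : u ≠ 1) : Ex.st (EG φ D f) u < p := by
  have hp : p.Prime := Fact.out
  obtain ⟨t, htZ, ht1, hst⟩ := exists_pt hc hφ hr hu
  let F : Subgroup (MulAut T) :=
    { carrier := {α | α ∈ EG φ D f ∧ α t = t}
      mul_mem' := by
        rintro a b ⟨ha, ha'⟩ ⟨hb, hb'⟩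
        exact ⟨(EG φ D f).mul_mem ha hb, by rw [MulAut.mul_apply, hb', ha']⟩
      one_mem' := ⟨(EG φ D f).one_mem, rfl⟩
      inv_mem' := by
        rintro a ⟨ha, ha'⟩
        refine ⟨(EG φ D f).inv_mem ha, ?_⟩
        conv_lhs => rw [← ha']
        exact MulAut.inv_apply_self _ _ _ }
  have hFE : F ≤ EG φ D f := fun _ h => h.1
  have hEfin : Finite (MulAut T) := Finite.of_injective (fun φ : MulAut T => (φ : T → T))
      (fun a b h => MulEquiv.ext fun x => congrFun h x)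
  have h1 : Ex.st (EG φ D f) u ≤ Nat.card F := by
    unfold Ex.st
    refine Nat.card_le_card_of_injective (fun α : {α : EG φ D f // (α : MulAut T) u = u} =>
      (⟨α.1, α.1.2, hst α.1 α.1.2 α.2⟩ : F)) ?_
    intro a b hab
    have h5 : ((a.1 : EG φ D f) : MulAut T) = ((b.1 : EG φ D f) : MulAut T) :=
      congrArg (fun z : F => (z : MulAut T)) hab
    exact Subtype.ext (Subtype.ext h5)
  have hpF : ¬ p ∣ Nat.card F := fun h => hpE (h.trans (Subgroup.card_dvd_of_le hFE))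
  have hinj := cen_inj hc hφ hr hFE
  set ρ := Ku.resG F (Z.comap φ) fun _ hα _ hy => inv_EG hc (hFE hα) hy with hρ
  have h2 : Nat.card ρ.range = Nat.card F :=
    Nat.card_congr (MonoidHom.ofInjective hinj).symm.toEquiv
  have h3 : Nat.card ρ.range ≤ p ^ (2 * (2 - 1) / 2) := by
    refine Ku.fix_le hp (hT.to_subgroup _) ρ.range (by rwa [h2]) (card_pre hφ hs)
      (x := ⟨t, htZ⟩) (fun h => ht1 (congrArg Subtype.val h)) ?_
    rintro _ ⟨α, rfl⟩
    exact Subtype.ext α.2.2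
  rw [show 2 * (2 - 1) / 2 = 1 from rfl, pow_one, h2] at h3
  exact lt_of_le_of_lt h1 (lt_of_le_of_ne h3 fun h => hpF (by rw [h]))

/-- the subgroups fixing a point are cyclic -/
theorem cen_cyc (hc : CenAct p D Z f) {T : Type u} [CommGroup T] [Fintype T] {φ : T →* A}
    (hT : IsPGroup p T) (hφ : Function.Injective φ) (hr : ∀ x, x ∈ D ↔ ∃ t, φ t = x)
    (hpE : ¬ p ∣ Nat.card (EG φ D f)) (hs : Nat.card {z : A // z ∈ Z ∧ z ^ p = 1} ≤ p ^ 2)
    {E₁ : Subgroup (MulAut T)} (hE₁ : E₁ ≤ EG φ D f) {u : T} (hu : u ≠ 1)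
    (hfix : ∀ α ∈ E₁, α u = u) : IsCyclic ↥E₁ := by
  classical
  have hp : p.Prime := Fact.out
  obtain ⟨t, htZ, ht1, hst⟩ := exists_pt hc hφ hr hu
  have hEfin : Finite (MulAut T) := Finite.of_injective (fun φ : MulAut T => (φ : T → T))
      (fun a b h => MulEquiv.ext fun x => congrFun h x)
  have hpF : ¬ p ∣ Nat.card E₁ := fun h => hpE (h.trans (Subgroup.card_dvd_of_le hE₁))
  have hinj := cen_inj hc hφ hr hE₁
  set ρ := Ku.resG E₁ (Z.comap φ) fun _ hα _ hy => inv_EG hc (hE₁ hα) hy with hρ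
  have h2 : Nat.card ρ.range = Nat.card E₁ :=
    Nat.card_congr (MonoidHom.ofInjective hinj).symm.toEquiv
  have : Fintype ↥(Z.comap φ) := Fintype.ofFinite _
  have h3 : IsCyclic ρ.range := by
    refine cyc_of_fix hp (hT.to_subgroup _) (by rwa [h2]) (card_pre hφ hs)
      (u := ⟨t, htZ⟩) (fun h => ht1 (congrArg Subtype.val h)) ?_
    rintro _ ⟨α, rfl⟩
    exact Subtype.ext (hst α (hE₁ α.2) (hfix α α.2))
  exact isCyclic_of_injective (MonoidHom.ofInjective hinj).toMonoidHom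
    (MonoidHom.ofInjective hinj).injective

/-- the local theorem if `Z` has rank two, general form -/
theorem gap_z2' (hp2 : p ≠ 2) (h : Root p b D f) (hc : CenAct p D Z f)
    (hs : Nat.card {z : A // z ∈ Z ∧ z ^ p = 1} ≤ p ^ 2) {n : ℕ} (hn : 1 ≤ n)
    (hE : eN D f < p ^ (n + 1)) (hZ : ∀ z ∈ Z, z ^ p = 1 → ∃ y ∈ D, y ^ p ^ n = z) :
    gap p (⊤ : Subgroup A) ⊤ b = 0 := by
  have hp : p.Prime := Fact.out
  have hF : Ku.Faith p n D f := by
    intro g hg hy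
    refine hc.faith g hg fun z hz hzp => ?_
    obtain ⟨y, hyD, rfl⟩ := hZ z hz hzp
    exact hy y hyD
  refine (k2_genY hp2 h hn hF hE ?_).1
  intro T _ _ φ hT hφ hr hpE
  refine ⟨fun u hu => ?_, fun E' hE' ⟨u, hu, hfix⟩ => cen_cyc hc hT hφ hr hpE hs hE' hu hfix⟩
  have h1 := cen_st hc hT hφ hr hpE hs hu
  have h2 : Ex.st (EG φ D f) u ≤ p - 1 := by omega
  have hp1 := hp.one_lt
  calc Ex.st (EG φ D f) u ^ 2 ≤ (p - 1) ^ 2 := Nat.pow_le_pow_left h2 2
    _ = (p - 1) * (p - 1) := sq _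
    _ < p * (p - 1) := Nat.mul_lt_mul_of_pos_right (by omega) (by omega)
    _ ≤ p ^ (n + 1) * (p - 1) := Nat.mul_le_mul_right _ (Nat.le_self_pow (by omega) p)

/-- the local theorem if `Z` has rank two and its elements of order `p` are `p ^ 2`-th powers -/
theorem gap_z2 (hp2 : p ≠ 2) (h : Root p b D f) (hc : CenAct p D Z f)
    (hs : Nat.card {z : A // z ∈ Z ∧ z ^ p = 1} ≤ p ^ 2)
    (hZ : ∀ z ∈ Z, z ^ p = 1 → ∃ y ∈ D, y ^ p ^ 2 = z) :
    gap p (⊤ : Subgroup A) ⊤ b = 0 := by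
  have hp : p.Prime := Fact.out
  have h1 := eN_cen_le h hc (s := 2) hs
  rw [show 2 * (2 + 1) / 2 = 3 from rfl] at h1
  refine gap_z2' hp2 h hc hs (n := 2) (by norm_num) (lt_of_le_of_ne h1 fun h2 => ?_) hZ
  exact Ku.ndvd h (by rw [h2]; exact dvd_pow_self p (by norm_num))

/-- **Navarro's equality if `Z(P) ∩ G` is cyclic** -/
theorem nav_z1 (hp2 : p ≠ 2) (hG : G.Normal) (hGX : G ≤ X) (hp : ∀ x ∈ X, ∃ n : ℕ, x ^ p ^ n ∈ G)
    (he : IsBlock G e) (hinv : InvBy X e) {P : Subgroup A} (hP : IsDefectGroup p X e P)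
    (hcom : ∀ x ∈ P ⊓ G, ∀ y ∈ P ⊓ G, x * y = y * x)
    (hs : Nat.card {z : A // z ∈ P ⊓ G ⊓ CD P ∧ z ^ p = 1} ≤ p) :
    NavarroEq p G X e := by
  refine nav_centX hG hGX hp he hinv hP hcom
    (fun {B} [Group B] (D Z : Subgroup B) => Nat.card {z : B // z ∈ Z ∧ z ^ p = 1} ≤ p) ?_
    (fun {B} _ _ {b f D Z} h hc hΦ => gap_z1 hp2 h hc hΦ)
  rintro D Z - ⟨g, rfl⟩ hZD H hDH
  refine le_trans (Nat.card_le_card_of_injective
    (fun x => (⟨g⁻¹ * (x.1 : A) * g, mem_cg.1 (Subgroup.mem_subgroupOf.1 x.2.1), by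
      have h1 : ((x.1 : ↥H) : A) ^ p = 1 := congrArg Subtype.val x.2.2
      have h2 := conj_pow (a := g⁻¹) (b := ((x.1 : ↥H) : A)) (i := p)
      rw [inv_inv] at h2
      rw [h2, h1]
      group⟩ : {z : A // z ∈ P ⊓ G ⊓ CD P ∧ z ^ p = 1})) ?_) hs
  intro x y hxy
  have h4 : g⁻¹ * ((x.1 : ↥H) : A) * g = g⁻¹ * ((y.1 : ↥H) : A) * g :=
    congrArg (fun z : {z : A // z ∈ P ⊓ G ⊓ CD P ∧ z ^ p = 1} => (z : A)) hxy
  exact Subtype.ext (Subtype.ext (mul_left_cancel (mul_right_cancel h4)))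

/-- **Navarro's equality if `Z(P) ∩ G` has rank two and its elements of order `p` are `p ^ 2`-th powers in it** -/
theorem nav_z2 (hp2 : p ≠ 2) (hG : G.Normal) (hGX : G ≤ X) (hp : ∀ x ∈ X, ∃ n : ℕ, x ^ p ^ n ∈ G)
    (he : IsBlock G e) (hinv : InvBy X e) {P : Subgroup A} (hP : IsDefectGroup p X e P)
    (hcom : ∀ x ∈ P ⊓ G, ∀ y ∈ P ⊓ G, x * y = y * x)
    (hs : Nat.card {z : A // z ∈ P ⊓ G ⊓ CD P ∧ z ^ p = 1} ≤ p ^ 2)
    (hZ : ∀ z ∈ P ⊓ G ⊓ CD P, z ^ p = 1 → ∃ y ∈ P ⊓ G ⊓ CD P, y ^ p ^ 2 = z) :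
    NavarroEq p G X e := by
  refine nav_centX hG hGX hp he hinv hP hcom
    (fun {B} [Group B] (D Z : Subgroup B) => Z ≤ D ∧
      Nat.card {z : B // z ∈ Z ∧ z ^ p = 1} ≤ p ^ 2 ∧
      ∀ z ∈ Z, z ^ p = 1 → ∃ y ∈ Z, y ^ p ^ 2 = z) ?_
    (fun {B} _ _ {b f D Z} h hc hΦ => gap_z2 hp2 h hc hΦ.2.1 fun z hz hzp => by
      obtain ⟨y, hy, h1⟩ := hΦ.2.2 z hz hzp
      exact ⟨y, hΦ.1 hy, h1⟩)
  rintro D Z - ⟨g, rfl⟩ hZD H hDH
  have hpowc : ∀ (x : A) (m : ℕ), (g⁻¹ * x * g) ^ m = g⁻¹ * x ^ m * g := by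
    intro x m
    have h1 := conj_pow (a := g⁻¹) (b := x) (i := m)
    rwa [inv_inv] at h1
  refine ⟨fun x hx => Subgroup.mem_subgroupOf.2 (hZD (Subgroup.mem_subgroupOf.1 hx)), ?_, ?_⟩
  · refine le_trans (Nat.card_le_card_of_injective
      (fun x => (⟨g⁻¹ * (x.1 : A) * g, mem_cg.1 (Subgroup.mem_subgroupOf.1 x.2.1), by
        have h1 : ((x.1 : ↥H) : A) ^ p = 1 := congrArg Subtype.val x.2.2
        rw [hpowc, h1]
        group⟩ : {z : A // z ∈ P ⊓ G ⊓ CD P ∧ z ^ p = 1})) ?_) hs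
    intro x y hxy
    have h4 : g⁻¹ * ((x.1 : ↥H) : A) * g = g⁻¹ * ((y.1 : ↥H) : A) * g :=
      congrArg (fun z : {z : A // z ∈ P ⊓ G ⊓ CD P ∧ z ^ p = 1} => (z : A)) hxy
    exact Subtype.ext (Subtype.ext (mul_left_cancel (mul_right_cancel h4)))
  · intro z hz hzp
    rw [Subgroup.mem_subgroupOf, mem_cg] at hz
    have hzp' : (z : A) ^ p = 1 := congrArg Subtype.val hzp
    obtain ⟨y, hy, hyz⟩ := hZ _ hz (by rw [hpowc, hzp']; group)
    have hy' : g * y * g⁻¹ ∈ cg g (P ⊓ G ⊓ CD P) := by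
      rw [mem_cg]
      have h1 : g⁻¹ * (g * y * g⁻¹) * g = y := by group
      rwa [h1]
    refine ⟨⟨g * y * g⁻¹, hDH (hZD hy')⟩, Subgroup.mem_subgroupOf.2 hy', Subtype.ext ?_⟩
    rw [SubmonoidClass.coe_pow]
    change (g * y * g⁻¹) ^ p ^ 2 = z
    rw [conj_pow, hyz]
    group

end

end Pool.Agent.Lib.P0c8ca5.Kk
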