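import Mathlib
import Pool.Agent.Lib.P0c8ca5.WtEquiv

/-!
# Kk.Kzf: Navarro's equality for one pair from the supplements

`G` is normal in `A`, `A / G` a p-group, `e` a block of `G` which is invariant under `A`, `G ≤ N ≤ H`, `H` normalizes
`N`. `nav_of_suppl`: Navarro's equality for `(N, H, e)` follows from Navarro's equality for `(G, X, e)` for the groups `X`
with `G ≤ X ≤ H` and `N X = H`.
-/

set_option autoImplicit false
set_option linter.unusedSectionVars false

namespace Pool.Agent.Lib.P0c8ca5.Kk

universe u v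

namespace KzfAux

open Classical in
theorem card_ge {A : Type*} [Group A] [Finite A] [Fintype (Subgroup A)] {W : Type*} [Fintype W]
    {Z H : Subgroup A} (hZH : Z ≤ H) (r : W → Subgroup A) :
    Nat.card {x // Z ≤ r x} = ∑ Z' : Subgroup A with Z ≤ Z',
      (Finset.univ.filter fun x => H ⊓ r x = Z').card := by
  rw [Nat.card_eq_fintype_card, Fintype.card_subtype]
  rw [Finset.card_eq_sum_card_fiberwise (f := fun x => H ⊓ r x)
    (t := Finset.univ.filter fun Z' : Subgroup A => Z ≤ Z')]
  · refine Finset.sum_congr rfl fun Z' hZ' => ?_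
    congr 1
    ext x
    simp only [Finset.mem_filter, Finset.mem_univ, true_and]
    refine ⟨fun hx => hx.2, fun hx => ⟨?_, hx⟩⟩
    have h1 : Z ≤ H ⊓ r x := by
      rw [hx]
      exact (Finset.mem_filter.1 hZ').2
    exact h1.trans inf_le_right
  · intro x hx
    rw [Finset.mem_coe, Finset.mem_filter] at hx ⊢
    exact ⟨Finset.mem_univ _, le_inf hZH hx.2⟩

open Classical in
theorem cnt_fib {A : Type*} [Group A] [Finite A] [Fintype (Subgroup A)] {W : Type*} [Fintype W]
    {G N H : Subgroup A} (hGH : G ≤ H) (r : W → Subgroup A) (hr : ∀ x, G ≤ r x) :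
    cnt r N H = ∑ Z : Subgroup A with (G ≤ Z ∧ Z ≤ H ∧ N ⊔ Z = H),
      (Finset.univ.filter fun x => H ⊓ r x = Z).card * Nat.card Z := by
  rw [cnt_def, ← Finset.sum_filter]
  rw [← Finset.sum_fiberwise_of_maps_to (g := fun x => H ⊓ r x)
    (t := Finset.univ.filter fun Z : Subgroup A => G ≤ Z ∧ Z ≤ H ∧ N ⊔ Z = H)]
  · refine Finset.sum_congr rfl fun Z hZ => ?_
    have hZ2 := (Finset.mem_filter.1 hZ).2
    rw [Finset.filter_filter]
    have h1 : (Finset.univ.filter fun x => N ⊔ H ⊓ r x = H ∧ H ⊓ r x = Z)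
        = Finset.univ.filter fun x => H ⊓ r x = Z := by
      ext x
      simp only [Finset.mem_filter, Finset.mem_univ, true_and]
      refine ⟨fun hx => hx.2, fun hx => ⟨?_, hx⟩⟩
      rw [hx]
      exact hZ2.2.2
    rw [h1, Finset.sum_congr rfl (g := fun _ => Nat.card Z) fun x hx => by
      rw [(Finset.mem_filter.1 hx).2], Finset.sum_const, smul_eq_mul]
  · intro x hx
    rw [Finset.mem_filter] at hx ⊢
    exact ⟨Finset.mem_univ _, le_inf hGH (hr x), inf_le_left, hx.2⟩

open Classical in
theorem card_no {A : Type*} [Group A] {W : Type*} [Fintype W] {H Z' : Subgroup A}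
    (hZ : ¬ Z' ≤ H) (r : W → Subgroup A) : (Finset.univ.filter fun x => H ⊓ r x = Z').card = 0 := by
  rw [Finset.card_eq_zero, Finset.filter_eq_empty_iff]
  intro x _ hx
  exact hZ (hx ▸ inf_le_left)

open Classical in
/-- the counts are determined by the numbers of the elements whose groups contain a supplement -/
theorem cnt_eq_of {A : Type*} [Group A] [Finite A] {X Y : Type*} [Fintype X] [Fintype Y]
    {s : X → Subgroup A} {t : Y → Subgroup A} {G N H : Subgroup A} (hGH : G ≤ H)
    (hs : ∀ x, G ≤ s x) (ht : ∀ y, G ≤ t y)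
    (h : ∀ Z, G ≤ Z → Z ≤ H → N ⊔ Z = H →
      Nat.card {x // Z ≤ s x} = Nat.card {y // Z ≤ t y}) : cnt s N H = cnt t N H := by
  have : Fintype (Subgroup A) := Fintype.ofFinite _
  -- the number of the elements with a given group
  have key : ∀ n : ℕ, ∀ Z : Subgroup A, G ≤ Z → Z ≤ H → N ⊔ Z = H →
      Nat.card H - Nat.card Z = n →
      (Finset.univ.filter fun x => H ⊓ s x = Z).card
        = (Finset.univ.filter fun y => H ⊓ t y = Z).card := by
    intro n
    induction n using Nat.strong_induction_on with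
    | _ n ih =>
      intro Z hGZ hZH hNZ hn
      have h1 := h Z hGZ hZH hNZ
      rw [card_ge hZH s, card_ge hZH t] at h1
      have hmem : Z ∈ Finset.univ.filter fun Z' : Subgroup A => Z ≤ Z' :=
        Finset.mem_filter.2 ⟨Finset.mem_univ _, le_rfl⟩
      rw [← Finset.add_sum_erase _ _ hmem, ← Finset.add_sum_erase _ _ hmem] at h1
      have h2 : ∑ Z' ∈ (Finset.univ.filter fun Z' : Subgroup A => Z ≤ Z').erase Z,
            (Finset.univ.filter fun x => H ⊓ s x = Z').card
          = ∑ Z' ∈ (Finset.univ.filter fun Z' : Subgroup A => Z ≤ Z').erase Z,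
            (Finset.univ.filter fun y => H ⊓ t y = Z').card := by
        refine Finset.sum_congr rfl fun Z' hZ' => ?_
        obtain ⟨hne, hZ'⟩ := Finset.mem_erase.1 hZ'
        have hZZ' : Z ≤ Z' := (Finset.mem_filter.1 hZ').2
        by_cases hZ'H : Z' ≤ H
        · refine ih (Nat.card H - Nat.card Z') ?_ Z' (hGZ.trans hZZ') hZ'H ?_ rfl
          · have h3 : Nat.card Z < Nat.card Z' := by
              by_contra hcon
              push Not at hcon
              exact hne (Subgroup.eq_of_le_of_card_ge hZZ' hcon).symm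
            have h4 : Nat.card Z' ≤ Nat.card H := Subgroup.card_le_of_le hZ'H
            omega
          · refine le_antisymm (sup_le ?_ hZ'H) ?_
            · rw [← hNZ]
              exact le_sup_left
            · rw [← hNZ]
              exact sup_le_sup_left hZZ' N
        · rw [card_no hZ'H s, card_no hZ'H t]
      rw [h2] at h1
      exact Nat.add_right_cancel h1
  rw [cnt_fib hGH s hs, cnt_fib hGH t ht]
  refine Finset.sum_congr rfl fun Z hZ => ?_
  obtain ⟨h1, h2, h3⟩ := (Finset.mem_filter.1 hZ).2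
  rw [key _ Z h1 h2 h3 rfl]

end KzfAux

section
variable {p : ℕ} {k : Type v} [Field k] {A : Type u} [Group A] [Fintype A]
variable [Fact p.Prime] [CharP k p] [IsAlgClosed k]
variable {e : MonoidAlgebra k A} {G : Subgroup A} [G.Normal]

/-- **Navarro's equality for `(N, H, e)` from the supplements of `N` in `H`** -/
theorem nav_of_suppl {N H : Subgroup A} (hGN : G ≤ N) (hNH : N ≤ H)
    (hn : H ≤ Subgroup.normalizer (N : Set A)) (hp : ∀ x : A, ∃ n : ℕ, x ^ p ^ n ∈ G)
    (he : IsBlock G e) (hinv : InvBy ⊤ e)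
    (h : ∀ X, G ≤ X → X ≤ H → N ⊔ X = H → NavarroEq p G X e) : NavarroEq p N H e := by
  classical
  have hfinW : Finite (Wt p G e) := finite_Wt he hinv
  have : Finite (IrX G e) := inferInstance
  have : Fintype (IrX G e) := Fintype.ofFinite _
  have : Fintype (WtC p G e) := Fintype.ofFinite _
  rw [navarroEq_iff_stZ hGN hNH hn hp he hinv]
  refine KzfAux.cnt_eq_of (hGN.trans hNH) (fun x => G_le_stX hinv x)
    (fun x => G_le_stZ he hinv x) fun X hGX hXH hNX => ?_
  have h1 := (navarroEq_iff_stZ (le_refl G) hGX (fun x _ => mem_norm_of_normal G x) hp he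
    hinv).1 (h X hGX hXH hNX)
  rw [cnt_fixed hGX (fun x => G_le_stX hinv x),
    cnt_fixed hGX (fun x => G_le_stZ he hinv x)] at h1
  exact Nat.eq_of_mul_eq_mul_left Nat.card_pos h1

end

end Pool.Agent.Lib.P0c8ca5.Kk
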