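import Mathlib
import Pool.Agent.Lib.P0c8ca5Kk.Kyd

/-!
# Kk.Kzc: the inertial groups of the blocks of the stabilizers of the chains

`G` is normal in `A`, `A / G` a p-group, `e` a block of `G` which is invariant under `A`, `P` a defect group of `e` as
a block of `A`, `P ∩ G` abelian. `σ` is a chain of p-subgroups `Q` with `G Q = A`, `S` its largest member, `b` a block
of `H = N_G(σ)` with `b Br_S(e) ≠ 0`, `D` a defect group of `b`, `f` a block of `C_H(D)` below `b`. There is a block `c`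
of `C(D S)` below `e` such that every element of the stabilizer of `(D, f)` in `H` acts on `D` like an element of the
stabilizer of `(D S, c)` (`exists_cover`).
-/

set_option autoImplicit false
set_option linter.unusedSectionVars false

namespace Pool.Agent.Lib.P0c8ca5.Kk

open MonoidAlgebra Ex Rk KgAux KxAux KxbAux KybAux

universe u v

namespace KzcAux

section
variable {p : ℕ} {k : Type v} [Field k] {A : Type u} [Group A] [Finite A]

/-- the sum of the conjugates of a block -/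
theorem conjSumBlk {K X : Subgroup A} (hX : X ≤ Subgroup.normalizer (K : Set A))
    {c₀ : MonoidAlgebra k A} (hc : IsBlock K c₀) :
    ∃ s : MonoidAlgebra k A, SuppIn K s ∧ InvBy X s ∧ s * s = s ∧ s * c₀ = c₀ ∧
      ∀ t : MonoidAlgebra k A, s * t ≠ 0 → ∃ x ∈ X, cj x c₀ * t ≠ 0 := by
  classical
  have : Fintype ↥X := Fintype.ofFinite _
  set O : Finset (MonoidAlgebra k A) := Finset.univ.image (fun x : ↥X => cj (x : A) c₀) with hO
  have hmem : ∀ y, y ∈ O ↔ ∃ x ∈ X, cj x c₀ = y := by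
    intro y
    rw [hO, Finset.mem_image]
    constructor
    · rintro ⟨x, -, rfl⟩
      exact ⟨x, x.2, rfl⟩
    · rintro ⟨x, hx, rfl⟩
      exact ⟨⟨x, hx⟩, Finset.mem_univ _, rfl⟩
  have hblk : ∀ y ∈ O, IsBlock K y := by
    intro y hy
    obtain ⟨x, hx, rfl⟩ := (hmem y).1 hy
    have h1 := isBlock_cg hc x
    rwa [cg_eq_self_iff.2 (hX hx)] at h1
  have hc₀ : c₀ ∈ O := (hmem _).2 ⟨1, X.one_mem, cj_one_left c₀⟩
  have hsy : ∀ y ∈ O, (∑ x ∈ O, x) * y = y := by
    intro y hy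
    rw [Finset.sum_mul, Finset.sum_eq_single y]
    · exact (hblk y hy).idem
    · intro x hx hxy
      rcases (hblk x hx).eq_or_mul_eq_zero (hblk y hy) with h | h
      · exact absurd h hxy
      · exact h
    · intro h
      exact absurd hy h
  refine ⟨∑ x ∈ O, x, ?_, ?_, ?_, hsy c₀ hc₀, ?_⟩
  · intro a ha
    rw [coeff_sum, Finsupp.finsetSum_apply] at ha
    obtain ⟨y, hy, hya⟩ := Finset.exists_ne_zero_of_sum_ne_zero ha
    exact (hblk y hy).suppIn a hya
  · rw [invBy_iff_cj]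
    intro g hg
    rw [cj_sum]
    refine Finset.sum_bij' (fun y _ => cj g y) (fun y _ => cj g⁻¹ y) ?_ ?_ ?_ ?_ ?_
    · intro y hy
      obtain ⟨x, hx, rfl⟩ := (hmem y).1 hy
      exact (hmem _).2 ⟨g * x, X.mul_mem hg hx, by rw [cj_cj]⟩
    · intro y hy
      obtain ⟨x, hx, rfl⟩ := (hmem y).1 hy
      exact (hmem _).2 ⟨g⁻¹ * x, X.mul_mem (X.inv_mem hg) hx, by rw [cj_cj]⟩
    · intro y _
      exact cj_inv_cj g y
    · intro y _
      exact cj_cj_inv g y
    · intro y _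
      rfl
  · rw [Finset.mul_sum]
    exact Finset.sum_congr rfl hsy
  · intro t ht
    rw [Finset.sum_mul] at ht
    obtain ⟨y, hy, hyt⟩ := Finset.exists_ne_zero_of_sum_ne_zero ht
    obtain ⟨x, hx, rfl⟩ := (hmem y).1 hy
    exact ⟨x, hx, hyt⟩

end

end KzcAux

open KzcAux

section
variable {p : ℕ} {k : Type v} [Field k] {A : Type u} [Group A] [Fintype A]
variable [Fact p.Prime] [CharP k p] [IsAlgClosed k]
variable {b c e : MonoidAlgebra k A} {G H S X : Subgroup A} {σ : Finset (Subgroup A)}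

/-- **the inertial groups of the blocks of the stabilizers of the chains** -/
theorem exists_cover (hG : G.Normal) (hp : ∀ x : A, ∃ n : ℕ, x ^ p ^ n ∈ G)
    (he : IsBlock G e) (hinv : InvBy ⊤ e) {P : Subgroup A}
    (hP : IsDefectGroup p (⊤ : Subgroup A) e P)
    (hcom : ∀ x ∈ P ⊓ G, ∀ y ∈ P ⊓ G, x * y = y * x)
    (hne : σ.Nonempty) (hσ : IsChain (· ≤ ·) (σ : Set (Subgroup A)))
    (hσS : ∀ Q ∈ σ, Q ∈ Supp p G ⊤)
    (hb : IsBlock (G ⊓ stab ⊤ σ) b) (hbe : b * cS (σ.sup id) e ≠ 0)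
    {D : Subgroup A} (hD : IsDefectGroup p (G ⊓ stab ⊤ σ) b D)
    {f : MonoidAlgebra k A} (hf : IsBlock (G ⊓ stab ⊤ σ ⊓ CD D) f)
    (hbf : resS (CD D : Set A) b * f = f) :
    ∃ c : MonoidAlgebra k A, IsBlock (CD (D ⊔ σ.sup id)) c ∧
      resS (CD (D ⊔ σ.sup id) : Set A) e * c = c ∧
      ∀ y ∈ G ⊓ stab ⊤ σ ⊓ St D f, ∃ y' ∈ St (D ⊔ σ.sup id) c,
        ∀ v ∈ D, y' * v * y'⁻¹ = y * v * y⁻¹ := by
  classical
  have heT : IsBlock (⊤ : Subgroup A) e := isBlock_up' le_top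
    (fun x _ => mem_norm_of_normal G x) (fun x _ => hp x) he hinv
  have hGc : ∀ g : A, cg g G = G := fun g => cg_eq_self_iff.2 (mem_norm_of_normal G g)
  have hmem : ∀ g x : A, x ∈ cg g P ⊓ G ↔ g⁻¹ * x * g ∈ P ⊓ G := by
    intro g x
    conv_lhs => rw [← hGc g]
    rw [Subgroup.mem_inf, mem_cg, mem_cg, Subgroup.mem_inf]
  have hcomc : ∀ g : A, ∀ x ∈ cg g P ⊓ G, ∀ y ∈ cg g P ⊓ G, x * y = y * x := by
    intro g x hx y hy
    have h1 := hcom _ ((hmem g x).1 hx) _ ((hmem g y).1 hy)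
    calc x * y = g * ((g⁻¹ * x * g) * (g⁻¹ * y * g)) * g⁻¹ := by group
      _ = g * ((g⁻¹ * y * g) * (g⁻¹ * x * g)) * g⁻¹ := by rw [h1]
      _ = y * x := by group
  -- the largest member of the chain
  have hSσ : σ.sup id ∈ σ := sup_mem_chain hne hσ
  have hQS : ∀ Q ∈ σ, Q ≤ σ.sup id := fun Q hQ => Finset.le_sup (f := id) hQ
  have hSp : IsPGroup p (σ.sup id : Subgroup A) := (hσS _ hSσ).2.1
  have hSe : HasBr (σ.sup id) e := by
    apply hasBr_of_ne
    intro h0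
    apply hbe
    have h1 : cS (σ.sup id) e = 0 := h0
    rw [h1, mul_zero]
  have hcomS : ∀ s ∈ σ.sup id ⊓ G, ∀ t ∈ σ.sup id ⊓ G, s * t = t * s := by
    obtain ⟨P₁, hP₁, hSP₁⟩ := exists_defect (p := p) (N := ⊤) le_top hSp hSe
    obtain ⟨g, -, rfl⟩ := defect_conjX heT hP hP₁
    intro s hs t ht
    exact hcomc g s ((inf_le_inf_right G hSP₁) hs) t ((inf_le_inf_right G hSP₁) ht)
  have hbs := chain_suppX hG le_top hne hσ hσS hcomS hb
  obtain ⟨Q₁, hQ₁, hmin⟩ := exists_least hne hσ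
  have hDG : D ≤ G := hD.le.trans inf_le_left
  have hDN : D ≤ Subgroup.normalizer ((σ.sup id : Subgroup A) : Set A) := fun x hx =>
    (mem_HX (hD.le hx)).2 _ hSσ
  have hDp := hD.isPGroup
  have hRp : IsPGroup p (D ⊔ σ.sup id : Subgroup A) := isPGroup_sup hDp hSp hDN
  have hCR : ∀ x : A, x ∈ CD (D ⊔ σ.sup id) ↔ x ∈ CD D ∧ x ∈ CD (σ.sup id) := by
    intro x
    constructor
    · intro hx
      exact ⟨Subgroup.centralizer_le (le_sup_left : D ≤ D ⊔ σ.sup id) hx,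
        Subgroup.centralizer_le (le_sup_right : σ.sup id ≤ D ⊔ σ.sup id) hx⟩
    · rintro ⟨h1, h2⟩
      rw [Subgroup.mem_centralizer_iff]
      have h3 : D ⊔ σ.sup id ≤ Subgroup.centralizer ({x} : Set A) := by
        refine sup_le ?_ ?_
        · intro y hy
          rw [Subgroup.mem_centralizer_iff]
          intro z hz
          rw [Set.mem_singleton_iff.1 hz]
          exact (Subgroup.mem_centralizer_iff.1 h1 y hy).symm
        · intro y hy
          rw [Subgroup.mem_centralizer_iff]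
          intro z hz
          rw [Set.mem_singleton_iff.1 hz]
          exact (Subgroup.mem_centralizer_iff.1 h2 y hy).symm
      intro y hy
      exact (Subgroup.mem_centralizer_iff.1 (h3 hy) x rfl).symm
  -- the elements of `S ∩ G` in the stabilizer of the chain are in `D`
  have hSD : ∀ t ∈ σ.sup id ⊓ G, (∀ Q ∈ σ, t ∈ Subgroup.normalizer (Q : Set A)) → t ∈ D := by
    obtain ⟨x₀, hx₀, hbx₀⟩ := hD.br
    have hM : σ.sup id ⊓ (G ⊓ stab ⊤ σ) ≤ σ.sup id := inf_le_left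
    have hDM : IsPGroup p (D ⊔ σ.sup id ⊓ (G ⊓ stab ⊤ σ) : Subgroup A) :=
      hRp.to_le (sup_le_sup_left hM D)
    have h1 := hD.max (D ⊔ σ.sup id ⊓ (G ⊓ stab ⊤ σ)) (sup_le hD.le inf_le_right) hDM
      ⟨x₀, Subgroup.centralizer_le (sup_le_sup_left hM D) ((hCR x₀).2 ⟨hx₀, hbs x₀ hbx₀⟩), hbx₀⟩
      le_sup_left
    intro t ht htσ
    exact h1.le (le_sup_right (a := D) (Subgroup.mem_inf.2 ⟨(Subgroup.mem_inf.1 ht).1,
      mem_HX' le_top (Subgroup.mem_inf.1 ht).2 htσ⟩))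
  -- `f` is supported in `C(S)`
  have hfS : SuppIn (CD (σ.sup id)) f := by
    intro x hx
    obtain ⟨hxH, hxD⟩ := Subgroup.mem_inf.1 (hf.suppIn x hx)
    refine supp_cen hG (S := σ.sup id) (Q₁ := Q₁) (p := p)
      (fun Q hQ => ⟨hmin Q hQ, Finset.le_sup (f := id) hQ⟩) hSp hSσ hQ₁
      (by rw [(hσS Q₁ hQ₁).2.2]; exact le_top) hcomS
      (osima_sub hf hx) (mem_HX hxH).1 (mem_HX hxH).2 ?_
    intro t ht htσ
    exact (Subgroup.mem_centralizer_iff.1 hxD t (hSD t ht htσ)).symm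
  -- the groups
  set R : Subgroup A := D ⊔ σ.sup id with hR
  set N₀ : Subgroup A := G ⊓ stab ⊤ σ ⊓ CD D with hN₀
  set K : Subgroup A := CD R ⊓ G with hK
  have hKN₀ : K ≤ N₀ := by
    intro x hx
    obtain ⟨h1, h2⟩ := Subgroup.mem_inf.1 hx
    obtain ⟨h3, h4⟩ := (hCR x).1 h1
    refine Subgroup.mem_inf.2 ⟨mem_HX' le_top h2 fun Q hQ => ?_, h3⟩
    exact Subgroup.centralizer_le_normalizer _ (Subgroup.centralizer_le (hQS Q hQ) h4)
  have hfK : SuppIn K f := by
    intro x hx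
    obtain ⟨hxH, hxD⟩ := Subgroup.mem_inf.1 (hf.suppIn x hx)
    exact Subgroup.mem_inf.2 ⟨(hCR x).2 ⟨hxD, hfS x hx⟩, (mem_HX hxH).1⟩
  -- elements normalizing `D` and `S`
  have hnR : ∀ y ∈ Subgroup.normalizer (D : Set A),
      y ∈ Subgroup.normalizer ((σ.sup id : Subgroup A) : Set A) →
      y ∈ Subgroup.normalizer (R : Set A) := by
    intro y h1 h2
    rw [← cg_eq_self_iff] at h1 h2 ⊢
    apply Subgroup.eq_of_le_of_card_ge
    · rw [cg_le_iff, hR]
      refine sup_le ?_ ?_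
      · rw [← cg_le_iff, h1]
        exact le_sup_left
      · rw [← cg_le_iff, h2]
        exact le_sup_right
    · rw [card_cg]
  have hnC : ∀ y ∈ Subgroup.normalizer (R : Set A), cg y (CD R) = CD R := by
    intro y hy
    rw [FuAux.cg_CD, cg_eq_self_iff.2 hy]
  have hnK : ∀ y ∈ Subgroup.normalizer (R : Set A), cg y K = K := by
    intro y hy
    rw [hK, cg_inf, hnC y hy, hGc]
  have hN₀R : N₀ ≤ Subgroup.normalizer (R : Set A) := by
    intro x hx
    obtain ⟨hxH, hxD⟩ := Subgroup.mem_inf.1 hx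
    exact hnR x (Subgroup.centralizer_le_normalizer _ hxD) ((mem_HX hxH).2 _ hSσ)
  have hN₀K : N₀ ≤ Subgroup.normalizer (K : Set A) := fun x hx =>
    cg_eq_self_iff.1 (hnK x (hN₀R hx))
  -- `Br_R(e) f = f`
  have hcK : SuppIn (G ⊓ stab ⊤ σ) (cS (σ.sup id) e) := by
    intro x hx
    have hxe : e.coeff x ≠ 0 := by
      intro h0
      apply hx
      rw [coeff_resS]
      split_ifs
      · exact h0
      · rfl
    have hxC : x ∈ CD (σ.sup id) := by
      by_contra h0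
      apply hx
      exact coeff_resS_of_notMem _ h0
    exact mem_HX' le_top (he.suppIn x hxe) fun Q hQ => Subgroup.centralizer_le_normalizer _
      (Subgroup.centralizer_le (hQS Q hQ) hxC)
  have hHS : G ⊓ stab ⊤ σ ≤ Subgroup.normalizer ((σ.sup id : Subgroup A) : Set A) := fun x hx =>
    (mem_HX hx).2 _ hSσ
  have hcinvK : InvBy (G ⊓ stab ⊤ σ) (cS (σ.sup id) e) :=
    invBy_res (hinv.mono le_top) hHS
  have hcc : cS (σ.sup id) e * cS (σ.sup id) e = cS (σ.sup id) e := by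
    have h1 := resS_mul hSp (hinv.mono (le_top : σ.sup id ≤ ⊤)) (hinv.mono (le_top : σ.sup id ≤ ⊤))
    rw [he.idem] at h1
    exact h1.symm
  have hcomm : cS (σ.sup id) e * b = b * cS (σ.sup id) e := (commute_of hcK hb.invBy)
  have hmul : cS (σ.sup id) e * b = b := by
    rcases hb.mul_eq (mem_fixAlg.2 ⟨hcK, hcinvK⟩) hcc with h | h
    · rw [hcomm] at h; exact absurd h hbe
    · exact h
  have hres : resS (CD D : Set A) (cS (σ.sup id) e) = resS (CD R : Set A) e := by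
    ext x
    by_cases hx : x ∈ (CD R : Set A)
    · obtain ⟨h1, h2⟩ := (hCR x).1 hx
      rw [coeff_resS_of_mem _ hx, coeff_resS_of_mem _ (show x ∈ (CD D : Set A) from h1)]
      exact coeff_resS_of_mem _ (show x ∈ (CD (σ.sup id) : Set A) from h2)
    · rw [coeff_resS_of_notMem _ hx]
      by_cases h1 : x ∈ (CD D : Set A)
      · rw [coeff_resS_of_mem _ h1]
        exact coeff_resS_of_notMem _ fun h2 => hx ((hCR x).2 ⟨h1, h2⟩)
      · exact coeff_resS_of_notMem _ h1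
  have hef : resS (CD R : Set A) e * f = f := by
    have h1 := resS_mul hDp (hcinvK.mono hD.le) (hb.invBy.mono hD.le)
    rw [hmul, hres] at h1
    calc resS (CD R : Set A) e * f = resS (CD R : Set A) e * (resS (CD D : Set A) b * f) := by
          rw [hbf]
      _ = resS (CD D : Set A) b * f := by rw [← mul_assoc, ← h1]
      _ = f := hbf
  -- a block of `K` below `f`
  obtain ⟨c₀, hc₀, hfc₀⟩ := exists_blk (K := K) (e := f)
    (mem_fixAlg.2 ⟨hfK, (hf.invBy).mono hKN₀⟩) hf.idem hf.ne_zero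
  -- the blocks of `K` below `f` are conjugate
  obtain ⟨s, hsK, hsN, hss, hsc, hst⟩ := conjSumBlk hN₀K hc₀
  have hsf : s * f = f := by
    rcases hf.mul_eq (mem_fixAlg.2 ⟨hsK.mono hKN₀, hsN⟩) hss with h | h
    · exfalso
      apply hc₀.ne_zero
      calc c₀ = s * (f * c₀) := by rw [hfc₀, hsc]
        _ = 0 := by rw [← mul_assoc, h, zero_mul]
    · exact h
  have htrans : ∀ c₁ : MonoidAlgebra k A, IsBlock K c₁ → f * c₁ = c₁ → ∃ n ∈ N₀, cj n c₀ = c₁ := by
    intro c₁ hc₁ hfc₁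
    have h1 : s * c₁ = c₁ := by
      calc s * c₁ = s * (f * c₁) := by rw [hfc₁]
        _ = c₁ := by rw [← mul_assoc, hsf, hfc₁]
    obtain ⟨n, hn, hn1⟩ := hst c₁ (by rw [h1]; exact hc₁.ne_zero)
    have h2 := isBlock_cg hc₀ n
    rw [cg_eq_self_iff.2 (hN₀K hn)] at h2
    rcases h2.eq_or_mul_eq_zero hc₁ with h3 | h3
    · exact ⟨n, hn, h3⟩
    · exact absurd h3 hn1
  -- the block of `C(R)`
  have hCK : CD R ≤ Subgroup.normalizer (K : Set A) := fun x hx =>
    cg_eq_self_iff.1 (hnK x (Subgroup.centralizer_le_normalizer _ hx))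
  have hKC : K ≤ CD R := inf_le_left
  obtain ⟨s', hsK', hsN', hss', hsc', hst'⟩ := conjSumBlk hCK hc₀
  obtain ⟨c, hc, hsc2⟩ := exists_blk (K := CD R) (e := s')
    (mem_fixAlg.2 ⟨hsK'.mono hKC, hsN'⟩) hss' (by
      intro h0
      rw [h0, zero_mul] at hsc'
      exact hc₀.ne_zero hsc'.symm)
  have hcK' : SuppIn K c := supp_in_of_pQuotient hKC hCK (fun x hx => by
    obtain ⟨n, hn⟩ := hp x
    exact ⟨n, Subgroup.mem_inf.2 ⟨(CD R).pow_mem hx _, hn⟩⟩) hc.mem hc.idem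
  have hcc₀ : c * c₀ = c₀ := by
    obtain ⟨x, hx, hxc⟩ := hst' c (by rw [hsc2]; exact hc.ne_zero)
    have h1 : c₀ * c ≠ 0 := by
      intro h0
      apply hxc
      have h2 := congrArg (cj x) h0
      rw [cj_mul, cj_zero, invBy_iff_cj.1 hc.invBy x hx] at h2
      exact h2
    have h2 : c₀ * c = c * c₀ := commute_of hc₀.suppIn (hc.invBy.mono hKC)
    rcases hc₀.mul_eq (mem_fixAlg.2 ⟨hcK', hc.invBy.mono hKC⟩) hc.idem with h3 | h3
    · rw [h2] at h1
      exact absurd h3 h1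
    · exact h3
  have hRinv : InvBy (CD R) (resS (CD R : Set A) e) :=
    invBy_res (hinv.mono le_top) (Subgroup.centralizer_le_normalizer _)
  have hec : resS (CD R : Set A) e * c = c := by
    rcases hc.mul_eq (mem_fixAlg.2 ⟨resS_suppIn, hRinv⟩)
      (by rw [← resS_mul hRp (hinv.mono le_top) (hinv.mono le_top), he.idem]) with h | h
    · exfalso
      apply hc₀.ne_zero
      calc c₀ = f * c₀ := hfc₀.symm
        _ = resS (CD R : Set A) e * f * c₀ := by rw [hef]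
        _ = resS (CD R : Set A) e * (c * c₀) := by rw [mul_assoc, hfc₀, hcc₀]
        _ = 0 := by rw [← mul_assoc, h, zero_mul]
    · exact h
  refine ⟨c, hc, hec, ?_⟩
  -- the elements of the stabilizer
  intro y hy
  obtain ⟨hyH, hyS⟩ := Subgroup.mem_inf.1 hy
  obtain ⟨hyD, hyf⟩ := mem_St.1 hyS
  have hyR : y ∈ Subgroup.normalizer (R : Set A) := hnR y hyD ((mem_HX hyH).2 _ hSσ)
  obtain ⟨n, hn, hnc⟩ := htrans (cj y c₀) (by
      have h1 := isBlock_cg hc₀ y
      rwa [hnK y hyR] at h1) (by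
      have h1 := congrArg (cj y) hfc₀
      rwa [cj_mul, hyf] at h1)
  have hnN : n ∈ Subgroup.normalizer (R : Set A) := hN₀R hn
  have hy'N : n⁻¹ * y ∈ Subgroup.normalizer (R : Set A) :=
    Subgroup.mul_mem _ (Subgroup.inv_mem _ hnN) hyR
  have hy'c : cj (n⁻¹ * y) c₀ = c₀ := by
    rw [← cj_cj, ← hnc, cj_inv_cj]
  refine ⟨n⁻¹ * y, mem_St.2 ⟨hy'N, ?_⟩, ?_⟩
  · have h1 := isBlock_cg hc (n⁻¹ * y)
    rw [hnC _ hy'N] at h1
    have h2 : cj (n⁻¹ * y) c * c₀ = c₀ := by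
      have h3 := congrArg (cj (n⁻¹ * y)) hcc₀
      rwa [cj_mul, hy'c] at h3
    rcases h1.eq_or_mul_eq_zero hc with h3 | h3
    · exact h3
    · exfalso
      apply hc₀.ne_zero
      calc c₀ = cj (n⁻¹ * y) c * (c * c₀) := by rw [hcc₀, h2]
        _ = 0 := by rw [← mul_assoc, h3, zero_mul]
  · intro v hv
    have h1 : y * v * y⁻¹ ∈ D := (Subgroup.mem_normalizer_iff.1 hyD v).1 hv
    have h2 := Subgroup.mem_centralizer_iff.1 (Subgroup.mem_inf.1 hn).2 _ h1
    calc n⁻¹ * y * v * (n⁻¹ * y)⁻¹ = n⁻¹ * ((y * v * y⁻¹) * n) := by group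
      _ = n⁻¹ * (n * (y * v * y⁻¹)) := by rw [h2]
      _ = y * v * y⁻¹ := by group

end

end Pool.Agent.Lib.P0c8ca5.Kk
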