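import Mathlib
import Pool.Agent.Lib.P0c8ca5Kk.Kxc
import Pool.Agent.Lib.P0c8ca5Ku.KT
import Pool.Agent.Lib.P0c8ca5Ex.ZM

/-!
# Kk.Kxd: Navarro's equality for blocks with large abelian defect groups, the better bounds

`P` is a defect group of `e` as a block of `A`, `P ∩ G` is abelian of rank at most `r`. Navarro's equality holds for
`(G, A, e)` if all elements of order `p` of `P ∩ G` are `p ^ N`-th powers of elements of `P ∩ G` which commute with `P`,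
for `N = (r - 2) r (r - 1) / 2 + 3` (`nav_rank`) and for `r = N = 2` (`nav_two`).
-/

set_option autoImplicit false
set_option linter.unusedSectionVars false

namespace Pool.Agent.Lib.P0c8ca5.Kk

open MonoidAlgebra Ex

universe u v

theorem nav_rank {p : ℕ} {k : Type v} [Field k] [Fact p.Prime] [CharP k p] [IsAlgClosed k]
    {A : Type u} [Group A] [Fintype A] {e : MonoidAlgebra k A} {G : Subgroup A} (hp2 : p ≠ 2)
    (hG : G.Normal) (hp : ∀ x : A, ∃ n : ℕ, x ^ p ^ n ∈ G) (he : IsBlock G e)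
    (hinv : InvBy ⊤ e) {P : Subgroup A} (hP : IsDefectGroup p (⊤ : Subgroup A) e P)
    (hcom : ∀ x ∈ P ⊓ G, ∀ y ∈ P ⊓ G, x * y = y * x) {r : ℕ}
    (hr : Nat.card {x : A // x ∈ P ⊓ G ∧ x ^ p = 1} ≤ p ^ r)
    (hbig : ∀ x ∈ P ⊓ G, x ^ p = 1 →
      ∃ y ∈ P ⊓ G, y ∈ CD P ∧ y ^ p ^ ((r - 2) * (r * (r - 1) / 2) + 3) = x) :
    NavarroEq p G ⊤ e := by
  refine nav_root hG hp he hinv hP hcom hr hbig ?_
  intro B _ _ b f D hroot hr' hbig'
  exact (Ku.large_rank hp2 hroot hr' (Ku.faith_of_big hroot hbig')).1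

theorem nav_two {p : ℕ} {k : Type v} [Field k] [Fact p.Prime] [CharP k p] [IsAlgClosed k]
    {A : Type u} [Group A] [Fintype A] {e : MonoidAlgebra k A} {G : Subgroup A} (hp2 : p ≠ 2)
    (hG : G.Normal) (hp : ∀ x : A, ∃ n : ℕ, x ^ p ^ n ∈ G) (he : IsBlock G e)
    (hinv : InvBy ⊤ e) {P : Subgroup A} (hP : IsDefectGroup p (⊤ : Subgroup A) e P)
    (hcom : ∀ x ∈ P ⊓ G, ∀ y ∈ P ⊓ G, x * y = y * x)
    (hr : Nat.card {x : A // x ∈ P ⊓ G ∧ x ^ p = 1} ≤ p ^ 2)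
    (hbig : ∀ x ∈ P ⊓ G, x ^ p = 1 → ∃ y ∈ P ⊓ G, y ∈ CD P ∧ y ^ p ^ 2 = x) :
    NavarroEq p G ⊤ e := by
  refine nav_root hG hp he hinv hP hcom hr hbig ?_
  intro B _ _ b f D hroot hr' hbig'
  exact (k2_two hp2 hroot hr' (Ku.faith_of_big hroot hbig')).1

end Pool.Agent.Lib.P0c8ca5.Kk
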