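import Mathlib
import Pool.Agent.Lib.P0c8ca5Kk.Kzc
import Pool.Agent.Lib.P0c8ca5Kk.Kye
import Pool.Agent.Lib.P0c8ca5Ku.Ld

/-!
# Kk.Kzd: Navarro's equality under conditions on the inertial quotient of the block of the large group

`G` is normal in `A`, `A / G` a p-group, `e` a block of `G` which is invariant under `A`, `(P, f)` a maximal pair of `e`
in `A`, `P ∩ G` is abelian.

`chain_act`: for a block `b` of the stabilizer `H` of a chain there is a conjugate `(P, f)^g` such that the defect group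
`D` of `b` is contained in `P^g` and contains `Z = (Z(P) ∩ G)^g`, and every element of the stabilizer in `H` of `D` and
of a block of `C_H(D)` below `b` acts on `D` like an element of the stabilizer of `(P, f)^g`.

`nav_act`: Navarro's equality for `(G, A, e)` if the weight conjecture holds for all such blocks.
-/

set_option autoImplicit false
set_option linter.unusedSectionVars false

namespace Pool.Agent.Lib.P0c8ca5.Kk

open MonoidAlgebra Ex Rk KgAux KxAux KxaAux KxbAux KybAux FinAux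

universe u v

/-- the action of the stabilizer of `(D, d)` in `H` on `D` is induced by `N`, and is seen on the elements of order `p`
of the subgroup `Z` -/
structure ActBy {k : Type v} [Field k] {A : Type u} [Group A] (p : ℕ) (H D Z N : Subgroup A)
    (d : MonoidAlgebra k A) : Prop where
  le : Z ≤ D
  act : ∀ y ∈ H ⊓ St D d, ∃ z ∈ N, ∀ v ∈ D, z * v * z⁻¹ = y * v * y⁻¹
  inv : ∀ y ∈ H ⊓ St D d, ∀ z ∈ Z, y * z * y⁻¹ ∈ Z
  faith : ∀ y ∈ H ⊓ St D d, (∀ z ∈ Z, z ^ p = 1 → y * z = z * y) → y ∈ CD D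
  stab : ∀ x ∈ D, x ≠ 1 → ∃ z ∈ Z, z ^ p = 1 ∧ z ≠ 1 ∧
    ∀ y ∈ H ⊓ St D d, y * x = x * y → y * z = z * y

section
variable {p : ℕ} {k : Type v} [Field k] {A : Type u} [Group A] [Fintype A]
variable [Fact p.Prime] [CharP k p] [IsAlgClosed k]
variable {b c e f d : MonoidAlgebra k A} {G H S P D : Subgroup A} {σ : Finset (Subgroup A)}

/-- **the actions of the inertial groups of the blocks of the stabilizers of the chains** -/
theorem chain_act (hG : G.Normal) (hp : ∀ x : A, ∃ n : ℕ, x ^ p ^ n ∈ G)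
    (he : IsBlock G e) (hinv : InvBy ⊤ e) (hP : IsDefectGroup p (⊤ : Subgroup A) e P)
    (hcom : ∀ x ∈ P ⊓ G, ∀ y ∈ P ⊓ G, x * y = y * x)
    (hf : IsBlock (CD P) f) (hef : resS (CD P : Set A) e * f = f)
    (hne : σ.Nonempty) (hσ : IsChain (· ≤ ·) (σ : Set (Subgroup A)))
    (hσS : ∀ Q ∈ σ, Q ∈ Supp p G ⊤) (hb : IsBlock (G ⊓ stab ⊤ σ) b)
    (hbe : b * cS (σ.sup id) e ≠ 0)
    {Q₁ : Subgroup A} (hQ₁ : Q₁ ∈ σ) (hmin : ∀ Q ∈ σ, Q₁ ≤ Q)
    (hD : IsDefectGroup p (G ⊓ stab ⊤ σ) b D)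
    (hd : IsBlock (G ⊓ stab ⊤ σ ⊓ CD D) d) (hbd : resS (CD D : Set A) b * d = d) :
    ∃ g : A, D ⊔ σ.sup id ≤ cg g P ∧ D ⊓ CD Q₁ = cg g (P ⊓ G ⊓ CD P) ∧ Q₁ ⊓ G ≤ D ∧
      (∀ h ∈ G ⊓ stab ⊤ σ, ∀ q ∈ Q₁, h * q * h⁻¹ * q⁻¹ ∈ Q₁ ⊓ G) ∧
      ∀ y ∈ G ⊓ stab ⊤ σ ⊓ St D d, ∃ z ∈ cg g (St P f), ∀ v ∈ D, z * v * z⁻¹ = y * v * y⁻¹ := by
  classical
  have heT : IsBlock (⊤ : Subgroup A) e := isBlock_up' le_top
    (by rw [Subgroup.normalizer_eq_top]) (fun x _ => hp x) he hinv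
  have hGc : ∀ g : A, cg g G = G := fun g => cg_eq_self_iff.2 (by
    rw [Subgroup.normalizer_eq_top]
    exact Subgroup.mem_top g)
  have hmem : ∀ g x : A, x ∈ cg g P ⊓ G ↔ g⁻¹ * x * g ∈ P ⊓ G := by
    intro g x
    conv_lhs => rw [← hGc g]
    rw [Subgroup.mem_inf, mem_cg, mem_cg, Subgroup.mem_inf]
  have hab : ∀ P', IsDefectGroup p (⊤ : Subgroup A) e P' →
      ∀ x ∈ P' ⊓ G, ∀ y ∈ P' ⊓ G, x * y = y * x := by
    intro P' hP'
    obtain ⟨g, rfl⟩ := defect_conj heT hP hP'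
    intro x hx y hy
    have h1 := hcom _ ((hmem g x).1 hx) _ ((hmem g y).1 hy)
    calc x * y = g * ((g⁻¹ * x * g) * (g⁻¹ * y * g)) * g⁻¹ := by group
      _ = g * ((g⁻¹ * y * g) * (g⁻¹ * x * g)) * g⁻¹ := by rw [h1]
      _ = y * x := by group
  have hSσ : σ.sup id ∈ σ := sup_mem_chain hne hσ
  have hSp : IsPGroup p (σ.sup id : Subgroup A) := (hσS _ hSσ).2.1
  have hQ₁S : Q₁ ≤ σ.sup id := hmin _ hSσ
  have hDN : D ≤ Subgroup.normalizer (σ.sup id : Subgroup A) := fun x hx =>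
    (mem_H (hD.le hx)).2 _ hSσ
  have hDSp : IsPGroup p (D ⊔ σ.sup id : Subgroup A) :=
    hD.isPGroup.to_sup_of_normal_right' hSp hDN
  have hDG : D ≤ G := hD.le.trans inf_le_left
  -- the pair `(P', f')`
  obtain ⟨c, hc, hec, hy⟩ := exists_cover hG hp he hinv hP hcom hne hσ hσS hb hbe hD hd hbd
  have hGR : G ⊔ (D ⊔ σ.sup id) = ⊤ := by
    refine top_le_iff.1 ((hσS _ hSσ).2.2.ge.trans ?_)
    exact sup_le_sup_left le_sup_right G
  obtain ⟨P', f', hP', hRP', hf', hef', hz⟩ := Ku.ext_top hG heT hab hDSp hGR hc hec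
  obtain ⟨g, rfl, hSt⟩ := Ku.ind_conj heT hP hf hef hP' hf' hef'
  -- a defect group of `b` for which the centralizer of `Q₁` is known
  obtain ⟨D₀, P₀, hD₀, -, ⟨g₀, -, rfl⟩, -, hDZ₀, hRD₀, hcomm⟩ :=
    chain_cent hG le_top (fun x _ => hp x) he hinv hP hcom hne hσ hσS hb hbe hQ₁ hmin
  obtain ⟨h, hh, rfl⟩ := defect_conjX hb hD₀ hD
  have hhQ : cg h Q₁ = Q₁ := cg_eq_self_iff.2 ((mem_H hh).2 _ hQ₁)
  have hZc : ∀ h : A, cg h P ⊓ G ⊓ CD (cg h P) = cg h (P ⊓ G ⊓ CD P) := by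
    intro h
    rw [cg_inf, cg_inf, hGc, FuAux.cg_CD]
  have hcard : Nat.card ↥(cg h D₀ ⊓ CD Q₁) = Nat.card ↥(P ⊓ G ⊓ CD P) := by
    have h1 : cg h D₀ ⊓ CD Q₁ = cg h (D₀ ⊓ CD Q₁) := by
      rw [cg_inf, FuAux.cg_CD, hhQ]
    rw [h1, card_cg, hDZ₀, hZc, card_cg]
  refine ⟨g, hRP', ?_, ?_, hcomm, ?_⟩
  · apply Subgroup.eq_of_le_of_card_ge
    · intro x hx
      obtain ⟨hxD, hxQ⟩ := Subgroup.mem_inf.1 hx
      have hxPG : x ∈ cg g P ⊓ G :=
        Subgroup.mem_inf.2 ⟨hRP' (Subgroup.mem_sup_left hxD), hDG hxD⟩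
      rw [← hZc]
      refine Subgroup.mem_inf.2 ⟨hxPG, ?_⟩
      rw [Subgroup.mem_centralizer_iff]
      intro y hy
      have hyX : y ∈ G ⊔ Q₁ := by
        rw [(hσS Q₁ hQ₁).2.2]
        exact Subgroup.mem_top y
      obtain ⟨h', hh', q, hq, rfl⟩ := Subgroup.mem_sup_of_normal_left.1 hyX
      have hhP : h' ∈ cg g P ⊓ G := by
        refine Subgroup.mem_inf.2 ⟨?_, hh'⟩
        have h1 := Subgroup.mul_mem _ hy
          (Subgroup.inv_mem _ (hRP' (Subgroup.mem_sup_right (hQ₁S hq))))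
        rwa [mul_inv_cancel_right] at h1
      have h2 := hab _ hP' h' hhP x hxPG
      have h3 := Subgroup.mem_centralizer_iff.1 hxQ q hq
      calc h' * q * x = h' * (q * x) := mul_assoc _ _ _
        _ = h' * (x * q) := by rw [h3]
        _ = h' * x * q := (mul_assoc _ _ _).symm
        _ = x * h' * q := by rw [h2]
        _ = x * (h' * q) := mul_assoc _ _ _
    · rw [hcard, card_cg]
  · intro x hx
    obtain ⟨hxQ, hxG⟩ := Subgroup.mem_inf.1 hx
    rw [mem_cg]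
    apply hRD₀
    refine Subgroup.mem_inf.2 ⟨?_, ?_⟩
    · rw [← hhQ, mem_cg] at hxQ
      exact hxQ
    · rw [← hGc h, mem_cg] at hxG
      exact hxG
  · intro y hyM
    obtain ⟨y', hy', hyv⟩ := hy y hyM
    obtain ⟨z, hz', hzv⟩ := hz y' hy'
    rw [hSt] at hz'
    exact ⟨z, hz', fun v hv => (hzv v (Subgroup.mem_inf.2
      ⟨Subgroup.mem_sup_left hv, hDG hv⟩)).trans (hyv v hv)⟩

/-- **Navarro's equality for `(G, A, e)`** from the weight conjecture for the blocks of the stabilizers of the chains,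
with the action of the inertial group of `(P, f)` -/
theorem nav_act (hG : G.Normal) (hp : ∀ x : A, ∃ n : ℕ, x ^ p ^ n ∈ G)
    (he : IsBlock G e) (hinv : InvBy ⊤ e) (hP : IsDefectGroup p (⊤ : Subgroup A) e P)
    (hcom : ∀ x ∈ P ⊓ G, ∀ y ∈ P ⊓ G, x * y = y * x)
    (hf : IsBlock (CD P) f) (hef : resS (CD P : Set A) e * f = f)
    (hloc : ∀ (H D : Subgroup A) (b d : MonoidAlgebra k A) (g : A) [Fintype ↥H], D ≤ H →
      SuppIn H d → Root p (dn H b) (D.subgroupOf H) (dn H d) → D ≤ cg g (P ⊓ G) →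
      ActBy p H D (cg g (P ⊓ G ⊓ CD P)) (cg g (St P f)) d →
      gap p (⊤ : Subgroup ↥H) ⊤ (dn H b) = 0) :
    NavarroEq p G ⊤ e := by
  classical
  have heT : IsBlock (⊤ : Subgroup A) e := isBlock_up' le_top
    (by rw [Subgroup.normalizer_eq_top]) (fun x _ => hp x) he hinv
  have hGc : ∀ g : A, cg g G = G := fun g => cg_eq_self_iff.2 (by
    rw [Subgroup.normalizer_eq_top]
    exact Subgroup.mem_top g)
  refine navarro_of_baw le_top (by rw [Subgroup.normalizer_eq_top]) (fun x _ => hp x) he hinv ?_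
  intro σ hne hσ hσS b hb hbe
  obtain ⟨Q₁, hQ₁, hmin⟩ := exists_least hne hσ
  obtain ⟨D, P₀, hD, -, ⟨g₀, -, rfl⟩, hDS₀, -, -, -⟩ :=
    chain_cent hG le_top (fun x _ => hp x) he hinv hP hcom hne hσ hσS hb hbe hQ₁ hmin
  set H : Subgroup A := G ⊓ stab ⊤ σ with hH
  have : Fintype ↥H := Fintype.ofFinite _
  have hDG : D ≤ G := hD.le.trans inf_le_left
  have hDcom : ∀ x ∈ D, ∀ y ∈ D, x * y = y * x := by
    intro x hx y hy
    have hDP : D ≤ cg g₀ (P ⊓ G) := by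
      rw [cg_inf, hGc]
      exact le_inf (le_sup_left.trans hDS₀) hDG
    have h3 := hcom _ (mem_cg.1 (hDP hx)) _ (mem_cg.1 (hDP hy))
    calc x * y = g₀ * ((g₀⁻¹ * x * g₀) * (g₀⁻¹ * y * g₀)) * g₀⁻¹ := by group
      _ = g₀ * ((g₀⁻¹ * y * g₀) * (g₀⁻¹ * x * g₀)) * g₀⁻¹ := by rw [h3]
      _ = y * x := by group
  have hDp := hD.isPGroup
  have hDH : D ≤ H := hD.le
  obtain ⟨d, hd, hbd, hroot⟩ := Ku.exists_root' hb hD hDcom
  have hds : SuppIn H d := fun x hx => (Subgroup.mem_inf.1 (hd.suppIn x hx)).1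
  obtain ⟨g, hRP, hDZ, hRD, hHQ, hact⟩ := chain_act hG hp he hinv hP hcom hf hef hne hσ hσS hb hbe
    hQ₁ hmin hD hd hbd
  have hQp : IsPGroup p Q₁ := (hσS Q₁ hQ₁).2.1
  have hDP : D ≤ cg g (P ⊓ G) := by
    rw [cg_inf, hGc]
    exact le_inf (le_sup_left.trans hRP) hDG
  -- the action of `Q₁`
  have hQD : ∀ q ∈ Q₁, ∀ v ∈ D, q * v * q⁻¹ ∈ D := by
    intro q hq v hv
    have h1 := hRD (hHQ v (hDH hv) q hq)
    have h2 : q * v * q⁻¹ = (v * q * v⁻¹ * q⁻¹)⁻¹ * v := by group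
    rw [h2]
    exact D.mul_mem (D.inv_mem h1) hv
  have hWD : ∀ h ∈ H ⊓ St D d, ∀ v ∈ D, h * v * h⁻¹ ∈ D := fun h hh v hv =>
    (Subgroup.mem_normalizer_iff.1 (Subgroup.mem_inf.1 hh).2.1 v).1 hv
  have hWQ : ∀ h ∈ H ⊓ St D d, ∀ q ∈ Q₁, h * q * h⁻¹ * q⁻¹ ∈ D := fun h hh q hq =>
    hRD (hHQ h (Subgroup.mem_inf.1 hh).1 q hq)
  have hA : ActBy p H D (cg g (P ⊓ G ⊓ CD P)) (cg g (St P f)) d := by
    rw [← hDZ]
    refine ⟨inf_le_left, hact, ?_, ?_, ?_⟩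
    · intro x hx z hz
      obtain ⟨hzD, hzQ⟩ := Subgroup.mem_inf.1 hz
      have hxz : x * z * x⁻¹ ∈ D := hWD x hx z hzD
      refine Subgroup.mem_inf.2 ⟨hxz, ?_⟩
      rw [Subgroup.mem_centralizer_iff]
      intro q hq
      have hdq := hWQ x hx q hq
      obtain ⟨t, htD, h1⟩ : ∃ t ∈ D, q * x = t⁻¹ * (x * q) :=
        ⟨x * q * x⁻¹ * q⁻¹, hdq, by group⟩
      have h2 := Subgroup.mem_centralizer_iff.1 hzQ q hq
      have h3 := hDcom t⁻¹ (D.inv_mem htD) _ hxz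
      have h4 : x * q = t * (q * x) := by rw [h1]; group
      have h5 : q * x⁻¹ = x⁻¹ * (t * q) := by
        have h6 : x⁻¹ * (t * (q * x)) = q := by rw [← h4]; group
        calc q * x⁻¹ = x⁻¹ * (t * (q * x)) * x⁻¹ := by rw [h6]
          _ = x⁻¹ * (t * q) := by group
      calc q * (x * z * x⁻¹) = (q * x) * z * x⁻¹ := by group
        _ = t⁻¹ * (x * q) * z * x⁻¹ := by rw [h1]
        _ = t⁻¹ * (x * (q * z) * x⁻¹) := by group
        _ = t⁻¹ * (x * (z * q) * x⁻¹) := by rw [h2]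
        _ = t⁻¹ * (x * z * (q * x⁻¹)) := by group
        _ = t⁻¹ * (x * z * (x⁻¹ * (t * q))) := by rw [h5]
        _ = t⁻¹ * (x * z * x⁻¹) * (t * q) := by group
        _ = (x * z * x⁻¹) * t⁻¹ * (t * q) := by rw [h3]
        _ = x * z * x⁻¹ * q := by group
    · intro y hy hyz
      -- the order of the action is prime to `p`
      have hnd : ¬ p ∣ (CD D).relIndex (H ⊓ St D d) := by
        have h1 := Ku.ndvd hroot
        rwa [eN_dn H hDH hds] at h1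
      have hpow : y ^ (CD D).relIndex (H ⊓ St D d) ∈ CD D := by
        have h1 : ((CD D).subgroupOf (H ⊓ St D d)).Normal := by
          refine ⟨fun x hx z => ?_⟩
          rw [Subgroup.mem_subgroupOf] at hx ⊢
          have hzN : (z : A) ∈ Subgroup.normalizer (D : Set A) := (Subgroup.mem_inf.1 z.2).2.1
          rw [Subgroup.mem_centralizer_iff] at hx ⊢
          intro t ht
          have h2 : (z : A)⁻¹ * t * z ∈ D := by
            have h3 := (Subgroup.mem_normalizer_iff.1 (Subgroup.inv_mem _ hzN) t).1 ht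
            rwa [inv_inv] at h3
          have h3 := hx _ h2
          change t * ((z : A) * x * (z : A)⁻¹) = (z : A) * x * (z : A)⁻¹ * t
          calc t * ((z : A) * x * (z : A)⁻¹)
              = z * ((z : A)⁻¹ * t * z * x) * (z : A)⁻¹ := by group
            _ = z * (x * ((z : A)⁻¹ * t * z)) * (z : A)⁻¹ := by rw [h3]
            _ = z * x * (z : A)⁻¹ * t := by group
        have h2 := Subgroup.pow_index_mem ((CD D).subgroupOf (H ⊓ St D d))
          (⟨y, hy⟩ : ↥(H ⊓ St D d))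
        exact Subgroup.mem_subgroupOf.1 h2
      exact faith_of_cent hDp hQp hDcom hQD hWD hWQ hy hnd hpow fun z hz hzQ hzp =>
        hyz z (Subgroup.mem_inf.2 ⟨hz, hzQ⟩) hzp
    · intro x hx hx1
      obtain ⟨z, hz, hzQ, hzp, hz1, hzs⟩ := stab_of_cent hDp hQp hDcom hQD hWQ hx hx1
      exact ⟨z, Subgroup.mem_inf.2 ⟨hz, hzQ⟩, hzp, hz1, hzs⟩
  exact Ku.nav_of_gap hb (hloc H D b d g hDH hds hroot hDP hA)

end

end Pool.Agent.Lib.P0c8ca5.Kk
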