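import Mathlib
import Pool.Agent.Lib.P0c8ca5Kk.Kzd
import Pool.Agent.Lib.P0c8ca5Ex.UG

/-!
# Kk.Kze: Navarro's equality for cyclic stabilizers in the inertial quotient of the block of the large group

`G` is normal in `A`, `A / G` a p-group, `e` a block of `G` which is invariant under `A`, `(P, f)` a maximal pair of `e`
in `A`, `P ∩ G` is abelian, `E = St(P, f) / P C(P)`, `Z = Z(P) ∩ G`.

`nav_cyce`: if `n ≥ 1`, `|E| < p ^ (n + 1)`, `E` acts faithfully on the `p ^ n`-th powers of `Z` and the stabilizers in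
`E` of the elements of order `p` of `Z` are cyclic, then Navarro's equality holds for `(G, A, e)`.
-/

set_option autoImplicit false
set_option linter.unusedSectionVars false

namespace Pool.Agent.Lib.P0c8ca5.Kk

open MonoidAlgebra Ex Rk KgAux KxAux KxaAux KxbAux KybAux FinAux

universe u v

namespace KzeAux

/-- a group related to a cyclic group is cyclic -/
theorem cyc_transfer {A : Type*} [Group A] [Finite A] {S N M C : Subgroup A}
    (hN : ∀ s ∈ S, ∀ n ∈ N, s * n * s⁻¹ ∈ N) {γ : A} (hγ : γ ∈ S)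
    (hcyc : ∀ z ∈ S, ∃ j : ℕ, (γ ^ j)⁻¹ * z ∈ N) (R : Subgroup (A × A))
    (hR1 : ∀ q ∈ R, q.1 ∈ M ∧ q.2 ∈ S) (hR2 : ∀ y ∈ M, ∃ z, (y, z) ∈ R)
    (hR3 : ∀ q ∈ R, q.2 ∈ N → q.1 ∈ C) :
    ∃ y₁ ∈ M, ∀ y ∈ M, ∃ j : ℕ, (y₁ ^ j)⁻¹ * y ∈ C := by
  classical
  have nml : (N.subgroupOf S).Normal := by
    refine ⟨fun x hx y => ?_⟩
    rw [Subgroup.mem_subgroupOf] at hx ⊢
    exact hN y y.2 x hx
  let π : ↥S →* ↥S ⧸ N.subgroupOf S := QuotientGroup.mk' (N.subgroupOf S)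
  have hπ : ∀ z : ↥S, π z = 1 ↔ (z : A) ∈ N := by
    intro z
    change (QuotientGroup.mk z : ↥S ⧸ N.subgroupOf S) = 1 ↔ _
    rw [QuotientGroup.eq_one_iff, Subgroup.mem_subgroupOf]
  have hQ : IsCyclic (↥S ⧸ N.subgroupOf S) := by
    refine ⟨π ⟨γ, hγ⟩, fun x => ?_⟩
    obtain ⟨z, rfl⟩ := QuotientGroup.mk'_surjective (N.subgroupOf S) x
    obtain ⟨j, hj⟩ := hcyc z z.2
    refine ⟨(j : ℤ), ?_⟩
    have h1 : π ((⟨γ, hγ⟩ ^ j)⁻¹ * z) = 1 := (hπ _).2 hj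
    rw [map_mul, map_inv, map_pow, inv_mul_eq_one] at h1
    change π ⟨γ, hγ⟩ ^ (j : ℤ) = π z
    rw [zpow_natCast]
    exact h1
  let ψ : ↥R →* ↥S ⧸ N.subgroupOf S :=
    { toFun := fun q => π ⟨(q : A × A).2, (hR1 q q.2).2⟩
      map_one' := map_one π
      map_mul' := fun a b => by
        rw [← map_mul]
        rfl }
  have hψ : ∀ q : ↥R, ψ q = 1 ↔ (q : A × A).2 ∈ N := fun q => hπ _
  obtain ⟨⟨r, q₁, rfl⟩, hr⟩ := IsCyclic.exists_generator (α := ↥ψ.range)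
  refine ⟨(q₁ : A × A).1, (hR1 q₁ q₁.2).1, fun y hy => ?_⟩
  obtain ⟨z, hz⟩ := hR2 y hy
  obtain ⟨t, ht⟩ := Subgroup.mem_zpowers_iff.1 (hr ⟨ψ ⟨(y, z), hz⟩, ⟨_, rfl⟩⟩)
  have h1 : ψ q₁ ^ t = ψ ⟨(y, z), hz⟩ := congrArg Subtype.val ht
  have h2 : ψ ((q₁ ^ t)⁻¹ * ⟨(y, z), hz⟩) = 1 := by
    rw [map_mul, map_inv, map_zpow, h1, inv_mul_cancel]
  have h3 := hR3 _ (((q₁ ^ t)⁻¹ * ⟨(y, z), hz⟩ : ↥R)).2 ((hψ _).1 h2)
  have h4 : (((q₁ ^ t)⁻¹ * ⟨(y, z), hz⟩ : ↥R) : A × A).1 = ((q₁ : A × A).1 ^ t)⁻¹ * y := by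
    rfl
  rw [h4] at h3
  obtain ⟨j, hj⟩ := (mem_powers_iff_mem_zpowers (x := (q₁ : A × A).1)).2
    (Subgroup.mem_zpowers_iff.2 ⟨t, rfl⟩)
  refine ⟨j, ?_⟩
  change (q₁ : A × A).1 ^ j = (q₁ : A × A).1 ^ t at hj
  rw [hj]
  exact h3

end KzeAux

open KzeAux

section
variable {p : ℕ} {k : Type v} [Field k] {A : Type u} [Group A] [Fintype A]
variable [Fact p.Prime] [CharP k p] [IsAlgClosed k]
variable {b c e f d : MonoidAlgebra k A} {G H S P D : Subgroup A} {σ : Finset (Subgroup A)}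

/-- the inertial index of a local block, from `ActBy` -/
theorem eN_of_act [Fintype ↥H] (hPp : IsPGroup p P) (hf : IsBlock (CD P) f) {g : A}
    (hDH : D ≤ H) (hds : SuppIn H d)
    (hroot : Root p (dn H b) (D.subgroupOf H) (dn H d)) (hDP : D ≤ cg g (P ⊓ G))
    {Z : Subgroup A} (hA : ActBy p H D Z (cg g (St P f)) d) :
    eN (D.subgroupOf H) (dn H d) ∣ (P ⊔ CD P).relIndex (St P f) := by
  have hDP' : D ≤ cg g P := hDP.trans (cg_le_cg inf_le_left)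
  have hS : cg g (St P f) ≤ Subgroup.normalizer (cg g P : Set A) := by
    rw [← cg_normalizer]
    exact cg_le_cg fun x hx => (mem_St.1 hx).1
  have h1 : (CD D).relIndex (H ⊓ St D d) ∣ (CD (cg g P)).relIndex (cg g (St P f)) :=
    Ku.relIndex_dvd_of_act hDP' (fun x hx => (Subgroup.mem_inf.1 hx).2.1) hS hA.act
  rw [← FuAux.cg_CD] at h1
  have h2 : (cg g (CD P)).relIndex (cg g (St P f)) = (CD P).relIndex (St P f) :=
    Subgroup.relIndex_map_map_of_injective _ _ (MulAut.conj g).injective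
  rw [h2] at h1
  rw [eN_dn H hDH hds]
  have h3 := Ku.ndvd hroot
  rw [eN_dn H hDH hds] at h3
  exact Ku.dvd_ind hPp (sup_le (le_St hf) (CD_le_StR hf)) h3 h1

/-- `P C(P)` centralizes `Z(P) ∩ G` -/
theorem com_PC {x z : A} (hx : x ∈ P ⊔ CD P) (hz : z ∈ P ⊓ G ⊓ CD P) : x * z = z * x := by
  have h1 : P ⊔ CD P ≤ Subgroup.centralizer ({z} : Set A) := by
    refine sup_le (fun y hy => ?_) fun y hy => ?_
    · rw [Subgroup.mem_centralizer_iff]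
      intro w hw
      rw [Set.mem_singleton_iff.1 hw]
      exact (Subgroup.mem_centralizer_iff.1 (Subgroup.mem_inf.1 hz).2 y hy).symm
    · rw [Subgroup.mem_centralizer_iff]
      intro w hw
      rw [Set.mem_singleton_iff.1 hw]
      exact Subgroup.mem_centralizer_iff.1 hy z (Subgroup.mem_inf.1 (Subgroup.mem_inf.1 hz).1).1
  exact (Subgroup.mem_centralizer_iff.1 (h1 hx) z rfl).symm

/-- elements with the same action -/
theorem act_iff {x y z v : A} (h : z * v * z⁻¹ = y * v * y⁻¹) : z * v = v * z ↔ y * v = v * y := by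
  constructor
  · intro h1
    have h2 : z * v * z⁻¹ = v := by rw [h1, mul_inv_cancel_right]
    rw [h2] at h
    exact (eq_mul_inv_iff_mul_eq.1 h).symm
  · intro h1
    have h2 : y * v * y⁻¹ = v := by rw [h1, mul_inv_cancel_right]
    rw [h2] at h
    exact mul_inv_eq_iff_eq_mul.1 h

/-- **Navarro's equality for `(G, A, e)`, cyclic stabilizers** -/
theorem nav_cyce (hp2 : p ≠ 2) (hG : G.Normal) (hp : ∀ x : A, ∃ n : ℕ, x ^ p ^ n ∈ G)
    (he : IsBlock G e) (hinv : InvBy ⊤ e) (hP : IsDefectGroup p (⊤ : Subgroup A) e P)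
    (hcom : ∀ x ∈ P ⊓ G, ∀ y ∈ P ⊓ G, x * y = y * x)
    (hf : IsBlock (CD P) f) (hef : resS (CD P : Set A) e * f = f) {n : ℕ} (hn : 1 ≤ n)
    (hE : (P ⊔ CD P).relIndex (St P f) < p ^ (n + 1))
    (hF : ∀ g ∈ St P f, (∀ y ∈ P ⊓ G ⊓ CD P, g * y ^ p ^ n = y ^ p ^ n * g) → g ∈ P ⊔ CD P)
    (hcyc : ∀ z ∈ P ⊓ G ⊓ CD P, z ^ p = 1 → z ≠ 1 → ∃ g₀ ∈ St P f, g₀ * z = z * g₀ ∧
      ∀ g ∈ St P f, g * z = z * g → ∃ j : ℕ, (g₀ ^ j)⁻¹ * g ∈ P ⊔ CD P) :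
    NavarroEq p G ⊤ e := by
  classical
  refine nav_act hG hp he hinv hP hcom hf hef ?_
  intro H D b d g _ hDH hds hroot hDP hA
  set Z : Subgroup A := cg g (P ⊓ G ⊓ CD P) with hZ
  set S : Subgroup A := cg g (St P f) with hS
  have hmem : ∀ (L : Subgroup A) (x : A), g⁻¹ * x * g ∈ L ↔ x ∈ cg g L := fun L x => mem_cg.symm
  have hSt : ∀ x : ↥H, x ∈ St (D.subgroupOf H) (dn H d) ↔ (x : A) ∈ H ⊓ St D d := by
    intro x
    rw [St_subgroupOf hDH hds, Subgroup.mem_subgroupOf]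
  have hCD : ∀ x : ↥H, x ∈ CD (D.subgroupOf H) ↔ (x : A) ∈ CD D := by
    intro x
    rw [CD_subgroupOf hDH, Subgroup.mem_subgroupOf, Subgroup.mem_inf]
    exact ⟨fun h => h.2, fun h => ⟨x.2, h⟩⟩
  have hconj : ∀ x z : A, x * z = z * x ↔
      (g⁻¹ * x * g) * (g⁻¹ * z * g) = (g⁻¹ * z * g) * (g⁻¹ * x * g) := by
    intro x z
    constructor
    · intro h
      calc (g⁻¹ * x * g) * (g⁻¹ * z * g) = g⁻¹ * (x * z) * g := by group
        _ = g⁻¹ * (z * x) * g := by rw [h]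
        _ = (g⁻¹ * z * g) * (g⁻¹ * x * g) := by group
    · intro h
      calc x * z = g * ((g⁻¹ * x * g) * (g⁻¹ * z * g)) * g⁻¹ := by group
        _ = g * ((g⁻¹ * z * g) * (g⁻¹ * x * g)) * g⁻¹ := by rw [h]
        _ = z * x := by group
  -- the elements of `P C(P)` centralize `Z`
  have hNZ : ∀ x ∈ cg g (P ⊔ CD P), ∀ z ∈ Z, x * z = z * x := by
    intro x hx z hz
    rw [mem_cg] at hx hz
    exact (hconj x z).2 (com_PC hx hz)
  -- the elements of `S` which act trivially on the powers are in `P C(P)`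
  have hFS : ∀ x ∈ S, (∀ z ∈ Z, x * z ^ p ^ n = z ^ p ^ n * x) → x ∈ cg g (P ⊔ CD P) := by
    intro x hx h
    rw [mem_cg] at hx ⊢
    refine hF _ hx fun y hy => ?_
    have h1 : g * y * g⁻¹ ∈ Z := by
      rw [hZ, mem_cg]
      have h2 : g⁻¹ * (g * y * g⁻¹) * g = y := by group
      rwa [h2]
    have h2 := (hconj _ _).1 (h _ h1)
    have h3 : g⁻¹ * (g * y * g⁻¹) ^ p ^ n * g = y ^ p ^ n := by
      rw [conj_pow]
      group
    rwa [h3] at h2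
  refine (k2_cyce hp2 hroot hn ?_ ?_ ?_).1
  · -- faithfulness
    intro x hx hxy
    rw [hCD]
    have hxM := (hSt x).1 hx
    obtain ⟨z, hz, hzx⟩ := hA.act _ hxM
    refine hA.faith _ hxM fun w hw _ => ?_
    have h1 : z ∈ cg g (P ⊔ CD P) := by
      refine hFS z hz fun w hw => ?_
      have hwD : w ^ p ^ n ∈ D := D.pow_mem (hA.le hw) _
      refine (act_iff (x := z) (hzx _ hwD)).2 ?_
      exact congrArg Subtype.val (hxy ⟨w, hDH (hA.le hw)⟩ (Subgroup.mem_subgroupOf.2 (hA.le hw)))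
    exact (act_iff (x := z) (hzx _ (hA.le hw))).1 (hNZ z h1 w hw)
  · -- the inertial index
    exact lt_of_le_of_lt (Nat.le_of_dvd
      (Nat.pos_of_ne_zero Subgroup.index_ne_zero_of_finite)
      (eN_of_act hP.isPGroup hf hDH hds hroot hDP hA)) hE
  · -- the stabilizers
    intro u hu hu1
    obtain ⟨z, hzZ, hzp, hz1, hzs⟩ := hA.stab _ (Subgroup.mem_subgroupOf.1 hu)
      (fun h => hu1 (Subtype.ext h))
    -- the stabilizer of `z` in `S`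
    have hz' : g⁻¹ * z * g ∈ P ⊓ G ⊓ CD P := mem_cg.1 hzZ
    have hzp' : (g⁻¹ * z * g) ^ p = 1 := by
      have h1 := conj_pow (a := g⁻¹) (b := z) (i := p)
      rw [inv_inv] at h1
      rw [h1, hzp]
      group
    have hz1' : g⁻¹ * z * g ≠ 1 := by
      intro h
      apply hz1
      calc z = g * (g⁻¹ * z * g) * g⁻¹ := by group
        _ = 1 := by rw [h]; group
    obtain ⟨g₀, hg₀, hg₀z, hg₀c⟩ := hcyc _ hz' hzp' hz1'
    let S₁ : Subgroup A := S ⊓ Subgroup.centralizer ({z} : Set A)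
    let M : Subgroup A := (H ⊓ St D d) ⊓ Subgroup.centralizer ({(u : A)} : Set A)
    have hcs : ∀ x w : A, w ∈ Subgroup.centralizer ({x} : Set A) ↔ w * x = x * w := by
      intro x w
      rw [Subgroup.mem_centralizer_iff]
      constructor
      · intro h
        exact (h x rfl).symm
      · intro h y hy
        rw [Set.mem_singleton_iff.1 hy, h]
    have hMD : ∀ y ∈ M, ∀ v ∈ D, y * v * y⁻¹ ∈ D := fun y hy v hv =>
      (Subgroup.mem_normalizer_iff.1 (Subgroup.mem_inf.1 (Subgroup.mem_inf.1 hy).1).2.1 v).1 hv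
    let R : Subgroup (A × A) :=
      { carrier := {q | q.1 ∈ M ∧ q.2 ∈ S₁ ∧ ∀ v ∈ D, q.2 * v * q.2⁻¹ = q.1 * v * q.1⁻¹}
        mul_mem' := by
          rintro ⟨y, z⟩ ⟨x, w⟩ ⟨hy, hz, hzy⟩ ⟨hx, hw, hwx⟩
          refine ⟨M.mul_mem hy hx, S₁.mul_mem hz hw, fun v hv => ?_⟩
          change z * w * v * (z * w)⁻¹ = y * x * v * (y * x)⁻¹
          have h1 : x * v * x⁻¹ ∈ D := hMD x hx v hv
          calc z * w * v * (z * w)⁻¹ = z * (w * v * w⁻¹) * z⁻¹ := by group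
            _ = z * (x * v * x⁻¹) * z⁻¹ := by rw [hwx v hv]
            _ = y * (x * v * x⁻¹) * y⁻¹ := hzy _ h1
            _ = y * x * v * (y * x)⁻¹ := by group
        one_mem' := ⟨M.one_mem, S₁.one_mem, fun v _ => rfl⟩
        inv_mem' := by
          rintro ⟨y, z⟩ ⟨hy, hz, hzy⟩
          refine ⟨M.inv_mem hy, S₁.inv_mem hz, fun v hv => ?_⟩
          change z⁻¹ * v * z⁻¹⁻¹ = y⁻¹ * v * y⁻¹⁻¹
          have h1 : y⁻¹ * v * y⁻¹⁻¹ ∈ D := hMD _ (M.inv_mem hy) v hv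
          have h2 := hzy _ h1
          change z * (y⁻¹ * v * y⁻¹⁻¹) * z⁻¹ = y * (y⁻¹ * v * y⁻¹⁻¹) * y⁻¹ at h2
          calc z⁻¹ * v * z⁻¹⁻¹ = z⁻¹ * (y * (y⁻¹ * v * y⁻¹⁻¹) * y⁻¹) * z := by group
            _ = z⁻¹ * (z * (y⁻¹ * v * y⁻¹⁻¹) * z⁻¹) * z := by rw [h2]
            _ = y⁻¹ * v * y⁻¹⁻¹ := by group }
    have hRm : ∀ q, q ∈ R ↔ q.1 ∈ M ∧ q.2 ∈ S₁ ∧ ∀ v ∈ D, q.2 * v * q.2⁻¹ = q.1 * v * q.1⁻¹ :=
      fun q => Iff.rfl
    have hγ : g * g₀ * g⁻¹ ∈ S₁ := by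
      refine Subgroup.mem_inf.2 ⟨?_, (hcs _ _).2 ((hconj _ _).2 ?_)⟩
      · rw [hS, mem_cg]
        have h2 : g⁻¹ * (g * g₀ * g⁻¹) * g = g₀ := by group
        rwa [h2]
      · have h2 : g⁻¹ * (g * g₀ * g⁻¹) * g = g₀ := by group
        rwa [h2]
    obtain ⟨y₁, hy₁, hy₁c⟩ := cyc_transfer (S := S₁) (N := cg g (P ⊔ CD P)) (M := M)
      (C := CD D) (γ := g * g₀ * g⁻¹) (by
        intro s hs x hx
        have hsN : g⁻¹ * s * g ∈ Subgroup.normalizer (P : Set A) :=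
          (mem_St.1 (mem_cg.1 (Subgroup.mem_inf.1 hs).1)).1
        rw [mem_cg] at hx ⊢
        have h1 : g⁻¹ * (s * x * s⁻¹) * g
            = (g⁻¹ * s * g) * (g⁻¹ * x * g) * (g⁻¹ * s * g)⁻¹ := by group
        rw [h1]
        have h2 : cg (g⁻¹ * s * g) (P ⊔ CD P) = P ⊔ CD P := by
          apply Subgroup.eq_of_le_of_card_ge
          · rw [cg_le_iff]
            refine sup_le ?_ ?_
            · rw [← cg_le_iff, cg_eq_self_iff.2 hsN]
              exact le_sup_left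
            · rw [← cg_le_iff, FuAux.cg_CD, cg_eq_self_iff.2 hsN]
              exact le_sup_right
          · rw [card_cg]
        rw [← h2, mem_cg]
        have h3 : (g⁻¹ * s * g)⁻¹ * (g⁻¹ * s * g * (g⁻¹ * x * g) * (g⁻¹ * s * g)⁻¹) *
            (g⁻¹ * s * g) = g⁻¹ * x * g := by group
        rwa [h3]) hγ (by
        intro w hw
        obtain ⟨hwS, hwz⟩ := Subgroup.mem_inf.1 hw
        obtain ⟨j, hj⟩ := hg₀c (g⁻¹ * w * g) (mem_cg.1 hwS) ((hconj _ _).1 ((hcs _ _).1 hwz))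
        refine ⟨j, ?_⟩
        rw [mem_cg]
        have h1 : g⁻¹ * (((g * g₀ * g⁻¹) ^ j)⁻¹ * w) * g = (g₀ ^ j)⁻¹ * (g⁻¹ * w * g) := by
          rw [conj_pow]
          group
        rwa [h1]) R (fun q hq => ⟨((hRm q).1 hq).1, ((hRm q).1 hq).2.1⟩) (by
        intro y hy
        obtain ⟨hyM, hyu⟩ := Subgroup.mem_inf.1 hy
        obtain ⟨w, hw, hwy⟩ := hA.act y hyM
        refine ⟨w, (hRm _).2 ⟨hy, Subgroup.mem_inf.2 ⟨hw, (hcs _ _).2 ?_⟩, hwy⟩⟩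
        exact (act_iff (x := w) (hwy z (hA.le hzZ))).2 (hzs y hyM ((hcs _ _).1 hyu))) (by
        intro q hq hqN
        obtain ⟨hqM, hqS, hqv⟩ := (hRm q).1 hq
        refine hA.faith _ (Subgroup.mem_inf.1 hqM).1 fun w hw _ => ?_
        exact (act_iff (x := w) (hqv w (hA.le hw))).1 (hNZ _ hqN w hw))
    have hy₁H : y₁ ∈ H ⊓ St D d := (Subgroup.mem_inf.1 hy₁).1
    refine ⟨⟨y₁, (Subgroup.mem_inf.1 hy₁H).1⟩, (hSt _).2 hy₁H, fun x hx hxu => ?_⟩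
    obtain ⟨j, hj⟩ := hy₁c x (Subgroup.mem_inf.2 ⟨(hSt x).1 hx,
      (hcs _ _).2 (congrArg Subtype.val hxu)⟩)
    refine ⟨j, (hCD _).2 ?_⟩
    exact hj

end

end Pool.Agent.Lib.P0c8ca5.Kk
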