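import Mathlib
import Pool.Agent.Lib.P0c8ca5Kk.Kzf
import Pool.Agent.Lib.P0c8ca5Kk.Kze

/-!
# Kk.Kzg: Navarro's equality for a subgroup and for the subgroup as a group

`nav_dn`: Navarro's equality for `(G, X, e)` in `A` follows from Navarro's equality for `(G, X, e)` in `X`.

`nav_indX`, `nav_cyceX`: the theorems on small inertial indices and on cyclic stabilizers for `(G, X, e)`,
`G ≤ X ≤ A`.
-/

set_option autoImplicit false
set_option linter.unusedSectionVars false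

namespace Pool.Agent.Lib.P0c8ca5.Kk

open MonoidAlgebra Ex Rk KgAux KxAux KxaAux KxbAux KybAux FinAux TrAAux TrBAux

universe u v

namespace KzgAux

section
variable {k : Type v} [Field k] {A : Type u} [Group A] {N U : Subgroup A}

/-- the representation of the group `N`, seen as a subgroup of `U` -/
noncomputable def dnR (hN : N ≤ U) {n : ℕ} (ρ : Rp k N n) : Rp k (N.subgroupOf U) n :=
  ρ.comp (Subgroup.subgroupOfEquivOfLe hN).toMonoidHom

/-- the converse -/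
noncomputable def upR (hN : N ≤ U) {n : ℕ} (ρ : Rp k (N.subgroupOf U) n) : Rp k N n :=
  ρ.comp (Subgroup.subgroupOfEquivOfLe hN).symm.toMonoidHom

theorem app_dnR (hN : N ≤ U) {n : ℕ} (ρ : Rp k N n) (x : ↥(N.subgroupOf U)) (v : Fin n → k) :
    app (dnR hN ρ) x v = app ρ ⟨((x : ↥U) : A), Subgroup.mem_subgroupOf.1 x.2⟩ v := rfl

theorem app_upR (hN : N ≤ U) {n : ℕ} (ρ : Rp k (N.subgroupOf U) n) (x : ↥N) (v : Fin n → k) :
    app (upR hN ρ) x v
      = app ρ ⟨⟨(x : A), hN x.2⟩, Subgroup.mem_subgroupOf.2 x.2⟩ v := rfl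

theorem blk_dnR (hN : N ≤ U) {n : ℕ} {ρ : Rp k N n} {e : MonoidAlgebra k A}
    (h : InBlock e ρ) : InBlock (dn U e) (dnR hN ρ) := by
  intro v
  conv_rhs => rw [← h v]
  exact finsum_comp_equiv (f := fun x : ↥N => e.coeff (x : A) • app ρ x v)
    (Subgroup.subgroupOfEquivOfLe hN).toEquiv

theorem blk_upR (hN : N ≤ U) {n : ℕ} {ρ : Rp k (N.subgroupOf U) n} {e : MonoidAlgebra k A}
    (h : InBlock (dn U e) ρ) : InBlock e (upR hN ρ) := by
  intro v
  conv_rhs => rw [← h v]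
  exact finsum_comp_equiv
    (f := fun x : ↥(N.subgroupOf U) => (dn U e).coeff (x : ↥U) • app ρ x v)
    (Subgroup.subgroupOfEquivOfLe hN).symm.toEquiv

theorem iso_dnR (hN : N ≤ U) {n m : ℕ} {ρ : Rp k N n} {σ : Rp k N m} (h : Iso ρ σ) :
    Iso (dnR hN ρ) (dnR hN σ) := by
  obtain ⟨P, hP⟩ := h
  exact ⟨P, fun x v => hP _ v⟩

theorem iso_upR (hN : N ≤ U) {n m : ℕ} {ρ : Rp k (N.subgroupOf U) n}
    {σ : Rp k (N.subgroupOf U) m} (h : Iso ρ σ) : Iso (upR hN ρ) (upR hN σ) := by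
  obtain ⟨P, hP⟩ := h
  exact ⟨P, fun x v => hP _ v⟩

theorem dn_up (hN : N ≤ U) {n : ℕ} (ρ : Rp k (N.subgroupOf U) n) : dnR hN (upR hN ρ) = ρ := rfl

theorem up_dn' (hN : N ≤ U) {n : ℕ} (ρ : Rp k N n) : upR hN (dnR hN ρ) = ρ := rfl

/-- the invariant representations -/
noncomputable def dnI (hN : N ≤ U) {e : MonoidAlgebra k A} (γ : IrrInv N U e) :
    IrrInv (N.subgroupOf U) ⊤ (dn U e) where
  n := γ.n
  ρ := dnR hN γ.ρ
  irr := irr_iff.2 (irr_comp (Subgroup.subgroupOfEquivOfLe hN) (irr_iff.1 γ.irr))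
  blk := blk_dnR hN γ.blk
  inv := by
    intro h _ σ hσ
    have h1 : IsConjRep (h : A) γ.ρ (upR hN σ) := by
      intro x y v hxy
      rw [app_upR]
      exact hσ ⟨⟨(x : A), hN x.2⟩, Subgroup.mem_subgroupOf.2 x.2⟩ _ v (Subtype.ext hxy)
    have h2 := iso_iff.2 (γ.inv h h.2 (upR hN σ) h1)
    exact iso_iff.1 (iso_dnR hN h2)

/-- the converse -/
noncomputable def upI (hN : N ≤ U) {e : MonoidAlgebra k A}
    (γ : IrrInv (N.subgroupOf U) ⊤ (dn U e)) : IrrInv N U e where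
  n := γ.n
  ρ := upR hN γ.ρ
  irr := irr_iff.2 (irr_comp (Subgroup.subgroupOfEquivOfLe hN).symm (irr_iff.1 γ.irr))
  blk := blk_upR hN γ.blk
  inv := by
    intro h hh σ hσ
    have h1 : IsConjRep (⟨h, hh⟩ : ↥U) γ.ρ (dnR hN σ) := by
      intro x y v hxy
      rw [app_dnR]
      exact hσ ⟨((x : ↥U) : A), Subgroup.mem_subgroupOf.1 x.2⟩ _ v (congrArg Subtype.val hxy)
    have h2 := iso_iff.2 (γ.inv _ (Subgroup.mem_top _) (dnR hN σ) h1)
    exact iso_iff.1 (iso_upR hN h2)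

theorem card_inv_dn (hN : N ≤ U) (e : MonoidAlgebra k A) :
    Nat.card (Quotient (irrInvSetoid (N.subgroupOf U) ⊤ (dn U e)))
      = Nat.card (Quotient (irrInvSetoid N U e)) := by
  apply Nat.card_congr
  refine
    { toFun := Quotient.map (upI hN) fun σ σ' h => iso_iff.1 (iso_upR hN (iso_iff.2 h))
      invFun := Quotient.map (dnI hN) fun σ σ' h => iso_iff.1 (iso_dnR hN (iso_iff.2 h))
      left_inv := ?_
      right_inv := ?_ }
  · intro x
    induction x using Quotient.inductionOn with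
    | _ σ => exact Quotient.sound (iso_iff.1 ⟨LinearEquiv.refl k _, fun x v => rfl⟩)
  · intro x
    induction x using Quotient.inductionOn with
    | _ σ => exact Quotient.sound (iso_iff.1 ⟨LinearEquiv.refl k _, fun x v => rfl⟩)

end

end KzgAux

open KzgAux

section
variable {p : ℕ} {k : Type v} [Field k] {A : Type u} [Group A] [Fintype A]
variable [Fact p.Prime] [CharP k p] [IsAlgClosed k]
variable {e f : MonoidAlgebra k A} {G X P : Subgroup A}

/-- the transport -/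
theorem nav_dn (hGX : G ≤ X) (hn : X ≤ Subgroup.normalizer (G : Set A))
    (hp : ∀ x ∈ X, ∃ n : ℕ, x ^ p ^ n ∈ G) (he : IsBlock G e) (hinv : InvBy X e)
    (h : NavarroEq p (G.subgroupOf X) ⊤ (dn X e)) : NavarroEq p G X e := by
  classical
  have : Fintype ↥X := Fintype.ofFinite _
  have : Fintype (Subgroup A) := Fintype.ofFinite _
  have : Fintype (Subgroup ↥X) := Fintype.ofFinite _
  have he' : IsBlock (G.subgroupOf X) (dn X e) := dn_blk hGX he
  have hinv' : InvBy (⊤ : Subgroup ↥X) (dn X e) := fun g _ x => hinv g g.2 x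
  have hn' : (⊤ : Subgroup ↥X) ≤ Subgroup.normalizer ((G.subgroupOf X : Subgroup ↥X) : Set ↥X) := by
    intro x _
    rw [Subgroup.mem_normalizer_iff]
    intro y
    rw [Subgroup.mem_subgroupOf, Subgroup.mem_subgroupOf]
    exact (Subgroup.mem_normalizer_iff.1 (hn x.2)) y
  have hp' : ∀ x ∈ (⊤ : Subgroup ↥X), ∃ n : ℕ, x ^ p ^ n ∈ G.subgroupOf X := by
    intro x _
    obtain ⟨n, hn⟩ := hp x x.2
    exact ⟨n, Subgroup.mem_subgroupOf.2 hn⟩
  obtain ⟨T, hT1, hT2⟩ := exists_transversal X (Theta p G X e)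
  obtain ⟨T', hT1', hT2'⟩ := exists_transversal (⊤ : Subgroup ↥X)
    (Theta p (G.subgroupOf X) ⊤ (dn X e))
  let D : Finset (Subgroup A) := Finset.univ.filter (fun Q => Q ∈ Supp p G X)
  have hD : ∀ Q, Q ∈ D ↔ Q ∈ Supp p G X := by intro Q; simp [D]
  let D' : Finset (Subgroup ↥X) := Finset.univ.filter (fun Q => Q ∈ Supp p (G.subgroupOf X) ⊤)
  have hD' : ∀ Q, Q ∈ D' ↔ Q ∈ Supp p (G.subgroupOf X) ⊤ := by intro Q; simp [D']
  have h1 := sum_DZ_supp hGX hn hp he hinv T hT1 hT2 D hD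
  have h2 := sum_DZ_supp le_top hn' hp' he' hinv' T' hT1' hT2' D' hD'
  have h3 := h T' hT1' hT2'
  rw [card_inv_dn hGX] at h3
  have hsup : ∀ Q : Subgroup ↥X, G.subgroupOf X ⊔ Q = ⊤ ↔ G ⊔ Q.map X.subtype = X := by
    intro Q
    have h5 : (G.subgroupOf X ⊔ Q).map X.subtype = G ⊔ Q.map X.subtype := by
      rw [Subgroup.map_sup, Subgroup.subgroupOf_map_subtype, inf_eq_left.2 hGX]
    have h6 : (⊤ : Subgroup ↥X).map X.subtype = X := by
      rw [← MonoidHom.range_eq_map, Subgroup.range_subtype]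
    constructor
    · intro h
      rw [← h5, h, h6]
    · intro h
      apply Subgroup.map_injective X.subtype_injective
      rw [h5, h, h6]
  have h4 : ∑ Q ∈ D', Nat.card ↥((⊤ : Subgroup ↥X) ⊓ Subgroup.normalizer (Q : Set ↥X))
          * Nat.card {f : MonoidAlgebra k (NQ Q) | IsDZ p (sec ⊤ Q) f ∧
            f * proj Q (dn X e) = f}
      = ∑ Q ∈ D, Nat.card ↥(X ⊓ Subgroup.normalizer (Q : Set A))
          * Nat.card {f : MonoidAlgebra k (NQ Q) | IsDZ p (sec X Q) f ∧ f * proj Q e = f} := by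
    refine Finset.sum_bij (fun Q _ => Q.map X.subtype) ?_ ?_ ?_ ?_
    · intro Q hQ
      rw [hD'] at hQ
      rw [hD]
      exact ⟨up_le, hQ.2.1.map _, (hsup Q).1 hQ.2.2⟩
    · intro Q _ Q' _ h
      exact Subgroup.map_injective X.subtype_injective h
    · intro Q hQ
      rw [hD] at hQ
      have h5 : (Q.subgroupOf X).map X.subtype = Q := by
        rw [Subgroup.subgroupOf_map_subtype]
        exact inf_eq_left.2 hQ.1
      refine ⟨Q.subgroupOf X, ?_, h5⟩
      rw [hD']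
      refine ⟨le_top, hQ.2.1.comap_of_injective _ X.subtype_injective, (hsup _).2 ?_⟩
      rw [h5]
      exact hQ.2.2
    · intro Q _
      rw [dn_normalizer, dn_card_dz (p := p) X (he.suppIn.mono hGX) Q]
  rw [h4, ← h1, Subgroup.card_top] at h2
  have h5 : Nat.card (Quotient (irrInvSetoid G X e)) = ∑ Q ∈ T, Nat.card (DZ p X e Q) := by
    rw [h3]
    exact Nat.eq_of_mul_eq_mul_left Nat.card_pos h2
  rw [navarroEq_iff_gap hGX hn hp he hinv, gap_eq hGX hn hp he hinv T hT1 hT2, h5, sub_self]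

/-- the data in `X` -/
theorem data_dn (hGX : G ≤ X) (hX : X ≤ Subgroup.normalizer (G : Set A)) (he : IsBlock G e)
    (hP : IsDefectGroup p X e P)
    (hcom : ∀ x ∈ P ⊓ G, ∀ y ∈ P ⊓ G, x * y = y * x)
    (hf : IsBlock (X ⊓ CD P) f) (hef : resS (CD P : Set A) e * f = f) :
    (G.subgroupOf X).Normal ∧ IsBlock (G.subgroupOf X) (dn X e) ∧
      IsDefectGroup p (⊤ : Subgroup ↥X) (dn X e) (P.subgroupOf X) ∧
      (∀ x ∈ P.subgroupOf X ⊓ G.subgroupOf X, ∀ y ∈ P.subgroupOf X ⊓ G.subgroupOf X,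
        x * y = y * x) ∧
      IsBlock (CD (P.subgroupOf X)) (dn X f) ∧
      resS (CD (P.subgroupOf X) : Set ↥X) (dn X e) * dn X f = dn X f ∧
      (P.subgroupOf X ⊔ CD (P.subgroupOf X)).relIndex (St (P.subgroupOf X) (dn X f))
        = (P ⊔ X ⊓ CD P).relIndex (X ⊓ St P f) := by
  have hPX : P ≤ X := hP.le
  have hfs : SuppIn X f := fun x hx => ((mem_fixAlg.1 hf.mem).1 x hx).1
  refine ⟨?_, dn_blk hGX he, Hy.isDefect_dn (he.suppIn.mono hGX) hP, ?_, ?_, ?_, ?_⟩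
  · refine ⟨fun x hx y => ?_⟩
    rw [Subgroup.mem_subgroupOf] at hx ⊢
    exact (Subgroup.mem_normalizer_iff.1 (hX y.2) x).1 hx
  · intro x hx y hy
    apply Subtype.ext
    exact hcom x (Subgroup.mem_inf.2 ⟨Subgroup.mem_subgroupOf.1 (Subgroup.mem_inf.1 hx).1,
      Subgroup.mem_subgroupOf.1 (Subgroup.mem_inf.1 hx).2⟩) y
      (Subgroup.mem_inf.2 ⟨Subgroup.mem_subgroupOf.1 (Subgroup.mem_inf.1 hy).1,
      Subgroup.mem_subgroupOf.1 (Subgroup.mem_inf.1 hy).2⟩)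
  · rw [CD_subgroupOf hPX]
    exact dn_blk inf_le_left hf
  · have h1 : resS ((CD (P.subgroupOf X) : Subgroup ↥X) : Set ↥X) (dn X e)
        = dn X (resS (CD P : Set A) e) := by
      rw [dn_resS]
      congr 1
      ext x
      rw [CD_subgroupOf hPX]
      simp only [SetLike.mem_coe, Subgroup.mem_subgroupOf, Subgroup.mem_inf, Set.mem_preimage]
      exact ⟨fun h => h.2, fun h => ⟨x.2, h⟩⟩
    rw [h1, ← dn_mul_right _ hfs, hef]
  · rw [CD_subgroupOf hPX, St_subgroupOf hPX hfs, ← Subgroup.subgroupOf_sup hPX inf_le_left,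
      Subgroup.relIndex_subgroupOf inf_le_left]

/-- **Theorem I for `(G, X, e)`** -/
theorem nav_indX (hGX : G ≤ X) (hX : X ≤ Subgroup.normalizer (G : Set A))
    (hp : ∀ x ∈ X, ∃ n : ℕ, x ^ p ^ n ∈ G)
    (he : IsBlock G e) (hinv : InvBy X e) (hP : IsDefectGroup p X e P)
    (hcom : ∀ x ∈ P ⊓ G, ∀ y ∈ P ⊓ G, x * y = y * x)
    (hf : IsBlock (X ⊓ CD P) f) (hef : resS (CD P : Set A) e * f = f)
    (hI : (P ⊔ X ⊓ CD P).relIndex (X ⊓ St P f) < p) : NavarroEq p G X e := by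
  have : Fintype ↥X := Fintype.ofFinite _
  obtain ⟨h1, h2, h3, h4, h5, h6, h7⟩ := data_dn hGX hX he hP hcom hf hef
  refine nav_dn hGX hX hp he hinv ?_
  exact Ku.nav_ind h1 (fun x => by
    obtain ⟨n, hn⟩ := hp x x.2
    exact ⟨n, Subgroup.mem_subgroupOf.2 hn⟩) h2 (fun g _ x => hinv g g.2 x) h3 h4 h5 h6
    (by rw [h7]; exact hI)

end

end Pool.Agent.Lib.P0c8ca5.Kk
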