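import Mathlib
import Pool.Agent.Lib.P0c8ca5Kk.Kzd

/-!
# Kk.Kzk: the action on the subgroups of order `p`

`line_of_cent`: a p-group `Q` acts on the abelian p-group `D`, `W` acts on `D` and `[W, Q] ≤ D`; for `x ∈ D` of order
`p` there is `z ∈ C_D(Q)` of order `p` such that the elements of `W` that normalize the group generated by `x`
normalize the group generated by `z`, with the same exponent.

`nav_actQ`: as `nav_act`, with the group `Q`. `nav_actl`: as `nav_act`, with the action on the subgroups of order `p`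
(`ActLine`).
-/

set_option autoImplicit false
set_option linter.unusedSectionVars false

namespace Pool.Agent.Lib.P0c8ca5.Kk

open MonoidAlgebra Ex Rk KgAux KxAux KxaAux KxbAux KybAux FinAux KyeAux

universe u v

section
variable {p : ℕ} {A : Type u} [Group A] [Finite A] [Fact p.Prime]

/-- the normalizers of the subgroups of order `p` of `D` are seen in `C_D(Q)` -/
theorem line_of_cent {D Q W : Subgroup A} (hD : IsPGroup p D) (hQ : IsPGroup p Q)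
    (hDc : ∀ x ∈ D, ∀ y ∈ D, x * y = y * x) (hQD : ∀ q ∈ Q, ∀ v ∈ D, q * v * q⁻¹ ∈ D)
    (hWQ : ∀ h ∈ W, ∀ q ∈ Q, h * q * h⁻¹ * q⁻¹ ∈ D) {x : A} (hx : x ∈ D) (hx1 : x ≠ 1) :
    ∃ z ∈ D, z ∈ CD Q ∧ z ^ p = 1 ∧ z ≠ 1 ∧
      ∀ g ∈ W, ∀ n : ℤ, g * x * g⁻¹ = x ^ n → g * z * g⁻¹ = z ^ n := by
  classical
  let V : Subgroup A :=
    { carrier := {y | y ∈ D ∧ ∀ g ∈ W, ∀ n : ℤ, g * x * g⁻¹ = x ^ n → g * y * g⁻¹ = y ^ n}
      mul_mem' := by
        rintro a b ⟨ha, ha'⟩ ⟨hb, hb'⟩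
        refine ⟨D.mul_mem ha hb, fun g hg n hgx => ?_⟩
        have h1 : Commute a b := hDc a ha b hb
        calc g * (a * b) * g⁻¹ = (g * a * g⁻¹) * (g * b * g⁻¹) := by group
          _ = a ^ n * b ^ n := by rw [ha' g hg n hgx, hb' g hg n hgx]
          _ = (a * b) ^ n := (h1.mul_zpow n).symm
      one_mem' := ⟨D.one_mem, fun g _ n _ => by rw [mul_one, mul_inv_cancel, one_zpow]⟩
      inv_mem' := by
        rintro a ⟨ha, ha'⟩
        refine ⟨D.inv_mem ha, fun g hg n hgx => ?_⟩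
        have h1 := ha' g hg n hgx
        rw [_root_.inv_zpow, ← h1]
        group }
  have hV : ∀ y, y ∈ V ↔ y ∈ D ∧
      ∀ g ∈ W, ∀ n : ℤ, g * x * g⁻¹ = x ^ n → g * y * g⁻¹ = y ^ n := fun y => Iff.rfl
  have hVD : V ≤ D := fun y hy => ((hV y).1 hy).1
  have hV1 : V ≠ ⊥ := by
    rw [Subgroup.ne_bot_iff_exists_ne_one]
    exact ⟨⟨x, (hV x).2 ⟨hx, fun g _ n h => h⟩⟩, fun h => hx1 (congrArg Subtype.val h)⟩
  have hQV : ∀ q ∈ Q, ∀ v ∈ V, q * v * q⁻¹ ∈ V := by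
    intro q hq v hv
    obtain ⟨hvD, hv'⟩ := (hV v).1 hv
    refine (hV _).2 ⟨hQD q hq v hvD, fun g hg n hgx => ?_⟩
    obtain ⟨d, hd, h1⟩ : ∃ d ∈ D, g * q = d * q * g :=
      ⟨g * q * g⁻¹ * q⁻¹, hWQ g hg q hq, by group⟩
    have hqn : (q * v * q⁻¹) ^ n = q * v ^ n * q⁻¹ := by rw [conj_zpow]
    have h2 := hDc d hd ((q * v * q⁻¹) ^ n) (D.zpow_mem (hQD q hq v hvD) n)
    have h3 := hv' g hg n hgx
    have h4 : q⁻¹ * g⁻¹ = g⁻¹ * q⁻¹ * d⁻¹ := by
      rw [← mul_inv_rev, ← mul_inv_rev, ← mul_inv_rev, h1]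
      group
    calc g * (q * v * q⁻¹) * g⁻¹ = (g * q) * v * (q⁻¹ * g⁻¹) := by group
      _ = d * q * g * v * (g⁻¹ * q⁻¹ * d⁻¹) := by rw [h1, h4]
      _ = d * (q * (g * v * g⁻¹) * q⁻¹) * d⁻¹ := by group
      _ = d * (q * v ^ n * q⁻¹) * d⁻¹ := by rw [h3]
      _ = d * (q * v * q⁻¹) ^ n * d⁻¹ := by rw [hqn]
      _ = (q * v * q⁻¹) ^ n := by rw [h2, mul_inv_cancel_right]
  obtain ⟨z, hz, hz1, hzp, hzQ⟩ := exists_fix hQ (hD.to_le hVD) hV1 hQV
    fun a ha b hb => hDc a (hVD ha) b (hVD hb)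
  exact ⟨z, hVD hz, hzQ, hzp, hz1, ((hV z).1 hz).2⟩

end

/-- the action of the stabilizer of `(D, d)` in `H` on the subgroups of order `p` of `D` -/
structure ActLine {k : Type v} [Field k] {A : Type u} [Group A] (p : ℕ) (H D Z : Subgroup A)
    (d : MonoidAlgebra k A) : Prop where
  line : ∀ x ∈ D, x ≠ 1 → ∃ z ∈ Z, z ^ p = 1 ∧ z ≠ 1 ∧
    ∀ y ∈ H ⊓ St D d, y * x * y⁻¹ ∈ Subgroup.zpowers x → y * z * y⁻¹ ∈ Subgroup.zpowers z

section
variable {p : ℕ} {k : Type v} [Field k] {A : Type u} [Group A] [Fintype A]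
variable [Fact p.Prime] [CharP k p] [IsAlgClosed k]
variable {b c e f d : MonoidAlgebra k A} {G H S P D : Subgroup A} {σ : Finset (Subgroup A)}

/-- **Navarro's equality for `(G, A, e)`** from the weight conjecture for the blocks of the stabilizers of the chains,
with the action of the inertial group of `(P, f)` and of the smallest member `Q` of the chain -/
theorem nav_actQ (hG : G.Normal) (hp : ∀ x : A, ∃ n : ℕ, x ^ p ^ n ∈ G)
    (he : IsBlock G e) (hinv : InvBy ⊤ e) (hP : IsDefectGroup p (⊤ : Subgroup A) e P)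
    (hcom : ∀ x ∈ P ⊓ G, ∀ y ∈ P ⊓ G, x * y = y * x)
    (hf : IsBlock (CD P) f) (hef : resS (CD P : Set A) e * f = f)
    (hloc : ∀ (H D Q : Subgroup A) (b d : MonoidAlgebra k A) (g : A) [Fintype ↥H], D ≤ H →
      SuppIn H d → Root p (dn H b) (D.subgroupOf H) (dn H d) → D ≤ cg g (P ⊓ G) →
      ActBy p H D (cg g (P ⊓ G ⊓ CD P)) (cg g (St P f)) d →
      IsPGroup p Q → D ⊓ CD Q = cg g (P ⊓ G ⊓ CD P) → (∀ q ∈ Q, ∀ v ∈ D, q * v * q⁻¹ ∈ D) →
      (∀ h ∈ H ⊓ St D d, ∀ q ∈ Q, h * q * h⁻¹ * q⁻¹ ∈ D) →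
      gap p (⊤ : Subgroup ↥H) ⊤ (dn H b) = 0) :
    NavarroEq p G ⊤ e := by
  classical
  have heT : IsBlock (⊤ : Subgroup A) e := isBlock_up' le_top
    (by rw [Subgroup.normalizer_eq_top]) (fun x _ => hp x) he hinv
  have hGc : ∀ g : A, cg g G = G := fun g => cg_eq_self_iff.2 (by
    rw [Subgroup.normalizer_eq_top]
    exact Subgroup.mem_top g)
  refine navarro_of_baw le_top (by rw [Subgroup.normalizer_eq_top]) (fun x _ => hp x) he hinv ?_
  intro σ hne hσ hσS b hb hbe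
  obtain ⟨Q₁, hQ₁, hmin⟩ := exists_least hne hσ
  obtain ⟨D, P₀, hD, -, ⟨g₀, -, rfl⟩, hDS₀, -, -, -⟩ :=
    chain_cent hG le_top (fun x _ => hp x) he hinv hP hcom hne hσ hσS hb hbe hQ₁ hmin
  set H : Subgroup A := G ⊓ stab ⊤ σ with hH
  have : Fintype ↥H := Fintype.ofFinite _
  have hDG : D ≤ G := hD.le.trans inf_le_left
  have hDcom : ∀ x ∈ D, ∀ y ∈ D, x * y = y * x := by
    intro x hx y hy
    have hDP : D ≤ cg g₀ (P ⊓ G) := by
      rw [cg_inf, hGc]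
      exact le_inf (le_sup_left.trans hDS₀) hDG
    have h3 := hcom _ (mem_cg.1 (hDP hx)) _ (mem_cg.1 (hDP hy))
    calc x * y = g₀ * ((g₀⁻¹ * x * g₀) * (g₀⁻¹ * y * g₀)) * g₀⁻¹ := by group
      _ = g₀ * ((g₀⁻¹ * y * g₀) * (g₀⁻¹ * x * g₀)) * g₀⁻¹ := by rw [h3]
      _ = y * x := by group
  have hDp := hD.isPGroup
  have hDH : D ≤ H := hD.le
  obtain ⟨d, hd, hbd, hroot⟩ := Ku.exists_root' hb hD hDcom
  have hds : SuppIn H d := fun x hx => (Subgroup.mem_inf.1 (hd.suppIn x hx)).1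
  obtain ⟨g, hRP, hDZ, hRD, hHQ, hact⟩ := chain_act hG hp he hinv hP hcom hf hef hne hσ hσS hb hbe
    hQ₁ hmin hD hd hbd
  have hQp : IsPGroup p Q₁ := (hσS Q₁ hQ₁).2.1
  have hDP : D ≤ cg g (P ⊓ G) := by
    rw [cg_inf, hGc]
    exact le_inf (le_sup_left.trans hRP) hDG
  -- the action of `Q₁`
  have hQD : ∀ q ∈ Q₁, ∀ v ∈ D, q * v * q⁻¹ ∈ D := by
    intro q hq v hv
    have h1 := hRD (hHQ v (hDH hv) q hq)
    have h2 : q * v * q⁻¹ = (v * q * v⁻¹ * q⁻¹)⁻¹ * v := by group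
    rw [h2]
    exact D.mul_mem (D.inv_mem h1) hv
  have hWD : ∀ h ∈ H ⊓ St D d, ∀ v ∈ D, h * v * h⁻¹ ∈ D := fun h hh v hv =>
    (Subgroup.mem_normalizer_iff.1 (Subgroup.mem_inf.1 hh).2.1 v).1 hv
  have hWQ : ∀ h ∈ H ⊓ St D d, ∀ q ∈ Q₁, h * q * h⁻¹ * q⁻¹ ∈ D := fun h hh q hq =>
    hRD (hHQ h (Subgroup.mem_inf.1 hh).1 q hq)
  have hA : ActBy p H D (cg g (P ⊓ G ⊓ CD P)) (cg g (St P f)) d := by
    rw [← hDZ]
    refine ⟨inf_le_left, hact, ?_, ?_, ?_⟩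
    · intro x hx z hz
      obtain ⟨hzD, hzQ⟩ := Subgroup.mem_inf.1 hz
      have hxz : x * z * x⁻¹ ∈ D := hWD x hx z hzD
      refine Subgroup.mem_inf.2 ⟨hxz, ?_⟩
      rw [Subgroup.mem_centralizer_iff]
      intro q hq
      have hdq := hWQ x hx q hq
      obtain ⟨t, htD, h1⟩ : ∃ t ∈ D, q * x = t⁻¹ * (x * q) :=
        ⟨x * q * x⁻¹ * q⁻¹, hdq, by group⟩
      have h2 := Subgroup.mem_centralizer_iff.1 hzQ q hq
      have h3 := hDcom t⁻¹ (D.inv_mem htD) _ hxz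
      have h4 : x * q = t * (q * x) := by rw [h1]; group
      have h5 : q * x⁻¹ = x⁻¹ * (t * q) := by
        have h6 : x⁻¹ * (t * (q * x)) = q := by rw [← h4]; group
        calc q * x⁻¹ = x⁻¹ * (t * (q * x)) * x⁻¹ := by rw [h6]
          _ = x⁻¹ * (t * q) := by group
      calc q * (x * z * x⁻¹) = (q * x) * z * x⁻¹ := by group
        _ = t⁻¹ * (x * q) * z * x⁻¹ := by rw [h1]
        _ = t⁻¹ * (x * (q * z) * x⁻¹) := by group
        _ = t⁻¹ * (x * (z * q) * x⁻¹) := by rw [h2]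
        _ = t⁻¹ * (x * z * (q * x⁻¹)) := by group
        _ = t⁻¹ * (x * z * (x⁻¹ * (t * q))) := by rw [h5]
        _ = t⁻¹ * (x * z * x⁻¹) * (t * q) := by group
        _ = (x * z * x⁻¹) * t⁻¹ * (t * q) := by rw [h3]
        _ = x * z * x⁻¹ * q := by group
    · intro y hy hyz
      -- the order of the action is prime to `p`
      have hnd : ¬ p ∣ (CD D).relIndex (H ⊓ St D d) := by
        have h1 := Ku.ndvd hroot
        rwa [eN_dn H hDH hds] at h1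
      have hpow : y ^ (CD D).relIndex (H ⊓ St D d) ∈ CD D := by
        have h1 : ((CD D).subgroupOf (H ⊓ St D d)).Normal := by
          refine ⟨fun x hx z => ?_⟩
          rw [Subgroup.mem_subgroupOf] at hx ⊢
          have hzN : (z : A) ∈ Subgroup.normalizer (D : Set A) := (Subgroup.mem_inf.1 z.2).2.1
          rw [Subgroup.mem_centralizer_iff] at hx ⊢
          intro t ht
          have h2 : (z : A)⁻¹ * t * z ∈ D := by
            have h3 := (Subgroup.mem_normalizer_iff.1 (Subgroup.inv_mem _ hzN) t).1 ht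
            rwa [inv_inv] at h3
          have h3 := hx _ h2
          change t * ((z : A) * x * (z : A)⁻¹) = (z : A) * x * (z : A)⁻¹ * t
          calc t * ((z : A) * x * (z : A)⁻¹)
              = z * ((z : A)⁻¹ * t * z * x) * (z : A)⁻¹ := by group
            _ = z * (x * ((z : A)⁻¹ * t * z)) * (z : A)⁻¹ := by rw [h3]
            _ = z * x * (z : A)⁻¹ * t := by group
        have h2 := Subgroup.pow_index_mem ((CD D).subgroupOf (H ⊓ St D d))
          (⟨y, hy⟩ : ↥(H ⊓ St D d))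
        exact Subgroup.mem_subgroupOf.1 h2
      exact faith_of_cent hDp hQp hDcom hQD hWD hWQ hy hnd hpow fun z hz hzQ hzp =>
        hyz z (Subgroup.mem_inf.2 ⟨hz, hzQ⟩) hzp
    · intro x hx hx1
      obtain ⟨z, hz, hzQ, hzp, hz1, hzs⟩ := stab_of_cent hDp hQp hDcom hQD hWQ hx hx1
      exact ⟨z, Subgroup.mem_inf.2 ⟨hz, hzQ⟩, hzp, hz1, hzs⟩
  exact Ku.nav_of_gap hb (hloc H D Q₁ b d g hDH hds hroot hDP hA hQp hDZ hQD hWQ)

/-- **Navarro's equality for `(G, A, e)`** from the weight conjecture for the blocks of the stabilizers of the chains,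
with the action of the inertial group of `(P, f)` on the subgroups of order `p` -/
theorem nav_actl (hG : G.Normal) (hp : ∀ x : A, ∃ n : ℕ, x ^ p ^ n ∈ G)
    (he : IsBlock G e) (hinv : InvBy ⊤ e) (hP : IsDefectGroup p (⊤ : Subgroup A) e P)
    (hcom : ∀ x ∈ P ⊓ G, ∀ y ∈ P ⊓ G, x * y = y * x)
    (hf : IsBlock (CD P) f) (hef : resS (CD P : Set A) e * f = f)
    (hloc : ∀ (H D : Subgroup A) (b d : MonoidAlgebra k A) (g : A) [Fintype ↥H], D ≤ H →
      SuppIn H d → Root p (dn H b) (D.subgroupOf H) (dn H d) → D ≤ cg g (P ⊓ G) →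
      ActBy p H D (cg g (P ⊓ G ⊓ CD P)) (cg g (St P f)) d →
      ActLine p H D (cg g (P ⊓ G ⊓ CD P)) d →
      gap p (⊤ : Subgroup ↥H) ⊤ (dn H b) = 0) :
    NavarroEq p G ⊤ e := by
  refine nav_actQ hG hp he hinv hP hcom hf hef ?_
  intro H D Q b d g _ hDH hds hroot hDP hA hQ hDZ hQD hWQ
  have hDp : IsPGroup p ↥D := by
    have h1 : IsPGroup p ↥(cg g (P ⊓ G)) := (hP.isPGroup.to_le inf_le_left).map _
    exact h1.to_le hDP
  have hDcom : ∀ x ∈ D, ∀ y ∈ D, x * y = y * x := by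
    intro x hx y hy
    have h3 := hcom _ (mem_cg.1 (hDP hx)) _ (mem_cg.1 (hDP hy))
    calc x * y = g * ((g⁻¹ * x * g) * (g⁻¹ * y * g)) * g⁻¹ := by group
      _ = g * ((g⁻¹ * y * g) * (g⁻¹ * x * g)) * g⁻¹ := by rw [h3]
      _ = y * x := by group
  refine hloc H D b d g hDH hds hroot hDP hA ⟨fun x hx hx1 => ?_⟩
  obtain ⟨z, hz, hzQ, hzp, hz1, hzl⟩ := line_of_cent hDp hQ hDcom hQD hWQ hx hx1
  refine ⟨z, hDZ ▸ Subgroup.mem_inf.2 ⟨hz, hzQ⟩, hzp, hz1, fun y hy hyx => ?_⟩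
  obtain ⟨n, hn⟩ := Subgroup.mem_zpowers_iff.1 hyx
  rw [hzl y hy n hn.symm]
  exact Subgroup.zpow_mem_zpowers z n

end

end Pool.Agent.Lib.P0c8ca5.Kk
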