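import Mathlib

/-!
# GaP: `p`-groups of automorphisms of an abelian `p`-group of rank at most `p - 2`

* `ord_p`: an automorphism of order `p` fixes all `p`-th powers.
* `pow_cen`: a group of automorphisms of order `p ^ s` fixes all `p ^ s`-th powers.
* `conj_pow`: the same for a `p`-group acting by conjugation.
-/

set_option linter.unusedSectionVars false

namespace Pool.Agent.Lib.P0c8ca5.Kk

namespace GaP

open Finset

section
variable {V : Type*} [AddCommGroup V] [Finite V]

theorem natCast_end (m : ℕ) (x : V) : ((m : ℕ) : Module.End ℤ V) x = m • x := by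
  have h1 : ((m : ℕ) : Module.End ℤ V) = m • (1 : Module.End ℤ V) := by
    rw [nsmul_eq_mul, mul_one]
  rw [h1]
  rfl

theorem sup_pow {f : Module.End ℤ V} {H P : Submodule ℤ V} (hP : P.map f ≤ P)
    (h : H ≤ H.map f ⊔ P) (k : ℕ) : H ≤ H.map (f ^ k) ⊔ P := by
  induction k with
  | zero =>
    rw [pow_zero]
    have h1 : H.map (1 : Module.End ℤ V) = H := by
      change H.map (LinearMap.id) = H
      exact Submodule.map_id H
    rw [h1]
    exact le_sup_left
  | succ k ih =>
    refine h.trans (sup_le ?_ le_sup_right)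
    have h1 : H.map f ≤ (H.map (f ^ k) ⊔ P).map f := Submodule.map_mono ih
    refine h1.trans ?_
    rw [Submodule.map_sup]
    refine sup_le_sup ?_ hP
    rw [pow_succ', ← Submodule.map_comp]
    exact le_rfl

theorem card_lt {p m : ℕ} (hp : p.Prime) (hV : Nat.card V = p ^ m) {H K : Submodule ℤ V}
    (h : H < K) : p * Nat.card H ≤ Nat.card K := by
  have hH : Nat.card H ∣ p ^ m := by
    rw [← hV]
    exact AddSubgroup.card_addSubgroup_dvd_card H.toAddSubgroup
  have hK : Nat.card K ∣ p ^ m := by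
    rw [← hV]
    exact AddSubgroup.card_addSubgroup_dvd_card K.toAddSubgroup
  obtain ⟨a, _, ha⟩ := (Nat.dvd_prime_pow hp).1 hH
  obtain ⟨b, _, hb⟩ := (Nat.dvd_prime_pow hp).1 hK
  have h1 : Nat.card H < Nat.card K := by
    rcases Nat.lt_or_ge (Nat.card H) (Nat.card K) with h1 | h1
    · exact h1
    · exfalso
      have h2 : H.toAddSubgroup = K.toAddSubgroup :=
        AddSubgroup.eq_of_le_of_card_ge (fun x hx => h.le hx) h1
      have h3 : H = K := by
        ext x
        have h4 := SetLike.ext_iff.1 h2 x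
        exact h4
      exact h.ne h3
  rw [ha, hb] at h1
  have h2 : a < b := (Nat.pow_lt_pow_iff_right hp.one_lt).1 h1
  rw [ha, hb, mul_comm, ← pow_succ]
  exact Nat.pow_le_pow_right hp.pos h2

/-- a nilpotent endomorphism of an abelian `p`-group of rank `≤ r` maps to the `p`-th multiples
after `r` steps -/
theorem range_le {p r m : ℕ} (hp : p.Prime) (hV : Nat.card V = p ^ m)
    (hr : Nat.card {x : V // p • x = 0} ≤ p ^ r) {f : Module.End ℤ V} (hf : IsNilpotent f) :
    LinearMap.range (f ^ r) ≤ LinearMap.range ((p : ℕ) : Module.End ℤ V) := by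
  set P : Submodule ℤ V := LinearMap.range ((p : ℕ) : Module.End ℤ V) with hPd
  have hPf : P.map f ≤ P := by
    rintro _ ⟨_, ⟨x, rfl⟩, rfl⟩
    refine ⟨f x, ?_⟩
    rw [natCast_end, natCast_end, map_nsmul]
  have hanti : ∀ {i j : ℕ}, i ≤ j → LinearMap.range (f ^ j) ≤ LinearMap.range (f ^ i) := by
    rintro i j hij _ ⟨x, rfl⟩
    obtain ⟨c, rfl⟩ := Nat.exists_eq_add_of_le hij
    refine ⟨(f ^ c) x, ?_⟩
    rw [pow_add]
    rfl
  by_contra hcon
  have key : ∀ j ≤ r, Nat.card ↥(LinearMap.range (f ^ j) ⊔ P) * p ^ j ≤ Nat.card V := by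
    intro j
    induction j with
    | zero =>
      intro _
      rw [pow_zero p, mul_one]
      exact Nat.card_le_card_of_injective _ Subtype.val_injective
    | succ j ih =>
      intro hj
      have h1 := ih (by omega)
      have hlt : LinearMap.range (f ^ (j + 1)) ⊔ P < LinearMap.range (f ^ j) ⊔ P := by
        refine lt_of_le_of_ne (sup_le_sup_right (hanti (Nat.le_succ j)) P) fun h2 => ?_
        apply hcon
        have h3 : LinearMap.range (f ^ j) ⊔ P ≤ (LinearMap.range (f ^ j) ⊔ P).map f ⊔ P := by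
          rw [← h2]
          refine sup_le ?_ le_sup_right
          rintro _ ⟨x, rfl⟩
          refine (le_sup_left : _ ≤ Submodule.map f _ ⊔ P) ⟨(f ^ j) x, ?_, ?_⟩
          · rw [h2]
            exact (le_sup_left : _ ≤ LinearMap.range (f ^ j) ⊔ P) ⟨x, rfl⟩
          · rw [pow_succ']
            rfl
        obtain ⟨n, hn⟩ := hf
        have h4 := sup_pow hPf h3 n
        rw [hn] at h4
        have h5 : (LinearMap.range (f ^ j) ⊔ P).map (0 : Module.End ℤ V) = ⊥ :=
          Submodule.map_zero _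
        rw [h5, bot_sup_eq] at h4
        exact (hanti (by omega)).trans (le_sup_left.trans h4)
      have h2 := card_lt hp hV hlt
      calc Nat.card ↥(LinearMap.range (f ^ (j + 1)) ⊔ P) * p ^ (j + 1)
          = (p * Nat.card ↥(LinearMap.range (f ^ (j + 1)) ⊔ P)) * p ^ j := by ring
        _ ≤ Nat.card ↥(LinearMap.range (f ^ j) ⊔ P) * p ^ j := Nat.mul_le_mul_right _ h2
        _ ≤ _ := h1
  have h1 := key r le_rfl
  -- `|V| = |P| |ker p|`
  have h2 : Nat.card P * Nat.card {x : V // p • x = 0} = Nat.card V := by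
    have h3 := AddSubgroup.card_mul_index (AddMonoidHom.ker (nsmulAddMonoidHom (α := V) p))
    have h4 : (AddMonoidHom.ker (nsmulAddMonoidHom (α := V) p)).index
        = Nat.card (nsmulAddMonoidHom (α := V) p).range := AddSubgroup.index_ker _
    have h5 : Nat.card (nsmulAddMonoidHom (α := V) p).range = Nat.card P := by
      refine Nat.card_congr (Equiv.subtypeEquivRight fun x => ?_)
      constructor
      · rintro ⟨y, rfl⟩
        exact ⟨y, natCast_end p y⟩
      · rintro ⟨y, rfl⟩
        exact ⟨y, (natCast_end p y).symm⟩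
    have h6 : Nat.card (AddMonoidHom.ker (nsmulAddMonoidHom (α := V) p))
        = Nat.card {x : V // p • x = 0} := Nat.card_congr (Equiv.subtypeEquivRight fun x => Iff.rfl)
    rw [h4, h5, h6, mul_comm] at h3
    exact h3
  have h3 : Nat.card ↥(LinearMap.range (f ^ r) ⊔ P) ≤ Nat.card P := by
    have h4 : Nat.card ↥(LinearMap.range (f ^ r) ⊔ P) * p ^ r ≤ Nat.card P * p ^ r := by
      calc _ ≤ Nat.card V := h1
        _ = Nat.card P * Nat.card {x : V // p • x = 0} := h2.symm
        _ ≤ _ := Nat.mul_le_mul_left _ hr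
    exact Nat.le_of_mul_le_mul_right h4 (pow_pos hp.pos r)
  have h4 : P = LinearMap.range (f ^ r) ⊔ P := by
    by_contra hne
    have h5 : P < LinearMap.range (f ^ r) ⊔ P := lt_of_le_of_ne le_sup_right hne
    have h6 := card_lt hp hV h5
    have h7 : 0 < Nat.card P := Nat.card_pos
    have h8 := hp.two_le
    nlinarith
  apply hcon
  rw [h4]
  exact le_sup_left

/-- an endomorphism of order `p` fixes the `p`-th multiples -/
theorem ord_p {p r m : ℕ} (hp : p.Prime) (hV : Nat.card V = p ^ m)
    (hr : Nat.card {x : V // p • x = 0} ≤ p ^ r) (hrp : r + 2 ≤ p) {g : Module.End ℤ V}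
    (hg : g ^ p = 1) (x : V) : g (p • x) = p • x := by
  set f : Module.End ℤ V := g - 1 with hf
  have hgf : f + 1 = g := sub_add_cancel g 1
  have hc1 : Commute f (1 : Module.End ℤ V) := Commute.one_right f
  have hbin := hc1.add_pow_prime_eq hp
  set u : Module.End ℤ V := ∑ k ∈ Ioo 0 p, f ^ (k - 1) * 1 ^ (p - k - 1) *
    ((p.choose k / p : ℕ) : Module.End ℤ V) with hu
  rw [hgf, hg, one_pow, mul_one] at hbin
  have h1 : f ^ p + (p : Module.End ℤ V) * f * u = 0 := by
    have h2 : f ^ p + 1 + (p : Module.End ℤ V) * f * u = 1 := hbin.symm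
    have h3 : f ^ p + (p : Module.End ℤ V) * f * u + 1 = 1 := by
      rw [add_right_comm]
      exact h2
    exact add_eq_right.1 h3
  -- `f` commutes with `u`
  have hfu : Commute f u := by
    rw [hu]
    refine Commute.sum_right _ _ _ fun k _ => ?_
    exact (((Commute.refl f).pow_right _).mul_right (hc1.pow_right _)).mul_right
      (Nat.cast_commute _ _).symm
  have hpc : ∀ y : Module.End ℤ V, Commute ((p : ℕ) : Module.End ℤ V) y := fun y =>
    Nat.cast_commute _ _
  -- `f` is nilpotent
  have hfp : f ^ p = -((p : Module.End ℤ V) * f * u) := eq_neg_of_add_eq_zero_left h1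
  have hpm : ((p : ℕ) : Module.End ℤ V) ^ m = 0 := by
    rw [← Nat.cast_pow]
    ext y
    rw [natCast_end, ← hV, LinearMap.zero_apply]
    exact card_nsmul_eq_zero'
  have hnil : IsNilpotent f := by
    refine ⟨p * m, ?_⟩
    have h2 : -((p : Module.End ℤ V) * f * u) = (p : Module.End ℤ V) * (-(f * u)) := by
      rw [mul_neg, mul_assoc]
    rw [pow_mul, hfp, h2, (hpc _).mul_pow, hpm, zero_mul]
  -- `u = 1 + f w`
  have hp2 : 2 ≤ p := hp.two_le
  obtain ⟨w, hw, hfw⟩ : ∃ w, u = 1 + f * w ∧ Commute f w := by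
    refine ⟨∑ k ∈ Ioo 1 p, f ^ (k - 2) * ((p.choose k / p : ℕ) : Module.End ℤ V), ?_, ?_⟩
    · have h2 : Ioo 0 p = insert 1 (Ioo 1 p) := by
        ext k
        rw [mem_insert, mem_Ioo, mem_Ioo]
        omega
      rw [hu, h2, sum_insert (by rw [mem_Ioo]; omega)]
      congr 1
      · rw [Nat.choose_one_right, Nat.div_self hp.pos, Nat.sub_self, pow_zero, one_pow]
        norm_num
      · rw [mul_sum]
        refine sum_congr rfl fun k hk => ?_
        rw [mem_Ioo] at hk
        rw [one_pow, mul_one, ← mul_assoc, ← pow_succ']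
        congr 2
        omega
    · refine Commute.sum_right _ _ _ fun k _ => ?_
      exact ((Commute.refl f).pow_right _).mul_right (Nat.cast_commute _ _).symm
  have hunit : IsUnit u := by
    rw [hw]
    refine IsNilpotent.isUnit_one_add ?_
    exact hfw.isNilpotent_mul_right hnil
  have husurj : Function.Surjective u := by
    obtain ⟨v, hv⟩ := hunit
    intro y
    refine ⟨((v⁻¹ : (Module.End ℤ V)ˣ) : Module.End ℤ V) y, ?_⟩
    have h2 : (u * ((v⁻¹ : (Module.End ℤ V)ˣ) : Module.End ℤ V)) y = y := by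
      rw [← hv, Units.mul_inv]
      rfl
    exact h2
  -- `p f V ≤ f ^ p V`
  have hA : ∀ y : V, ∃ z : V, p • f y = (f ^ p) z := by
    intro y
    obtain ⟨z, rfl⟩ := husurj y
    refine ⟨-z, ?_⟩
    rw [hfp]
    have h2 : (-((p : Module.End ℤ V) * f * u)) (-z) = (p : Module.End ℤ V) (f (u z)) := by
      rw [LinearMap.neg_apply, map_neg, neg_neg]
      rfl
    rw [h2, natCast_end]
  -- `f ^ p V ≤ f (f ^ p V)`
  have hB : LinearMap.range (f ^ p) ≤ (LinearMap.range (f ^ p)).map f ⊔ ⊥ := by
    rw [sup_bot_eq]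
    rintro _ ⟨y, rfl⟩
    obtain ⟨z, hz⟩ := range_le hp hV hr hnil ⟨y, rfl⟩
    -- `f ^ r y = p z`
    rw [natCast_end] at hz
    obtain ⟨t, ht⟩ := hA z
    obtain ⟨c, hc⟩ : ∃ c, p = c + 2 + r := ⟨p - 2 - r, by omega⟩
    refine ⟨(f ^ p) ((f ^ c) t), ⟨_, rfl⟩, ?_⟩
    have h2 : (f ^ p) ((f ^ c) t) = (f ^ c) ((f ^ p) t) := by
      change (f ^ p * f ^ c) t = (f ^ c * f ^ p) t
      rw [← pow_add, ← pow_add, add_comm]
    have h3 : (f ^ p) y = (f ^ (c + 2)) ((f ^ r) y) := by
      change (f ^ p) y = (f ^ (c + 2) * f ^ r) y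
      rw [← pow_add, ← hc]
    have h4 : f ((f ^ c) (f z)) = (f ^ (c + 2)) z := by
      change (f * (f ^ c * f)) z = _
      rw [← pow_succ, ← pow_succ']
    rw [h2, ← ht, h3, ← hz, map_nsmul, map_nsmul, map_nsmul, h4]
  have hC : LinearMap.range (f ^ p) = ⊥ := by
    obtain ⟨n, hn⟩ := hnil
    have h2 := sup_pow (f := f) (H := LinearMap.range (f ^ p)) (P := ⊥)
      (by rw [Submodule.map_bot]) hB n
    have h5 : (LinearMap.range (f ^ p)).map (0 : Module.End ℤ V) = ⊥ := Submodule.map_zero _
    rw [hn, h5, sup_bot_eq] at h2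
    exact le_bot_iff.1 h2
  obtain ⟨z, hz⟩ := hA x
  have h2 : (f ^ p) z ∈ LinearMap.range (f ^ p) := ⟨z, rfl⟩
  rw [hC, Submodule.mem_bot] at h2
  rw [h2] at hz
  have h3 : g x = f x + x := by
    rw [← hgf]
    rfl
  rw [map_nsmul, h3, nsmul_add, hz, zero_add]

end

/-- multiplicative form of `ord_p` -/
theorem ord_p' {T : Type*} [CommGroup T] [Finite T] {p r m : ℕ} (hp : p.Prime)
    (hV : Nat.card T = p ^ m) (hr : Nat.card {x : T // x ^ p = 1} ≤ p ^ r) (hrp : r + 2 ≤ p)
    {α : MulAut T} (hα : α ^ p = 1) (x : T) : α (x ^ p) = x ^ p := by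
  set g : Module.End ℤ (Additive T) := (MonoidHom.toAdditive α.toMonoidHom).toIntLinearMap with hg
  have hga : ∀ y : T, g (Additive.ofMul y) = Additive.ofMul (α y) := fun y => rfl
  have hgn : ∀ (n : ℕ) (y : T), (g ^ n) (Additive.ofMul y) = Additive.ofMul ((α ^ n) y) := by
    intro n
    induction n with
    | zero =>
      intro y
      rw [pow_zero, pow_zero]
      rfl
    | succ n ih =>
      intro y
      rw [pow_succ, pow_succ]
      change (g ^ n) (g (Additive.ofMul y)) = _
      rw [hga, ih]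
      rfl
  have hgp : g ^ p = 1 := by
    ext y
    change (g ^ p) (Additive.ofMul (Additive.toMul y)) = y
    rw [hgn, hα]
    rfl
  have h1 := ord_p (V := Additive T) hp hV hr hrp hgp (Additive.ofMul x)
  exact h1

/-- restriction of a subgroup of `MulAut T` to the fixed points of a central element -/
theorem exists_res {T : Type*} [CommGroup T] (H : Subgroup (MulAut T)) (C : Subgroup T)
    (hC : ∀ α ∈ H, ∀ x ∈ C, α x ∈ C) :
    ∃ res : H →* MulAut C, ∀ (α : H) (x : C), ((res α x : C) : T) = (α : MulAut T) x := by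
  refine ⟨{ toFun := fun α =>
              { toFun := fun x => ⟨(α : MulAut T) x, hC α α.2 x x.2⟩
                invFun := fun x => ⟨((α⁻¹ : H) : MulAut T) x, hC _ (α⁻¹).2 x x.2⟩
                left_inv := fun x => ?_
                right_inv := fun x => ?_
                map_mul' := fun x y => ?_ }
            map_one' := ?_
            map_mul' := ?_ }, ?_⟩
  · apply Subtype.ext
    change ((α⁻¹ : H) : MulAut T) ((α : MulAut T) x) = x
    rw [← MulAut.mul_apply, ← Subgroup.coe_mul, inv_mul_cancel]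
    rfl
  · apply Subtype.ext
    change (α : MulAut T) (((α⁻¹ : H) : MulAut T) x) = x
    rw [← MulAut.mul_apply, ← Subgroup.coe_mul, mul_inv_cancel]
    rfl
  · apply Subtype.ext
    exact map_mul (α : MulAut T) (x : T) (y : T)
  · ext x
    rfl
  · intro α β
    ext x
    rfl
  · intro α x
    rfl

/-- a group of automorphisms of order dividing `p ^ s` fixes all `p ^ s`-th powers -/
theorem pow_cen.{u} {p r : ℕ} (hp : p.Prime) (hrp : r + 2 ≤ p) (s : ℕ) :
    ∀ (T : Type u) [CommGroup T] [Finite T] (m : ℕ), Nat.card T = p ^ m →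
      Nat.card {x : T // x ^ p = 1} ≤ p ^ r →
      ∀ H : Subgroup (MulAut T), Nat.card H ∣ p ^ s →
        ∀ α ∈ H, ∀ x : T, α (x ^ p ^ s) = x ^ p ^ s := by
  induction s with
  | zero =>
    intro T _ _ m hT hr H hH α hα x
    rw [pow_zero, Nat.dvd_one] at hH
    have h1 : H = ⊥ := Subgroup.eq_bot_of_card_eq H hH
    rw [h1, Subgroup.mem_bot] at hα
    rw [hα]
    rfl
  | succ s ih =>
    intro T _ _ m hT hr H hH α hα x
    have : Fact p.Prime := ⟨hp⟩
    obtain ⟨a, ha, hHa⟩ := (Nat.dvd_prime_pow hp).1 hH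
    by_cases ha0 : a = 0
    · rw [ha0, pow_zero] at hHa
      have h1 : H = ⊥ := Subgroup.eq_bot_of_card_eq H hHa
      rw [h1, Subgroup.mem_bot] at hα
      rw [hα]
      rfl
    have : Finite H := Nat.finite_of_card_ne_zero (by rw [hHa]; exact (pow_pos hp.pos a).ne')
    have hPG : IsPGroup p H := IsPGroup.of_card hHa
    have : Nontrivial H := by
      rw [← Finite.one_lt_card_iff_nontrivial, hHa]
      exact Nat.one_lt_pow ha0 hp.one_lt
    have : Nontrivial (Subgroup.center H) := hPG.center_nontrivial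
    obtain ⟨σ, hσ⟩ : ∃ σ : Subgroup.center H, orderOf σ = p := by
      obtain ⟨n, hn0, hn⟩ := (hPG.to_subgroup (Subgroup.center H)).nontrivial_iff_card.1 ‹_›
      exact exists_prime_orderOf_dvd_card' p (by rw [hn]; exact dvd_pow_self p hn0.ne')
    set τ : MulAut T := ((σ : H) : MulAut T) with hτ
    have hτp : τ ^ p = 1 := by
      have h1 : σ ^ p = 1 := by rw [← hσ]; exact pow_orderOf_eq_one σ
      have h2 := congrArg (fun z : Subgroup.center H => ((z : H) : MulAut T)) h1
      exact h2
    have hτ1 : (σ : H) ≠ 1 := by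
      intro h1
      have h2 : σ = 1 := Subtype.ext h1
      rw [h2, orderOf_one] at hσ
      exact hp.one_lt.ne hσ
    let C : Subgroup T :=
      { carrier := {x | τ x = x}
        one_mem' := map_one τ
        mul_mem' := fun {a b} ha hb => by
          change τ (a * b) = a * b
          rw [map_mul]
          exact congrArg₂ (· * ·) ha hb
        inv_mem' := fun {a} ha => by
          change τ a⁻¹ = a⁻¹
          rw [map_inv]
          exact congrArg (·⁻¹) ha }
    have hCH : ∀ β ∈ H, ∀ y ∈ C, β y ∈ C := by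
      intro β hβ y hy
      change τ (β y) = β y
      have h1 : (⟨β, hβ⟩ : H) * (σ : H) = (σ : H) * ⟨β, hβ⟩ :=
        (Subgroup.mem_center_iff.1 σ.2) ⟨β, hβ⟩
      have h2 : β * τ = τ * β := congrArg (fun z : H => (z : MulAut T)) h1
      have h3 : β (τ y) = τ (β y) := congrArg (fun z : MulAut T => z y) h2
      rw [← h3]
      exact congrArg β hy
    obtain ⟨res, hres⟩ := exists_res H C hCH
    have hpC : x ^ p ∈ C := ord_p' hp hT hr hrp hτp x
    obtain ⟨n, _, hn⟩ := (Nat.dvd_prime_pow hp).1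
      ((Subgroup.card_subgroup_dvd_card C).trans (dvd_of_eq hT))
    have hrC : Nat.card {x : C // x ^ p = 1} ≤ p ^ r := by
      refine le_trans ?_ hr
      refine Nat.card_le_card_of_injective
        (fun x => (⟨((x : C) : T), by
          have h1 := congrArg (fun z : C => (z : T)) x.2
          exact h1⟩ : {x : T // x ^ p = 1})) ?_
      intro x y hxy
      apply Subtype.ext
      apply Subtype.ext
      exact congrArg (fun z : {x : T // x ^ p = 1} => (z : T)) hxy
    have hrange : Nat.card res.range ∣ p ^ s := by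
      have h1 : Nat.card res.ker * res.ker.index = Nat.card H :=
        Subgroup.card_mul_index _
      rw [Subgroup.index_ker] at h1
      have h2 : Nat.card res.ker ∣ p ^ a := by
        rw [← hHa, ← h1]
        exact dvd_mul_right _ _
      obtain ⟨b, hb, hkb⟩ := (Nat.dvd_prime_pow hp).1 h2
      have hb0 : b ≠ 0 := by
        rintro rfl
        rw [pow_zero] at hkb
        have h3 : res.ker = ⊥ := Subgroup.eq_bot_of_card_eq _ hkb
        have h4 : (σ : H) ∈ res.ker := by
          rw [MonoidHom.mem_ker]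
          ext y
          rw [hres]
          exact y.2
        rw [h3, Subgroup.mem_bot] at h4
        exact hτ1 h4
      rw [hkb, hHa] at h1
      have h3 : Nat.card res.range ∣ p ^ a := by
        rw [← h1]
        exact dvd_mul_left _ _
      obtain ⟨c, hc, hkc⟩ := (Nat.dvd_prime_pow hp).1 h3
      rw [hkc, ← pow_add] at h1
      have h4 := Nat.pow_right_injective hp.two_le h1
      rw [hkc]
      exact pow_dvd_pow p (by omega)
    have h1 := ih C n hn hrC res.range hrange (res ⟨α, hα⟩) ⟨_, rfl⟩ ⟨x ^ p, hpC⟩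
    have h2 := congrArg (fun z : C => (z : T)) h1
    have h3 : α ((x ^ p) ^ p ^ s) = (x ^ p) ^ p ^ s := by
      have h4 := hres ⟨α, hα⟩ (⟨x ^ p, hpC⟩ ^ p ^ s)
      rw [h1] at h4
      exact h4.symm
    rw [pow_succ', pow_mul]
    exact h3

/-- `P` normalizes the abelian `p`-group `D` of rank at most `p - 2`, `D ≤ P` and `|P : D|`
divides `p ^ s`: then `P` centralizes all `p ^ s`-th powers of elements of `D` -/
theorem conj_pow {Γ : Type*} [Group Γ] [Finite Γ] {p r s m : ℕ} (hp : p.Prime) (hrp : r + 2 ≤ p)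
    {D P : Subgroup Γ} (hD : ∀ x ∈ D, ∀ y ∈ D, x * y = y * x) (hm : Nat.card D = p ^ m)
    (hr : Nat.card {x : D // x ^ p = 1} ≤ p ^ r) (hDP : D ≤ P)
    (hPD : P ≤ Subgroup.normalizer (D : Set Γ)) (hs : Nat.card P ∣ Nat.card D * p ^ s) :
    ∀ g ∈ P, ∀ x ∈ D, g * x ^ p ^ s * g⁻¹ = x ^ p ^ s := by
  let _ : CommGroup D := { (inferInstance : Group D) with
    mul_comm := fun x y => Subtype.ext (hD x x.2 y y.2) }
  set φ : P →* MulAut D := D.normalizerMonoidHom.comp (Subgroup.inclusion hPD) with hφ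
  have hker : D.subgroupOf P ≤ φ.ker := by
    intro x hx
    rw [Subgroup.mem_subgroupOf] at hx
    rw [MonoidHom.mem_ker]
    ext y
    change (x : Γ) * (y : Γ) * (x : Γ)⁻¹ = (y : Γ)
    rw [hD _ hx _ y.2, mul_inv_cancel_right]
  have h1 : Nat.card φ.ker * Nat.card φ.range = Nat.card P := by
    have h2 : Nat.card φ.ker * φ.ker.index = Nat.card P := Subgroup.card_mul_index _
    rw [Subgroup.index_ker] at h2
    exact h2
  have h2 : Nat.card D ∣ Nat.card φ.ker := by
    have h3 := Subgroup.card_dvd_of_le hker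
    rwa [Nat.card_congr (Subgroup.subgroupOfEquivOfLe hDP).toEquiv] at h3
  have h3 : Nat.card φ.range ∣ p ^ s := by
    have h4 : Nat.card D * Nat.card φ.range ∣ Nat.card D * p ^ s := by
      refine Dvd.dvd.trans ?_ hs
      rw [← h1]
      exact Nat.mul_dvd_mul_right h2 _
    exact Nat.dvd_of_mul_dvd_mul_left Nat.card_pos h4
  intro g hg x hx
  have h4 := pow_cen hp hrp s D m hm hr φ.range h3 (φ ⟨g, hg⟩) ⟨_, rfl⟩ ⟨x, hx⟩
  have h5 := congrArg (fun z : D => (z : Γ)) h4
  exact h5

end GaP

end Pool.Agent.Lib.P0c8ca5.Kk
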