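import Mathlib
import Pool.Agent.Lib.P0c8ca5Kk.Kg
import Pool.Agent.Lib.P0c8ca5Kk.Ks
import Pool.Agent.Lib.P0c8ca5Kq.Ch

/-!
# KiA: the local formula for one block

`c` is a block of `U` below `resS C(M) b`, `CD M ≤ U ≤ N(M)`, `g₀` a root of `c` (`exists_root`). `local_one`:
`|N(D)| |U| l(N(cg g₀ D) ⊓ U, Br c)` is the sum over the `g` with `M ≤ cg g D` of `|N(cg g D) ⊓ U| l(N(cg g D) ⊓ U, Br_(cg g D) c)`.

-/

set_option autoImplicit false
set_option linter.unusedSectionVars false

namespace Pool.Agent.Lib.P0c8ca5.Kk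

open MonoidAlgebra Bq Ex Kq KgAux

section
variable {p : ℕ} {k : Type*} [Field k] {A : Type*} [Group A] [Fintype A]
variable [Fact p.Prime] [CharP k p] [IsAlgClosed k]
variable {b f i c : MonoidAlgebra k A} {D M U : Subgroup A}

namespace KiAux

/-- the Brauer image of an idempotent of the centre of `kU` at a p-subgroup of `U` -/
theorem res_fix {P : Subgroup A} (hPU : P ≤ U) (hP : IsPGroup p P) {e : MonoidAlgebra k A}
    (he : e ∈ fixAlg k U U) (hee : e * e = e) :
    resS (CD P : Set A) e ∈ fixAlg k (Subgroup.normalizer (P : Set A) ⊓ U)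
      (Subgroup.normalizer (P : Set A) ⊓ U) ∧
    resS (CD P : Set A) e * resS (CD P : Set A) e = resS (CD P : Set A) e := by
  have hes := (mem_fixAlg.1 he).1
  have hei := (mem_fixAlg.1 he).2
  refine ⟨?_, by rw [← resS_mul hP (hei.mono hPU) (hei.mono hPU), hee]⟩
  rw [mem_fixAlg]
  constructor
  · intro x hx
    rw [coeff_resS] at hx
    split_ifs at hx with h1
    · exact ⟨Subgroup.centralizer_le_normalizer _ h1, hes x hx⟩
    · exact absurd rfl hx
  · exact JdAux.invBy_resS (hei.mono inf_le_right) fun g hg x => Ku.NDAux.conj_CD_iff hg.1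

theorem cg_inf (g : A) (H K : Subgroup A) : cg g (H ⊓ K) = cg g H ⊓ cg g K := by
  ext x
  rw [mem_cg, Subgroup.mem_inf, Subgroup.mem_inf, mem_cg, mem_cg]

theorem cg_normalizer (g : A) (P : Subgroup A) :
    cg g (Subgroup.normalizer (P : Set A)) = Subgroup.normalizer (cg g P : Set A) := by
  ext x
  rw [mem_cg, ← cg_eq_self_iff, ← cg_eq_self_iff, cg_cg, ]
  constructor
  · intro h
    have h1 := congrArg (cg g) h
    rw [cg_cg] at h1
    have e : g * (g⁻¹ * x * g) = x * g := by group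
    rwa [e] at h1
  · intro h
    have h1 := congrArg (cg g⁻¹) h
    rw [cg_cg, cg_cg, inv_mul_cancel, cg_one] at h1
    have e : g⁻¹ * (x * g) = g⁻¹ * x * g := by group
    rwa [e] at h1

end KiAux

open KiAux

open Classical in
/-- **the local formula for one block** -/
theorem local_one (h : Src p b D f i) (hM : IsPGroup p M) (hMU : CD M ≤ U)
    (hU : U ≤ Subgroup.normalizer (M : Set A)) (hc : IsBlock U c)
    (hcb : resS (CD M : Set A) b * c = c) {g₀ : A} (hg₀ : M ≤ cg g₀ D)
    (hgd : IsDefectGroup p U c (cg g₀ D)) :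
    Nat.card (Subgroup.normalizer (D : Set A)) * (Nat.card U *
        Nat.card (IrX (Subgroup.normalizer (cg g₀ D : Set A) ⊓ U)
          (resS (CD (cg g₀ D) : Set A) c))) =
      ∑ g ∈ Finset.univ.filter (fun g : A => M ≤ cg g D),
        Nat.card ↥(Subgroup.normalizer (cg g D : Set A) ⊓ U) *
          Nat.card (IrX (Subgroup.normalizer (cg g D : Set A) ⊓ U)
            (resS (CD (cg g D) : Set A) c)) := by
  have hD0 := hgd.le
  have hDp : IsPGroup p (cg g₀ D : Subgroup A) := isPGroup_cg h.root.dfg.isPGroup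
  set N0 := Subgroup.normalizer (cg g₀ D : Set A) ⊓ U with hN0
  set T0 := Nat.card ↥N0 * Nat.card (IrX N0 (resS (CD (cg g₀ D) : Set A) c)) with hT0
  -- the terms
  have hterm : ∀ u ∈ U, ∀ g, cg g D = cg u (cg g₀ D) →
      Nat.card ↥(Subgroup.normalizer (cg g D : Set A) ⊓ U) *
          Nat.card (IrX (Subgroup.normalizer (cg g D : Set A) ⊓ U)
            (resS (CD (cg g D) : Set A) c)) = T0 := by
    intro u hu g hg
    rw [hg]
    have h1 : Subgroup.normalizer (cg u (cg g₀ D) : Set A) ⊓ U = cg u N0 := by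
      rw [hN0, cg_inf, cg_normalizer]
      congr 1
      exact (cg_eq_self_iff.2 (Subgroup.le_normalizer hu)).symm
    have h2 : resS (CD (cg u (cg g₀ D)) : Set A) c = cj u (resS (CD (cg g₀ D) : Set A) c) := by
      rw [← FuAux.resS_cg, FuAux.cg_CD, invBy_iff_cj.1 hc.invBy u hu]
    obtain ⟨h3, h4⟩ := res_fix (p := p) hD0 hDp hc.mem hc.idem
    rw [h1, h2, card_cg, card_irX_cj (p := p) u h3 h4]
  have hmemM : ∀ u ∈ U, M ≤ cg u (cg g₀ D) := by
    intro u hu
    have h1 : cg u M = M := cg_eq_self_iff.2 (hU hu)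
    rw [← h1]
    exact cg_le_cg hg₀
  -- the terms outside the orbit
  have hzero : ∀ g ∈ Finset.univ.filter (fun g : A => M ≤ cg g D),
      ¬ (∃ u ∈ U, cg g D = cg u (cg g₀ D)) →
      Nat.card ↥(Subgroup.normalizer (cg g D : Set A) ⊓ U) *
          Nat.card (IrX (Subgroup.normalizer (cg g D : Set A) ⊓ U)
            (resS (CD (cg g D) : Set A) c)) = 0 := by
    intro g hg hn
    have h1 : resS (CD (cg g D) : Set A) c = 0 := by
      by_contra h0
      exact hn (exists_conj_U h hM hMU hU hc hcb hg₀ hgd (Finset.mem_filter.1 hg).2 h0)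
    rw [h1, irX_zero p, mul_zero]
  -- the orbit
  obtain ⟨P, hPx⟩ : ∃ P : A → Prop, ∀ x, P x ↔
      ∃ u ∈ U, ∃ m ∈ Subgroup.normalizer (cg g₀ D : Set A), x = u * m := ⟨_, fun x => Iff.rfl⟩
  have hcount : Nat.card U * Nat.card (Subgroup.normalizer (cg g₀ D : Set A)) =
      Nat.card ↥(U ⊓ Subgroup.normalizer (cg g₀ D : Set A)) * (Finset.univ.filter P).card := by
    have h1 := sum_mul (M := ℕ) U (Subgroup.normalizer (cg g₀ D : Set A)) P hPx (fun _ => 1)
    simp only [Finset.sum_const, Finset.card_univ, smul_eq_mul, mul_one] at h1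
    rw [Nat.card_eq_fintype_card, Nat.card_eq_fintype_card]
    exact h1
  have hPO : ∀ g : A, P (g * g₀⁻¹) ↔ ∃ u ∈ U, cg g D = cg u (cg g₀ D) := by
    intro g
    have e1 : cg g D = cg (g * g₀⁻¹) (cg g₀ D) := by
      rw [cg_cg]
      congr 1
      group
    rw [hPx]
    constructor
    · rintro ⟨u, hu, m, hm, hx⟩
      refine ⟨u, hu, ?_⟩
      rw [e1, hx, ← cg_cg, cg_eq_self_iff.2 hm]
    · rintro ⟨u, hu, hx⟩
      refine ⟨u, hu, u⁻¹ * (g * g₀⁻¹), ?_, by group⟩
      rw [← cg_eq_self_iff, ← cg_cg, ← e1, hx, cg_cg, inv_mul_cancel, cg_one]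
  have hcardO : (Finset.univ.filter fun g : A => ∃ u ∈ U, cg g D = cg u (cg g₀ D)).card =
      (Finset.univ.filter P).card := by
    refine Finset.card_bij (fun g _ => g * g₀⁻¹) ?_ ?_ ?_
    · intro g hg
      rw [Finset.mem_filter] at hg ⊢
      exact ⟨Finset.mem_univ _, (hPO g).2 hg.2⟩
    · intro g _ g' _ hgg
      exact mul_right_cancel hgg
    · intro x hx
      rw [Finset.mem_filter] at hx
      refine ⟨x * g₀, ?_, by group⟩
      rw [Finset.mem_filter]
      refine ⟨Finset.mem_univ _, (hPO _).1 ?_⟩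
      have e1 : x * g₀ * g₀⁻¹ = x := by group
      rw [e1]
      exact hx.2
  have hsum : ∑ g ∈ Finset.univ.filter (fun g : A => M ≤ cg g D),
        Nat.card ↥(Subgroup.normalizer (cg g D : Set A) ⊓ U) *
          Nat.card (IrX (Subgroup.normalizer (cg g D : Set A) ⊓ U)
            (resS (CD (cg g D) : Set A) c)) =
      (Finset.univ.filter fun g : A => ∃ u ∈ U, cg g D = cg u (cg g₀ D)).card * T0 := by
    rw [← Finset.sum_subset (s₁ := Finset.univ.filter fun g : A =>
      ∃ u ∈ U, cg g D = cg u (cg g₀ D))]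
    · rw [Finset.sum_congr rfl (g := fun _ => T0)]
      · rw [Finset.sum_const, smul_eq_mul]
      · intro g hg
        obtain ⟨u, hu, hgu⟩ := (Finset.mem_filter.1 hg).2
        exact hterm u hu g hgu
    · intro g hg
      obtain ⟨u, hu, hgu⟩ := (Finset.mem_filter.1 hg).2
      refine Finset.mem_filter.2 ⟨Finset.mem_univ _, ?_⟩
      rw [hgu]
      exact hmemM u hu
    · intro g hg hg'
      exact hzero g hg fun h1 => hg' (Finset.mem_filter.2 ⟨Finset.mem_univ _, h1⟩)
  have hND : Nat.card (Subgroup.normalizer (cg g₀ D : Set A)) =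
      Nat.card (Subgroup.normalizer (D : Set A)) := by
    rw [← cg_normalizer, card_cg]
  rw [hsum, hcardO, hT0, ← mul_assoc, ← mul_assoc, mul_comm (Nat.card (Subgroup.normalizer _)),
    ← hND, hcount, hN0, inf_comm U]
  ring

end

end Pool.Agent.Lib.P0c8ca5.Kk
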