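import Mathlib
import Pool.Agent.Lib.P0c8ca5V.ChOrb

/-!
# Kk.Ko: sums of invariant functions over an invariant set of chains
-/

set_option autoImplicit false
set_option linter.unusedSectionVars false

namespace Pool.Agent.Lib.P0c8ca5.Kk

open Pool.Agent.Lib.P0c8ca5.ChOrbAux

open Classical in
theorem ch_orb_dvd {p : ℕ} {A : Type*} [Group A] [Fintype A] [Fintype (Finset (Subgroup A))]
    {P : Finset (Subgroup A) → Prop} (hP : ∀ τ, P τ → IsCh p τ)
    (hPc : ∀ (g : A) τ, P τ → P (cgS g τ)) {x : Finset (Subgroup A) → ℤ}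
    (hx : ∀ (g : A) τ, P τ → x (cgS g τ) = x τ) {q : ℤ} (hq : ∀ τ, P τ → q ∣ x τ) :
    (Nat.card A : ℤ) * q ∣ ∑ τ ∈ (Finset.univ : Finset (Finset (Subgroup A))).filter P,
      (Nat.card (sN τ) : ℤ) * x τ := by
  have hiff : ∀ (g : A) τ, P (cgS g τ) ↔ P τ := by
    intro g τ
    constructor
    · intro h
      have h1 := hPc g⁻¹ _ h
      rwa [cgS_cgS, inv_mul_cancel, cgS_one] at h1
    · exact hPc g τ
  let _ := actS (A := A)
  rw [mul_comm, Finset.sum_filter]
  refine orb_dvd (T := A) (fun τ : Finset (Subgroup A) =>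
    if P τ then (Nat.card (sN τ) : ℤ) * x τ else 0) (fun t τ => ?_) q fun τ => ?_
  · have e : t • τ = cgS t τ := rfl
    by_cases hτ : P τ
    · simp only [e, hiff, if_pos hτ, sN_cgS, card_cg, hx t τ hτ]
    · simp only [e, hiff, if_neg hτ]
  · by_cases hτ : P τ
    · simp only [if_pos hτ]
      have e : MulAction.stabilizer A τ = sN τ := by
        ext g
        rw [MulAction.mem_stabilizer_iff]
        exact cgS_eq_iff (hP τ hτ) g
      rw [e, mul_comm]
      exact mul_dvd_mul_left _ (hq τ hτ)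
    · simp only [if_neg hτ]
      exact dvd_zero _

end Pool.Agent.Lib.P0c8ca5.Kk
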