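import Mathlib
import Pool.Agent.Lib.P0c8ca5Kk.Kyg
import Pool.Agent.Lib.P0c8ca5Ku.KZ

/-!
# Kk.Kyh: Navarro's equality if `Z(P) ∩ G` is large

`G` is normal in `A`, `X` between `G` and `A`, `X / G` a p-group, `e` a block of `G` which is invariant under `X`, `P` a
defect group of `e` as a block of `X`, `P ∩ G` is abelian of rank at most `r`, `Z(P) ∩ G` has rank at most `s` and its
elements of order `p` are `p ^ n`-th powers in it: Navarro's equality holds for `(G, X, e)` if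
`n ≥ (r - 2) s (s - 1) / 2 + 3` and `n ≥ s (s + 1) / 2` (`nav_zs`).
-/

set_option autoImplicit false
set_option linter.unusedSectionVars false

namespace Pool.Agent.Lib.P0c8ca5.Kk

open MonoidAlgebra Ex Rk KgAux KxAux KxbAux KybAux FinAux

universe u v

section
variable {p : ℕ} {k : Type v} [Field k] {A : Type u} [Group A] [Fintype A]
variable [Fact p.Prime] [CharP k p] [IsAlgClosed k]
variable {e : MonoidAlgebra k A} {G X : Subgroup A}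

/-- **Navarro's equality if `Z(P) ∩ G` is large** -/
theorem nav_zs (hp2 : p ≠ 2) (hG : G.Normal) (hGX : G ≤ X) (hp : ∀ x ∈ X, ∃ n : ℕ, x ^ p ^ n ∈ G)
    (he : IsBlock G e) (hinv : InvBy X e) {P : Subgroup A} (hP : IsDefectGroup p X e P)
    (hcom : ∀ x ∈ P ⊓ G, ∀ y ∈ P ⊓ G, x * y = y * x) {r s n : ℕ}
    (hr : Nat.card {z : A // z ∈ P ⊓ G ∧ z ^ p = 1} ≤ p ^ r)
    (hs : Nat.card {z : A // z ∈ P ⊓ G ⊓ CD P ∧ z ^ p = 1} ≤ p ^ s)
    (hZ : ∀ z ∈ P ⊓ G ⊓ CD P, z ^ p = 1 → ∃ y ∈ P ⊓ G ⊓ CD P, y ^ p ^ n = z)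
    (hn : (r - 2) * (s * (s - 1) / 2) + 3 ≤ n) (hn' : s * (s + 1) / 2 ≤ n) :
    NavarroEq p G X e := by
  refine nav_centX hG hGX hp he hinv hP hcom
    (fun {B} [Group B] (D Z : Subgroup B) => Nat.card {z : B // z ∈ D ∧ z ^ p = 1} ≤ p ^ r ∧
      Nat.card {z : B // z ∈ Z ∧ z ^ p = 1} ≤ p ^ s ∧
      ∀ z ∈ Z, z ^ p = 1 → ∃ y ∈ Z, y ^ p ^ n = z) ?_
    (fun {B} _ _ {b f D Z} h hc hΦ => Ku.gap_cen hp2 h hc.le hc.inv hΦ.1 hΦ.2.1 hΦ.2.2 hn hn'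
      hc.faith fun x hx hx1 => by
        obtain ⟨z, hz, -, h1, h2⟩ := hc.stab x hx hx1
        exact ⟨z, hz, h1, h2⟩)
  rintro D Z ⟨h, hh⟩ ⟨g, rfl⟩ hZD H hDH
  have hpowc : ∀ (g x : A) (m : ℕ), (g⁻¹ * x * g) ^ m = g⁻¹ * x ^ m * g := by
    intro g x m
    have h1 := conj_pow (a := g⁻¹) (b := x) (i := m)
    rwa [inv_inv] at h1
  refine ⟨?_, ?_, ?_⟩
  · refine le_trans (Nat.card_le_card_of_injective
      (fun x => (⟨h⁻¹ * (x.1 : A) * h, mem_cg.1 (hh (Subgroup.mem_subgroupOf.1 x.2.1)), by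
        have h1 : ((x.1 : ↥H) : A) ^ p = 1 := congrArg Subtype.val x.2.2
        rw [hpowc, h1]
        group⟩ : {z : A // z ∈ P ⊓ G ∧ z ^ p = 1})) ?_) hr
    intro x y hxy
    have h4 : h⁻¹ * ((x.1 : ↥H) : A) * h = h⁻¹ * ((y.1 : ↥H) : A) * h :=
      congrArg (fun z : {z : A // z ∈ P ⊓ G ∧ z ^ p = 1} => (z : A)) hxy
    exact Subtype.ext (Subtype.ext (mul_left_cancel (mul_right_cancel h4)))
  · refine le_trans (Nat.card_le_card_of_injective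
      (fun x => (⟨g⁻¹ * (x.1 : A) * g, mem_cg.1 (Subgroup.mem_subgroupOf.1 x.2.1), by
        have h1 : ((x.1 : ↥H) : A) ^ p = 1 := congrArg Subtype.val x.2.2
        rw [hpowc, h1]
        group⟩ : {z : A // z ∈ P ⊓ G ⊓ CD P ∧ z ^ p = 1})) ?_) hs
    intro x y hxy
    have h4 : g⁻¹ * ((x.1 : ↥H) : A) * g = g⁻¹ * ((y.1 : ↥H) : A) * g :=
      congrArg (fun z : {z : A // z ∈ P ⊓ G ⊓ CD P ∧ z ^ p = 1} => (z : A)) hxy
    exact Subtype.ext (Subtype.ext (mul_left_cancel (mul_right_cancel h4)))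
  · intro z hz hzp
    rw [Subgroup.mem_subgroupOf, mem_cg] at hz
    have hzp' : (z : A) ^ p = 1 := congrArg Subtype.val hzp
    obtain ⟨y, hy, hyz⟩ := hZ _ hz (by rw [hpowc, hzp']; group)
    have hy' : g * y * g⁻¹ ∈ cg g (P ⊓ G ⊓ CD P) := by
      rw [mem_cg]
      have h1 : g⁻¹ * (g * y * g⁻¹) * g = y := by group
      rwa [h1]
    refine ⟨⟨g * y * g⁻¹, hDH (hZD hy')⟩, Subgroup.mem_subgroupOf.2 hy', Subtype.ext ?_⟩
    rw [SubmonoidClass.coe_pow]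
    change (g * y * g⁻¹) ^ p ^ n = z
    rw [conj_pow, hyz]
    group

end

end Pool.Agent.Lib.P0c8ca5.Kk
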