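import Mathlib
import Pool.Agent.Lib.P0c8ca5Kk.Kz
import Pool.Agent.Lib.P0c8ca5Kc.RM

/-!
# Kk.Kzb: Navarro's equality for abelian groups `P ∩ G` of rank two, not homocyclic

`G` is normal in `A`, `A / G` a p-group, `e` a block of `G` which is invariant under `A`, `P` a defect group of `e` as
a block of `A`, `D = P ∩ G` is abelian of rank at most two, `y ∈ D` commutes with `P`, `y ^ p ^ a ≠ 1`,
`|D| ≤ p ^ (2 a + 1)`. Then Navarro's equality holds for all pairs above `G` (`nav_r2`).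
-/

set_option autoImplicit false
set_option linter.unusedSectionVars false

namespace Pool.Agent.Lib.P0c8ca5.Kk

open MonoidAlgebra Ex Rk KgAux KxAux KxbAux KybAux

universe u v

section
variable {p : ℕ} {k : Type v} [Field k] {A : Type u} [Group A] [Fintype A]
variable [Fact p.Prime] [CharP k p] [IsAlgClosed k]
variable {e : MonoidAlgebra k A} {G : Subgroup A}

/-- **Navarro's equality for all pairs above `G`, rank two, not homocyclic** -/
theorem nav_r2 (hp2 : p ≠ 2) (hG : G.Normal) (hp : ∀ x : A, ∃ n : ℕ, x ^ p ^ n ∈ G)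
    (he : IsBlock G e) (hinv : InvBy ⊤ e) {P : Subgroup A}
    (hP : IsDefectGroup p (⊤ : Subgroup A) e P)
    (hcom : ∀ x ∈ P ⊓ G, ∀ y ∈ P ⊓ G, x * y = y * x)
    (hr : Nat.card {x : A // x ∈ P ⊓ G ∧ x ^ p = 1} ≤ p ^ 2) {a : ℕ}
    {y : A} (hy : y ∈ P ⊓ G) (hyC : y ∈ CD P) (hya : y ^ p ^ a ≠ 1)
    (hc : Nat.card ↥(P ⊓ G) ≤ p ^ (2 * a + 1))
    (h5 : p < 5 → ∀ x ∈ P ⊓ G, x ^ p = 1 → ∃ z ∈ P ⊓ G, z ∈ CD P ∧ x = z ^ p) :
    ∀ N H : Subgroup A, G ≤ N → N ≤ H → H ≤ Subgroup.normalizer (N : Set A) →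
      NavarroEq p N H e := by
  classical
  refine nav_mid_root hG hp he hinv hP hcom
    (fun {B} [Group B] (D : Subgroup B) => Nat.card {x : B // x ∈ D ∧ x ^ p = 1} ≤ p ^ 2 ∧
      (∃ y ∈ D, y ^ p ^ a ≠ 1) ∧ Nat.card D ≤ p ^ (2 * a + 1) ∧
      (p < 5 → ∀ x ∈ D, x ^ p = 1 → ∃ y ∈ D, x = y ^ p)) ?_
    (fun {B} _ _ {b f D} h hD => Kc.gap_zero_r2 hp2 ⟨h, hD.1, hD.2.1, hD.2.2.1, hD.2.2.2⟩)
  rintro D ⟨g, hg⟩ ⟨g', hg'⟩ H hDH
  have hpowc : ∀ (g x : A) (m : ℕ), (g⁻¹ * x * g) ^ m = g⁻¹ * x ^ m * g := by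
    intro g x m
    have h1 := conj_pow (a := g⁻¹) (b := x) (i := m)
    rwa [inv_inv] at h1
  -- elements of the centre
  have htr : ∀ z ∈ P ⊓ G, z ∈ CD P → g * z * g⁻¹ ∈ D := by
    intro z hz hzC
    apply hg
    rw [mem_cg]
    have h2 : g⁻¹ * (g * z * g⁻¹) * g = z := by group
    rw [h2]
    exact Subgroup.mem_inf.2 ⟨hz, hzC⟩
  refine ⟨?_, ?_, ?_, ?_⟩
  · refine le_trans (Nat.card_le_card_of_injective
      (fun x => (⟨g'⁻¹ * (x.1 : A) * g', mem_cg.1 (hg' (Subgroup.mem_subgroupOf.1 x.2.1)), by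
        have h1 : ((x.1 : ↥H) : A) ^ p = 1 := congrArg Subtype.val x.2.2
        rw [hpowc, h1]
        group⟩ : {x : A // x ∈ P ⊓ G ∧ x ^ p = 1})) ?_) hr
    intro x z hxz
    have h4 : g'⁻¹ * ((x.1 : ↥H) : A) * g' = g'⁻¹ * ((z.1 : ↥H) : A) * g' :=
      congrArg (fun z : {x : A // x ∈ P ⊓ G ∧ x ^ p = 1} => (z : A)) hxz
    exact Subtype.ext (Subtype.ext (mul_left_cancel (mul_right_cancel h4)))
  · have h1 : g * y * g⁻¹ ∈ D := htr y hy hyC
    refine ⟨⟨g * y * g⁻¹, hDH h1⟩, Subgroup.mem_subgroupOf.2 h1, fun h3 => hya ?_⟩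
    have h4 : (g * y * g⁻¹) ^ p ^ a = 1 := congrArg Subtype.val h3
    rw [conj_pow] at h4
    calc y ^ p ^ a = g⁻¹ * (g * y ^ p ^ a * g⁻¹) * g := by group
      _ = 1 := by rw [h4]; group
  · have h1 : Nat.card ↥(D.subgroupOf H) = Nat.card ↥D :=
      Nat.card_congr (Subgroup.subgroupOfEquivOfLe hDH).toEquiv
    rw [h1]
    refine le_trans (Subgroup.card_le_of_le hg') ?_
    rw [card_cg]
    exact hc
  · intro hp5 x hx hxp
    have hxD : (x : A) ∈ D := Subgroup.mem_subgroupOf.1 hx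
    have hxp' : (x : A) ^ p = 1 := congrArg Subtype.val hxp
    -- `x` is in the conjugate of `D` by `g'`; its image in `P ∩ G`
    have h6 : P ⊓ G ⊓ CD P ≤ cg g⁻¹ D := by
      intro z hz
      rw [mem_cg, inv_inv]
      exact htr z (Subgroup.mem_inf.1 hz).1 (Subgroup.mem_inf.1 hz).2
    -- the elements of order dividing `p` of `P ∩ G` are in `cg g⁻¹ D`
    have h7 : ∀ z : {x : A // x ∈ P ⊓ G ∧ x ^ p = 1}, g * (z : A) * g⁻¹ ∈ D := by
      intro z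
      obtain ⟨w, hw, hwC, hzw⟩ := h5 hp5 _ z.2.1 z.2.2
      have h8 : (z : A) ∈ CD P := by
        rw [hzw]
        exact (CD P).pow_mem hwC p
      exact htr _ z.2.1 h8
    -- the map is bijective
    let φ : {x : A // x ∈ P ⊓ G ∧ x ^ p = 1} → {x : A // x ∈ P ⊓ G ∧ x ^ p = 1} := fun z =>
      ⟨g'⁻¹ * (g * (z : A) * g⁻¹) * g', mem_cg.1 (hg' (h7 z)), by
        rw [hpowc, conj_pow, z.2.2]
        group⟩
    have hφi : Function.Injective φ := by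
      intro z w hzw
      have h4 : g'⁻¹ * (g * (z : A) * g⁻¹) * g' = g'⁻¹ * (g * (w : A) * g⁻¹) * g' :=
        congrArg (fun z : {x : A // x ∈ P ⊓ G ∧ x ^ p = 1} => (z : A)) hzw
      exact Subtype.ext (mul_left_cancel (mul_right_cancel (mul_left_cancel (mul_right_cancel h4))))
    have hφs : Function.Surjective φ := Finite.surjective_of_injective hφi
    obtain ⟨z, hz⟩ := hφs ⟨g'⁻¹ * (x : A) * g', mem_cg.1 (hg' hxD), by
      rw [hpowc, hxp']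
      group⟩
    have hz' : g'⁻¹ * (g * (z : A) * g⁻¹) * g' = g'⁻¹ * (x : A) * g' :=
      congrArg (fun z : {x : A // x ∈ P ⊓ G ∧ x ^ p = 1} => (z : A)) hz
    have hzx : g * (z : A) * g⁻¹ = x := mul_left_cancel (mul_right_cancel hz')
    obtain ⟨w, hw, hwC, hzw⟩ := h5 hp5 _ z.2.1 z.2.2
    have hwD := htr w hw hwC
    refine ⟨⟨g * w * g⁻¹, hDH hwD⟩, Subgroup.mem_subgroupOf.2 hwD, ?_⟩
    apply Subtype.ext
    rw [Subgroup.coe_pow]
    rw [conj_pow, ← hzw, hzx]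

end

end Pool.Agent.Lib.P0c8ca5.Kk
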