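import Mathlib
import Pool.Agent.Lib.P0c8ca5Kk.Kzb
import Pool.Agent.Lib.P0c8ca5Ex.ZM

/-!
# Kk.Kzh: Navarro's equality for abelian groups `P ∩ G` of rank two

`G` is normal in `A`, `A / G` a p-group, `e` a block of `G` which is invariant under `A`, `P` a defect group of `e` as
a block of `A`, `D = P ∩ G` is abelian of rank at most two.

* `nav_cls`: if `y ∈ D` commutes with `P` and `y ^ p ^ a ≠ 1`, `|D| ≤ p ^ c`, and the weight conjecture holds for the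
  abelian defect groups of rank at most two and order at most `p ^ c` with an element of order greater than `p ^ a`,
  then Navarro's equality holds for all pairs above `G`.
* `gap_zero_rk2_aux`: the weight conjecture for these defect groups if `c = 2 a + 2` and `a ≥ 1`, from the case of
  the product of two cyclic groups of order `p ^ 2`.
-/

set_option autoImplicit false
set_option linter.unusedSectionVars false

namespace Pool.Agent.Lib.P0c8ca5.Kk

open MonoidAlgebra Ex Rk KgAux KxAux KxbAux KybAux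

universe u v

/-- the elements of order `p` of a homocyclic group of rank two -/
theorem omega_big {p : ℕ} (hp : p.Prime) {T : Type*} [CommGroup T] [Finite T]
    (hr : Nat.card {x : T // x ^ p = 1} ≤ p ^ 2) {a : ℕ} (hc : p ^ (2 * a + 2) ≤ Nat.card T)
    (hexp : ∀ u : T, u ^ p ^ (a + 1) = 1) : ∀ w : T, w ^ p = 1 → ∃ y : T, w = y ^ p ^ a := by
  intro w hw
  have h1 := Ku.card_ker_mul_range (powMonoidHom (p ^ a) : T →* T)
  have h2 : Nat.card (powMonoidHom (p ^ a) : T →* T).ker ≤ p ^ (2 * a) := Ku.card_ker_pow hr a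
  have h3 : (powMonoidHom (p ^ a) : T →* T).range ≤ (powMonoidHom p : T →* T).ker := by
    rintro _ ⟨u, rfl⟩
    rw [MonoidHom.mem_ker]
    change (u ^ p ^ a) ^ p = 1
    rw [← pow_mul, ← pow_succ]
    exact hexp u
  have h3' : Nat.card (powMonoidHom p : T →* T).ker ≤ p ^ 2 := by
    refine le_trans (Nat.card_le_card_of_injective (fun x => (⟨x.1, x.2⟩ : {x : T // x ^ p = 1}))
      fun x y hxy => Subtype.ext (congrArg (fun z : {x : T // x ^ p = 1} => z.1) hxy)) hr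
  have h4 : (powMonoidHom (p ^ a) : T →* T).range = (powMonoidHom p : T →* T).ker := by
    refine Subgroup.eq_of_le_of_card_ge h3 (h3'.trans ?_)
    have h5 : p ^ (2 * a + 2) = p ^ (2 * a) * p ^ 2 := pow_add _ _ _
    have h6 : 0 < p ^ (2 * a) := pow_pos hp.pos _
    refine Nat.le_of_mul_le_mul_left ?_ h6
    rw [← h5]
    refine hc.trans ?_
    rw [← h1]
    exact Nat.mul_le_mul_right _ h2
  have h5 : w ∈ (powMonoidHom (p ^ a) : T →* T).range := by
    rw [h4, MonoidHom.mem_ker]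
    exact hw
  obtain ⟨y, hy⟩ := h5
  exact ⟨y, hy.symm⟩

section
variable {p : ℕ} {k : Type v} [Field k] {A : Type u} [Group A] [Fintype A]
variable [Fact p.Prime] [CharP k p] [IsAlgClosed k]
variable {b e f : MonoidAlgebra k A} {G D : Subgroup A}

/-- the weight conjecture for abelian defect groups of rank two -/
theorem gap_zero_rk2_aux (hp2 : p ≠ 2) (h : Root p b D f)
    (hcp : Nat.card ↥D = p ^ 4 → (∀ x ∈ D, x ^ p ^ 2 = 1) → gap p (⊤ : Subgroup A) ⊤ b = 0)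
    (hr : Nat.card {x : A // x ∈ D ∧ x ^ p = 1} ≤ p ^ 2) {a : ℕ} (ha : 1 ≤ a)
    (hy : ∃ y ∈ D, y ^ p ^ a ≠ 1) (hc : Nat.card ↥D ≤ p ^ (2 * a + 2))
    (h5 : p < 5 → ∀ x ∈ D, x ^ p = 1 → ∃ y ∈ D, x = y ^ p) :
    gap p (⊤ : Subgroup A) ⊤ b = 0 := by
  have hp : p.Prime := Fact.out
  by_cases h1 : Nat.card ↥D ≤ p ^ (2 * a + 1)
  · exact Kc.gap_zero_r2 hp2 ⟨h, hr, hy, h1, h5⟩
  by_cases h2 : ∃ y ∈ D, y ^ p ^ (a + 1) ≠ 1
  · exact Kc.gap_zero_r2 hp2 (a := a + 1)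
      ⟨h, hr, h2, hc.trans (Nat.pow_le_pow_right hp.pos (by omega)), h5⟩
  push Not at h1 h2
  -- the order of `D`
  obtain ⟨i₀, hi⟩ := exists_src h
  obtain ⟨M, hM⟩ := pow_one_of hi
  let _ : CommGroup ↥D := cgrp D h.com
  have hT : IsPGroup p ↥D := fun u => ⟨M, Subtype.ext (hM u u.2)⟩
  obtain ⟨m, hm⟩ := IsPGroup.iff_card.1 hT
  have hm1 : m = 2 * a + 2 := by
    have h3 : 2 * a + 1 < m := by
      rw [hm] at h1
      exact (Nat.pow_lt_pow_iff_right hp.one_lt).1 h1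
    have h4 : m ≤ 2 * a + 2 := by
      rw [hm] at hc
      exact (Nat.pow_le_pow_iff_right hp.one_lt).1 hc
    omega
  rcases Nat.lt_or_ge a 2 with ha2 | ha2
  · have ha1 : a = 1 := by omega
    subst ha1
    exact hcp (by rw [hm, hm1]) h2
  -- the elements of order `p`
  refine (k2_two hp2 h hr (Ku.faith_of_big h fun x hx hxp => ?_)).1
  have hrT : Nat.card {x : ↥D // x ^ p = 1} ≤ p ^ 2 := by
    refine le_trans (Nat.card_le_card_of_injective (fun x : {x : ↥D // x ^ p = 1} =>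
      (⟨(x.1 : A), x.1.2, congrArg Subtype.val x.2⟩ : {x : A // x ∈ D ∧ x ^ p = 1})) ?_) hr
    intro x z hxz
    exact Subtype.ext (Subtype.ext
      (congrArg (fun z : {x : A // x ∈ D ∧ x ^ p = 1} => (z : A)) hxz))
  obtain ⟨y, hy⟩ := omega_big (T := ↥D) hp hrT (a := a) (by rw [hm, hm1])
    (fun u => Subtype.ext (h2 u u.2)) ⟨x, hx⟩ (Subtype.ext hxp)
  refine ⟨(y : A) ^ p ^ (a - 2), D.pow_mem y.2 _, ?_⟩
  have h3 : x = (y : A) ^ p ^ a := congrArg Subtype.val hy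
  rw [h3, ← pow_mul, ← pow_add]
  congr 2
  omega

/-- **Navarro's equality for all pairs above `G`, a class of groups of rank two** -/
theorem nav_cls (hG : G.Normal) (hp : ∀ x : A, ∃ n : ℕ, x ^ p ^ n ∈ G)
    (he : IsBlock G e) (hinv : InvBy ⊤ e) {P : Subgroup A}
    (hP : IsDefectGroup p (⊤ : Subgroup A) e P)
    (hcom : ∀ x ∈ P ⊓ G, ∀ y ∈ P ⊓ G, x * y = y * x)
    (hr : Nat.card {x : A // x ∈ P ⊓ G ∧ x ^ p = 1} ≤ p ^ 2) {a c : ℕ}
    {y : A} (hy : y ∈ P ⊓ G) (hyC : y ∈ CD P) (hya : y ^ p ^ a ≠ 1)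
    (hc : Nat.card ↥(P ⊓ G) ≤ p ^ c)
    (h5 : p < 5 → ∀ x ∈ P ⊓ G, x ^ p = 1 → ∃ z ∈ P ⊓ G, z ∈ CD P ∧ x = z ^ p)
    (hgap : ∀ {B : Type u} [Group B] [Fintype B] {b f : MonoidAlgebra k B} {D : Subgroup B},
      Root p b D f → Nat.card {x : B // x ∈ D ∧ x ^ p = 1} ≤ p ^ 2 → (∃ y ∈ D, y ^ p ^ a ≠ 1) →
      Nat.card ↥D ≤ p ^ c → (p < 5 → ∀ x ∈ D, x ^ p = 1 → ∃ y ∈ D, x = y ^ p) →
      gap p (⊤ : Subgroup B) ⊤ b = 0) :
    ∀ N H : Subgroup A, G ≤ N → N ≤ H → H ≤ Subgroup.normalizer (N : Set A) →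
      NavarroEq p N H e := by
  classical
  refine nav_mid_root hG hp he hinv hP hcom
    (fun {B} [Group B] (D : Subgroup B) => Nat.card {x : B // x ∈ D ∧ x ^ p = 1} ≤ p ^ 2 ∧
      (∃ y ∈ D, y ^ p ^ a ≠ 1) ∧ Nat.card D ≤ p ^ c ∧
      (p < 5 → ∀ x ∈ D, x ^ p = 1 → ∃ y ∈ D, x = y ^ p)) ?_
    (fun {B} _ _ {b f D} h hD => hgap h hD.1 hD.2.1 hD.2.2.1 hD.2.2.2)
  rintro D ⟨g, hg⟩ ⟨g', hg'⟩ H hDH
  have hpowc : ∀ (g x : A) (m : ℕ), (g⁻¹ * x * g) ^ m = g⁻¹ * x ^ m * g := by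
    intro g x m
    have h1 := conj_pow (a := g⁻¹) (b := x) (i := m)
    rwa [inv_inv] at h1
  -- elements of the centre
  have htr : ∀ z ∈ P ⊓ G, z ∈ CD P → g * z * g⁻¹ ∈ D := by
    intro z hz hzC
    apply hg
    rw [mem_cg]
    have h2 : g⁻¹ * (g * z * g⁻¹) * g = z := by group
    rw [h2]
    exact Subgroup.mem_inf.2 ⟨hz, hzC⟩
  refine ⟨?_, ?_, ?_, ?_⟩
  · refine le_trans (Nat.card_le_card_of_injective
      (fun x => (⟨g'⁻¹ * (x.1 : A) * g', mem_cg.1 (hg' (Subgroup.mem_subgroupOf.1 x.2.1)), by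
        have h1 : ((x.1 : ↥H) : A) ^ p = 1 := congrArg Subtype.val x.2.2
        rw [hpowc, h1]
        group⟩ : {x : A // x ∈ P ⊓ G ∧ x ^ p = 1})) ?_) hr
    intro x z hxz
    have h4 : g'⁻¹ * ((x.1 : ↥H) : A) * g' = g'⁻¹ * ((z.1 : ↥H) : A) * g' :=
      congrArg (fun z : {x : A // x ∈ P ⊓ G ∧ x ^ p = 1} => (z : A)) hxz
    exact Subtype.ext (Subtype.ext (mul_left_cancel (mul_right_cancel h4)))
  · have h1 : g * y * g⁻¹ ∈ D := htr y hy hyC
    refine ⟨⟨g * y * g⁻¹, hDH h1⟩, Subgroup.mem_subgroupOf.2 h1, fun h3 => hya ?_⟩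
    have h4 : (g * y * g⁻¹) ^ p ^ a = 1 := congrArg Subtype.val h3
    rw [conj_pow] at h4
    calc y ^ p ^ a = g⁻¹ * (g * y ^ p ^ a * g⁻¹) * g := by group
      _ = 1 := by rw [h4]; group
  · have h1 : Nat.card ↥(D.subgroupOf H) = Nat.card ↥D :=
      Nat.card_congr (Subgroup.subgroupOfEquivOfLe hDH).toEquiv
    rw [h1]
    refine le_trans (Subgroup.card_le_of_le hg') ?_
    rw [card_cg]
    exact hc
  · intro hp5 x hx hxp
    have hxD : (x : A) ∈ D := Subgroup.mem_subgroupOf.1 hx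
    have hxp' : (x : A) ^ p = 1 := congrArg Subtype.val hxp
    -- `x` is in the conjugate of `D` by `g'`; its image in `P ∩ G`
    -- the elements of order dividing `p` of `P ∩ G` are in `cg g⁻¹ D`
    have h7 : ∀ z : {x : A // x ∈ P ⊓ G ∧ x ^ p = 1}, g * (z : A) * g⁻¹ ∈ D := by
      intro z
      obtain ⟨w, hw, hwC, hzw⟩ := h5 hp5 _ z.2.1 z.2.2
      have h8 : (z : A) ∈ CD P := by
        rw [hzw]
        exact (CD P).pow_mem hwC p
      exact htr _ z.2.1 h8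
    -- the map is bijective
    let φ : {x : A // x ∈ P ⊓ G ∧ x ^ p = 1} → {x : A // x ∈ P ⊓ G ∧ x ^ p = 1} := fun z =>
      ⟨g'⁻¹ * (g * (z : A) * g⁻¹) * g', mem_cg.1 (hg' (h7 z)), by
        rw [hpowc, conj_pow, z.2.2]
        group⟩
    have hφi : Function.Injective φ := by
      intro z w hzw
      have h4 : g'⁻¹ * (g * (z : A) * g⁻¹) * g' = g'⁻¹ * (g * (w : A) * g⁻¹) * g' :=
        congrArg (fun z : {x : A // x ∈ P ⊓ G ∧ x ^ p = 1} => (z : A)) hzw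
      exact Subtype.ext (mul_left_cancel (mul_right_cancel (mul_left_cancel (mul_right_cancel h4))))
    have hφs : Function.Surjective φ := Finite.surjective_of_injective hφi
    obtain ⟨z, hz⟩ := hφs ⟨g'⁻¹ * (x : A) * g', mem_cg.1 (hg' hxD), by
      rw [hpowc, hxp']
      group⟩
    have hz' : g'⁻¹ * (g * (z : A) * g⁻¹) * g' = g'⁻¹ * (x : A) * g' :=
      congrArg (fun z : {x : A // x ∈ P ⊓ G ∧ x ^ p = 1} => (z : A)) hz
    have hzx : g * (z : A) * g⁻¹ = x := mul_left_cancel (mul_right_cancel hz')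
    obtain ⟨w, hw, hwC, hzw⟩ := h5 hp5 _ z.2.1 z.2.2
    have hwD := htr w hw hwC
    refine ⟨⟨g * w * g⁻¹, hDH hwD⟩, Subgroup.mem_subgroupOf.2 hwD, ?_⟩
    apply Subtype.ext
    rw [Subgroup.coe_pow]
    rw [conj_pow, ← hzw, hzx]

end

end Pool.Agent.Lib.P0c8ca5.Kk
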