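import Mathlib
import Pool.Agent.Lib.P0c8ca5Kk.Kzg

/-!
# Kk.Kzi: Navarro's equality for `(G, X, e)`, cyclic stabilizers

`nav_cyceX`: Theorem E (`Kk.nav_cyce`) for `(G, X, e)`, `G ≤ X ≤ A`, with the data of the block `e` of `X`.

`mem_PC_dn`, `mem_St_dn`, `mem_Z_dn`: the groups of the theorem in `X`.
-/

set_option autoImplicit false
set_option linter.unusedSectionVars false

namespace Pool.Agent.Lib.P0c8ca5.Kk

open MonoidAlgebra Ex Rk KgAux KxAux KxaAux KxbAux KybAux FinAux KzgAux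

universe u v

section
variable {p : ℕ} {k : Type v} [Field k] {A : Type u} [Group A]
variable {e f : MonoidAlgebra k A} {G X P : Subgroup A}

theorem mem_PC_dn (hPX : P ≤ X) (x : ↥X) :
    x ∈ P.subgroupOf X ⊔ CD (P.subgroupOf X) ↔ (x : A) ∈ P ⊔ X ⊓ CD P := by
  rw [CD_subgroupOf hPX, ← Subgroup.subgroupOf_sup hPX inf_le_left, Subgroup.mem_subgroupOf]

theorem mem_St_dn (hPX : P ≤ X) (hf : IsBlock (X ⊓ CD P) f) (x : ↥X) :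
    x ∈ St (P.subgroupOf X) (dn X f) ↔ (x : A) ∈ X ⊓ St P f := by
  have hfs : SuppIn X f := fun x hx => ((mem_fixAlg.1 hf.mem).1 x hx).1
  rw [St_subgroupOf hPX hfs, Subgroup.mem_subgroupOf]

theorem mem_Z_dn (hPX : P ≤ X) (x : ↥X) :
    x ∈ P.subgroupOf X ⊓ G.subgroupOf X ⊓ CD (P.subgroupOf X) ↔
      (x : A) ∈ P ⊓ G ⊓ CD P := by
  rw [CD_subgroupOf hPX]
  simp only [Subgroup.mem_inf, Subgroup.mem_subgroupOf]
  exact ⟨fun h => ⟨h.1, h.2.2⟩, fun h => ⟨h.1, x.2, h.2⟩⟩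

end

section
variable {p : ℕ} {k : Type v} [Field k] {A : Type u} [Group A] [Fintype A]
variable [Fact p.Prime] [CharP k p] [IsAlgClosed k]
variable {e f : MonoidAlgebra k A} {G X P : Subgroup A}

/-- **Theorem E for `(G, X, e)`** -/
theorem nav_cyceX (hp2 : p ≠ 2) (hGX : G ≤ X) (hX : X ≤ Subgroup.normalizer (G : Set A))
    (hp : ∀ x ∈ X, ∃ n : ℕ, x ^ p ^ n ∈ G)
    (he : IsBlock G e) (hinv : InvBy X e) (hP : IsDefectGroup p X e P)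
    (hcom : ∀ x ∈ P ⊓ G, ∀ y ∈ P ⊓ G, x * y = y * x)
    (hf : IsBlock (X ⊓ CD P) f) (hef : resS (CD P : Set A) e * f = f) {n : ℕ} (hn : 1 ≤ n)
    (hE : (P ⊔ X ⊓ CD P).relIndex (X ⊓ St P f) < p ^ (n + 1))
    (hF : ∀ g ∈ X ⊓ St P f, (∀ y ∈ P ⊓ G ⊓ CD P, g * y ^ p ^ n = y ^ p ^ n * g) →
      g ∈ P ⊔ X ⊓ CD P)
    (hcyc : ∀ z ∈ P ⊓ G ⊓ CD P, z ^ p = 1 → z ≠ 1 → ∃ g₀ ∈ X ⊓ St P f, g₀ * z = z * g₀ ∧
      ∀ g ∈ X ⊓ St P f, g * z = z * g → ∃ j : ℕ, (g₀ ^ j)⁻¹ * g ∈ P ⊔ X ⊓ CD P) :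
    NavarroEq p G X e := by
  have : Fintype ↥X := Fintype.ofFinite _
  have hPX : P ≤ X := hP.le
  obtain ⟨h1, h2, h3, h4, h5, h6, h7⟩ := data_dn hGX hX he hP hcom hf hef
  refine nav_dn hGX hX hp he hinv ?_
  refine nav_cyce hp2 h1 (fun x => by
    obtain ⟨n, hn⟩ := hp x x.2
    exact ⟨n, Subgroup.mem_subgroupOf.2 hn⟩) h2 (fun g _ x => hinv g g.2 x) h3 h4 h5 h6 hn
    (by rw [h7]; exact hE) ?_ ?_
  · intro g hg hgy
    rw [mem_PC_dn hPX]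
    refine hF _ ((mem_St_dn hPX hf g).1 hg) fun y hy => ?_
    have hyX : y ∈ X := hPX (Subgroup.mem_inf.1 (Subgroup.mem_inf.1 hy).1).1
    exact congrArg Subtype.val (hgy ⟨y, hyX⟩ ((mem_Z_dn hPX _).2 hy))
  · intro z hz hzp hz1
    obtain ⟨g₀, hg₀, hg₀z, hg₀c⟩ := hcyc z ((mem_Z_dn hPX _).1 hz) (congrArg Subtype.val hzp)
      (fun h => hz1 (Subtype.ext h))
    refine ⟨⟨g₀, (Subgroup.mem_inf.1 hg₀).1⟩, (mem_St_dn hPX hf _).2 hg₀, Subtype.ext hg₀z,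
      fun g hg hgz => ?_⟩
    obtain ⟨j, hj⟩ := hg₀c g ((mem_St_dn hPX hf g).1 hg) (congrArg Subtype.val hgz)
    exact ⟨j, (mem_PC_dn hPX _).2 hj⟩

end

end Pool.Agent.Lib.P0c8ca5.Kk
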